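import Mathlib

/-!
# Common zeros of fewer polynomials than unknowns
-/

open MvPolynomial

namespace Pool.Agent.ZIso

/-- Over an algebraically closed field, fewer polynomials than unknowns which all vanish at the
origin have another common zero. -/
theorem exists_ne_zero {K : Type*} [Field K] [IsAlgClosed K] {ι κ : Type} [Fintype ι] [Fintype κ]
    (h : Fintype.card κ < Fintype.card ι) (f : κ → MvPolynomial ι K)
    (hf : ∀ i, eval (0 : ι → K) (f i) = 0) :
    ∃ x : ι → K, x ≠ 0 ∧ ∀ i, eval x (f i) = 0 := by
  classical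
  by_contra hcon
  push Not at hcon
  -- a maximal ideal of maximal height
  have hdim : ringKrullDim (MvPolynomial ι K) = (Fintype.card ι : WithBot ℕ∞) := by
    rw [MvPolynomial.ringKrullDim_of_isNoetherianRing, ringKrullDim_eq_zero_of_field, zero_add,
      Nat.card_eq_fintype_card]
  have : FiniteRingKrullDim (MvPolynomial ι K) := by
    rw [finiteRingKrullDim_iff_ne_bot_and_top, hdim]
    exact ⟨WithBot.natCast_ne_bot _, fun h => by
      have : ((Fintype.card ι : ℕ∞) : WithBot ℕ∞) = ((⊤ : ℕ∞) : WithBot ℕ∞) := h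
      exact ENat.natCast_ne_top _ (WithBot.coe_injective this)⟩
  obtain ⟨p, hp, hht⟩ := Ideal.exists_isMaximal_height (R := MvPolynomial ι K)
  obtain ⟨a, ha⟩ := MvPolynomial.isMaximal_iff_eq_vanishingIdeal_singleton.1 hp
  -- the translated polynomials
  set g : κ → MvPolynomial ι K := fun i => bind₁ (fun j => X j - C (a j)) (f i) with hg
  have hev : ∀ (x : ι → K) i, eval x (g i) = eval (x - a) (f i) := by
    intro x i
    simp only [hg]
    have h1 := eval₂Hom_bind₁ (RingHom.id K) x (fun j => X j - C (a j)) (f i)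
    change eval x _ = _ at h1
    rw [h1]
    change eval _ (f i) = _
    congr 2
    ext j
    simp
  have hle : Ideal.span (Set.range g) ≤ p := by
    rw [Ideal.span_le]
    rintro _ ⟨i, rfl⟩
    rw [ha, SetLike.mem_coe, MvPolynomial.mem_vanishingIdeal_singleton_iff]
    have h1 := hev a i
    rw [sub_self, hf] at h1
    rwa [aeval_eq_eval]
  have hmin : p ∈ (Ideal.span (Set.range g)).minimalPrimes := by
    refine ⟨⟨hp.isPrime, hle⟩, ?_⟩
    rintro q ⟨hq, hqg⟩ hqp
    have hz : zeroLocus K q = {a} := by
      apply Set.eq_singleton_iff_unique_mem.2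
      constructor
      · intro s hs
        have h1 := hqp hs
        rw [ha, MvPolynomial.mem_vanishingIdeal_singleton_iff] at h1
        exact h1
      · intro y hy
        by_contra hne
        obtain ⟨i, hi⟩ := hcon (y - a) (sub_ne_zero.2 hne)
        apply hi
        rw [← hev]
        have h1 := hy (g i) (hqg (Ideal.subset_span ⟨i, rfl⟩))
        rwa [aeval_eq_eval] at h1
    have h2 : vanishingIdeal K (zeroLocus K q) = q := MvPolynomial.IsPrime.vanishingIdeal_zeroLocus q
    rw [← h2, hz, ← ha]
  have h3 := Ideal.height_le_card_of_mem_minimalPrimes_span (Set.finite_range g) hmin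
  have h4 : (Set.range g).ncard ≤ Fintype.card κ := by
    rw [← Set.image_univ]
    refine (Set.ncard_image_le Set.finite_univ).trans ?_
    rw [Set.ncard_univ, Nat.card_eq_fintype_card]
  have h5 : (p.height : WithBot ℕ∞) ≤ ((Fintype.card κ : ℕ∞) : WithBot ℕ∞) :=
    WithBot.coe_le_coe.2 (h3.trans (by exact_mod_cast h4))
  rw [hht, hdim] at h5
  have h6 : ((Fintype.card ι : ℕ∞) : WithBot ℕ∞) ≤ ((Fintype.card κ : ℕ∞) : WithBot ℕ∞) := h5
  have h7 := WithBot.coe_le_coe.1 h6
  exact absurd (by exact_mod_cast h7) (not_le.2 h)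

end Pool.Agent.ZIso
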