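import Pool.Agent.ZIso.KillDef

/-!
# The second fundamental theorem of invariant theory for the symmetric group

Let `V` be a vector space of dimension `n`. An element `β` of the group algebra of the symmetric
group `S_r` which acts as zero on `V ^ ⊗ r` acts as zero in every representation in which the
antisymmetrisers of `n + 1` letters act as zero.
-/

open Finset

namespace Pool.Agent.ZIso

variable {K : Type*} [Field K] {T : Type*} [AddCommGroup T] [Module K T] {r n : ℕ}

open Classical in
/-- the length of the longest decreasing subsequence ending at `i` -/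
private noncomputable def len (τ : Equiv.Perm (Fin r)) (i : Fin r) : ℕ :=
  ((univ : Finset (Finset (Fin r))).filter fun S : Finset (Fin r) =>
    i ∈ S ∧ (∀ j ∈ S, j ≤ i) ∧ StrictAntiOn τ (S : Set (Fin r))).sup card

private theorem le_len {τ : Equiv.Perm (Fin r)} {i : Fin r} {S : Finset (Fin r)} (hi : i ∈ S)
    (hS : ∀ j ∈ S, j ≤ i) (hS' : StrictAntiOn τ (S : Set (Fin r))) : S.card ≤ len τ i := by
  classical
  unfold len
  refine Finset.le_sup (f := card) ?_
  simp only [mem_filter, mem_univ, true_and]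
  exact ⟨hi, hS, hS'⟩

private theorem exists_len (τ : Equiv.Perm (Fin r)) (i : Fin r) : ∃ S : Finset (Fin r), i ∈ S ∧
    (∀ j ∈ S, j ≤ i) ∧ StrictAntiOn τ (S : Set (Fin r)) ∧ S.card = len τ i := by
  classical
  have hne : ((univ : Finset (Finset (Fin r))).filter fun S : Finset (Fin r) =>
    i ∈ S ∧ (∀ j ∈ S, j ≤ i) ∧ StrictAntiOn τ (S : Set (Fin r))).Nonempty := by
    refine ⟨{i}, ?_⟩
    simp only [mem_filter, mem_univ, true_and, mem_singleton, forall_eq, le_refl, coe_singleton]
    exact Set.strictAntiOn_singleton _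
  obtain ⟨S, hS, hS'⟩ := Finset.exists_mem_eq_sup _ hne card
  simp only [mem_filter, mem_univ, true_and] at hS
  exact ⟨S, hS.1, hS.2.1, hS.2.2, hS'.symm⟩

private theorem len_pos (τ : Equiv.Perm (Fin r)) (i : Fin r) : 1 ≤ len τ i := by
  have := le_len (τ := τ) (i := i) (S := {i}) (mem_singleton_self i) (by simp)
    (by rw [coe_singleton]; exact Set.strictAntiOn_singleton _)
  simpa using this

private theorem len_lt {τ : Equiv.Perm (Fin r)} {i j : Fin r} (hij : i < j) (h : τ j < τ i) :
    len τ i < len τ j := by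
  obtain ⟨S, hi, hS, hS', hcard⟩ := exists_len τ i
  have hj : j ∉ S := fun hj => absurd (hS j hj) (not_le.2 hij)
  have := le_len (τ := τ) (i := j) (S := insert j S) (mem_insert_self j S) ?_ ?_
  · rw [card_insert_of_notMem hj, hcard] at this
    exact this
  · intro l hl
    rcases mem_insert.1 hl with rfl | hl
    · exact le_rfl
    · exact ((hS l hl).trans_lt hij).le
  · intro a ha b hb hab
    rw [coe_insert] at ha hb
    rcases ha with rfl | ha <;> rcases hb with rfl | hb
    · exact absurd hab (lt_irrefl _)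
    · exact absurd (hS b hb) (not_le.2 (hij.trans hab))
    · rcases (hS a ha).eq_or_lt with rfl | hai
      · exact h
      · exact h.trans (hS' ha hi hai)
    · exact hS' ha hb hab

private theorem len_le {τ : Equiv.Perm (Fin r)} (h : ∀ J : Finset (Fin r), J.card = n + 1 →
    ¬ StrictAntiOn τ (J : Set (Fin r))) (i : Fin r) : len τ i ≤ n := by
  obtain ⟨S, -, -, hS', hcard⟩ := exists_len τ i
  by_contra hlt
  rw [← hcard, not_le] at hlt
  obtain ⟨J, hJ, hJc⟩ := Finset.exists_subset_card_eq (Nat.succ_le_of_lt hlt)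
  exact h J hJc (hS'.mono (coe_subset.2 hJ))

/-- a good permutation has a colouring with `n` colours which determines it -/
private theorem exists_words {τ₀ : Equiv.Perm (Fin r)} (h : ∀ J : Finset (Fin r),
    J.card = n + 1 → ¬ StrictAntiOn τ₀ (J : Set (Fin r))) :
    ∃ w w' : Fin r → Fin n, w ∘ ⇑τ₀ = w' ∧
      ∀ τ : Equiv.Perm (Fin r), w ∘ ⇑τ = w' → toLex (⇑τ₀) ≤ toLex (⇑τ) := by
  have hc : ∀ i, len τ₀ i - 1 < n := by
    intro i
    have h1 := len_le h i
    have h2 := len_pos τ₀ i
    omega
  set c : Fin r → Fin n := fun i => ⟨len τ₀ i - 1, hc i⟩ with hcdef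
  have hcol : ∀ i j, c i = c j → i < j → τ₀ i < τ₀ j := by
    intro i j hij hlt
    by_contra hcon
    have h1 : τ₀ j < τ₀ i := lt_of_le_of_ne (not_lt.1 hcon) fun h => hlt.ne' (τ₀.injective h)
    have h2 := len_lt hlt h1
    have h3 : len τ₀ i - 1 = len τ₀ j - 1 := by
      have := congrArg Fin.val hij
      simpa [hcdef] using this
    have h4 := len_pos τ₀ i
    have h5 := len_pos τ₀ j
    omega
  refine ⟨c ∘ ⇑τ₀⁻¹, c, ?_, ?_⟩
  · funext i
    simp
  · intro τ hτ
    by_contra hcon
    obtain ⟨i, hi, hi'⟩ := not_le.1 hcon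
    replace hi : ∀ j < i, τ j = τ₀ j := hi
    replace hi' : τ i < τ₀ i := hi'
    have h1 : c (τ₀⁻¹ (τ i)) = c i := congrFun hτ i
    set a := τ₀⁻¹ (τ i) with ha
    have h2 : τ₀ a = τ i := by simp [ha]
    rcases lt_trichotomy a i with h3 | h3 | h3
    · have h4 := hi a h3
      rw [h2] at h4
      exact h3.ne (τ.injective h4)
    · rw [h3] at h2
      exact hi'.ne h2.symm
    · have h4 := hcol i a h1.symm h3
      rw [h2] at h4
      exact absurd hi' h4.not_gt

/-- the permutations of the letters in `J` -/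
def fixing (J : Finset (Fin r)) : Finset (Equiv.Perm (Fin r)) :=
  univ.filter fun π => ∀ i ∉ J, π i = i

private theorem mem_fixing {J : Finset (Fin r)} {π : Equiv.Perm (Fin r)} :
    π ∈ fixing J ↔ ∀ i ∉ J, π i = i := by
  simp [fixing]

private theorem lex_lt {τ₀ : Equiv.Perm (Fin r)} {J : Finset (Fin r)}
    (hJ : StrictAntiOn τ₀ (J : Set (Fin r))) {π : Equiv.Perm (Fin r)} (hπ : π ∈ fixing J)
    (hπ1 : π ≠ 1) : toLex (⇑(τ₀ * π)) < toLex (⇑τ₀) := by
  by_contra hcon
  rw [mem_fixing] at hπ
  rcases (not_lt.1 hcon).eq_or_lt with h | h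
  · apply hπ1
    have h1 : (⇑τ₀ : Fin r → Fin r) = ⇑(τ₀ * π) := h
    have h2 : τ₀ = τ₀ * π := DFunLike.coe_injective h1
    exact (mul_eq_left.1 h2.symm)
  · obtain ⟨i, hi, hi'⟩ := h
    replace hi : ∀ j < i, τ₀ j = τ₀ (π j) := hi
    replace hi' : τ₀ i < τ₀ (π i) := hi'
    have h1 : ∀ j < i, π j = j := fun j hj => (τ₀.injective (hi j hj)).symm
    have h2 : π i ≠ i := by
      intro h2
      rw [h2] at hi'
      exact lt_irrefl _ hi'
    have h3 : i < π i := by
      rcases lt_trichotomy (π i) i with h4 | h4 | h4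
      · have h5 := h1 _ h4
        exact absurd (π.injective h5) h2
      · exact absurd h4 h2
      · exact h4
    have h4 : i ∈ J := by
      by_contra h4
      exact h2 (hπ i h4)
    have h5 : π i ∈ J := by
      by_contra h5
      exact h2 (π.injective (hπ _ h5))
    exact absurd hi' (hJ h4 h5 h3).not_gt

private theorem killsTensors_anti (τ₀ : Equiv.Perm (Fin r)) {J : Finset (Fin r)}
    (hJ : J.card = n + 1) : KillsTensors (K := K) n fun τ =>
      if τ₀⁻¹ * τ ∈ fixing J then ((Equiv.Perm.sign (τ₀⁻¹ * τ) : ℤ) : K) else 0 := by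
  intro w w'
  -- two letters in `J` with the same value of `w ∘ τ₀`
  obtain ⟨i, hi, j, hj, hij, hw⟩ := Finset.exists_ne_map_eq_of_card_lt_of_maps_to
    (s := J) (t := (univ : Finset (Fin n))) (by rw [hJ, card_univ, Fintype.card_fin]; omega)
    (f := fun i => w (τ₀ i)) (fun _ _ => mem_univ _)
  rw [sum_filter]
  have hwτ : ∀ x, w (τ₀ (Equiv.swap i j x)) = w (τ₀ x) := by
    intro x
    rcases eq_or_ne x i with rfl | hxi
    · rw [Equiv.swap_apply_left]
      exact hw.symm
    · rcases eq_or_ne x j with rfl | hxj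
      · rw [Equiv.swap_apply_right]
        exact hw
      · rw [Equiv.swap_apply_of_ne_of_ne hxi hxj]
  refine Finset.sum_involution (fun τ _ => τ₀ * Equiv.swap i j * (τ₀⁻¹ * τ)) ?_ ?_ ?_ ?_
  · intro τ _
    have h1 : τ₀⁻¹ * (τ₀ * Equiv.swap i j * (τ₀⁻¹ * τ)) = Equiv.swap i j * (τ₀⁻¹ * τ) := by
      group
    have h2 : (w ∘ ⇑(τ₀ * Equiv.swap i j * (τ₀⁻¹ * τ))) = w ∘ ⇑τ := by
      funext x
      simp only [Function.comp_apply, Equiv.Perm.mul_apply]
      rw [hwτ]
      simp
    have h3 : Equiv.swap i j * (τ₀⁻¹ * τ) ∈ fixing J ↔ τ₀⁻¹ * τ ∈ fixing J := by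
      have key : ∀ π : Equiv.Perm (Fin r), π ∈ fixing J → Equiv.swap i j * π ∈ fixing J := by
        intro π hπ
        rw [mem_fixing] at hπ ⊢
        intro x hx
        rw [Equiv.Perm.mul_apply, hπ x hx, Equiv.swap_apply_of_ne_of_ne]
        · rintro rfl
          exact hx hi
        · rintro rfl
          exact hx hj
      constructor
      · intro h3
        have h4 := key _ h3
        rwa [← mul_assoc, Equiv.swap_mul_self, one_mul] at h4
      · exact key _
    rw [h1, h2]
    simp only [h3]
    split_ifs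
    · rw [Equiv.Perm.sign_mul (Equiv.swap i j), Equiv.Perm.sign_swap hij]
      push_cast
      ring
    · simp
    · simp
  · intro τ _ _ h
    have h1 : Equiv.swap i j * (τ₀⁻¹ * τ) = τ₀⁻¹ * τ := by
      have h2 : τ₀⁻¹ * (τ₀ * Equiv.swap i j * (τ₀⁻¹ * τ)) = τ₀⁻¹ * τ :=
        congrArg (fun x => τ₀⁻¹ * x) h
      rwa [mul_assoc τ₀, inv_mul_cancel_left] at h2
    have h2 : Equiv.swap i j = 1 := by simpa using h1
    exact hij (Equiv.swap_eq_one_iff.1 h2)
  · intro τ _
    exact mem_univ _
  · intro τ _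
    have h1 : τ₀⁻¹ * (τ₀ * Equiv.swap i j * (τ₀⁻¹ * τ)) = Equiv.swap i j * (τ₀⁻¹ * τ) := by
      group
    rw [h1, mul_assoc, ← mul_assoc (Equiv.swap i j), Equiv.swap_mul_self, one_mul]
    group

/-- **The second fundamental theorem.** -/
theorem second_fundamental {f : Equiv.Perm (Fin r) → T}
    (hf : ∀ (τ : Equiv.Perm (Fin r)) (J : Finset (Fin r)), J.card = n + 1 →
      ∑ π ∈ fixing J, ((Equiv.Perm.sign π : ℤ) : K) • f (τ * π) = 0)
    {β : Equiv.Perm (Fin r) → K} (hβ : KillsTensors n β) : ∑ τ, β τ • f τ = 0 := by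
  classical
  have key : ∀ (x : Lex (Fin r → Fin r)) (β : Equiv.Perm (Fin r) → K), KillsTensors n β →
      (∀ τ, β τ ≠ 0 → toLex (⇑τ) ≤ x) → ∑ τ, β τ • f τ = 0 := by
    intro x
    induction x using WellFoundedLT.induction with
    | ind x ih =>
      intro β hβ hx
      by_cases hzero : ∀ τ, β τ = 0
      · exact Finset.sum_eq_zero fun τ _ => by rw [hzero τ, zero_smul]
      push Not at hzero
      have hne : (univ.filter fun τ => β τ ≠ 0).Nonempty := by
        obtain ⟨τ, hτ⟩ := hzero
        exact ⟨τ, by simpa using hτ⟩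
      obtain ⟨τ₀, hτ₀, hmax⟩ := Finset.exists_max_image _
        (fun τ : Equiv.Perm (Fin r) => toLex (⇑τ)) hne
      simp only [mem_filter, mem_univ, true_and] at hτ₀ hmax
      by_cases hgood : ∀ J : Finset (Fin r), J.card = n + 1 →
          ¬ StrictAntiOn τ₀ (J : Set (Fin r))
      · exfalso
        obtain ⟨w, w', hw, hmin⟩ := exists_words hgood
        apply hτ₀
        rw [← hβ w w', Finset.sum_eq_single_of_mem τ₀ (by simpa using hw)]
        intro τ hτ hne
        by_contra hcon
        simp only [mem_filter, mem_univ, true_and] at hτ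
        have h1 := hmin τ hτ
        have h2 := hmax τ hcon
        have h3 : toLex (⇑τ) = toLex (⇑τ₀) := le_antisymm h2 h1
        exact hne (DFunLike.coe_injective h3)
      · push Not at hgood
        obtain ⟨J, hJ, hanti⟩ := hgood
        set η : Equiv.Perm (Fin r) → K := fun τ =>
          if τ₀⁻¹ * τ ∈ fixing J then ((Equiv.Perm.sign (τ₀⁻¹ * τ) : ℤ) : K) else 0 with hη
        have hη0 : KillsTensors n η := killsTensors_anti τ₀ hJ
        have hη1 : ∑ τ, η τ • f τ = 0 := by
          rw [← hf τ₀ J hJ, fixing, sum_filter, ← Equiv.sum_comp (Equiv.mulLeft τ₀)]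
          refine Finset.sum_congr rfl fun π _ => ?_
          simp only [hη, Equiv.coe_mulLeft, inv_mul_cancel_left, mem_fixing, ite_smul, zero_smul]
        have h1 : ∑ τ, (β τ - β τ₀ * η τ) • f τ = 0 := by
          have hη2 : η τ₀ = 1 := by
            simp only [hη, inv_mul_cancel]
            rw [if_pos (mem_fixing.2 fun _ _ => rfl)]
            simp
          have hkt : KillsTensors n fun τ => β τ - β τ₀ * η τ := by
            intro w w'
            rw [Finset.sum_sub_distrib, hβ w w', ← Finset.mul_sum, hη0 w w', mul_zero, sub_zero]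
          have hsupp : ∀ τ, β τ - β τ₀ * η τ ≠ 0 → toLex (⇑τ) < toLex (⇑τ₀) := by
            intro τ hτ
            rcases eq_or_ne τ τ₀ with rfl | hne
            · exact absurd (by rw [hη2, mul_one, sub_self]) hτ
            by_cases h2 : β τ = 0
            · have h3 : η τ ≠ 0 := by
                intro h3
                rw [h2, h3, mul_zero, sub_zero] at hτ
                exact hτ rfl
              have h4 : τ₀⁻¹ * τ ∈ fixing J := by
                by_contra h4
                exact h3 (by simp only [hη, if_neg h4])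
              have h5 := lex_lt hanti h4 (fun h5 => hne (inv_mul_eq_one.1 h5).symm)
              rwa [mul_inv_cancel_left] at h5
            · exact lt_of_le_of_ne (hmax τ h2) fun h3 => hne (DFunLike.coe_injective h3)
          by_cases hzero' : ∀ τ, β τ - β τ₀ * η τ = 0
          · exact Finset.sum_eq_zero fun τ _ => by rw [hzero' τ, zero_smul]
          push Not at hzero'
          have hne' : (univ.filter fun τ => β τ - β τ₀ * η τ ≠ 0).Nonempty := by
            obtain ⟨τ, hτ⟩ := hzero'
            exact ⟨τ, by simpa using hτ⟩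
          obtain ⟨τ₁, hτ₁, hmax₁⟩ := Finset.exists_max_image _
            (fun τ : Equiv.Perm (Fin r) => toLex (⇑τ)) hne'
          simp only [mem_filter, mem_univ, true_and] at hτ₁ hmax₁
          exact ih (toLex (⇑τ₁)) ((hsupp τ₁ hτ₁).trans_le (hx τ₀ hτ₀)) _ hkt hmax₁
        simp only [sub_smul, mul_smul] at h1
        rw [Finset.sum_sub_distrib, ← Finset.smul_sum, hη1, smul_zero, sub_zero] at h1
        exact h1
  by_cases hzero : ∀ τ, β τ = 0
  · exact Finset.sum_eq_zero fun τ _ => by rw [hzero τ, zero_smul]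
  push Not at hzero
  have hne : (univ.filter fun τ => β τ ≠ 0).Nonempty := by
    obtain ⟨τ, hτ⟩ := hzero
    exact ⟨τ, by simpa using hτ⟩
  obtain ⟨τ₀, hτ₀, hmax⟩ := Finset.exists_max_image _
    (fun τ : Equiv.Perm (Fin r) => toLex (⇑τ)) hne
  simp only [mem_filter, mem_univ, true_and] at hmax
  exact key (toLex (⇑τ₀)) β hβ hmax

end Pool.Agent.ZIso
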