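import Pool.Agent.ZIso.Defs

/-!
# Elliptic curves with an automorphism of order 2, 4 or 6
-/

open Polynomial Pool.Agent.ZCyc

namespace Pool.Agent.ZIso

universe u

/-- `L = k(x, y)` is the function field of the elliptic curve `y ^ 2 = x ^ 3 + A x + B`, and `σ` is
the automorphism `(x, y) ↦ (ζ ^ 2 x, ζ ^ 3 y)`. (If `σ` exists and `ζ` is a primitive `M`-th root of
unity then `B = 0` for `M = 4` and `A = 0` for `M = 6`.) -/
structure Elliptic {k : Type u} [Field k] (A B ζ : k) {L : Type u} [Field L] [Algebra k L]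
    (σ : L ≃ₐ[k] L) (x y : L) : Prop where
  disc : 4 * A ^ 3 + 27 * B ^ 2 ≠ 0
  transc : Transcendental k x
  gen : IntermediateField.adjoin k {x, y} = ⊤
  eqn : y ^ 2 = x ^ 3 + algebraMap k L A * x + algebraMap k L B
  actx : σ x = algebraMap k L (ζ ^ 2) * x
  acty : σ y = algebraMap k L (ζ ^ 3) * y

end Pool.Agent.ZIso
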