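import Pool.Agent.BBF.Defs
import Pool.Agent.ZIso.Elliptic

/-!
# The filtration on the zero-cycles on all powers of an isotrivial elliptic surface: definitions

`S` is the quotient of `E × C` by the group generated by `(σE ^ (-d), σC)`. A point of `S ^ m` is
given by a family of `m` points of `E × C`.
-/

open Polynomial Pool.Agent.ZCyc

set_option autoImplicit false

noncomputable section

namespace Pool.Agent.ZIso

universe u w

section

variable {k : Type u} [Field k] {LE LC : Type u} [Field LE] [Field LC] [Algebra k LE] [Algebra k LC]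

/-- The automorphism `(σE ^ (-d), σC)` of `E × C`. -/
def deck (σE : LE ≃ₐ[k] LE) (σC : LC ≃ₐ[k] LC) (d : ℕ) (p : Place k LE × Place k LC) :
    Place k LE × Place k LC := (p.1.map (σE ^ d)⁻¹, p.2.map σC)

/-- The zero-cycles on `(E × C) ^ m` whose images in `S ^ m` are rationally equivalent to zero,
with coefficients in `ℚ`. They are spanned by
* the cycles `φ_* (∑ τ, τ v) - φ_* (∑ τ, τ w)`, for all finite Galois coverings of the projective
  line, given by extensions `F` of `k(X)`, all points `v` and `w` of `F` above points `a` and `b` of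
  the line, and all morphisms `φ` to `(E × C) ^ m` (every component of `φ` is constant or dominant);
  the sums are over all `τ` in the Galois group;
* the differences of two points of `(E × C) ^ m` which are equal in `S ^ m`. -/
def ratS (σE : LE ≃ₐ[k] LE) (σC : LC ≃ₐ[k] LC) (d : ℕ) (m : ℕ) :
    Submodule ℚ ((Fin m → Place k LE × Place k LC) →₀ ℚ) :=
  Submodule.span ℚ ({z | ∃ (F : Type u) (_ : Field F) (_ : Algebra k F) (_ : Algebra (RatFunc k) F)
    (_ : IsScalarTower k (RatFunc k) F) (_ : FiniteDimensional (RatFunc k) F)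
    (_ : IsGalois (RatFunc k) F) (φ : Place k F → Fin m → Place k LE × Place k LC)
    (_ : ∀ i, IsComp fun v => (φ v i).1) (_ : ∀ i, IsComp fun v => (φ v i).2)
    (a b : k) (v w : Place k F)
    (_ : v.Vanishes (algebraMap (RatFunc k) F (RatFunc.X - RatFunc.C a)))
    (_ : w.Vanishes (algebraMap (RatFunc k) F (RatFunc.X - RatFunc.C b))),
    z = ∑ τ : F ≃ₐ[RatFunc k] F, (Finsupp.single (φ (v.map (τ.restrictScalars k))) 1 -
      Finsupp.single (φ (w.map (τ.restrictScalars k))) 1)} ∪
    {z | ∃ (p : Fin m → Place k LE × Place k LC) (i : Fin m),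
      z = Finsupp.single (Function.update p i (deck σE σC d (p i))) 1 - Finsupp.single p 1})

/-- The automorphism of `S` given by `σ ^ s` on `E`. -/
def actS {M : ℕ} (σ : LE ≃ₐ[k] LE) (s : Fin M) (p : Place k LE × Place k LC) :
    Place k LE × Place k LC := (p.1.map (σ ^ (s : ℕ)), p.2)

/-- The holomorphic `2 l`-forms on `S ^ m'` are the sums over all `J` (increasing sequences of `l`
factors) of the pull-backs of the forms `P(t_1, …, t_l) ∏ i, (dt_i / w_i) ∧ (dX_i / Y_i)` on `S ^ l`,
where `P` is a polynomial of degree less than `n = p_g(S)` in every variable. Let `γ` be a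
combination of morphisms `f` from `S ^ m` to `S ^ m'`. This is the component with index `I` of the
pull-back under `γ` of the form given by `J` and `P`: for `f` to contribute, the components `J b` of
`f` have to be the automorphisms `σ ^ s b` of the factors `I (τ b)`, and then the form is multiplied
by `ζ ^ (∑ b, s b)` and the variables are permuted by `τ`. -/
def pullForm {M m m' l : ℕ} {P : Type u} (ζ : k) (γ : BBF.Mor P (Fin M) m m' →₀ ℚ)
    (I : Fin l ↪o Fin m) (J : Fin l ↪o Fin m') (Q : MvPolynomial (Fin l) k) :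
    MvPolynomial (Fin l) k := by
  classical
  exact ∑ τ : Equiv.Perm (Fin l), ∑ s : Fin l → Fin M,
    ((∑ f ∈ γ.support with BBF.Induces f I J τ s, γ f : ℚ) * ζ ^ (∑ b, (s b : ℕ)) : k) •
      MvPolynomial.rename τ Q

/-- `γ` acts as zero on the holomorphic `ν`-forms. (There are none if `ν` is odd.) -/
def KillsForms {M m m' : ℕ} {P : Type u} (ζ : k) (n : ℕ) (γ : BBF.Mor P (Fin M) m m' →₀ ℚ)
    (ν : ℕ) : Prop :=
  ∀ l : ℕ, ν = 2 * l → ∀ (I : Fin l ↪o Fin m) (J : Fin l ↪o Fin m') (Q : MvPolynomial (Fin l) k),
    (∀ i, Q.degreeOf i < n) → pullForm ζ γ I J Q = 0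

end

end Pool.Agent.ZIso
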