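import Pool.Agent.ZIso.Link

/-!
# Descent of the coefficients for rational equivalence
-/

open Polynomial Pool.Agent.ZCyc

namespace Pool.Agent.ZIso

universe u w v

section descent

variable {k : Type u} [Field k] {LE LC : Type u} [Field LE] [Field LC] [Algebra k LE] [Algebra k LC]
  {I I' : Type} {R : Type w} [Field R] {K : Type v} [Field K] [Algebra R K]

/-- extension of the coefficients, general products -/
theorem ratEquiv_mapRange {ι : Type} {L : ι → Type u} [∀ i, Field (L i)] [∀ i, Algebra k (L i)]
    {z : (∀ i, Place k (L i)) →₀ R} (hz : z ∈ ratEquiv k L R) :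
    z.mapRange (algebraMap R K) (map_zero _) ∈ ratEquiv k L K := by
  unfold ratEquiv at hz
  induction hz using Submodule.span_induction with
  | mem x hx =>
    obtain ⟨F, _, _, _, _, _, _, φ, hφ, a, b, v, w, hv, hw, rfl⟩ := hx
    refine Submodule.subset_span ⟨F, _, _, _, ‹_›, ‹_›, ‹_›, φ, hφ, a, b, v, w, hv, hw, ?_⟩
    have h := map_sum (Finsupp.mapRange.addMonoidHom (ι := ∀ i, Place k (L i))
      (algebraMap R K).toAddMonoidHom)
      (fun τ : F ≃ₐ[RatFunc k] F => (Finsupp.single (φ (v.map (τ.restrictScalars k))) (1 : R) -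
      Finsupp.single (φ (w.map (τ.restrictScalars k))) 1)) Finset.univ
    refine Eq.trans h ?_
    refine Finset.sum_congr rfl fun τ _ => ?_
    rw [map_sub]
    congr 1
    · refine Eq.trans (Finsupp.mapRange_single (hf := map_zero _)) ?_
      exact congrArg _ (map_one (algebraMap R K))
    · refine Eq.trans (Finsupp.mapRange_single (hf := map_zero _)) ?_
      exact congrArg _ (map_one (algebraMap R K))
  | zero =>
    rw [Finsupp.mapRange_zero]
    exact Submodule.zero_mem _
  | add x y _ _ hx hy =>
    rw [Finsupp.mapRange_add (map_add _)]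
    exact Submodule.add_mem _ hx hy
  | smul c x _ hx =>
    have h : (c • x).mapRange (algebraMap R K) (map_zero _) =
        algebraMap R K c • x.mapRange (algebraMap R K) (map_zero _) := by
      ext i
      simp only [Finsupp.mapRange_apply, Finsupp.smul_apply, smul_eq_mul, map_mul]
    rw [h]
    exact Submodule.smul_mem _ _ hx

/-- descent of the coefficients, general products -/
theorem ratEquiv_of_mapRange {ι : Type} {L : ι → Type u} [∀ i, Field (L i)]
    [∀ i, Algebra k (L i)] {z : (∀ i, Place k (L i)) →₀ R}
    (hz : z.mapRange (algebraMap R K) (map_zero _) ∈ ratEquiv k L K) :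
    z ∈ ratEquiv k L R := by
  obtain ⟨ρ, hρ⟩ := LinearMap.exists_leftInverse_of_injective (Algebra.linearMap R K)
    (LinearMap.ker_eq_bot.2 (algebraMap R K).injective)
  have hρ' : ∀ r : R, ρ (algebraMap R K r) = r := fun r => LinearMap.congr_fun hρ r
  have key : ∀ x ∈ ratEquiv k L K, ∀ c : K,
      (c • x).mapRange ρ (map_zero _) ∈ ratEquiv k L R := by
    intro x hx
    unfold ratEquiv at hx
    induction hx using Submodule.span_induction with
    | mem x hx =>
      intro c
      obtain ⟨F, _, _, _, _, _, _, φ, hφ, a, b, v, w, hv, hw, rfl⟩ := hx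
      have hmem : (∑ τ : F ≃ₐ[RatFunc k] F, (Finsupp.single (φ (v.map (τ.restrictScalars k))) (1 : R)
          - Finsupp.single (φ (w.map (τ.restrictScalars k))) 1)) ∈ ratEquiv k L R :=
        Submodule.subset_span ⟨F, _, _, _, ‹_›, ‹_›, ‹_›, φ, hφ, a, b, v, w, hv, hw, rfl⟩
      have hsm := Submodule.smul_mem _ (ρ c) hmem
      convert hsm using 1
      rw [Finset.smul_sum, Finset.smul_sum]
      have h := map_sum (Finsupp.mapRange.addMonoidHom (ι := ∀ i, Place k (L i))
        ρ.toAddMonoidHom)
        (fun τ : F ≃ₐ[RatFunc k] F => c • (Finsupp.single (φ (v.map (τ.restrictScalars k))) (1 : K) -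
        Finsupp.single (φ (w.map (τ.restrictScalars k))) 1)) Finset.univ
      refine Eq.trans h ?_
      refine Finset.sum_congr rfl fun τ _ => ?_
      rw [smul_sub, smul_sub, map_sub, Finsupp.smul_single, Finsupp.smul_single,
        Finsupp.smul_single, Finsupp.smul_single, smul_eq_mul, smul_eq_mul, mul_one, mul_one]
      congr 1
      · exact Finsupp.mapRange_single (hf := map_zero _)
      · exact Finsupp.mapRange_single (hf := map_zero _)
    | zero =>
      intro c
      rw [smul_zero, Finsupp.mapRange_zero]
      exact Submodule.zero_mem _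
    | add x y _ _ hx hy =>
      intro c
      rw [smul_add, Finsupp.mapRange_add (map_add _)]
      exact Submodule.add_mem _ (hx c) (hy c)
    | smul d x _ hx =>
      intro c
      rw [smul_smul]
      exact hx (c * d)
  have h1 := key _ hz 1
  rw [one_smul] at h1
  have h2 : (z.mapRange (algebraMap R K) (map_zero _)).mapRange ρ (map_zero _) = z := by
    ext i
    simp [hρ']
  rwa [h2] at h1

/-- extension of the coefficients -/
theorem rat_mapRange {z : Pts k LE LC I I' →₀ R} (hz : z ∈ rat k LE LC I I' R) :
    z.mapRange (algebraMap R K) (map_zero _) ∈ rat k LE LC I I' K := by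
  rw [mem_rat]
  have h := ratEquiv_mapRange (K := K) (mem_rat.1 hz)
  rwa [← Finsupp.mapDomain_mapRange _ _ _ _ (map_add _)] at h

/-- descent of the coefficients -/
theorem rat_of_mapRange {z : Pts k LE LC I I' →₀ R}
    (hz : z.mapRange (algebraMap R K) (map_zero _) ∈ rat k LE LC I I' K) :
    z ∈ rat k LE LC I I' R := by
  rw [mem_rat]
  have h := mem_rat.1 hz
  rw [Finsupp.mapDomain_mapRange _ _ _ _ (map_add _)] at h
  exact ratEquiv_of_mapRange h

end descent

end Pool.Agent.ZIso
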