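import Pool.Agent.ZIso.Elliptic

/-!
# A model of an elliptic curve which is not branched at infinity
-/

open Polynomial Pool.Agent.ZCyc

namespace Pool.Agent.ZIso

universe u

variable {k : Type u} [Field k] [IsAlgClosed k] [CharZero k] {A B ζ : k} {L : Type u} [Field L]
  [Algebra k L] {σ : L ≃ₐ[k] L} {x y : L}

/-- the roots of `X ^ 3 + A X + B` -/
private theorem ell2_roots (L : Type u) [Field L] [Algebra k L] (hd : 4 * A ^ 3 + 27 * B ^ 2 ≠ 0) :
    ∃ e : Fin 3 → k, Function.Injective e ∧
      (∀ z : k, z ^ 3 + A * z + B = ∏ j, (z - e j)) ∧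
      (∀ z : L, z ^ 3 + algebraMap k L A * z + algebraMap k L B
        = ∏ j, (z - algebraMap k L (e j))) := by
  obtain ⟨r, hr⟩ : ∃ r : k, r ^ 3 + A * r + B = 0 := by
    have hdeg : (X ^ 3 + C A * X + C B : k[X]).degree = 3 := by compute_degree!
    obtain ⟨r, hr⟩ := IsAlgClosed.exists_root (X ^ 3 + C A * X + C B : k[X])
      (by rw [hdeg]; exact (by norm_num : ((3 : ℕ) : WithBot ℕ) ≠ 0))
    refine ⟨r, ?_⟩
    rw [IsRoot.def] at hr
    simpa using hr
  obtain ⟨s, hs⟩ : ∃ s : k, s ^ 2 = -3 * r ^ 2 - 4 * A :=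
    IsAlgClosed.exists_pow_nat_eq _ (by norm_num)
  obtain ⟨t, ht⟩ : ∃ t : k, 2 * t = s - r := ⟨(s - r) / 2, by ring⟩
  have h2 : (4 : k) ≠ 0 := by norm_num
  have hA : A = -(r ^ 2 + r * t + t ^ 2) := by
    have h3 : 4 * (A + (r ^ 2 + r * t + t ^ 2)) = 0 := by
      linear_combination hs + (2 * t + r + s) * ht
    have h4 := (mul_eq_zero.mp h3).resolve_left h2
    linear_combination h4
  have hB : B = r * t * (r + t) := by
    linear_combination hr - r * hA
  refine ⟨![r, t, -(r + t)], ?_, ?_, ?_⟩
  · have h01 : r ≠ t := by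
      rintro rfl
      apply hd
      rw [hA, hB]
      ring
    have h02 : r ≠ -(r + t) := by
      intro h
      apply hd
      have h5 : t = -2 * r := by linear_combination h
      rw [hA, hB, h5]
      ring
    have h12 : t ≠ -(r + t) := by
      intro h
      apply hd
      have h5 : r = -2 * t := by linear_combination h
      rw [hA, hB, h5]
      ring
    intro i j hij
    fin_cases i <;> fin_cases j
    · rfl
    · exact absurd hij h01
    · exact absurd hij h02
    · exact absurd hij.symm h01
    · rfl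
    · exact absurd hij h12
    · exact absurd hij.symm h02
    · exact absurd hij.symm h12
    · rfl
  · intro z
    rw [Fin.prod_univ_three, hA, hB]
    simp only [Matrix.cons_val_zero, Matrix.cons_val_one, Matrix.cons_val_two, Matrix.head_cons,
      Matrix.tail_cons]
    ring
  · intro z
    rw [Fin.prod_univ_three, hA, hB]
    simp only [Matrix.cons_val_zero, Matrix.cons_val_one, Matrix.cons_val_two, Matrix.head_cons,
      Matrix.tail_cons, map_neg, map_add, map_mul, map_pow]
    ring

/-- a model of `E` as a double covering of the line which is not branched at infinity -/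
theorem Elliptic.cyclic_four (h : Elliptic A B (-1) σ x y) :
    ∃ (e : Fin 4 → k) (x' y' : L), Cyclic 2 (-1) e (fun _ => 1) σ x' y' := by
  obtain ⟨e, he, hek, heL⟩ := ell2_roots L h.disc
  obtain ⟨c, hc⟩ := (Set.finite_range e).exists_notMem
  have hne : ∀ j, c - e j ≠ 0 := fun j hj => hc ⟨j, (sub_eq_zero.mp hj).symm⟩
  have hprod : ∏ j, (c - e j) ≠ 0 := Finset.prod_ne_zero_iff.mpr fun j _ => hne j
  obtain ⟨κ, hκ⟩ : ∃ κ : k, κ ^ 2 = ∏ j, (c - e j) :=
    IsAlgClosed.exists_pow_nat_eq _ (by norm_num)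
  have hκ0 : κ ≠ 0 := by
    rintro rfl
    rw [zero_pow (by norm_num)] at hκ
    exact hprod hκ.symm
  obtain ⟨w, hw⟩ : ∃ w : L, w = x - algebraMap k L c := ⟨_, rfl⟩
  have hxw : x = w + algebraMap k L c := by rw [hw]; ring
  have hw0 : w ≠ 0 := by
    intro h1
    apply h.transc
    rw [hxw, h1, zero_add]
    exact isAlgebraic_algebraMap c
  have hκL : algebraMap k L κ ≠ 0 := by
    rw [Ne, map_eq_zero]
    exact hκ0
  have hκL2 : algebraMap k L κ ^ 2 = algebraMap k L (∏ j, (c - e j)) := by
    rw [← map_pow, hκ]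
  have hσx : σ x = x := by
    rw [h.actx]
    simp
  have hσy : σ y = -y := by
    rw [h.acty, Odd.neg_one_pow (by decide)]
    simp
  have hσw : σ w = w := by
    rw [hw, map_sub, hσx, AlgEquiv.commutes]
  have heL1 : ∀ j, algebraMap k L (c - e j) ≠ 0 := by
    intro j
    rw [Ne, map_eq_zero]
    exact hne j
  refine ⟨Fin.cons 0 fun j => (e j - c)⁻¹, w⁻¹, y * w⁻¹ ^ 2 / algebraMap k L κ, ?_⟩
  refine ⟨?_, ?_, ?_, ?_, ?_, ?_, ?_⟩
  · intro halg
    apply h.transc
    have h3 : IsAlgebraic k w := by
      have := halg.inv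
      rwa [inv_inv] at this
    rw [hxw]
    exact h3.add (isAlgebraic_algebraMap c)
  · rw [eq_top_iff, ← h.gen, IntermediateField.adjoin_le_iff]
    set K := IntermediateField.adjoin k {w⁻¹, y * w⁻¹ ^ 2 / algebraMap k L κ} with hK
    have hx' : w⁻¹ ∈ K := IntermediateField.subset_adjoin k _ (by simp)
    have hy' : y * w⁻¹ ^ 2 / algebraMap k L κ ∈ K :=
      IntermediateField.subset_adjoin k _ (by simp)
    have hwK : w ∈ K := by
      have h3 : w⁻¹⁻¹ ∈ K := inv_mem hx'
      rwa [inv_inv] at h3
    have hx : x ∈ K := by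
      rw [hxw]
      exact add_mem hwK (K.algebraMap_mem c)
    have hy : y ∈ K := by
      have h3 : y * w⁻¹ ^ 2 / algebraMap k L κ * algebraMap k L κ * w ^ 2 ∈ K :=
        mul_mem (mul_mem hy' (K.algebraMap_mem κ)) (pow_mem hwK 2)
      have h4 : y * w⁻¹ ^ 2 / algebraMap k L κ * algebraMap k L κ * w ^ 2 = y := by
        field_simp
      rwa [h4] at h3
    rintro z (rfl | hz)
    · exact hx
    · rw [Set.mem_singleton_iff] at hz
      rw [hz]
      exact hy
  · rw [Fin.prod_univ_succ]
    simp only [Fin.cons_zero, Fin.cons_succ, map_zero, sub_zero, pow_one]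
    have h5 : ∀ j, w⁻¹ - algebraMap k L (e j - c)⁻¹ =
        (x - algebraMap k L (e j)) * (w⁻¹ / algebraMap k L (c - e j)) := by
      intro j
      have h6 := heL1 j
      have h7 : algebraMap k L (e j - c) ≠ 0 := by
        rw [← neg_sub, map_neg]
        exact neg_ne_zero.mpr h6
      rw [map_inv₀, hxw]
      rw [map_sub] at h6 h7 ⊢
      rw [map_sub]
      field_simp
      ring
    rw [Finset.prod_congr rfl fun j _ => h5 j, Finset.prod_mul_distrib, ← heL x, ← h.eqn,
      Finset.prod_div_distrib, Finset.prod_const, Finset.card_univ, Fintype.card_fin, ← map_prod,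
      ← hκL2]
    field_simp
  · intro i j
    refine Fin.cases ?_ (fun i => ?_) i <;> refine Fin.cases ?_ (fun j => ?_) j
    · intro _
      rfl
    · intro hij
      rw [Fin.cons_zero, Fin.cons_succ] at hij
      exact absurd hij.symm (inv_ne_zero fun h8 => hne j (by linear_combination -h8))
    · intro hij
      rw [Fin.cons_zero, Fin.cons_succ] at hij
      exact absurd hij (inv_ne_zero fun h8 => hne i (by linear_combination -h8))
    · intro hij
      rw [Fin.cons_succ, Fin.cons_succ] at hij
      have h8 := inv_injective hij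
      rw [he (sub_left_injective h8)]
  · intro j
    norm_num
  · rw [map_inv₀, hσw]
  · rw [map_div₀, map_mul, map_pow, map_inv₀, hσw, hσy, AlgEquiv.commutes, map_neg, map_one]
    ring

end Pool.Agent.ZIso
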