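import Pool.Agent.ZIso.Elliptic

/-!
# Elliptic curves with an automorphism of order 4 or 6: normal forms
-/

open Polynomial Pool.Agent.ZCyc

namespace Pool.Agent.ZIso

universe u

variable {k : Type u} [Field k] [IsAlgClosed k] [CharZero k] {A B ζ : k} {L : Type u} [Field L]
  [Algebra k L] {σ : L ≃ₐ[k] L} {x y : L}

omit [IsAlgClosed k] [CharZero k] in
private theorem linear_zero (hx : Transcendental k x) {a b : k}
    (h : algebraMap k L a * x + algebraMap k L b = 0) : a = 0 ∧ b = 0 := by
  have h1 : aeval x (C a * X + C b : k[X]) = 0 := by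
    simpa using h
  have h2 : (C a * X + C b : k[X]) = 0 := by
    by_contra hne
    exact hx ⟨_, hne, h1⟩
  have h3 := congrArg (fun p : k[X] => p.coeff 1) h2
  have h4 := congrArg (fun p : k[X] => p.coeff 0) h2
  exact ⟨by simpa [coeff_C] using h3, by simpa using h4⟩

omit [IsAlgClosed k] [CharZero k] in
private theorem apply_sigma (h : Elliptic A B ζ σ x y) :
    A * (ζ ^ 2 - ζ ^ 6) = 0 ∧ B * (1 - ζ ^ 6) = 0 := by
  refine linear_zero h.transc ?_
  have h1 := congrArg σ h.eqn
  rw [map_pow, map_add, map_add, map_pow, map_mul, h.actx, h.acty, AlgEquiv.commutes,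
    AlgEquiv.commutes] at h1
  have h2 := h.eqn
  simp only [map_mul, map_sub, map_pow, map_one] at h1 ⊢
  linear_combination (algebraMap k L ζ) ^ 6 * h2 - h1

omit [IsAlgClosed k] [CharZero k] in
private theorem scale (h : Elliptic A B ζ σ x y) {c d : k} (hc : c ≠ 0) (hd : d ≠ 0) {ε : ℕ}
    (he : (algebraMap k L d * y) ^ 2 = (algebraMap k L c * x) ^ 3 + (algebraMap k L c * x) ^ ε) :
    Ell ε ζ σ (algebraMap k L c * x) (algebraMap k L d * y) := by
  have key : ∀ {e : k} (z : L), e ≠ 0 → algebraMap k L e⁻¹ * (algebraMap k L e * z) = z := by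
    intro e z he
    rw [← mul_assoc, ← map_mul, inv_mul_cancel₀ he, map_one, one_mul]
  refine ⟨?_, ?_, he, ?_, ?_⟩
  · intro hal
    have := (isAlgebraic_algebraMap (R := k) (A := L) c⁻¹).mul hal
    rw [key x hc] at this
    exact h.transc this
  · rw [eq_top_iff, ← h.gen, IntermediateField.adjoin_le_iff]
    rintro z (rfl | rfl)
    · have h1 : algebraMap k L c * z ∈ IntermediateField.adjoin k
          {algebraMap k L c * z, algebraMap k L d * y} :=
        IntermediateField.subset_adjoin k _ (by simp)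
      have h2 := IntermediateField.mul_mem _ (IntermediateField.algebraMap_mem _ c⁻¹) h1
      rwa [key z hc] at h2
    · have h1 : algebraMap k L d * z ∈ IntermediateField.adjoin k
          {algebraMap k L c * x, algebraMap k L d * z} :=
        IntermediateField.subset_adjoin k _ (by simp)
      have h2 := IntermediateField.mul_mem _ (IntermediateField.algebraMap_mem _ d⁻¹) h1
      rwa [key z hd] at h2
  · rw [map_mul, AlgEquiv.commutes, h.actx]
    ring
  · rw [map_mul, AlgEquiv.commutes, h.acty]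
    ring

set_option linter.unusedSectionVars false in
theorem Elliptic.six (h : Elliptic A B ζ σ x y) (hζ : IsPrimitiveRoot ζ 6) :
    ∃ x' y' : L, Ell 0 ζ σ x' y' := by
  obtain ⟨h1, -⟩ := apply_sigma h
  have hA : A = 0 := by
    refine (mul_eq_zero.1 h1).resolve_right ?_
    rw [hζ.pow_eq_one]
    intro h2
    have h3 := hζ.pow_ne_one_of_pos_of_lt (l := 2) (by norm_num) (by norm_num)
    exact h3 (sub_eq_zero.1 h2)
  have hB : B ≠ 0 := by
    rintro rfl
    exact h.disc (by rw [hA]; ring)
  obtain ⟨β, hβ⟩ := IsAlgClosed.exists_pow_nat_eq B (n := 6) (by norm_num)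
  have hβ0 : β ≠ 0 := by
    rintro rfl
    exact hB (by rw [← hβ]; norm_num)
  refine ⟨_, _, scale h (c := (β ^ 2)⁻¹) (d := (β ^ 3)⁻¹) (by simpa using hβ0)
    (by simpa using hβ0) ?_⟩
  have hb : algebraMap k L β ≠ 0 := by simpa using hβ0
  have h2 := h.eqn
  rw [hA, ← hβ] at h2
  simp only [map_inv₀, map_pow, map_zero, zero_mul, add_zero] at h2 ⊢
  field_simp
  linear_combination h2

theorem Elliptic.four (h : Elliptic A B ζ σ x y) (hζ : IsPrimitiveRoot ζ 4) :
    ∃ x' y' : L, Ell 1 ζ σ x' y' := by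
  obtain ⟨-, h1⟩ := apply_sigma h
  have hz2 : ζ ^ 2 = -1 := by
    have h2 : (ζ ^ 2 - 1) * (ζ ^ 2 + 1) = 0 := by
      have := hζ.pow_eq_one
      linear_combination this
    refine eq_neg_of_add_eq_zero_left ((mul_eq_zero.1 h2).resolve_left ?_)
    intro h3
    exact hζ.pow_ne_one_of_pos_of_lt (l := 2) (by norm_num) (by norm_num) (sub_eq_zero.1 h3)
  have hB : B = 0 := by
    refine (mul_eq_zero.1 h1).resolve_right ?_
    have h2 : 1 - ζ ^ 6 = 2 := by
      have : ζ ^ 6 = (ζ ^ 2) ^ 3 := by ring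
      rw [this, hz2]
      norm_num
    rw [h2]
    exact two_ne_zero
  have hA : A ≠ 0 := by
    rintro rfl
    exact h.disc (by rw [hB]; ring)
  obtain ⟨β, hβ⟩ := IsAlgClosed.exists_pow_nat_eq A (n := 4) (by norm_num)
  have hβ0 : β ≠ 0 := by
    rintro rfl
    exact hA (by rw [← hβ]; norm_num)
  refine ⟨_, _, scale h (c := (β ^ 2)⁻¹) (d := (β ^ 3)⁻¹) (by simpa using hβ0)
    (by simpa using hβ0) ?_⟩
  have hb : algebraMap k L β ≠ 0 := by simpa using hβ0
  have h2 := h.eqn
  rw [hB, ← hβ] at h2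
  simp only [map_inv₀, map_pow, map_zero, add_zero, pow_one] at h2 ⊢
  field_simp
  linear_combination h2

end Pool.Agent.ZIso
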