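import Pool.Agent.ZIso.Sym
import Pool.Agent.ZIso.SFT
import Pool.Agent.ZIso.Descent
import Pool.Agent.ZIso.Ell2
import Pool.Agent.ZIso.Ell46

/-!
# The action of the group algebra of `μ_M ≀ S_r` on the zero-cycles on `S ^ r`
-/

open Polynomial Pool.Agent.ZCyc Finset

set_option linter.unusedSectionVars false

namespace Pool.Agent.ZIso

universe u w

/-! ### Permutations which fix the complement of a set -/

theorem sum_fixing {r n : ℕ} {T : Type*} [AddCommMonoid T] {J : Finset (Fin r)}
    (ι : Fin n ≃ {x // x ∈ J}) (g : Equiv.Perm (Fin r) → T) :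
    ∑ π ∈ fixing J, g π = ∑ τ : Equiv.Perm (Fin n), g (τ.extendDomain ι) := by
  classical
  symm
  refine Finset.sum_bij (fun τ _ => τ.extendDomain ι) ?_ ?_ ?_ ?_
  · intro τ _
    simp only [fixing, mem_filter, mem_univ, true_and]
    intro i hi
    exact Equiv.Perm.extendDomain_apply_not_subtype _ _ hi
  · intro τ _ τ' _ h
    exact Equiv.Perm.extendDomainHom_injective ι h
  · intro π hπ
    simp only [fixing, mem_filter, mem_univ, true_and] at hπ
    have h1 : ∀ x, π x ∈ J ↔ x ∈ J := by
      intro x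
      constructor
      · intro hx
        by_contra hx'
        rw [hπ x hx'] at hx
        exact hx' hx
      · intro hx
        by_contra hx'
        have h2 := hπ _ hx'
        rw [π.injective h2] at hx'
        exact hx' hx
    refine ⟨ι.permCongr.symm (π.subtypePerm h1), mem_univ _, ?_⟩
    ext l
    by_cases hl : l ∈ J
    · rw [Equiv.Perm.extendDomain_apply_subtype _ _ hl]
      simp [Equiv.permCongr]
    · rw [Equiv.Perm.extendDomain_apply_not_subtype _ _ hl, hπ l hl]
  · intro τ _
    rfl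

/-! ### The condition on the coefficients -/

theorem killsTensors_of {k : Type*} [Field k] [CharZero k] {R : Type*} [Field R] [CharZero R]
    {M r n : ℕ} {ζ : k} {c : R} (hM : 0 < M) (hζ : IsPrimitiveRoot ζ M) (hc : IsPrimitiveRoot c M)
    {α : Equiv.Perm (Fin r) → (Fin r → Fin M) → ℚ}
    (hα : ∀ P : MvPolynomial (Fin r) k, (∀ i, P.degreeOf i < n) →
      ∑ τ, ∑ s, ((α τ s : k) * ζ ^ (∑ i, (s i : ℕ))) • MvPolynomial.rename τ P = 0) :
    KillsTensors n fun τ => ∑ s, (α τ s : R) * c ^ (∑ i, (s i : ℕ)) := by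
  classical
  intro w w'
  set S : Finset (Equiv.Perm (Fin r)) := univ.filter fun τ => w ∘ ⇑τ = w' with hS
  let G : ℚ[X] := ∑ τ ∈ S, ∑ s : Fin r → Fin M, Polynomial.C (α τ s) * X ^ (∑ i, (s i : ℕ))
  have haev : ∀ {F : Type _} [Field F] [CharZero F] (a : F), aeval a G =
      ∑ τ ∈ S, ∑ s : Fin r → Fin M, (α τ s : F) * a ^ (∑ i, (s i : ℕ)) := by
    intro F _ _ a
    simp [G, map_sum]
  have haev' : ∀ {F : Type _} [Field F] [CharZero F] (a : F), aeval a G =
      ∑ τ ∈ S, ∑ s : Fin r → Fin M, (α τ s : F) * a ^ (∑ i, (s i : ℕ)) := by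
    intro F _ _ a
    simp [G, map_sum]
  have h1 : aeval ζ G = 0 := by
    rw [haev]
    let d : (Fin r) →₀ ℕ := Finsupp.equivFunOnFinite.symm fun i => (w i : ℕ)
    let d' : (Fin r) →₀ ℕ := Finsupp.equivFunOnFinite.symm fun i => (w' i : ℕ)
    have h2 := congrArg (MvPolynomial.coeff d) (hα (MvPolynomial.monomial d' 1) fun i => by
      rw [MvPolynomial.degreeOf_monomial_eq _ _ one_ne_zero]
      exact (w' i).2)
    have h3 : ∀ τ : Equiv.Perm (Fin r), Finsupp.mapDomain τ d' = d ↔ w ∘ ⇑τ = w' := by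
      intro τ
      constructor
      · intro h
        funext i
        have h4 := DFunLike.congr_fun h (τ i)
        rw [Finsupp.mapDomain_apply τ.injective] at h4
        exact (Fin.ext h4).symm
      · intro h
        ext i
        obtain ⟨j, rfl⟩ := τ.surjective i
        rw [Finsupp.mapDomain_apply τ.injective]
        have h4 := congrFun h j
        change (w' j : ℕ) = (w (τ j) : ℕ)
        rw [← h4]
        rfl
    simp only [MvPolynomial.coeff_sum, MvPolynomial.coeff_smul, MvPolynomial.rename_monomial,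
      MvPolynomial.coeff_monomial, h3, MvPolynomial.coeff_zero, smul_eq_mul, mul_ite, mul_one,
      mul_zero] at h2
    rw [← h2, hS, Finset.sum_filter]
    refine Finset.sum_congr rfl fun τ _ => ?_
    split_ifs with h
    · rfl
    · simp
  have h2 : minpoly ℚ c ∣ G := by
    rw [← Polynomial.cyclotomic_eq_minpoly_rat hc hM, Polynomial.cyclotomic_eq_minpoly_rat hζ hM]
    exact minpoly.dvd ℚ ζ h1
  obtain ⟨Q, hQ⟩ := h2
  have h3 : aeval c G = 0 := by
    rw [hQ, map_mul, minpoly.aeval, zero_mul]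
  rw [haev'] at h3
  exact h3

section

variable {k : Type u} [Field k] {LE LC : Type u} [Field LE] [Field LC] [Algebra k LE] [Algebra k LC]

/-- The automorphism of `(E × C) ^ r` (and of `S ^ r`) given by a permutation `τ` of the factors and
the automorphisms `σ ^ (s i)` of `E` for `i = 1, …, r`. -/
def sact {r : ℕ} (σ : LE ≃ₐ[k] LE) (τ : Equiv.Perm (Fin r)) (s : Fin r → ℕ)
    (p : Pts k LE LC (Fin r) (Fin r)) : Pts k LE LC (Fin r) (Fin r) :=
  (fun i => (p.1 (τ i)).map (σ ^ s i), fun i => p.2 (τ i))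

end

section

variable {k : Type u} [Field k] [IsAlgClosed k] [CharZero k] {LE LC : Type u} [Field LE] [Field LC]
  [Algebra k LE] [Algebra k LC] {R : Type w} [Field R] [CharZero R] {r : ℕ}

theorem pres_sact (σ : LE ≃ₐ[k] LE) (τ : Equiv.Perm (Fin r)) (s : Fin r → ℕ) :
    Pres (sact σ τ s : Pts k LE LC (Fin r) (Fin r) → _) :=
  fun _ hφ => ⟨fun i => (hφ.1 (τ i)).map _, fun i => hφ.2 (τ i)⟩

theorem sact_eigen {σ : LE ≃ₐ[k] LE} {c : R} {v : CH k LE LC (Fin r) (Fin r) R}
    (h : ∀ i, push (pres_actE σ i 1) v = c • v) (τ : Equiv.Perm (Fin r)) (s : Fin r → ℕ) :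
    push (pres_sact σ τ s) v = c ^ (∑ l, s l) • push (pres_reidx τ τ) v := by
  have key : ∀ (S : Finset (Fin r)) (s : Fin r → ℕ), (∀ l ∉ S, s l = 0) →
      push (pres_sact σ 1 s) v = c ^ (∑ l, s l) • v := by
    intro S
    induction S using Finset.induction_on with
    | empty =>
      intro s hs
      rw [Finset.sum_eq_zero fun l _ => hs l (Finset.notMem_empty l), pow_zero, one_smul]
      refine push_id _ (fun p => ?_) v
      refine Prod.ext ?_ rfl
      funext l
      simp only [sact, hs l (Finset.notMem_empty l), pow_zero, Place.map_one, Equiv.Perm.coe_one,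
        id_eq]
    | insert l₀ S hl₀ ih =>
      intro s hs
      have h1 : push (pres_sact σ 1 s) v = push (pres_actE σ l₀ (s l₀))
          (push (pres_sact σ 1 (Function.update s l₀ 0)) v) := by
        rw [push_push]
        refine push_congr _ _ (fun p => ?_) v
        refine Prod.ext ?_ rfl
        funext l
        simp only [Function.comp_apply, sact, actE, Equiv.Perm.coe_one, id_eq]
        by_cases hl : l = l₀
        · subst hl
          rw [Function.update_self, Function.update_self, pow_zero, Place.map_one]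
        · rw [Function.update_of_ne hl, Function.update_of_ne hl]
      rw [h1, ih (Function.update s l₀ 0) fun l hl => ?_, map_smul, actE_eigen (h l₀), smul_smul,
        ← pow_add]
      · congr 2
        rw [Finset.sum_update_of_mem (Finset.mem_univ _), zero_add,
          ← Finset.sum_sdiff (Finset.subset_univ {l₀}), Finset.sum_singleton]
      · by_cases hll : l = l₀
        · rw [hll, Function.update_self]
        · rw [Function.update_of_ne hll]
          apply hs
          rw [Finset.mem_insert]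
          push Not
          exact ⟨hll, hl⟩
  have h2 : push (pres_sact σ τ s) v = push (pres_reidx τ τ)
      (push (pres_sact σ 1 (s ∘ ⇑τ⁻¹)) v) := by
    rw [push_push]
    refine push_congr _ _ (fun p => ?_) v
    refine Prod.ext ?_ rfl
    funext l
    simp [sact, reidx]
  rw [h2, key Finset.univ _ fun l hl => absurd (Finset.mem_univ l) hl, map_smul]
  congr 2
  exact Equiv.sum_comp τ⁻¹ s

/-! ### Permutations of the factors preserve the eigenspaces -/

theorem setE_reidx (P₀ : Place k LE) (τ : Equiv.Perm (Fin r)) (i : Fin r)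
    (v : CH k LE LC (Fin r) (Fin r) R) :
    push (pres_setE P₀ i) (push (pres_reidx τ τ) v) =
      push (pres_reidx τ τ) (push (pres_setE P₀ (τ i)) v) := by
  refine push_comm _ _ _ _ (fun p => ?_) v
  refine Prod.ext ?_ rfl
  funext l
  simp only [setE, reidx, Function.comp_apply]
  by_cases hl : l = i
  · subst hl
    rw [Function.update_self, Function.update_self]
  · rw [Function.update_of_ne hl, Function.update_of_ne (fun h => hl (τ.injective h))]
    rfl

theorem actE_reidx (σ : LE ≃ₐ[k] LE) (b : ℕ) (τ : Equiv.Perm (Fin r)) (i : Fin r)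
    (v : CH k LE LC (Fin r) (Fin r) R) :
    push (pres_actE σ i b) (push (pres_reidx τ τ) v) =
      push (pres_reidx τ τ) (push (pres_actE σ (τ i) b) v) := by
  refine push_comm _ _ _ _ (fun p => ?_) v
  refine Prod.ext ?_ rfl
  funext l
  simp only [actE, reidx, Function.comp_apply]
  by_cases hl : l = i
  · subst hl
    rw [Function.update_self, Function.update_self]
  · rw [Function.update_of_ne hl, Function.update_of_ne (fun h => hl (τ.injective h))]
    rfl

theorem actK_reidx (σ : LC ≃ₐ[k] LC) (b : ℕ) (τ : Equiv.Perm (Fin r)) (i : Fin r)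
    (v : CH k LE LC (Fin r) (Fin r) R) :
    push (pres_actK σ i b) (push (pres_reidx τ τ) v) =
      push (pres_reidx τ τ) (push (pres_actK σ (τ i) b) v) := by
  refine push_comm _ _ _ _ (fun p => ?_) v
  refine Prod.ext rfl ?_
  funext l
  simp only [actK, reidx, Function.comp_apply]
  by_cases hl : l = i
  · subst hl
    rw [Function.update_self, Function.update_self]
  · rw [Function.update_of_ne hl, Function.update_of_ne (fun h => hl (τ.injective h))]
    rfl

/-- The antisymmetriser is the symmetriser for the coordinates in `C`. -/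
theorem anti_eq {σE : LE ≃ₐ[k] LE} {e : Fin 4 → k} {x' y' : LE}
    (h : Cyclic 2 (-1) e (fun _ => 1) σE x' y') {P₀ : Place k LE}
    {v : CH k LE LC (Fin r) (Fin r) R} (hv : ∀ i, push (pres_setE P₀ i) v = 0)
    (π : Equiv.Perm (Fin r)) :
    ((Equiv.Perm.sign π : ℤ) : R) • push (pres_reidx π π) v = push (pres_reidx id π) v := by
  have h1 : push (pres_reidx π π) v = push (pres_reidx id π) (push (pres_reidx π id) v) := by
    rw [push_push]
    exact push_congr _ _ (fun p => rfl) v
  rw [h1, perm_sign h hv π, map_smul, smul_smul]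
  have h2 : ((Equiv.Perm.sign π : ℤ) : R) * ((Equiv.Perm.sign π : ℤ) : R) = 1 := by
    rcases Int.units_eq_one_or (Equiv.Perm.sign π) with h | h <;> rw [h] <;> norm_num
  rw [h2, one_smul]

/-- The end of the proof for an eigenvector. -/
theorem group_eigen {n M : ℕ} {σE : LE ≃ₐ[k] LE} {c : R}
    {v : CH k LE LC (Fin r) (Fin r) R} (h : ∀ i, push (pres_actE σE i 1) v = c • v)
    (hJ : ∀ (τ : Equiv.Perm (Fin r)) (J : Finset (Fin r)), J.card = n + 1 →
      ∑ π ∈ fixing J, ((Equiv.Perm.sign π : ℤ) : R) •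
        push (pres_reidx π π) (push (pres_reidx τ τ) v) = 0)
    {α : Equiv.Perm (Fin r) → (Fin r → Fin M) → ℚ}
    (hα : KillsTensors n fun τ => ∑ s, (α τ s : R) * c ^ (∑ i, (s i : ℕ))) :
    ∑ τ, ∑ s : Fin r → Fin M, (α τ s : R) • push (pres_sact σE τ fun i => s i) v = 0 := by
  have h1 := second_fundamental (f := fun τ => push (pres_reidx τ τ) v) ?_ hα
  · rw [← h1]
    refine Finset.sum_congr rfl fun τ _ => ?_
    rw [Finset.sum_smul]
    refine Finset.sum_congr rfl fun s _ => ?_
    rw [sact_eigen h, smul_smul]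
  · intro τ J hJc
    rw [← hJ τ J hJc]
    refine Finset.sum_congr rfl fun π _ => ?_
    congr 1
    rw [push_push]
    exact push_congr _ _ (fun p => rfl) v

section ell

variable {ε M m d : ℕ} {ζ : k} {ω : R} {σE : LE ≃ₐ[k] LE} {σC : LC ≃ₐ[k] LC} {X Y : LE}
  {x y : LC} {J : Type} [Fintype J] {e : J → k} {a : J → ℕ} {n : ℕ}

/-- The theorem for the Chow group of `(E × C) ^ r`, `M = 4` or `6`. -/
theorem group_ell (hE : Ell ε ζ σE X Y) (hε : ε ≤ 1) (hM : M + 2 * ε = 6)
    (hζ : IsPrimitiveRoot ζ M) (hω : IsPrimitiveRoot ω M) (hd : d * m = M) (hm : 1 < m)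
    (hC : Cyclic m (ζ ^ d) e a σC x y) (ha : ∀ j, a j < m) (hsum : ∑ j, a j = m * (n + 1))
    {v : CH k LE LC (Fin r) (Fin r) R} (i₀ : Fin r)
    (hinv : ∀ i, push (pres_diag σE σC d i) v = v)
    (hproj : ∀ i : Fin r, push (pres_reidx (others i) (others i)) v = 0)
    {α : Equiv.Perm (Fin r) → (Fin r → Fin M) → ℚ}
    (hα : ∀ P : MvPolynomial (Fin r) k, (∀ i, P.degreeOf i < n) →
      ∑ τ, ∑ s, ((α τ s : k) * ζ ^ (∑ i, (s i : ℕ))) • MvPolynomial.rename τ P = 0) :
    ∑ τ, ∑ s : Fin r → Fin M, (α τ s : R) • push (pres_sact σE τ fun i => s i) v = 0 := by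
  classical
  have hM0 : 0 < M := by omega
  have hω0 : ω ≠ 0 := hω.ne_zero hM0.ne'
  have hζd : IsPrimitiveRoot (ζ ^ d) m := hζ.pow hM0 hd.symm
  obtain ⟨P₀, -⟩ := exists_place hE.transc (0 : k)
  obtain ⟨e', x', y', h'⟩ := hE.cyclic_four hε hM hζ
  have h1 := fun i => actK_eq_actE (hinv i)
  have h2 : ∀ i, push (pres_setE P₀ i) v = 0 := fun i =>
    setE_zero' hm hζd hC (by rw [hsum]; exact dvd_mul_right _ _) P₀ (hinv i) (hproj i)
  have h4 := fun i => actE_eq (σE := σE) h' h2 i i₀
  have h5 : ∀ (i) (b : ℕ), push (pres_actE σE i b) v = push (pres_actE σE i₀ b) v := by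
    intro i b
    by_cases hi : i = i₀
    · rw [hi]
    induction b with
    | zero => rw [push_id _ fun p => actE_zero _ i p, push_id _ fun p => actE_zero _ i₀ p]
    | succ b ih =>
      rw [add_comm b 1, ← actE_comp, ih, actE_actE_ne _ hi, h4, actE_comp, add_comm b 1]
  have hquad := quad hE hε hM hζ hω (h2 i₀)
  -- the two eigenvectors
  have key : ∀ (c c' : R), c * c' = 1 → c + c' = ω + ω⁻¹ → IsPrimitiveRoot c M →
      ∑ τ, ∑ s : Fin r → Fin M, (α τ s : R) • push (pres_sact σE τ fun i => s i)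
        (push (pres_actE σE i₀ 1) v - c' • v) = 0 := by
    intro c c' hcc hcs hc
    set u := push (pres_actE σE i₀ 1) v - c' • v with hu
    have h6 : push (pres_actE σE i₀ 1) u = c • u := by
      rw [hu, map_sub, map_smul, actE_comp, hquad, ← hcs, smul_sub, smul_smul, hcc]
      module
    have h7 : ∀ i, push (pres_setE P₀ i) u = 0 := by
      intro i
      by_cases hi : i = i₀
      · subst hi
        rw [hu, map_sub, map_smul, setE_actE_self, h2, smul_zero, sub_zero]
      · rw [hu, map_sub, map_smul, setE_actE_ne _ _ hi, h2, map_zero, smul_zero, sub_zero]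
    have h8 : ∀ i, push (pres_actE σE i 1) u = c • u := fun i => by
      rw [actE_eq h' h7 i i₀, h6]
    have h9 : ∀ i, push (pres_actK σC i 1) u = c ^ d • u := by
      intro i
      rw [hu, map_sub, map_smul, push_comm (pres_actK σC i 1) (pres_actE σE i₀ 1)
        (pres_actE σE i₀ 1) (pres_actK σC i 1) (fun p => rfl), h1, h5, ← hu,
        ← actE_eigen h6, hu, map_sub, map_smul, actE_comp, actE_comp, add_comm d 1]
    refine group_eigen h8 ?_ (killsTensors_of hM0 hζ hc hα)
    intro τ S hS
    have hv : ∀ i, push (pres_setE P₀ i) (push (pres_reidx τ τ) u) = 0 := fun i => by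
      rw [setE_reidx, h7, map_zero]
    have hvE : ∀ i, push (pres_actE σE i 1) (push (pres_reidx τ τ) u) =
        c • push (pres_reidx τ τ) u := fun i => by
      rw [actE_reidx, h8, map_smul]
    have hvK : ∀ i, push (pres_actK σC i 1) (push (pres_reidx τ τ) u) =
        c ^ d • push (pres_reidx τ τ) u := fun i => by
      rw [actK_reidx, h9, map_smul]
    have hι : Nonempty (Fin (n + 1) ≃ {x // x ∈ S}) :=
      ⟨Fintype.equivOfCardEq (by rw [Fintype.card_fin, Fintype.card_coe, hS])⟩
    obtain ⟨ι⟩ := hι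
    rw [Finset.sum_congr rfl fun π _ => anti_eq h' hv π, sum_fixing ι]
    exact symJ hE hε hM hζ hc hd hm hC ha hsum ι (hvE i₀) hvK
  have h6 := key ω ω⁻¹ (mul_inv_cancel₀ hω0) rfl hω
  have h7 := key ω⁻¹ ω (inv_mul_cancel₀ hω0) (add_comm _ _) hω.inv
  have h8 : (ω - ω⁻¹) • ∑ τ, ∑ s : Fin r → Fin M,
      (α τ s : R) • push (pres_sact σE τ fun i => s i) v = 0 := by
    refine Eq.trans ?_ ((congrArg₂ (fun a b => a - b) h6 h7).trans (sub_zero _))
    rw [← Finset.sum_sub_distrib, Finset.smul_sum]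
    refine Finset.sum_congr rfl fun τ _ => ?_
    rw [← Finset.sum_sub_distrib, Finset.smul_sum]
    refine Finset.sum_congr rfl fun s _ => ?_
    rw [← smul_sub, ← map_sub, smul_comm, ← map_smul]
    congr 2
    module
  rcases smul_eq_zero.1 h8 with h9 | h9
  · exfalso
    have h10 : ω ^ 2 = 1 := by
      have h11 : ω = ω⁻¹ := sub_eq_zero.1 h9
      rw [pow_two]
      nth_rewrite 2 [h11]
      exact mul_inv_cancel₀ hω0
    exact hω.pow_ne_one_of_pos_of_lt (by norm_num) (by omega) h10
  · exact h9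

/-- The theorem for the Chow group of `(E × C) ^ r`, `M = 2`. -/
theorem group_two {e' : Fin 4 → k} {x' y' : LE} (h' : Cyclic 2 (-1) e' (fun _ => 1) σE x' y')
    (hC : Cyclic 2 (-1) e a σC x y) (ha : ∀ j, a j < 2) (hsum : ∑ j, a j = 2 * (n + 1))
    {v : CH k LE LC (Fin r) (Fin r) R}
    (hinv : ∀ i, push (pres_diag σE σC 1 i) v = v)
    (hproj : ∀ i : Fin r, push (pres_reidx (others i) (others i)) v = 0)
    {α : Equiv.Perm (Fin r) → (Fin r → Fin 2) → ℚ}
    (hα : ∀ P : MvPolynomial (Fin r) k, (∀ i, P.degreeOf i < n) →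
      ∑ τ, ∑ s, ((α τ s : k) * (-1) ^ (∑ i, (s i : ℕ))) • MvPolynomial.rename τ P = 0) :
    ∑ τ, ∑ s : Fin r → Fin 2, (α τ s : R) • push (pres_sact σE τ fun i => s i) v = 0 := by
  classical
  have hneg : IsPrimitiveRoot (-1 : k) 2 := IsPrimitiveRoot.neg_one 0 (by norm_num)
  have hnegR : IsPrimitiveRoot (-1 : R) 2 := IsPrimitiveRoot.neg_one 0 (by norm_num)
  obtain ⟨P₀, -⟩ := exists_place h'.transc (0 : k)
  have h2 : ∀ i, push (pres_setE P₀ i) v = 0 := fun i =>
    setE_zero' one_lt_two hneg hC (by rw [hsum]; exact dvd_mul_right _ _) P₀ (hinv i) (hproj i)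
  have h8 : ∀ i, push (pres_actE σE i 1) v = (-1 : R) • v := by
    intro i
    rw [half' h' (h2 i), neg_one_smul]
  have h9 : ∀ i, push (pres_actK σC i 1) v = (-1 : R) • v := by
    intro i
    rw [actK_eq_actE (hinv i), h8]
  refine group_eigen h8 ?_ (killsTensors_of two_pos hneg hnegR hα)
  intro τ S hS
  have hv : ∀ i, push (pres_setE P₀ i) (push (pres_reidx τ τ) v) = 0 := fun i => by
    rw [setE_reidx, h2, map_zero]
  have hvK : ∀ i, push (pres_actK σC i 1) (push (pres_reidx τ τ) v) =
      (-1 : R) • push (pres_reidx τ τ) v := fun i => by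
    rw [actK_reidx, h9, map_smul]
  have hι : Nonempty (Fin (n + 1) ≃ {x // x ∈ S}) :=
    ⟨Fintype.equivOfCardEq (by rw [Fintype.card_fin, Fintype.card_coe, hS])⟩
  obtain ⟨ι⟩ := hι
  rw [Finset.sum_congr rfl fun π _ => anti_eq h' hv π, sum_fixing ι]
  exact symJ_two hC ha hsum ι hvK

end ell

end

end Pool.Agent.ZIso
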