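import Pool.Agent.ZIso.BbDefs
import Pool.Agent.ZIso.GroupAlg
import Pool.Agent.BBF.Grad

/-!
# The filtration on the zero-cycles on all powers of an isotrivial elliptic surface: functoriality
-/

open Polynomial Pool.Agent.ZCyc

set_option autoImplicit false

noncomputable section

namespace Pool.Agent.ZIso

universe u w

section

variable {k : Type u} [Field k] {LE LC : Type u} [Field LE] [Field LC] [Algebra k LE] [Algebra k LC]
  {σE : LE ≃ₐ[k] LE} {σC : LC ≃ₐ[k] LC} {d M m m' : ℕ}

/-- some of the coordinates can be moved by the group -/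
theorem deck_mem (T : Finset (Fin m)) (q : Fin m → Place k LE × Place k LC) :
    (Finsupp.single (fun j => if j ∈ T then deck σE σC d (q j) else q j) 1 -
      Finsupp.single q 1 : (Fin m → Place k LE × Place k LC) →₀ ℚ) ∈ ratS σE σC d m := by
  induction T using Finset.induction_on with
  | empty =>
    simp only [Finset.notMem_empty, if_false, sub_self]
    exact Submodule.zero_mem _
  | insert i T hi ih =>
    have h1 : (Finsupp.single (Function.update (fun j => if j ∈ T then deck σE σC d (q j) else q j)
        i (deck σE σC d ((fun j => if j ∈ T then deck σE σC d (q j) else q j) i))) 1 -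
        Finsupp.single (fun j => if j ∈ T then deck σE σC d (q j) else q j) 1 :
        (Fin m → Place k LE × Place k LC) →₀ ℚ) ∈ ratS σE σC d m :=
      Submodule.subset_span (Or.inr ⟨_, i, rfl⟩)
    have h2 := Submodule.add_mem _ h1 ih
    rw [sub_add_sub_cancel] at h2
    have h3 : Function.update (fun j => if j ∈ T then deck σE σC d (q j) else q j)
        i (deck σE σC d ((fun j => if j ∈ T then deck σE σC d (q j) else q j) i)) =
        fun j => if j ∈ insert i T then deck σE σC d (q j) else q j := by
      funext j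
      by_cases hj : j = i
      · subst hj
        rw [Function.update_self, if_pos (Finset.mem_insert_self _ _)]
        simp only [if_neg hi]
      · rw [Function.update_of_ne hj]
        by_cases hjT : j ∈ T
        · rw [if_pos hjT, if_pos (Finset.mem_insert_of_mem hjT)]
        · rw [if_neg hjT, if_neg]
          rw [Finset.mem_insert]
          rintro (h | h)
          · exact hj h
          · exact hjT h
    rwa [h3] at h2

theorem actS_deck (s : Fin M) (p : Place k LE × Place k LC) :
    actS σE s (deck σE σC d p) = deck σE σC d (actS σE s p) := by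
  refine Prod.ext ?_ rfl
  simp only [actS, deck]
  rw [Place.map_map, Place.map_map]
  congr 1
  change (σE ^ (s : ℕ)) * (σE ^ d)⁻¹ = (σE ^ d)⁻¹ * (σE ^ (s : ℕ))
  have h : Commute (σE ^ (s : ℕ)) (σE ^ d)⁻¹ := ((Commute.refl σE).pow_pow _ _).inv_right
  exact h.eq

/-- the morphisms preserve rational equivalence -/
theorem ratS_map (f : BBF.Mor (Place k LE × Place k LC) (Fin M) m m') :
    (ratS σE σC d m).map (Finsupp.lmapDomain ℚ ℚ (f.app (actS σE))) ≤ ratS σE σC d m' := by
  classical
  unfold ratS
  rw [Submodule.map_span_le]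
  rintro z (⟨F, _, _, _, _, _, _, φ, hφ1, hφ2, a, b, v, w, hv, hw, rfl⟩ | ⟨p, i, rfl⟩)
  · refine Submodule.subset_span (Or.inl ⟨F, inferInstance, inferInstance, inferInstance,
      inferInstance, inferInstance, inferInstance, fun v => f.app (actS σE) (φ v), ?_, ?_, a, b,
      v, w, hv, hw, ?_⟩)
    · intro j
      change IsComp fun v => (BBF.Comp.app (actS σE) (f j) (φ v)).1
      cases f j with
      | const q => exact isComp_const (k := k) (F := F) q.1
      | fac i s => exact (hφ1 i).map (σE ^ (s : ℕ))
    · intro j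
      change IsComp fun v => (BBF.Comp.app (actS σE) (f j) (φ v)).2
      cases f j with
      | const q => exact isComp_const (k := k) (F := F) q.2
      | fac i s => exact hφ2 i
    · rw [map_sum]
      refine Finset.sum_congr rfl fun τ _ => ?_
      rw [map_sub, Finsupp.lmapDomain_apply, Finsupp.lmapDomain_apply, Finsupp.mapDomain_single,
        Finsupp.mapDomain_single]
  · rw [map_sub, Finsupp.lmapDomain_apply, Finsupp.lmapDomain_apply, Finsupp.mapDomain_single,
      Finsupp.mapDomain_single]
    have h1 : f.app (actS σE) (Function.update p i (deck σE σC d (p i))) = fun j =>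
        if j ∈ (Finset.univ.filter fun j => (f j).src = some i) then
          deck σE σC d (f.app (actS σE) p j) else f.app (actS σE) p j := by
      funext j
      simp only [Finset.mem_filter, Finset.mem_univ, true_and]
      unfold BBF.Mor.app
      cases hf : f j with
      | const q => simp [BBF.Comp.app, BBF.Comp.src]
      | fac i' s =>
        simp only [BBF.Comp.app, BBF.Comp.src, Option.some.injEq]
        by_cases hi : i' = i
        · subst hi
          rw [Function.update_self, if_pos rfl, actS_deck]
        · rw [Function.update_of_ne hi, if_neg hi]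
    rw [h1]
    exact deck_mem _ _

theorem ratS_deg : ∀ z ∈ ratS (k := k) σE σC d m, (z.sum fun _ c => c) = 0 := by
  intro z hz
  have h1 : ratS (k := k) σE σC d m ≤ LinearMap.ker (Finsupp.linearCombination ℚ
      fun _ : Fin m → Place k LE × Place k LC => (1 : ℚ)) := by
    unfold ratS
    rw [Submodule.span_le]
    rintro z (⟨F, _, _, _, _, _, _, φ, hφ1, hφ2, a, b, v, w, hv, hw, rfl⟩ | ⟨p, i, rfl⟩)
    · rw [SetLike.mem_coe, LinearMap.mem_ker, map_sum]
      refine Finset.sum_eq_zero fun τ _ => ?_
      rw [map_sub, Finsupp.linearCombination_single, Finsupp.linearCombination_single, sub_self]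
    · rw [SetLike.mem_coe, LinearMap.mem_ker, map_sub, Finsupp.linearCombination_single,
        Finsupp.linearCombination_single, sub_self]
  have h2 := LinearMap.mem_ker.1 (h1 hz)
  rw [Finsupp.linearCombination_apply] at h2
  simpa using h2

/-- the points of `(E × C) ^ m` -/
def toPts (p : Fin m → Place k LE × Place k LC) : Pts k LE LC (Fin m) (Fin m) :=
  (fun i => (p i).1, fun i => (p i).2)

/-- the points of `(E × C) ^ m` -/
def ofPts (p : Pts k LE LC (Fin m) (Fin m)) : Fin m → Place k LE × Place k LC :=
  fun i => (p.1 i, p.2 i)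

theorem ofPts_toPts (p : Fin m → Place k LE × Place k LC) : ofPts (toPts p) = p := rfl

theorem ratS_of_rat {z : Pts k LE LC (Fin m) (Fin m) →₀ ℚ}
    (hz : z ∈ rat k LE LC (Fin m) (Fin m) ℚ) : z.mapDomain ofPts ∈ ratS σE σC d m := by
  have h1 : (rat k LE LC (Fin m) (Fin m) ℚ).map (Finsupp.lmapDomain ℚ ℚ ofPts) ≤
      ratS σE σC d m := by
    unfold rat ratS
    rw [Submodule.map_span_le]
    rintro z ⟨F, _, _, _, _, _, _, φ, hφ, a, b, v, w, hv, hw, rfl⟩
    refine Submodule.subset_span (Or.inl ⟨F, inferInstance, inferInstance, inferInstance,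
      inferInstance, inferInstance, inferInstance, fun v => ofPts (φ v), hφ.1, hφ.2, a, b,
      v, w, hv, hw, ?_⟩)
    rw [map_sum]
    refine Finset.sum_congr rfl fun τ _ => ?_
    rw [map_sub, Finsupp.lmapDomain_apply, Finsupp.lmapDomain_apply, Finsupp.mapDomain_single,
      Finsupp.mapDomain_single]
  exact h1 (Submodule.mem_map_of_mem hz)

/-! ### The average over the group -/

/-- the action of the group -/
def deckPow (σE : LE ≃ₐ[k] LE) (σC : LC ≃ₐ[k] LC) (d : ℕ) {n : ℕ} (t : Fin m → Fin n)
    (p : Pts k LE LC (Fin m) (Fin m)) : Pts k LE LC (Fin m) (Fin m) :=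
  (fun i => (p.1 i).map ((σE ^ d)⁻¹ ^ (t i : ℕ)), fun i => (p.2 i).map (σC ^ (t i : ℕ)))

/-- the average over the group -/
def avg (σE : LE ≃ₐ[k] LE) (σC : LC ≃ₐ[k] LC) (d n : ℕ) (z : Pts k LE LC (Fin m) (Fin m) →₀ ℚ) :
    Pts k LE LC (Fin m) (Fin m) →₀ ℚ :=
  ((n : ℚ) ^ m)⁻¹ • ∑ t : Fin m → Fin n, z.mapDomain (deckPow σE σC d t)

theorem pow_val_add_one {H : Type*} [Group H] {g : H} {n : ℕ} [NeZero n] (hg : g ^ n = 1)
    (t : Fin n) : g ^ ((t + 1 : Fin n) : ℕ) = g * g ^ (t : ℕ) := by
  rw [Fin.val_add]
  have h1 : ((1 : Fin n) : ℕ) = 1 % n := Fin.val_one' n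
  rw [h1, Nat.add_mod_mod, ← pow_mod_orderOf, Nat.mod_mod_of_dvd _ (orderOf_dvd_of_pow_eq_one hg),
    pow_mod_orderOf, pow_succ']

theorem avg_inv {n : ℕ} [NeZero n] (hE : ((σE ^ d)⁻¹) ^ n = 1) (hC : σC ^ n = 1)
    (z : Pts k LE LC (Fin m) (Fin m) →₀ ℚ) (i : Fin m) :
    (avg σE σC d n z).mapDomain (diag σE σC d i) = avg σE σC d n z := by
  unfold avg
  rw [Finsupp.mapDomain_smul, Finsupp.mapDomain_finsetSum]
  congr 1
  refine Fintype.sum_equiv (Equiv.piCongrRight fun j : Fin m => if j = i then Equiv.addRight 1 else
    Equiv.refl (Fin n)) _ _ fun t => ?_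
  rw [← Finsupp.mapDomain_comp]
  congr 1
  funext p
  refine Prod.ext ?_ ?_
  · funext j
    simp only [Function.comp_apply, diag, deckPow, Equiv.piCongrRight_apply]
    by_cases hj : j = i
    · subst hj
      rw [Function.update_self, Place.map_map, Pi.map_apply, if_pos rfl, Equiv.coe_addRight,
        pow_val_add_one hE]
      rfl
    · rw [Function.update_of_ne hj, Pi.map_apply, if_neg hj]
      rfl
  · funext j
    simp only [Function.comp_apply, diag, deckPow, Equiv.piCongrRight_apply]
    by_cases hj : j = i
    · subst hj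
      rw [Function.update_self, Place.map_map, Pi.map_apply, if_pos rfl, Equiv.coe_addRight,
        pow_val_add_one hC]
      rfl
    · rw [Function.update_of_ne hj, Pi.map_apply, if_neg hj]
      rfl

theorem avg_proj {n : ℕ} {z : Pts k LE LC (Fin m) (Fin m) →₀ ℚ} (i : Fin m)
    (hz : z.mapDomain (reidx (others i) (others i)) = 0) :
    (avg σE σC d n z).mapDomain (reidx (others i) (others i)) = 0 := by
  unfold avg
  rw [Finsupp.mapDomain_smul, Finsupp.mapDomain_finsetSum, Finset.sum_eq_zero, smul_zero]
  intro t _
  rw [← Finsupp.mapDomain_comp]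
  have h1 : (reidx (others i) (others i) ∘ deckPow σE σC d t :
      Pts k LE LC (Fin m) (Fin m) → Pts k LE LC {j // j ≠ i} {j // j ≠ i}) =
      (fun p => (fun j => (p.1 j).map ((σE ^ d)⁻¹ ^ (t j : ℕ)),
        fun j => (p.2 j).map (σC ^ (t j : ℕ)))) ∘ reidx (others i) (others i) := rfl
  rw [h1, Finsupp.mapDomain_comp, hz, Finsupp.mapDomain_zero]

/-- the average is equal to the cycle in the Chow group of `S ^ m` -/
theorem avg_mem {n : ℕ} (hn : 0 < n) (z : Pts k LE LC (Fin m) (Fin m) →₀ ℚ) :
    (avg σE σC d n z - z).mapDomain ofPts ∈ ratS σE σC d m := by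
  -- one point
  have h1 : ∀ (p : Pts k LE LC (Fin m) (Fin m)) (t : Fin m → ℕ),
      (Finsupp.single (ofPts (fun i => (p.1 i).map ((σE ^ d)⁻¹ ^ t i),
        fun i => (p.2 i).map (σC ^ t i))) 1 - Finsupp.single (ofPts p) 1 :
        (Fin m → Place k LE × Place k LC) →₀ ℚ) ∈ ratS σE σC d m := by
    intro p
    have key : ∀ (N : ℕ) (t : Fin m → ℕ), ∑ i, t i = N → (Finsupp.single
        (ofPts (fun i => (p.1 i).map ((σE ^ d)⁻¹ ^ t i),
        fun i => (p.2 i).map (σC ^ t i))) 1 - Finsupp.single (ofPts p) 1 :
        (Fin m → Place k LE × Place k LC) →₀ ℚ) ∈ ratS σE σC d m := by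
      intro N
      induction N with
      | zero =>
        intro t ht
        have h2 : ∀ i, t i = 0 := fun i => by
          have := Finset.sum_eq_zero_iff.1 ht i (Finset.mem_univ i)
          exact this
        have h3 : ((fun i => (p.1 i).map ((σE ^ d)⁻¹ ^ t i), fun i => (p.2 i).map (σC ^ t i)) :
            Pts k LE LC (Fin m) (Fin m)) = p := by
          refine Prod.ext ?_ ?_ <;> funext i <;> simp only [h2, pow_zero, Place.map_one]
        rw [h3, sub_self]
        exact Submodule.zero_mem _
      | succ N ih =>
        intro t ht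
        obtain ⟨i, hi⟩ : ∃ i, t i ≠ 0 := by
          by_contra hcon
          push Not at hcon
          rw [Finset.sum_eq_zero fun i _ => hcon i] at ht
          omega
        have h2 := ih (Function.update t i (t i - 1)) (by
          have h3 := Finset.sum_update_of_mem (Finset.mem_univ i) t (t i - 1)
          have h4 := Finset.sum_update_of_mem (Finset.mem_univ i) t (t i)
          rw [Function.update_eq_self] at h4
          omega)
        have h3 : (Finsupp.single (Function.update
            (ofPts (fun l => (p.1 l).map ((σE ^ d)⁻¹ ^ Function.update t i (t i - 1) l),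
              fun l => (p.2 l).map (σC ^ Function.update t i (t i - 1) l))) i
            (deck σE σC d (ofPts (fun l => (p.1 l).map ((σE ^ d)⁻¹ ^
              Function.update t i (t i - 1) l),
              fun l => (p.2 l).map (σC ^ Function.update t i (t i - 1) l)) i))) 1 -
            Finsupp.single (ofPts (fun l => (p.1 l).map ((σE ^ d)⁻¹ ^
              Function.update t i (t i - 1) l),
              fun l => (p.2 l).map (σC ^ Function.update t i (t i - 1) l))) 1 :
            (Fin m → Place k LE × Place k LC) →₀ ℚ) ∈ ratS σE σC d m :=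
          Submodule.subset_span (Or.inr ⟨_, i, rfl⟩)
        have h4 := Submodule.add_mem _ h3 h2
        rw [sub_add_sub_cancel] at h4
        convert h4 using 3
        funext l
        by_cases hl : l = i
        · subst hl
          rw [Function.update_self]
          refine Prod.ext ?_ ?_
          · simp only [ofPts, deck, Function.update_self]
            rw [Place.map_map]
            congr 1
            change _ = (σE ^ d)⁻¹ * (σE ^ d)⁻¹ ^ (t l - 1)
            rw [← pow_succ', Nat.sub_add_cancel (Nat.one_le_iff_ne_zero.2 hi)]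
          · simp only [ofPts, deck, Function.update_self]
            rw [Place.map_map]
            congr 1
            change _ = σC * σC ^ (t l - 1)
            rw [← pow_succ', Nat.sub_add_cancel (Nat.one_le_iff_ne_zero.2 hi)]
        · rw [Function.update_of_ne hl]
          simp only [ofPts, Function.update_of_ne hl]
    exact fun t => key _ t rfl
  have hn0 : (n : ℚ) ≠ 0 := Nat.cast_ne_zero.2 hn.ne'
  have h2 : (avg σE σC d n z - z).mapDomain ofPts = ((n : ℚ) ^ m)⁻¹ •
      ∑ t : Fin m → Fin n, z.sum fun p c => c •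
        (Finsupp.single (ofPts (deckPow σE σC d t p)) 1 - Finsupp.single (ofPts p) 1 :
          (Fin m → Place k LE × Place k LC) →₀ ℚ) := by
    have h3 : z = ((n : ℚ) ^ m)⁻¹ • ∑ t : Fin m → Fin n, z := by
      rw [Finset.sum_const, Finset.card_univ, ← Nat.cast_smul_eq_nsmul ℚ, smul_smul,
        Fintype.card_fun, Fintype.card_fin, Fintype.card_fin, Nat.cast_pow,
        inv_mul_cancel₀ (pow_ne_zero _ hn0), one_smul]
    have h4 : avg σE σC d n z - z = ((n : ℚ) ^ m)⁻¹ •
        ∑ t : Fin m → Fin n, (z.mapDomain (deckPow σE σC d t) - z) := by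
      rw [Finset.sum_sub_distrib, smul_sub, ← h3]
      rfl
    rw [h4, Finsupp.mapDomain_smul, Finsupp.mapDomain_finsetSum]
    congr 1
    refine Finset.sum_congr rfl fun t _ => ?_
    change (Finsupp.lmapDomain ℚ ℚ ofPts) (z.mapDomain (deckPow σE σC d t) - z) = _
    rw [map_sub, Finsupp.lmapDomain_apply, Finsupp.lmapDomain_apply, ← Finsupp.mapDomain_comp,
      Finsupp.mapDomain, Finsupp.mapDomain, ← Finsupp.sum_sub]
    refine Finsupp.sum_congr fun p _ => ?_
    rw [smul_sub, Finsupp.smul_single, Finsupp.smul_single, smul_eq_mul, mul_one]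
    rfl
  rw [h2]
  refine Submodule.smul_mem _ _ (Submodule.sum_mem _ fun t _ => ?_)
  refine Submodule.sum_mem _ fun p _ => Submodule.smul_mem _ _ ?_
  exact h1 p fun i => (t i : ℕ)

end

end Pool.Agent.ZIso
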