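import Pool.Agent.ZIso.Defs

/-!
# The elliptic curve as a double covering of the line, and its point at infinity
-/

open Polynomial Pool.Agent.ZCyc

namespace Pool.Agent.ZIso

universe u w

variable {k : Type u} [Field k] {ε M : ℕ} {ζ : k} {L : Type u} [Field L] [Algebra k L]
  {σ : L ≃ₐ[k] L} {x y : L}

private lemma Ell.pow_act (h : Ell ε ζ σ x y) (r : ℕ) :
    (σ ^ r) x = algebraMap k L (ζ ^ (2 * r)) * x ∧ (σ ^ r) y = algebraMap k L (ζ ^ (3 * r)) * y := by
  induction r with
  | zero => simp
  | succ r ih =>
    rw [pow_succ, AlgEquiv.mul_apply, AlgEquiv.mul_apply, h.actx, h.acty, map_mul, map_mul, ih.1,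
      ih.2, AlgEquiv.commutes, AlgEquiv.commutes]
    constructor
    · rw [← mul_assoc, ← map_mul]
      congr 2
      ring
    · rw [← mul_assoc, ← map_mul]
      congr 2
      ring

/-- the affine model is a double covering -/
theorem Ell.cyclic [IsAlgClosed k] [CharZero k] (h : Ell ε ζ σ x y) (hε : ε ≤ 1)
    (hM : M + 2 * ε = 6) (hζ : IsPrimitiveRoot ζ M) :
    ∃ e : Fin 3 → k, Cyclic 2 (-1) e (fun _ => 1) (σ ^ (M / 2)) x y := by
  have h2 : (2 : k) ≠ 0 := two_ne_zero
  rcases Nat.le_one_iff_eq_zero_or_eq_one.1 hε with rfl | rfl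
  · obtain rfl : M = 6 := by omega
    have h6 : ζ ^ 6 = 1 := hζ.pow_eq_one
    have h3 : ζ ^ 3 = -1 := by
      have h1 : (ζ ^ 3 - 1) * (ζ ^ 3 + 1) = 0 := by linear_combination h6
      rcases mul_eq_zero.1 h1 with h1 | h1
      · exact absurd (sub_eq_zero.1 h1) (hζ.pow_ne_one_of_pos_of_lt (by norm_num) (by norm_num))
      · linear_combination h1
    have hq : ζ ^ 2 - ζ + 1 = 0 := by
      have h1 : (ζ + 1) * (ζ ^ 2 - ζ + 1) = 0 := by linear_combination h3
      rcases mul_eq_zero.1 h1 with h1 | h1
      · exfalso
        have h4 : ζ ^ 2 = 1 := by linear_combination (ζ - 1) * h1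
        exact hζ.pow_ne_one_of_pos_of_lt (by norm_num) (by norm_num) h4
      · exact h1
    have h21 : ζ ^ 2 ≠ 1 := hζ.pow_ne_one_of_pos_of_lt (by norm_num) (by norm_num)
    have h41 : ζ ^ 4 ≠ 1 := hζ.pow_ne_one_of_pos_of_lt (by norm_num) (by norm_num)
    have h42 : ζ ^ 2 ≠ ζ ^ 4 := by
      intro h4
      apply h21
      have h5 : ζ ^ 2 * (ζ ^ 2 - 1) = 0 := by linear_combination -h4
      rcases mul_eq_zero.1 h5 with h5 | h5
      · exfalso
        have h7 : ζ = 0 := by simpa using h5
        rw [h7] at h6
        norm_num at h6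
      · linear_combination h5
    refine ⟨![-1, -ζ ^ 2, -ζ ^ 4], h.transc, h.gen, ?_, ?_, ?_, ?_, ?_⟩
    · rw [h.eqn, Fin.prod_univ_three]
      simp only [Matrix.cons_val_zero, Matrix.cons_val_one, Matrix.cons_val, pow_zero, pow_one,
        map_neg, map_pow, map_one]
      have hq' : algebraMap k L ζ ^ 2 - algebraMap k L ζ + 1 = 0 := by
        have := congrArg (algebraMap k L) hq
        simpa using this
      set z := algebraMap k L ζ
      linear_combination (-(x ^ 2 * (z ^ 2 + z + 1)) - x * (z ^ 2 * (z ^ 2 + z + 1)) - z ^ 4 - z ^ 3 + z + 1) * hq'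
    · intro i j hij
      fin_cases i <;> fin_cases j <;>
        simp only [Fin.zero_eta, Fin.mk_one, Fin.reduceFinMk, Matrix.cons_val_zero,
          Matrix.cons_val_one, Matrix.cons_val, neg_inj] at hij ⊢
      · exact absurd hij.symm h21
      · exact absurd hij.symm h41
      · exact absurd hij h21
      · exact absurd hij h42
      · exact absurd hij h41
      · exact absurd hij.symm h42
    · intro j
      norm_num
    · rw [(h.pow_act _).1]
      norm_num
      rw [← map_pow, h6, map_one, one_mul]
    · rw [(h.pow_act _).2]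
      norm_num
      rw [← map_pow]
      have : ζ ^ 9 = -1 := by linear_combination (ζ ^ 6 - ζ ^ 3 + 1) * h3
      rw [this, map_neg, map_one, neg_one_mul]
  · obtain rfl : M = 4 := by omega
    have h4 : ζ ^ 4 = 1 := hζ.pow_eq_one
    have hs : ζ ^ 2 = -1 := by
      have h1 : (ζ ^ 2 - 1) * (ζ ^ 2 + 1) = 0 := by linear_combination h4
      rcases mul_eq_zero.1 h1 with h1 | h1
      · exact absurd (sub_eq_zero.1 h1) (hζ.pow_ne_one_of_pos_of_lt (by norm_num) (by norm_num))
      · linear_combination h1
    have h0 : ζ ≠ 0 := by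
      rintro rfl
      norm_num at h4
    have hn : ζ ≠ -ζ := by
      intro h5
      apply h0
      have : 2 * ζ = 0 := by linear_combination h5
      rcases mul_eq_zero.1 this with h6 | h6
      · exact absurd h6 h2
      · exact h6
    refine ⟨![0, ζ, -ζ], h.transc, h.gen, ?_, ?_, ?_, ?_, ?_⟩
    · rw [h.eqn, Fin.prod_univ_three]
      simp only [Matrix.cons_val_zero, Matrix.cons_val_one, Matrix.cons_val, pow_one,
        map_neg, map_zero]
      have hq' : algebraMap k L ζ ^ 2 = -1 := by
        have := congrArg (algebraMap k L) hs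
        simpa using this
      set z := algebraMap k L ζ
      linear_combination x * hq'
    · intro i j hij
      fin_cases i <;> fin_cases j <;>
        simp only [Fin.zero_eta, Fin.mk_one, Fin.reduceFinMk, Matrix.cons_val_zero,
          Matrix.cons_val_one, Matrix.cons_val] at hij ⊢
      · exact absurd hij.symm h0
      · exact absurd (by simpa using hij.symm) h0
      · exact absurd hij h0
      · exact absurd hij hn
      · exact absurd (by simpa using hij) h0
      · exact absurd hij.symm hn
    · intro j
      norm_num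
    · rw [(h.pow_act _).1]
      norm_num
      rw [← map_pow, h4, map_one, one_mul]
    · rw [(h.pow_act _).2]
      norm_num
      rw [← map_pow]
      have : ζ ^ 6 = -1 := by linear_combination (ζ ^ 4 - ζ ^ 2 + 1) * hs
      rw [this, map_neg, map_one, neg_one_mul]

/-- functions at a point at infinity -/
private lemma Ell.infty_vanishes (h : Ell ε ζ σ x y) (hε : ε ≤ 1) {P : Place k L}
    (hP : x ∉ P.ring) : P.Vanishes (x / y) ∧ P.Vanishes y⁻¹ := by
  have hx : 1 < P.ring.valuation x := by
    rw [← not_le, ValuationSubring.valuation_le_one_iff]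
    exact hP
  have hx0 : (0 : P.ring.ValueGroup) < P.ring.valuation x := zero_lt_one.trans hx
  have h1 : P.ring.valuation (x ^ ε) < P.ring.valuation (x ^ 3) := by
    rw [map_pow, map_pow]
    exact pow_lt_pow_right₀ hx (by omega)
  have h2 : P.ring.valuation y ^ 2 = P.ring.valuation x ^ 3 := by
    rw [← map_pow, h.eqn, Valuation.map_add_eq_of_lt_left _ h1, map_pow]
  have h3 : 1 < P.ring.valuation y := by
    by_contra hcon
    have h4 := pow_le_one₀ zero_le (not_lt.1 hcon) (n := 2)
    rw [h2] at h4
    exact absurd h4 (not_le.2 (one_lt_pow₀ hx (by norm_num)))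
  have hy0 : (0 : P.ring.ValueGroup) < P.ring.valuation y := zero_lt_one.trans h3
  constructor
  · rw [Place.vanishes_iff, map_div₀]
    by_contra hcon
    rw [not_lt, one_le_div₀ hy0] at hcon
    have h4 := pow_le_pow_left₀ zero_le hcon 2
    rw [h2] at h4
    exact absurd h4 (not_le.2 (pow_lt_pow_right₀ hx (by norm_num)))
  · rw [Place.vanishes_iff, map_inv₀]
    exact inv_lt_one_of_one_lt₀ h3

/-- there is only one point at infinity -/
theorem Ell.infty_unique (h : Ell ε ζ σ x y) (hε : ε ≤ 1) {P Q : Place k L} (hP : x ∉ P.ring)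
    (hQ : x ∉ Q.ring) : P = Q := by
  classical
  obtain ⟨hPU, hPV⟩ := h.infty_vanishes hε hP
  obtain ⟨hQU, hQV⟩ := h.infty_vanishes hε hQ
  have hy0 : y ≠ 0 := by
    rintro rfl
    have hx : 1 < P.ring.valuation x := by
      rw [← not_le, ValuationSubring.valuation_le_one_iff]
      exact hP
    have h1 : P.ring.valuation (x ^ ε) < P.ring.valuation (x ^ 3) := by
      rw [map_pow, map_pow]
      exact pow_lt_pow_right₀ hx (by omega)
    have h2 := h.eqn
    rw [zero_pow two_ne_zero] at h2
    have h3 : P.ring.valuation (x ^ 3 + x ^ ε) = P.ring.valuation (x ^ 3) := by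
      rw [Valuation.map_add_eq_of_lt_left _ h1]
    rw [← h2, map_zero, map_pow] at h3
    exact absurd h3 (pow_pos (zero_lt_one.trans hx) 3).ne
  set U : L := x / y with hU
  set V : L := y⁻¹ with hV
  have hUa : U ∈ Algebra.adjoin k ((({U, V} : Finset L) : Set L)) :=
    Algebra.subset_adjoin (by simp)
  have hVa : V ∈ Algebra.adjoin k ((({U, V} : Finset L) : Set L)) :=
    Algebra.subset_adjoin (by simp)
  refine Place.eq_of_uniformizer (S := {U, V}) ?_ (fun _ => 0) ?_ ?_ hUa hPU ?_
  · rw [eq_top_iff, ← h.gen, IntermediateField.adjoin_le_iff]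
    have hU' : U ∈ IntermediateField.adjoin k ((({U, V} : Finset L) : Set L)) :=
      IntermediateField.subset_adjoin _ _ (by simp)
    have hV' : V ∈ IntermediateField.adjoin k ((({U, V} : Finset L) : Set L)) :=
      IntermediateField.subset_adjoin _ _ (by simp)
    have hy : y ∈ IntermediateField.adjoin k ((({U, V} : Finset L) : Set L)) := by
      have := inv_mem hV'
      rwa [hV, inv_inv] at this
    have hx : x ∈ IntermediateField.adjoin k ((({U, V} : Finset L) : Set L)) := by
      have := mul_mem hU' hy
      rwa [hU, div_mul_cancel₀ _ hy0] at this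
    rintro s (rfl | rfl)
    · exact hx
    · exact hy
  · intro s hs
    rw [Place.at_zero_iff]
    rcases Finset.mem_insert.1 hs with rfl | hs
    · exact hPU
    · rw [Finset.mem_singleton.1 hs]
      exact hPV
  · intro s hs
    rw [Place.at_zero_iff]
    rcases Finset.mem_insert.1 hs with rfl | hs
    · exact hQU
    · rw [Finset.mem_singleton.1 hs]
      exact hQV
  · have h1v : ¬ P.Vanishes (1 : L) := by
      have := P.const_unit (one_ne_zero (α := k))
      rwa [map_one] at this
    intro s hs
    rcases Finset.mem_insert.1 hs with rfl | hs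
    · refine ⟨1, one_mem _, 1, one_mem _, h1v, ?_⟩
      rw [map_zero, sub_zero]
    · rw [Finset.mem_singleton.1 hs]
      have key : ∀ W ∈ Algebra.adjoin k ((({U, V} : Finset L) : Set L)), P.Vanishes W →
          V * (1 - W) = U ^ 3 →
          ∃ g ∈ Algebra.adjoin k ((({U, V} : Finset L) : Set L)),
          ∃ h ∈ Algebra.adjoin k ((({U, V} : Finset L) : Set L)),
            ¬ P.Vanishes g ∧ (V - algebraMap k L 0) * g = U * h := by
        intro W hW hWv he
        refine ⟨1 - W, sub_mem (one_mem _) hW, U ^ 2, pow_mem hUa 2, ?_, ?_⟩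
        · intro hc
          apply h1v
          have := hc.add P hWv
          rwa [sub_add_cancel] at this
        · rw [map_zero, sub_zero, he]
          ring
      rcases Nat.le_one_iff_eq_zero_or_eq_one.1 hε with rfl | rfl
      · refine key (V ^ 2) (pow_mem hVa 2) (hPV.pow P two_ne_zero) ?_
        rw [hU, hV]
        have := h.eqn
        field_simp
        linear_combination this
      · refine key (U * V) (mul_mem hUa hVa) (hPU.mul P hPV.mem) ?_
        rw [hU, hV]
        have := h.eqn
        field_simp
        linear_combination this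

end Pool.Agent.ZIso
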