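import Mathlib

/-!
# Polynomial solutions of `B ^ 2 = A ^ 3 + (1 + γ s) A ^ ε`
-/

open Polynomial

namespace Pool.Agent.ZIso

variable {k : Type*} [Field k]

/-- degree bound: if `B ^ 2 = A ^ 3 + D` with `deg D ≤ 1` then `2 deg B = 3 deg A` or `A` is
constant -/
private lemma deg_eq {A B D : k[X]} (h : B ^ 2 = A ^ 3 + D) (hD : D.natDegree ≤ 1)
    (hA : 1 ≤ A.natDegree) : 2 * B.natDegree = 3 * A.natDegree := by
  have h1 : (A ^ 3 + D).natDegree = (A ^ 3).natDegree := by
    apply natDegree_add_eq_left_of_natDegree_lt
    rw [natDegree_pow]
    omega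
  rw [← h, natDegree_pow, natDegree_pow] at h1
  exact h1

theorem const_zero [CharZero k] {A B : k[X]} {γ : k} (h : B ^ 2 = A ^ 3 + (1 + C γ * X)) :
    γ = 0 ∧ A.natDegree = 0 ∧ B.natDegree = 0 := by
  have hD : (1 + C γ * X : k[X]).natDegree ≤ 1 := by
    rw [add_comm, ← C_1]
    exact natDegree_linear_le
  -- derivative
  have hder : 2 * B * derivative B = 3 * A ^ 2 * derivative A + C γ := by
    have h1 := congrArg derivative h
    simp only [derivative_pow, map_add, derivative_one, derivative_C_mul, derivative_X, mul_one,
      zero_add, Nat.cast_ofNat, Nat.add_one_sub_one, pow_one, map_ofNat] at h1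
    linear_combination h1
  have hW : B * (2 * A * derivative B - 3 * derivative A * B) =
      C γ * A - 3 * derivative A * (1 + C γ * X) := by
    linear_combination A * hder - 3 * derivative A * h
  have hA : A.natDegree = 0 := by
    by_contra hne
    have hA1 : 1 ≤ A.natDegree := Nat.one_le_iff_ne_zero.2 hne
    have h2 := deg_eq h hD hA1
    have hlt : A.natDegree < B.natDegree := by omega
    -- the right side has degree at most `deg A`
    have h3 : (C γ * A - 3 * derivative A * (1 + C γ * X)).natDegree ≤ A.natDegree := by
      refine (natDegree_sub_le _ _).trans (max_le (natDegree_C_mul_le _ _) ?_)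
      refine natDegree_mul_le.trans ?_
      have h4 : (3 * derivative A).natDegree ≤ A.natDegree - 1 := by
        have : (3 * derivative A : k[X]) = C (3 : k) * derivative A := by
          rw [map_ofNat]
        rw [this]
        exact (natDegree_C_mul_le _ _).trans (natDegree_derivative_le A)
      omega
    have hB0 : B ≠ 0 := by
      rintro rfl
      simp at hlt
    have h5 : 2 * A * derivative B - 3 * derivative A * B = 0 := by
      by_contra hne'
      have h6 := natDegree_mul hB0 hne'
      rw [hW] at h6
      omega
    rw [h5, mul_zero] at hW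
    -- compare leading coefficients
    have hlead : C γ * A = 3 * derivative A * (1 + C γ * X) := by
      linear_combination -hW
    obtain ⟨d, hd⟩ : ∃ d, A.natDegree = d + 1 := ⟨A.natDegree - 1, by omega⟩
    have hc : A.coeff (d + 1) ≠ 0 := by
      rw [← hd]
      exact leadingCoeff_ne_zero.2 (by rintro rfl; simp at hA1)
    by_cases hγ : γ = 0
    · subst hγ
      simp only [map_zero, zero_mul, add_zero, mul_one] at hlead
      have h7 : derivative A = 0 := by
        have : (3 : k[X]) ≠ 0 := by
          have h9 := (Nat.cast_ne_zero (R := k[X])).2 (show (3 : ℕ) ≠ 0 by norm_num)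
          exact_mod_cast h9
        rcases mul_eq_zero.1 hlead.symm with h8 | h8
        · exact absurd h8 this
        · exact h8
      have := derivative_eq_zero.1 h7
      omega
    · have h8 := congrArg (fun p : k[X] => p.coeff (d + 1)) hlead
      have h9 : (3 * derivative A * (1 + C γ * X) : k[X]).coeff (d + 1) =
          3 * (derivative A).coeff (d + 1) + 3 * γ * (derivative A).coeff d := by
        have e1 : (3 * derivative A * (1 + C γ * X) : k[X]) =
            C 3 * derivative A + C (3 * γ) * derivative A * X := by
          simp only [map_mul, map_ofNat]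
          ring
        rw [e1, coeff_add, coeff_C_mul, coeff_mul_X, coeff_C_mul]
      simp only [coeff_C_mul, h9, coeff_derivative] at h8
      have h10 : A.coeff (d + 1 + 1) = 0 := coeff_eq_zero_of_natDegree_lt (by omega)
      rw [h10] at h8
      have h11 : γ * A.coeff (d + 1) * (1 - 3 * ((d : k) + 1)) = 0 := by
        linear_combination h8
      rcases mul_eq_zero.1 h11 with h12 | h12
      · exact (mul_ne_zero hγ hc) h12
      · have h13 : ((3 * (d + 1) : ℕ) : k) = ((1 : ℕ) : k) := by
          push_cast
          linear_combination -h12
        have := Nat.cast_injective h13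
        omega
  -- now `A` is constant
  obtain ⟨a, rfl⟩ := natDegree_eq_zero.1 hA
  have h1 : B ^ 2 = C (a ^ 3 + 1) + C γ * X := by
    rw [h, map_add, map_pow, map_one]
    ring
  have hγ : γ = 0 := by
    by_contra hγ
    have h2 := congrArg natDegree h1
    rw [natDegree_pow, add_comm, natDegree_linear hγ] at h2
    omega
  subst hγ
  refine ⟨rfl, hA, ?_⟩
  have h2 := congrArg natDegree h1
  rw [natDegree_pow, map_zero, zero_mul, add_zero, natDegree_C] at h2
  omega

end Pool.Agent.ZIso
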