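import Mathlib

/-!
# Polynomial solutions of `B ^ 2 = A ^ 3 + (1 + γ s) A`
-/

open Polynomial

namespace Pool.Agent.ZIso

/-- coprime factors of a square are squares over an algebraically closed field -/
private lemma sq_of_coprime {k : Type*} [Field k] [IsAlgClosed k] {A D B : k[X]}
    (hc : IsCoprime A D) (h : A * D = B ^ 2) : ∃ U, A = U ^ 2 := by
  obtain ⟨d, u, hu⟩ := exists_associated_pow_of_mul_eq_pow' hc h
  obtain ⟨c, hc1, hc2⟩ := Polynomial.isUnit_iff.1 u.isUnit
  obtain ⟨e, he⟩ := IsAlgClosed.exists_pow_nat_eq c (n := 2) two_pos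
  refine ⟨d * C e, ?_⟩
  rw [mul_pow, ← C_pow, he, hc2]
  exact hu.symm

theorem const_one {k : Type*} [Field k] [IsAlgClosed k] [CharZero k] {A B : k[X]} {γ : k}
    (h : B ^ 2 = A ^ 3 + (1 + C γ * X) * A) (hA : A.eval 0 ≠ 0) :
    γ = 0 ∧ A.natDegree = 0 ∧ B.natDegree = 0 := by
  have hA0 : A ≠ 0 := by rintro rfl; simp at hA
  have h2 : (2 : k[X]) ≠ 0 := two_ne_zero
  have hdeg2 : ∀ P : k[X], (2 * P).natDegree = P.natDegree := by
    intro P
    have : (2 : k[X]) = C 2 := by rw [map_ofNat]
    rw [this]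
    exact natDegree_C_mul two_ne_zero
  by_cases hcop : IsCoprime A (1 + C γ * X)
  · have hcop2 : IsCoprime A (A ^ 2 + (1 + C γ * X)) := by
      have := hcop.add_mul_left_right A
      have e : (1 + C γ * X + A * A : k[X]) = A ^ 2 + (1 + C γ * X) := by ring
      rwa [e] at this
    have hprod : A * (A ^ 2 + (1 + C γ * X)) = B ^ 2 := by rw [h]; ring
    obtain ⟨U, hU⟩ := sq_of_coprime hcop2 hprod
    obtain ⟨V, hV⟩ := sq_of_coprime hcop2.symm (by rw [mul_comm]; exact hprod)
    have hfac : (V - U ^ 2) * (V + U ^ 2) = 1 + C γ * X := by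
      rw [hU] at hV
      linear_combination -hV
    have hg0 : (1 + C γ * X : k[X]) ≠ 0 := by
      intro h0
      have := congrArg (eval 0) h0
      simp at this
    have h1 : V - U ^ 2 ≠ 0 := by rintro h0; rw [h0, zero_mul] at hfac; exact hg0 hfac.symm
    have h1' : V + U ^ 2 ≠ 0 := by rintro h0; rw [h0, mul_zero] at hfac; exact hg0 hfac.symm
    have hd := natDegree_mul h1 h1'
    rw [hfac] at hd
    have hdU : (U ^ 2).natDegree = 2 * U.natDegree := natDegree_pow _ _
    have hdiff : (2 * U ^ 2 : k[X]) = (V + U ^ 2) - (V - U ^ 2) := by ring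
    by_cases hγ : γ = 0
    · subst hγ
      simp only [map_zero, zero_mul, add_zero, natDegree_one] at hd
      have h3 : (2 * U ^ 2 : k[X]).natDegree ≤ 0 := by
        rw [hdiff]
        refine (natDegree_sub_le _ _).trans ?_
        omega
      rw [hdeg2] at h3
      have hAd : A.natDegree = 0 := by rw [hU]; omega
      refine ⟨rfl, hAd, ?_⟩
      obtain ⟨a, rfl⟩ := natDegree_eq_zero.1 hAd
      have h4 : B ^ 2 = C (a ^ 3 + a) := by
        rw [h, map_add, map_pow, map_zero]
        ring
      have h5 := congrArg natDegree h4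
      rw [natDegree_pow, natDegree_C] at h5
      omega
    · exfalso
      rw [add_comm, ← C_1, natDegree_linear hγ] at hd
      have h3 : (2 * U ^ 2 : k[X]).natDegree = 1 := by
        rw [hdiff]
        rcases Nat.lt_or_ge (V - U ^ 2).natDegree (V + U ^ 2).natDegree with hlt | hge
        · rw [natDegree_sub_eq_left_of_natDegree_lt hlt]
          omega
        · rw [natDegree_sub_eq_right_of_natDegree_lt (by omega)]
          omega
      rw [hdeg2, hdU] at h3
      omega
  · exfalso
    have hγ : γ ≠ 0 := by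
      rintro rfl
      apply hcop
      simp only [map_zero, zero_mul, add_zero]
      exact isCoprime_one_right
    have hirr : Irreducible (1 + C γ * X : k[X]) := by
      apply irreducible_of_degree_eq_one
      rw [add_comm, ← C_1]
      exact degree_linear hγ
    have hgA : (1 + C γ * X : k[X]) ∣ A := by
      by_contra hnd
      exact hcop ((hirr.coprime_iff_not_dvd.2 hnd).symm)
    obtain ⟨A1, hA1⟩ := hgA
    have hgB : (1 + C γ * X : k[X]) ∣ B := by
      have hp := hirr.prime
      apply hp.dvd_of_dvd_pow (n := 2)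
      rw [h, hA1]
      exact ⟨(1 + C γ * X) ^ 2 * A1 ^ 3 + (1 + C γ * X) * A1, by ring⟩
    obtain ⟨B1, hB1⟩ := hgB
    have hg0 := hirr.ne_zero
    have h3 : A1 * ((1 + C γ * X) * A1 ^ 2 + 1) = B1 ^ 2 := by
      have h4 : (1 + C γ * X) ^ 2 * (A1 * ((1 + C γ * X) * A1 ^ 2 + 1)) =
          (1 + C γ * X) ^ 2 * B1 ^ 2 := by
        rw [hA1, hB1] at h
        linear_combination -h
      exact mul_left_cancel₀ (pow_ne_zero 2 hg0) h4
    have hc : IsCoprime A1 ((1 + C γ * X) * A1 ^ 2 + 1) :=
      ⟨-((1 + C γ * X) * A1), 1, by ring⟩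
    obtain ⟨U, hU⟩ := sq_of_coprime hc h3
    obtain ⟨V, hV⟩ := sq_of_coprime hc.symm (by rw [mul_comm]; exact h3)
    have hU0 : U ≠ 0 := by
      rintro rfl
      apply hA0
      rw [hA1, hU]
      ring
    have hdg : (1 + C γ * X : k[X]).natDegree = 1 := by
      rw [add_comm, ← C_1, natDegree_linear hγ]
    have hd1 : ((1 + C γ * X) * A1 ^ 2 + 1 : k[X]).natDegree = 1 + 4 * U.natDegree := by
      have e : ((1 + C γ * X) * A1 ^ 2 : k[X]).natDegree = 1 + 4 * U.natDegree := by
        rw [hU, natDegree_mul hg0 (pow_ne_zero _ (pow_ne_zero _ hU0)), hdg, natDegree_pow,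
          natDegree_pow]
        ring
      rw [natDegree_add_eq_left_of_natDegree_lt (by rw [natDegree_one, e]; omega), e]
    rw [hV, natDegree_pow] at hd1
    omega

end Pool.Agent.ZIso
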