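import Pool.Agent.ZIso.Krull
import Pool.Agent.ZIso.Const
import Pool.Agent.ZIso.Const1

/-!
# Existence of the family
-/

open Polynomial

namespace Pool.Agent.ZIso

/-- the polynomial with constant coefficient `c` and the other coefficients given by `x` -/
private noncomputable def poly {S : Type*} [CommRing S] (c : S) {N : ℕ} (x : Fin N → S) : S[X] :=
  C c + ∑ i : Fin N, C (x i) * X ^ ((i : ℕ) + 1)

private lemma poly_map {S S' : Type*} [CommRing S] [CommRing S'] (f : S →+* S') (c : S) {N : ℕ}
    (x : Fin N → S) : (poly c x).map f = poly (f c) (fun i => f (x i)) := by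
  simp [poly, Polynomial.map_sum]

private lemma poly_eval {S : Type*} [CommRing S] (c : S) {N : ℕ} (x : Fin N → S) :
    (poly c x).eval 0 = c := by
  simp [poly, eval_finsetSum]

private lemma poly_degree {S : Type*} [CommRing S] (c : S) {N : ℕ} (x : Fin N → S) :
    (poly c x).natDegree ≤ N := by
  unfold poly
  refine (natDegree_add_le _ _).trans (max_le (by simp) ?_)
  refine natDegree_sum_le_of_forall_le _ _ fun i _ => ?_
  exact (natDegree_C_mul_X_pow_le _ _).trans (by omega)

private lemma poly_coeff {S : Type*} [CommRing S] (c : S) {N : ℕ} (x : Fin N → S) (i : Fin N) :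
    (poly c x).coeff ((i : ℕ) + 1) = x i := by
  unfold poly
  rw [coeff_add, coeff_C_succ, zero_add, finsetSum_coeff, Finset.sum_eq_single i]
  · simp
  · intro j _ hj
    rw [coeff_C_mul_X_pow, if_neg]
    intro h
    exact hj (Fin.ext (by omega))
  · simp

private lemma poly_const {S : Type*} [CommRing S] (c : S) {N : ℕ} (x : Fin N → S)
    (h : (poly c x).natDegree = 0) : x = 0 := by
  funext i
  rw [← poly_coeff c x i]
  exact coeff_eq_zero_of_natDegree_lt (by omega)

theorem exists_family {k : Type*} [Field k] [IsAlgClosed k] [CharZero k] {J : Type} [Fintype J]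
    [DecidableEq J] {ε M l : ℕ} (hε : ε ≤ 1) (hM : M + 2 * ε = 6) {e : J → k} {a : J → ℕ}
    (hsum : ∑ j, a j = M * l) {q : k[X]} {j₀ : J} (ha : 0 < a j₀) {x₀ y₀ : k}
    (h0 : y₀ ^ 2 = x₀ ^ 3 + x₀ ^ ε) (hx : x₀ ≠ 0) :
    ∃ (h A B : k[X]) (γ : k), h ≠ 0 ∧ h.degree < l ∧ A.eval 0 = x₀ ∧ B.eval 0 = y₀ ∧
      B ^ 2 = A ^ 3 + (1 + C γ * X) * (∏ j, (1 + C (h.eval (e j) / q.eval (e j)) * X) ^
        (if j = j₀ then a j - 1 else a j)) * A ^ ε := by
  classical
  -- the unknowns
  let ι : Type := Fin l ⊕ (Unit ⊕ (Fin (2 * l) ⊕ Fin (3 * l)))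
  let hh : (ι → k) → k[X] := fun x => ∑ i : Fin l, C (x (Sum.inl i)) * X ^ (i : ℕ)
  let P := MvPolynomial ι k
  let v : ι → P := MvPolynomial.X
  let W : ∀ (S : Type _) [CommRing S] (f : k →+* S) (x : ι → S), S[X] := fun S _ f x =>
    poly (f y₀) (fun i => x (Sum.inr (Sum.inr (Sum.inr i)))) ^ 2 -
      poly (f x₀) (fun i => x (Sum.inr (Sum.inr (Sum.inl i)))) ^ 3 -
      (1 + C (x (Sum.inr (Sum.inl ()))) * X) *
        (∏ j, (1 + C (∑ i : Fin l, x (Sum.inl i) * f (e j ^ (i : ℕ) / q.eval (e j))) * X) ^
          (if j = j₀ then a j - 1 else a j)) *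
        poly (f x₀) (fun i => x (Sum.inr (Sum.inr (Sum.inl i)))) ^ ε
  let F : Fin (6 * l) → P := fun i => (W P MvPolynomial.C v).coeff ((i : ℕ) + 1)
  have hmap : ∀ x : ι → k, (W P MvPolynomial.C v).map (MvPolynomial.eval x) =
      W k (RingHom.id k) x := by
    intro x
    have e1 : ∀ c : k, MvPolynomial.eval x (MvPolynomial.C c) = c := fun c =>
      MvPolynomial.eval_C c
    simp only [W, Polynomial.map_sub, Polynomial.map_mul, Polynomial.map_pow, Polynomial.map_add,
      Polynomial.map_one, Polynomial.map_prod, poly_map, Polynomial.map_C, Polynomial.map_X,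
      map_sum, map_mul, v, MvPolynomial.eval_X, RingHom.id_apply, Polynomial.map_sum, e1]
  have hF : ∀ (x : ι → k) i, MvPolynomial.eval x (F i) =
      (W k (RingHom.id k) x).coeff ((i : ℕ) + 1) := by
    intro x i
    rw [← hmap, coeff_map]
  have hβ : ∀ (x : ι → k) j, ∑ i : Fin l, x (Sum.inl i) * (e j ^ (i : ℕ) / q.eval (e j)) =
      (hh x).eval (e j) / q.eval (e j) := by
    intro x j
    simp only [hh, eval_finsetSum, eval_mul, eval_C, eval_pow, eval_X]
    rw [Finset.sum_div]
    exact Finset.sum_congr rfl fun i _ => by ring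
  have hzero : ∀ i, MvPolynomial.eval (0 : ι → k) (F i) = 0 := by
    intro i
    rw [hF]
    have h1 : W k (RingHom.id k) 0 = 0 := by
      simp only [W, Pi.zero_apply, RingHom.id_apply, poly, map_zero, zero_mul,
        Finset.sum_const_zero, add_zero, one_pow, Finset.prod_const_one, mul_one, one_mul]
      rw [← map_pow, ← map_pow, ← map_pow, ← map_sub, ← map_sub, h0]
      simp
    rw [h1, coeff_zero]
  obtain ⟨x, hx0, hxF⟩ := exists_ne_zero (ι := ι) (κ := Fin (6 * l)) (by
    simp only [ι, Fintype.card_sum, Fintype.card_fin, Fintype.card_unit]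
    omega) F hzero
  -- the solution
  set A : k[X] := poly x₀ (fun i => x (Sum.inr (Sum.inr (Sum.inl i)))) with hA
  set B : k[X] := poly y₀ (fun i => x (Sum.inr (Sum.inr (Sum.inr i)))) with hB
  set γ : k := x (Sum.inr (Sum.inl ())) with hγ
  have hWx : W k (RingHom.id k) x = B ^ 2 - A ^ 3 - (1 + C γ * X) *
      (∏ j, (1 + C ((hh x).eval (e j) / q.eval (e j)) * X) ^
        (if j = j₀ then a j - 1 else a j)) * A ^ ε := by
    simp only [W, RingHom.id_apply, hβ, ← hA, ← hB, ← hγ]
  have hdeg : (W k (RingHom.id k) x).natDegree ≤ 6 * l := by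
    rw [hWx]
    have hAd : A.natDegree ≤ 2 * l := poly_degree _ _
    have hBd : B.natDegree ≤ 3 * l := poly_degree _ _
    have h1 : (B ^ 2).natDegree ≤ 6 * l := by
      rw [natDegree_pow]
      omega
    have h2 : (A ^ 3).natDegree ≤ 6 * l := by
      rw [natDegree_pow]
      omega
    have h3 : (∏ j, (1 + C ((hh x).eval (e j) / q.eval (e j)) * X) ^
        (if j = j₀ then a j - 1 else a j) : k[X]).natDegree ≤ M * l - 1 := by
      refine (natDegree_prod_le _ _).trans ?_
      have h4 : ∀ j, ((1 + C ((hh x).eval (e j) / q.eval (e j)) * X) ^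
          (if j = j₀ then a j - 1 else a j) : k[X]).natDegree ≤
            (if j = j₀ then a j - 1 else a j) := by
        intro j
        refine natDegree_pow_le.trans ?_
        have h5 : (1 + C ((hh x).eval (e j) / q.eval (e j)) * X : k[X]).natDegree ≤ 1 := by
          rw [add_comm, ← C_1]
          exact natDegree_linear_le
        calc _ ≤ (if j = j₀ then a j - 1 else a j) * 1 := Nat.mul_le_mul_left _ h5
          _ = _ := mul_one _
      refine (Finset.sum_le_sum fun j _ => h4 j).trans ?_
      have h6 : (∑ j, (if j = j₀ then a j - 1 else a j)) + 1 = ∑ j, a j := by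
        rw [← Finset.add_sum_erase Finset.univ _ (Finset.mem_univ j₀),
          ← Finset.add_sum_erase Finset.univ a (Finset.mem_univ j₀), if_pos rfl]
        have h7 : ∑ j ∈ Finset.univ.erase j₀, (if j = j₀ then a j - 1 else a j) =
            ∑ j ∈ Finset.univ.erase j₀, a j :=
          Finset.sum_congr rfl fun j hj => if_neg (Finset.ne_of_mem_erase hj)
        rw [h7]
        omega
      omega
    have h8 : 1 ≤ M * l := by
      rw [← hsum]
      exact ha.trans_le (Finset.single_le_sum (f := a) (fun _ _ => Nat.zero_le _)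
        (Finset.mem_univ j₀))
    have h9 : ((1 + C γ * X) * (∏ j, (1 + C ((hh x).eval (e j) / q.eval (e j)) * X) ^
        (if j = j₀ then a j - 1 else a j)) * A ^ ε : k[X]).natDegree ≤ 6 * l := by
      refine natDegree_mul_le.trans ?_
      have h10 : (A ^ ε).natDegree ≤ ε * (2 * l) :=
        natDegree_pow_le.trans (Nat.mul_le_mul_left _ hAd)
      have h11 : (1 + C γ * X : k[X]).natDegree ≤ 1 := by
        rw [add_comm, ← C_1]
        exact natDegree_linear_le
      have h12 := natDegree_mul_le (p := (1 + C γ * X : k[X]))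
        (q := ∏ j, (1 + C ((hh x).eval (e j) / q.eval (e j)) * X) ^
        (if j = j₀ then a j - 1 else a j))
      have h13 : M * l + ε * (2 * l) = 6 * l := by
        rw [← hM]
        ring
      omega
    exact (natDegree_sub_le_of_le (natDegree_sub_le_of_le h1 h2) h9).trans (by simp)
  have hW0 : W k (RingHom.id k) x = 0 := by
    ext i
    rw [coeff_zero]
    rcases Nat.eq_zero_or_pos i with rfl | hi
    · rw [coeff_zero_eq_eval_zero, hWx]
      simp only [eval_sub, eval_mul, eval_pow, eval_add, eval_one, eval_C, eval_X, mul_zero,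
        add_zero, one_mul, eval_prod, one_pow, Finset.prod_const_one, hA, hB, poly_eval, h0]
      ring
    · by_cases hi2 : i ≤ 6 * l
      · have h1 := hxF ⟨i - 1, by omega⟩
        rw [hF] at h1
        simpa [Nat.sub_add_cancel hi] using h1
      · exact coeff_eq_zero_of_natDegree_lt (by omega)
  have heq : B ^ 2 = A ^ 3 + (1 + C γ * X) *
      (∏ j, (1 + C ((hh x).eval (e j) / q.eval (e j)) * X) ^
        (if j = j₀ then a j - 1 else a j)) * A ^ ε := by
    rw [hWx] at hW0
    linear_combination hW0
  refine ⟨hh x, A, B, γ, ?_, ?_, poly_eval _ _, poly_eval _ _, heq⟩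
  · intro hh0
    have h1 : B ^ 2 = A ^ 3 + (1 + C γ * X) * A ^ ε := by
      rw [heq, hh0]
      simp
    have h2 : γ = 0 ∧ A.natDegree = 0 ∧ B.natDegree = 0 := by
      obtain rfl | rfl : ε = 0 ∨ ε = 1 := by omega
      · rw [pow_zero, mul_one] at h1
        exact const_zero h1
      · rw [pow_one] at h1
        refine const_one h1 ?_
        rw [hA, poly_eval]
        exact hx
    obtain ⟨h3, h4, h5⟩ := h2
    apply hx0
    have h6 := poly_const _ _ h4
    have h7 := poly_const _ _ h5
    funext i
    rcases i with i | i | i | i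
    · have h8 : (hh x).coeff (i : ℕ) = x (Sum.inl i) := by
        simp only [hh, finsetSum_coeff, coeff_C_mul_X_pow]
        rw [Finset.sum_eq_single i]
        · simp
        · intro j _ hj
          rw [if_neg]
          intro h
          exact hj (Fin.ext h.symm)
        · simp
      rw [← h8, hh0]
      rfl
    · exact h3
    · exact congrFun h6 i
    · exact congrFun h7 i
  · exact degree_sum_fin_lt _

end Pool.Agent.ZIso
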