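import Pool.Agent.ZCyc.Basic

/-!
# Explicit rational functions of a parameter (ZI2)
-/

open Polynomial Pool.Agent.ZCyc

namespace Pool.Agent.ZIso

universe u w

section Param

variable {k : Type u} [Field k]

private theorem map_C {F : Type u} [Field F] [Algebra k F] [Algebra (RatFunc k) F]
    [IsScalarTower k (RatFunc k) F] (c : k) :
    algebraMap (RatFunc k) F (RatFunc.C c) = algebraMap k F c := by
  rw [← RatFunc.algebraMap_eq_C, ← IsScalarTower.algebraMap_apply]

private theorem at_C {F : Type u} [Field F] [Algebra k F] [Algebra (RatFunc k) F]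
    [IsScalarTower k (RatFunc k) F] {u : Place k F} (c : k) :
    u.At (algebraMap (RatFunc k) F (RatFunc.C c)) c := by
  rw [map_C]
  exact Place.at_const c

private theorem at_one {F : Type u} [Field F] [Algebra k F] {u : Place k F} :
    u.At (1 : F) (1 : k) := by
  have := Place.at_const (v := u) (1 : k)
  rwa [map_one] at this

/-- the value of `1 + T β` -/
private theorem at_factor {F : Type u} [Field F] [Algebra k F] [Algebra (RatFunc k) F]
    [IsScalarTower k (RatFunc k) F] {u : Place k F} {T : RatFunc k} {t : k}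
    (hT : u.At (algebraMap (RatFunc k) F T) t) (c : k) :
    u.At (algebraMap (RatFunc k) F (1 + T * RatFunc.C c)) (1 + t * c) := by
  rw [map_add, map_one, map_mul]
  exact at_one.add (hT.mul (at_C c))

/-- the value of `(X ^ M - 1) / (p - q X ^ M)` -/
private theorem at_T {F : Type u} [Field F] [Algebra k F] [Algebra (RatFunc k) F]
    [IsScalarTower k (RatFunc k) F] {u : Place k F} {M : ℕ} {p q s : k}
    (hs : u.At (algebraMap (RatFunc k) F RatFunc.X) s) (h : p - q * s ^ M ≠ 0) :
    u.At (algebraMap (RatFunc k) F ((RatFunc.X ^ M - 1) /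
      (RatFunc.C p - RatFunc.C q * RatFunc.X ^ M))) ((s ^ M - 1) / (p - q * s ^ M)) := by
  rw [map_div₀, map_sub, map_sub, map_mul, map_pow, map_one]
  exact ((hs.pow M).sub at_one).div ((at_C p).sub ((at_C q).mul (hs.pow M))) h

private theorem alg_eq {K : Type*} [Field K] {A D b c X : K} (hD : D ≠ 0)
    (h : X * (D + A * b) = D + A * c) : X * (1 + A / D * b) = 1 + A / D * c := by
  have h1 : ∀ b, 1 + A / D * b = (D + A * b) / D := fun b => by
    rw [add_div, div_self hD, div_mul_eq_mul_div]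
  rw [h1, h1, ← mul_div_assoc, h]

private theorem alg_zero {K : Type*} [Field K] {A D b : K} (hD : D ≠ 0)
    (h : D + A * b = 0) : 1 + A / D * b = 0 := by
  have h1 : 1 + A / D * b = (D + A * b) / D := by
    rw [add_div, div_self hD, div_mul_eq_mul_div]
  rw [h1, h, zero_div]

private theorem D_ne {M : ℕ} (hM : 0 < M) {p q : k} (hpq : p ≠ q) :
    (RatFunc.C p - RatFunc.C q * RatFunc.X ^ M : RatFunc k) ≠ 0 := by
  have h2 : (RatFunc.C p - RatFunc.C q * RatFunc.X ^ M : RatFunc k) =
      algebraMap k[X] (RatFunc k) (Polynomial.C p - Polynomial.C q * X ^ M) := by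
    rw [map_sub, map_mul, map_pow, RatFunc.algebraMap_X, RatFunc.algebraMap_C,
      RatFunc.algebraMap_C]
  rw [h2]
  refine RatFunc.algebraMap_ne_zero ?_
  intro h
  have h3 := congrArg (fun r => r.coeff 0) h
  have h4 := congrArg (fun r => r.coeff M) h
  simp only [coeff_sub, coeff_C_mul, coeff_X_pow, coeff_C_zero, coeff_zero, if_neg hM.ne,
    mul_zero, sub_zero] at h3
  simp only [coeff_sub, coeff_C_mul, coeff_X_pow, coeff_C, coeff_zero, if_neg hM.ne', if_true,
    mul_one, zero_sub, neg_eq_zero] at h4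
  exact hpq (h3.trans h4.symm)

end Param

/-- ZI2: a rational curve in the parameter space -/
theorem exists_param {k : Type u} [Field k] [IsAlgClosed k] [CharZero k] {M : ℕ} (hM : 0 < M)
    {J : Type} {β : J → k} (hβ : ∃ j, β j ≠ 0) (j₀ : J) (γ : k) :
    ∃ (T R : RatFunc k) (s₀ s₁ : k) (j : J),
      R ^ M * (1 + T * RatFunc.C (β j₀)) = 1 + T * RatFunc.C γ ∧
      (∀ {F : Type u} [Field F] [Algebra k F] [Algebra (RatFunc k) F]
        [IsScalarTower k (RatFunc k) F] (u : Place k F),
        u.At (algebraMap (RatFunc k) F RatFunc.X) s₀ →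
          u.At (algebraMap (RatFunc k) F T) 0 ∧ u.At (algebraMap (RatFunc k) F R) 1) ∧
      (∀ {F : Type u} [Field F] [Algebra k F] [Algebra (RatFunc k) F]
        [IsScalarTower k (RatFunc k) F] (u : Place k F),
        u.At (algebraMap (RatFunc k) F RatFunc.X) s₁ →
          u.Vanishes (algebraMap (RatFunc k) F (1 + T * RatFunc.C (β j)))) := by
  by_cases h0 : γ = β j₀
  · obtain ⟨j, hj⟩ := hβ
    refine ⟨RatFunc.X, 1, 0, -(β j)⁻¹, j, by rw [one_pow, one_mul, h0], ?_, ?_⟩
    · intro F _ _ _ _ u hu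
      refine ⟨hu, ?_⟩
      rw [map_one]
      exact at_one
    · intro F _ _ _ _ u hu
      rw [← Place.at_zero_iff]
      have h := at_factor hu (β j)
      rwa [neg_mul, inv_mul_cancel₀ hj, add_neg_cancel] at h
  have hX : (RatFunc.X : RatFunc k) ≠ 0 := RatFunc.X_ne_zero
  by_cases h1 : ∃ j, β j ≠ 0 ∧ β j ≠ β j₀
  · obtain ⟨j, hj, hj₀⟩ := h1
    have hd : β j - β j₀ ≠ 0 := sub_ne_zero.2 hj₀
    have hd' : γ - β j₀ ≠ 0 := sub_ne_zero.2 h0
    obtain ⟨s, hs⟩ := IsAlgClosed.exists_pow_nat_eq ((β j - γ) / (β j - β j₀)) hM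
    have hD := D_ne hM h0
    refine ⟨(RatFunc.X ^ M - 1) / (RatFunc.C γ - RatFunc.C (β j₀) * RatFunc.X ^ M), RatFunc.X, 1,
      s, j, ?_, ?_, ?_⟩
    · exact alg_eq hD (by ring)
    · intro F _ _ _ _ u hu
      refine ⟨?_, hu⟩
      have h := at_T (M := M) (p := γ) (q := β j₀) hu (by rwa [one_pow, mul_one])
      rwa [one_pow, sub_self, zero_div] at h
    · intro F _ _ _ _ u hu
      have hs' : s ^ M * (β j - β j₀) = β j - γ := by rw [hs, div_mul_cancel₀ _ hd]
      have hne : γ - β j₀ * s ^ M ≠ 0 := by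
        intro hz
        refine mul_ne_zero hj hd' ?_
        linear_combination (β j - β j₀) * hz + β j₀ * hs'
      have h := at_factor (at_T hu hne) (β j)
      have h3 : 1 + (s ^ M - 1) / (γ - β j₀ * s ^ M) * β j = 0 :=
        alg_zero hne (by linear_combination hs')
      rw [h3] at h
      rwa [← Place.at_zero_iff]
  · push Not at h1
    obtain ⟨j, hj⟩ := hβ
    have hb : β j₀ ≠ 0 := by rwa [← h1 j hj]
    have h0' : β j₀ ≠ γ := Ne.symm h0
    have hd' : β j₀ - γ ≠ 0 := sub_ne_zero.2 h0'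
    have hD := D_ne hM h0'
    refine ⟨(RatFunc.X ^ M - 1) / (RatFunc.C (β j₀) - RatFunc.C γ * RatFunc.X ^ M), RatFunc.X⁻¹, 1,
      0, j₀, ?_, ?_, ?_⟩
    · have hXm : (RatFunc.X : RatFunc k) ^ M ≠ 0 := pow_ne_zero _ hX
      refine alg_eq hD ?_
      rw [inv_pow, inv_mul_eq_iff_eq_mul₀ hXm]
      ring
    · intro F _ _ _ _ u hu
      refine ⟨?_, ?_⟩
      · have h := at_T (M := M) (p := β j₀) (q := γ) hu (by rwa [one_pow, mul_one])
        rwa [one_pow, sub_self, zero_div] at h
      · rw [map_inv₀]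
        have h := hu.inv one_ne_zero
        rwa [inv_one] at h
    · intro F _ _ _ _ u hu
      have h := at_factor (at_T (M := M) (p := β j₀) (q := γ) hu (by
        rwa [zero_pow hM.ne', mul_zero, sub_zero])) (β j₀)
      have h3 : 1 + ((0 : k) ^ M - 1) / (β j₀ - γ * 0 ^ M) * β j₀ = 0 := by
        rw [zero_pow hM.ne', mul_zero, sub_zero]
        exact alg_zero hb (by ring)
      rw [h3] at h
      rwa [← Place.at_zero_iff]

end Pool.Agent.ZIso
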