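import Pool.Agent.ZIso.OpA
import Pool.Agent.ZIso.Family
import Pool.Agent.ZIso.Param
import Pool.Agent.ZIso.EllA

/-!
# The isotypical part for `E × C ^ n` vanishes
-/

open Polynomial Pool.Agent.ZCyc

set_option linter.unusedSectionVars false

namespace Pool.Agent.ZIso

universe u w

section EllLemmas

variable {k : Type u} [Field k] {ε M : ℕ} {ζ : k} {L : Type u} [Field L] [Algebra k L]
  {σ : L ≃ₐ[k] L} {x y : L}

theorem Ell.pow_act (h : Ell ε ζ σ x y) (r : ℕ) :
    (σ ^ r) x = algebraMap k L (ζ ^ (2 * r)) * x ∧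
      (σ ^ r) y = algebraMap k L (ζ ^ (3 * r)) * y := by
  induction r with
  | zero => simp
  | succ r ih =>
    rw [pow_succ, AlgEquiv.mul_apply, AlgEquiv.mul_apply, h.actx, h.acty, map_mul, map_mul, ih.1,
      ih.2, AlgEquiv.commutes, AlgEquiv.commutes]
    constructor
    · rw [← mul_assoc, ← map_mul, ← pow_add]
      congr 3
      ring
    · rw [← mul_assoc, ← map_mul, ← pow_add]
      congr 3
      ring

theorem Ell.symm_act (h : Ell ε ζ σ x y) (r : ℕ) :
    algebraMap k L (ζ ^ (2 * r)) * (σ ^ r).symm x = x ∧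
      algebraMap k L (ζ ^ (3 * r)) * (σ ^ r).symm y = y := by
  constructor
  · have h2 : (σ ^ r).symm ((σ ^ r) x) = x := AlgEquiv.symm_apply_apply _ _
    rwa [(h.pow_act r).1, map_mul, AlgEquiv.commutes] at h2
  · have h2 : (σ ^ r).symm ((σ ^ r) y) = y := AlgEquiv.symm_apply_apply _ _
    rwa [(h.pow_act r).2, map_mul, AlgEquiv.commutes] at h2

theorem Ell.pow_eq_one (h : Ell ε ζ σ x y) (hζ : ζ ^ M = 1) : σ ^ M = 1 := by
  have h1 : ∀ z ∈ IntermediateField.adjoin k {x, y}, (σ ^ M) z = z := by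
    intro z hz
    induction hz using IntermediateField.adjoin_induction with
    | mem s hs =>
      rcases hs with rfl | rfl
      · rw [(h.pow_act M).1, mul_comm 2, pow_mul, hζ, one_pow, map_one, one_mul]
      · rw [(h.pow_act M).2, mul_comm 3, pow_mul, hζ, one_pow, map_one, one_mul]
    | algebraMap c => rw [AlgEquiv.commutes]
    | add a b _ _ ha hb => rw [map_add, ha, hb]
    | inv a _ ha => rw [map_inv₀, ha]
    | mul a b _ _ ha hb => rw [map_mul, ha, hb]
  ext z
  exact h1 z (by rw [h.gen]; exact IntermediateField.mem_top)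

end EllLemmas

section Main

variable {k : Type u} [Field k] [IsAlgClosed k] [CharZero k] {R : Type w} [Field R] [CharZero R]
  {LE LC : Type u} [Field LE] [Field LC] [Algebra k LE] [Algebra k LC] {I : Type} [DecidableEq I]
  {ε M m d : ℕ} {ζ : k} {ω : R} {σE : LE ≃ₐ[k] LE} {σC : LC ≃ₐ[k] LC} {X' Y' : LE} {x y : LC}
  {J : Type} [Fintype J] [DecidableEq J] {e : J → k} {a : J → ℕ} {n : ℕ}

/-- the equation of the affine model -/
private theorem ell_poly {e₂ : Fin 3 → k} (hE : Ell ε ζ σE X' Y')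
    (hc : Cyclic 2 (-1) e₂ (fun _ => 1) (σE ^ (M / 2)) X' Y') :
    (X ^ 3 + X ^ ε : k[X]) = ∏ j, (X - C (e₂ j)) := by
  have h1 : aeval X' (X ^ 3 + X ^ ε - ∏ j, (X - C (e₂ j)) : k[X]) = 0 := by
    have h2 := hc.eqn
    rw [hE.eqn] at h2
    simp only [map_sub, map_add, map_pow, aeval_X, map_prod, aeval_C]
    rw [h2]
    simp
  have h3 := (transcendental_iff.1 hE.transc) _ h1
  exact sub_eq_zero.1 h3

/-- the general case -/
theorem general (hE : Ell ε ζ σE X' Y') (hε : ε ≤ 1) (hM : M + 2 * ε = 6)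
    (hζ : IsPrimitiveRoot ζ M) (hω : IsPrimitiveRoot ω M) (hd : d * m = M) (hm : 1 < m)
    (hC : Cyclic m (ζ ^ d) e a σC x y) (ha : ∀ j, a j < m) (hsum : ∑ j, a j = m * n)
    (p : Pts k LE LC I (Fin n)) (i₀ : I) {x₀ y₀ : k} (hx₀ : (p.1 i₀).At X' x₀)
    (hy₀ : (p.1 i₀).At Y' y₀) (hx : x₀ ≠ 0) (hy : y₀ ≠ 0) {α : Fin n → k}
    (hα : ∀ l, (p.2 l).At x (α l)) (hαe : ∀ l j, α l ≠ e j) :
    opE (Fin n) σE M ω i₀ (opC I σC m (ω ^ d) n (Finsupp.single p 1)) ∈
      rat k LE LC I (Fin n) R := by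
  have hm0 : 0 < m := by omega
  have hM0 : 0 < M := by omega
  have hd0 : 0 < d := by
    rcases Nat.eq_zero_or_pos d with h | h
    · rw [h, zero_mul] at hd
      omega
    · exact h
  have : NeZero m := ⟨hm0.ne'⟩
  have hζm : IsPrimitiveRoot (ζ ^ d) m := hζ.pow hM0 hd.symm
  have hωm : IsPrimitiveRoot (ω ^ d) m := hω.pow hM0 hd.symm
  have hσC : σC ^ m = 1 := hC.pow_eq_one hζm.pow_eq_one
  have hσE : σE ^ M = 1 := hE.pow_eq_one hζ.pow_eq_one
  have hζ0 : ζ ≠ 0 := hζ.ne_zero hM0.ne'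
  obtain ⟨e₂, he₂⟩ := hE.cyclic hε hM hζ
  have hneg : IsPrimitiveRoot (-1 : k) 2 := IsPrimitiveRoot.neg_one 0 (by norm_num)
  -- the equation at `p`
  have h0 : y₀ ^ 2 = x₀ ^ 3 + x₀ ^ ε := by
    have h1 : (p.1 i₀).At (Y' ^ 2) (y₀ ^ 2) := hy₀.pow 2
    have h2 : (p.1 i₀).At (X' ^ 3 + X' ^ ε) (x₀ ^ 3 + x₀ ^ ε) := (hx₀.pow 3).add (hx₀.pow ε)
    rw [← hE.eqn] at h2
    exact h1.unique h2
  -- values of `y`
  have hβ : ∀ l, ∃ β : k, (p.2 l).At y β ∧ β ^ m = ∏ j, (α l - e j) ^ a j := by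
    intro l
    obtain ⟨β, hβ⟩ := IsAlgClosed.exists_pow_nat_eq (∏ j, (α l - e j) ^ a j) hm0
    have h1 := hC.val (hα l)
    rw [← hβ] at h1
    obtain ⟨i, _, hi⟩ := Place.exists_root_at hζm hm0 h1
    exact ⟨_, hi, by rw [mul_pow, ← pow_mul, mul_comm i, pow_mul, hζm.pow_eq_one, one_pow, one_mul,
      hβ]⟩
  choose β hβy hβm using hβ
  have hβ0 : ∀ l, β l ≠ 0 := by
    intro l h0
    have h1 := hβm l
    rw [h0, zero_pow hm0.ne'] at h1
    exact Finset.prod_ne_zero_iff.2 (fun j _ => pow_ne_zero _ (sub_ne_zero.2 (hαe l j))) h1.symm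
  obtain ⟨j₀⟩ := hC.nonempty hζm hm
  have haj : 0 < a j₀ := Nat.pos_of_ne_zero fun h => hC.ndvd j₀ (h ▸ dvd_zero m)
  -- the pencil
  set q : k[X] := ∏ l, (X - C (α l)) with hq
  have hqm : q.Monic := monic_prod_of_monic _ _ fun l _ => monic_X_sub_C _
  have hqn : q.natDegree = n := by
    rw [hq, natDegree_prod_of_monic _ _ fun l _ => monic_X_sub_C _]
    simp
  have hqe : ∀ j, q.eval (e j) ≠ 0 := by
    intro j
    rw [hq, eval_prod]
    refine Finset.prod_ne_zero_iff.2 fun l _ => ?_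
    rw [eval_sub, eval_X, eval_C]
    exact sub_ne_zero.2 (hαe l j).symm
  obtain ⟨h, A, B, γ, hh0, hhd, hA0, hB0, hAB⟩ := exists_family (l := n) hε hM (e := e)
    (a := fun j => d * a j) (by rw [← Finset.mul_sum, hsum, ← mul_assoc, hd]) (q := q) (j₀ := j₀)
    (Nat.mul_pos hd0 haj) h0 hx
  set b : J → k := fun j => h.eval (e j) / q.eval (e j) with hb
  have hbex : ∃ j, b j ≠ 0 := by
    by_contra hcon
    push Not at hcon
    have h1 : ∀ j, h.eval (e j) = 0 := by
      intro j
      have h2 := hcon j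
      rw [hb] at h2
      rcases div_eq_zero_iff.1 h2 with h3 | h3
      · exact h3
      · exact absurd h3 (hqe j)
    apply hh0
    refine eq_zero_of_degree_lt_of_eval_index_eq_zero (s := Finset.univ) (v := e)
      (hC.inj.injOn) ?_ fun j _ => h1 j
    refine hhd.trans_le ?_
    rw [Finset.card_univ]
    have h2 : ∑ j, a j ≤ Fintype.card J * m := by
      rw [← Finset.card_univ, ← smul_eq_mul]
      exact Finset.sum_le_card_nsmul _ _ _ fun j _ => (ha j).le
    rw [hsum, mul_comm] at h2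
    exact_mod_cast Nat.le_of_mul_le_mul_right h2 hm0
  have hhq : h.degree < q.degree := by
    rw [degree_eq_natDegree hqm.ne_zero, hqn]
    exact hhd
  obtain ⟨T, S, s₀, s₁, j₁, hS, hs₀, hs₁⟩ := exists_param (k := k) hM0 hbex j₀ γ
  obtain ⟨F, _, _, _, _, _, _, x', y', hX', hY'⟩ := exists_cover hm0 hqm hqn hhq T
    (∏ j, (X - C (e j)) ^ a j)
  have hY'' : ∀ i, y' i ^ m = ∏ j, (x' i - algebraMap k F (e j)) ^ a j := by
    intro i
    rw [hY' i, map_prod]
    simp
  choose ψ hψ hψ' using fun i => hC.component hζm hm0 (hY'' i)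
  have hXt : Transcendental k (algebraMap (RatFunc k) F RatFunc.X) := by
    have : Transcendental k (RatFunc.X : RatFunc k) := RatFunc.transcendental_X
    intro hcon
    apply this
    have h2 : IsAlgebraic k (algebraMap (RatFunc k) F RatFunc.X) ↔
        IsAlgebraic k (RatFunc.X : RatFunc k) :=
      isAlgebraic_algebraMap_iff (algebraMap (RatFunc k) F).injective
    exact h2.1 hcon
  obtain ⟨v, hv⟩ := exists_place hXt s₀
  -- product of the `y`
  have hev : ∀ c : k, ∏ i, (algebraMap k F c - x' i) = algebraMap k F (q.eval c) +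
      algebraMap (RatFunc k) F T * algebraMap k F (h.eval c) := by
    intro c
    have h1 := congrArg (Polynomial.eval (algebraMap k F c)) hX'
    rw [eval_add, eval_mul, eval_C, eval_map_algebraMap, eval_map_algebraMap, eval_prod] at h1
    simp only [eval_sub, eval_X, eval_C] at h1
    rw [← h1, aeval_algebraMap_apply, aeval_algebraMap_apply]
    rfl
  have hRC : ∀ c : k, algebraMap (RatFunc k) F (RatFunc.C c) = algebraMap k F c := by
    intro c
    rw [← RatFunc.algebraMap_eq_C, ← IsScalarTower.algebraMap_apply]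
  set t : F := algebraMap (RatFunc k) F T with ht
  have hev' : ∀ j, ∏ i, (x' i - algebraMap k F (e j)) = (∏ l, algebraMap k F (α l - e j)) *
      (1 + algebraMap k F (b j) * t) := by
    intro j
    have h1 : ∏ i, (x' i - algebraMap k F (e j)) = (-1) ^ n * ∏ i, (algebraMap k F (e j) - x' i) := by
      rw [show ((-1 : F) ^ n) = ∏ _i : Fin n, (-1 : F) by simp, ← Finset.prod_mul_distrib]
      exact Finset.prod_congr rfl fun i _ => by ring
    have h2 : (∏ l, algebraMap k F (α l - e j)) = (-1) ^ n * algebraMap k F (q.eval (e j)) := by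
      rw [hq, eval_prod, map_prod, show ((-1 : F) ^ n) = ∏ _i : Fin n, (-1 : F) by simp,
        ← Finset.prod_mul_distrib]
      refine Finset.prod_congr rfl fun i _ => ?_
      rw [eval_sub, eval_X, eval_C, map_sub, map_sub]
      ring
    have h3 : h.eval (e j) = b j * q.eval (e j) := by
      rw [hb]
      exact (div_mul_cancel₀ _ (hqe j)).symm
    rw [h1, h2, hev, h3, map_mul]
    ring
  have hprod : (∏ i, y' i) ^ m = algebraMap k F (∏ l, β l) ^ m *
      ∏ j, (1 + algebraMap k F (b j) * t) ^ a j := by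
    rw [← Finset.prod_pow, Finset.prod_congr rfl fun i _ => hY'' i, Finset.prod_comm,
      ← map_pow, ← Finset.prod_pow, Finset.prod_congr rfl fun l _ => hβm l,
      Finset.prod_comm (f := fun l j => (α l - e j) ^ a j), map_prod,
      ← Finset.prod_mul_distrib]
    refine Finset.prod_congr rfl fun j _ => ?_
    rw [Finset.prod_pow, hev', mul_pow, Finset.prod_pow, ← map_prod, map_pow]
  set Bβ : k := ∏ l, β l with hBβ
  have hBβ0 : Bβ ≠ 0 := Finset.prod_ne_zero_iff.2 fun l _ => hβ0 l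
  set S' : F := algebraMap (RatFunc k) F S with hS'
  have hS0 : S' ≠ 0 := by
    intro h0
    have h1 := (hs₀ v hv).2
    rw [← hS', h0] at h1
    have h2 : v.At 0 (0 : k) := by simpa using Place.at_const (v := v) (0 : k)
    exact zero_ne_one (h2.unique h1)
  have hSM : S' ^ M * (1 + algebraMap k F (b j₀) * t) = 1 + algebraMap k F γ * t := by
    have h1 := congrArg (algebraMap (RatFunc k) F) hS
    rw [map_mul, map_pow, map_add, map_add, map_one, map_mul, map_mul, hRC, hRC, ← ht, ← hS'] at h1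
    rw [mul_comm (algebraMap k F (b j₀)), mul_comm (algebraMap k F γ)]
    exact h1
  -- the scaling factor
  obtain ⟨c, hc⟩ : ∃ c : F, c = (∏ i, y' i) * S' / algebraMap k F Bβ := ⟨_, rfl⟩
  have hBF : algebraMap k F Bβ ≠ 0 := by rwa [Ne, _root_.map_eq_zero]
  have hcM : c ^ M = (1 + algebraMap k F γ * t) * ∏ j, (1 + algebraMap k F (b j) * t) ^
      (if j = j₀ then d * a j - 1 else d * a j) := by
    have h1 : c ^ M = S' ^ M * ∏ j, (1 + algebraMap k F (b j) * t) ^ (d * a j) := by
      rw [hc, div_pow, mul_pow, ← hd, mul_comm d m, pow_mul (∏ i, y' i), hprod, mul_pow, ← pow_mul,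
        ← Finset.prod_pow]
      rw [show (algebraMap k F Bβ) ^ (m * d) * (∏ j, ((1 + algebraMap k F (b j) * t) ^ a j) ^ d) *
        S' ^ (m * d) / (algebraMap k F Bβ) ^ (m * d) = S' ^ (m * d) *
        ∏ j, ((1 + algebraMap k F (b j) * t) ^ a j) ^ d by
          rw [mul_assoc, mul_div_cancel_left₀ _ (pow_ne_zero _ hBF), mul_comm]]
      congr 1
      refine Finset.prod_congr rfl fun j _ => ?_
      rw [← pow_mul, mul_comm (a j)]
    rw [h1, ← Finset.mul_prod_erase Finset.univ _ (Finset.mem_univ j₀),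
      ← Finset.mul_prod_erase Finset.univ (fun j => (1 + algebraMap k F (b j) * t) ^
        (if j = j₀ then d * a j - 1 else d * a j)) (Finset.mem_univ j₀), if_pos rfl, ← hSM]
    have h2 : ∏ j ∈ Finset.univ.erase j₀, (1 + algebraMap k F (b j) * t) ^ (d * a j) =
        ∏ j ∈ Finset.univ.erase j₀, (1 + algebraMap k F (b j) * t) ^
          (if j = j₀ then d * a j - 1 else d * a j) :=
      Finset.prod_congr rfl fun j hj => by rw [if_neg (Finset.ne_of_mem_erase hj)]
    have h3 : (1 + algebraMap k F (b j₀) * t) ^ (d * a j₀) =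
        (1 + algebraMap k F (b j₀) * t) * (1 + algebraMap k F (b j₀) * t) ^ (d * a j₀ - 1) := by
      rw [← pow_succ', Nat.sub_add_cancel (Nat.mul_pos hd0 haj)]
    rw [h2, h3]
    ring
  have hABt : aeval t B ^ 2 = aeval t A ^ 3 + c ^ M * aeval t A ^ ε := by
    have h1 := congrArg (aeval t) hAB
    simp only [map_pow, map_add, map_mul, map_one, aeval_C, aeval_X, map_prod] at h1
    rw [h1, hcM]
  have hy'0 : ∏ i, y' i ≠ 0 := by
    intro h1
    rw [h1, zero_pow hm0.ne'] at hprod
    have h2 : v.At (∏ j, (1 + algebraMap k F (b j) * t) ^ a j) (∏ j : J, (1 + b j * 0) ^ a j) :=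
      Place.At.prod fun j _ => ((Place.at_const (1 : k)).add
        ((Place.at_const (b j)).mul (hs₀ v hv).1) |> fun h => by simpa using h.pow (a j))
    have h3 : ∏ j, (1 + algebraMap k F (b j) * t) ^ a j = 0 := by
      rcases mul_eq_zero.1 hprod.symm with h4 | h4
      · exact absurd h4 (pow_ne_zero _ hBF)
      · exact h4
    rw [h3] at h2
    have h4 : v.At 0 (0 : k) := by simpa using Place.at_const (v := v) (0 : k)
    have h5 := h4.unique h2
    simp at h5
  have hc0 : c ≠ 0 := by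
    rw [hc]
    exact div_ne_zero (mul_ne_zero hy'0 hS0) hBF
  -- the component in `E`
  have hEeq : (aeval t B / c ^ 3) ^ 2 = ∏ j, ((aeval t A / c ^ 2) - algebraMap k F (e₂ j)) ^
      (fun _ : Fin 3 => 1) j := by
    have h1 : ∏ j, ((aeval t A / c ^ 2) - algebraMap k F (e₂ j)) ^ (fun _ : Fin 3 => 1) j =
        (aeval t A / c ^ 2) ^ 3 + (aeval t A / c ^ 2) ^ ε := by
      have h2 := congrArg (aeval (aeval t A / c ^ 2)) (ell_poly hE he₂)
      simp only [map_add, map_pow, aeval_X, map_prod, map_sub, aeval_C] at h2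
      rw [h2]
      simp
    rw [h1, div_pow, hABt, div_pow, div_pow, ← pow_mul, ← pow_mul, ← pow_mul]
    have h3 : c ^ (3 * 2) = c ^ M * c ^ (2 * ε) := by
      rw [← pow_add, hM]
    rw [add_div, show 2 * 3 = 3 * 2 by rfl]
    congr 1
    rw [h3, mul_div_mul_left _ _ (pow_ne_zero _ hc0)]
  obtain ⟨ψE, hψE, hψE'⟩ := he₂.component hneg (by norm_num) hEeq
  set φ : Place k F → Pts k LE LC I (Fin n) := fun u =>
    (Function.update p.1 i₀ (ψE u), fun i => ψ i u) with hφ
  have hmor : Mor φ := by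
    refine ⟨fun i => ?_, fun i => hψ i⟩
    by_cases hi : i = i₀
    · subst hi
      have : (fun v => (φ v).1 i) = ψE := by
        funext v
        simp [hφ]
      rw [this]
      exact hψE
    · have : (fun v => (φ v).1 i) = fun _ => p.1 i := by
        funext v
        simp [hφ, hi]
      rw [this]
      exact isComp_const _
  -- the points above `s₀`
  have key₀ : ∀ u : Place k F, u.At (algebraMap (RatFunc k) F RatFunc.X) s₀ →
      opE (Fin n) σE M ω i₀ (opC I σC m (ω ^ d) n (Finsupp.single (φ u) 1)) =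
        opE (Fin n) σE M ω i₀ (opC I σC m (ω ^ d) n (Finsupp.single p 1)) := by
    intro u hu
    obtain ⟨hT0, hS1⟩ := hs₀ u hu
    obtain ⟨ρ, hρ⟩ := exists_perm (u := u) hX' hhd hT0
    have h1 : ∀ i, ∃ r : ℕ, u.At (y' i) ((ζ ^ d) ^ r * β (ρ i)) := by
      intro i
      have h2 : u.At (y' i ^ m) (β (ρ i) ^ m) := by
        rw [hβm, hY'']
        exact Place.At.prod fun j _ => ((hρ i).sub (Place.at_const (e j))).pow _
      obtain ⟨r, _, hr⟩ := Place.exists_root_at hζm hm0 h2
      exact ⟨r, hr⟩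
    choose r hr using h1
    -- the value of `c`
    have hcu : u.At c (ζ ^ (d * ∑ i, r i)) := by
      have h3 : u.At (∏ i, y' i) (∏ i, ((ζ ^ d) ^ r i * β (ρ i))) := Place.At.prod fun i _ => hr i
      have h4 := (h3.mul hS1).div (Place.at_const Bβ) hBβ0
      rw [← hc] at h4
      convert h4 using 1
      rw [Finset.prod_mul_distrib, Finset.prod_pow_eq_pow_sum, mul_one, Equiv.prod_comp ρ β,
        ← hBβ, mul_div_assoc, div_self hBβ0, mul_one, ← pow_mul]
    set κ : ℕ := d * ∑ i, r i with hκ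
    have hζκ : ζ ^ κ ≠ 0 := pow_ne_zero _ hζ0
    have hEx : (ψE u).At X' (x₀ / (ζ ^ κ) ^ 2) := by
      refine (hψE' u _).1 (Place.At.div ?_ (hcu.pow 2) (pow_ne_zero _ hζκ))
      have h2 := hT0.aeval A
      rwa [hA0] at h2
    have hEy : (ψE u).At Y' (y₀ / (ζ ^ κ) ^ 3) := by
      refine (hψE' u _).2 (Place.At.div ?_ (hcu.pow 3) (pow_ne_zero _ hζκ))
      have h2 := hT0.aeval B
      rwa [hB0] at h2
    have hE3 : ψE u = (p.1 i₀).map (σE ^ κ) := by
      have hs := hE.symm_act κ
      refine he₂.unique (by norm_num) (div_ne_zero hy (pow_ne_zero _ hζκ)) hEx hEy ?_ ?_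
      · rw [Place.at_map]
        have h4 : (σE ^ κ).symm X' = X' / algebraMap k LE ((ζ ^ κ) ^ 2) := by
          rw [eq_div_iff (by rw [_root_.map_ne_zero]; exact pow_ne_zero _ hζκ), mul_comm,
            ← pow_mul, mul_comm κ]
          exact hs.1
        rw [h4]
        exact hx₀.div (Place.at_const _) (pow_ne_zero _ hζκ)
      · rw [Place.at_map]
        have h4 : (σE ^ κ).symm Y' = Y' / algebraMap k LE ((ζ ^ κ) ^ 3) := by
          rw [eq_div_iff (by rw [_root_.map_ne_zero]; exact pow_ne_zero _ hζκ), mul_comm,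
            ← pow_mul, mul_comm κ]
          exact hs.2
        rw [h4]
        exact hy₀.div (Place.at_const _) (pow_ne_zero _ hζκ)
    have hC3 : ∀ i, ψ i u = (p.2 (ρ i)).map (σC ^ ((m - 1) * r i)) := by
      intro i
      have hx1 := (hψ' i u _).1 (hρ i)
      have hy1 := (hψ' i u _).2 (hr i)
      have hs := hC.symm_act ((m - 1) * r i)
      have hz : (ζ ^ d) ^ ((m - 1) * r i) * (ζ ^ d) ^ r i = 1 := by
        rw [← pow_add, show (m - 1) * r i + r i = m * r i by
          obtain ⟨m', rfl⟩ := Nat.exists_eq_succ_of_ne_zero hm0.ne'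
          simp only [Nat.succ_eq_add_one, Nat.add_sub_cancel]
          ring, pow_mul, hζm.pow_eq_one, one_pow]
      refine hC.unique hm0 (mul_ne_zero (pow_ne_zero _ (hζm.ne_zero hm0.ne')) (hβ0 (ρ i)))
        hx1 hy1 ?_ ?_
      · rw [Place.at_map, hs.1]
        exact hα _
      · rw [Place.at_map]
        have h4 : (σC ^ ((m - 1) * r i)).symm y = algebraMap k LC ((ζ ^ d) ^ r i) * y := by
          have h5 : algebraMap k LC (ζ ^ d) ^ ((m - 1) * r i) ≠ 0 :=
            pow_ne_zero _ (by rw [_root_.map_ne_zero]; exact hζm.ne_zero hm0.ne')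
          apply mul_left_cancel₀ h5
          rw [hs.2, ← mul_assoc, ← map_pow, ← map_mul, hz, map_one, one_mul]
        rw [h4]
        exact (Place.at_const _).mul (hβy _)
    have hφu : φ u = actC σC ρ (fun i => (m - 1) * r i) (actE σE i₀ κ p) := by
      refine Prod.ext ?_ ?_
      · change Function.update p.1 i₀ (ψE u) = Function.update p.1 i₀ ((p.1 i₀).map (σE ^ κ))
        rw [hE3]
      · funext i
        exact hC3 i
    have h5 := opC_perm hm0 hσC hωm.pow_eq_one (actE σE i₀ κ p) ρ (fun i => (m - 1) * r i)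
    rw [← hφu] at h5
    have h6 := congrArg (opE (Fin n) σE M ω i₀) h5
    rw [map_smul, opE_opC σE σC M m ω (ω ^ d) i₀ (Finsupp.single (actE σE i₀ κ p) 1)] at h6
    have h7 := congrArg (opC I σC m (ω ^ d) n) (opE_shift hM0 hσE hω.pow_eq_one i₀ p κ)
    rw [map_smul, ← opE_opC σE σC M m ω (ω ^ d) i₀ (Finsupp.single p 1), ← h6, smul_smul] at h7
    rw [← h7]
    have h8 : ω ^ κ * (ω ^ d) ^ (∑ i, (m - 1) * r i) = 1 := by
      rw [← Finset.mul_sum, ← pow_mul, ← pow_add, hκ]
      have h9 : d * ∑ i, r i + d * ((m - 1) * ∑ i, r i) = M * ∑ i, r i := by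
        rw [← hd]
        obtain ⟨m', rfl⟩ := Nat.exists_eq_succ_of_ne_zero hm0.ne'
        simp only [Nat.succ_eq_add_one, Nat.add_sub_cancel]
        ring
      rw [h9, pow_mul, hω.pow_eq_one, one_pow]
    rw [h8, one_smul]
  -- the points above `s₁`
  have key₁ : ∀ u : Place k F, u.At (algebraMap (RatFunc k) F RatFunc.X) s₁ →
      opE (Fin n) σE M ω i₀ (opC I σC m (ω ^ d) n (Finsupp.single (φ u) 1)) = 0 := by
    intro u hu
    have h1 := hs₁ u hu
    have h1' : u.Vanishes (1 + algebraMap k F (b j₁) * t) := by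
      rw [map_add, map_one, map_mul, hRC, mul_comm] at h1
      exact h1
    have h2 : u.Vanishes (∏ i, (x' i - algebraMap k F (e j₁))) := by
      rw [hev' j₁]
      refine Place.Vanishes.mul' u h1' ?_
      exact prod_mem fun l _ => u.const_mem _
    obtain ⟨i, _, hi⟩ := u.vanishes_prod h2
    obtain ⟨d', hd', hdm, hfix⟩ := hC.special hζm hm ((hψ' i u (e j₁)).1 hi)
    rw [opC_special (p := φ u) (l := i) hm0 hσC hωm hd' hdm hfix, map_zero]
  have hfin := rat_link (R := R) (N := rat k LE LC I (Fin n) R)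
    (Φ := (opE (Fin n) σE M ω i₀).comp (opC I σC m (ω ^ d) n))
    (fun z hz => opE_mem σE M ω i₀ (opC_mem σC m (ω ^ d) hz)) hmor (s₀ := s₀) (s₁ := s₁)
    (A := opE (Fin n) σE M ω i₀ (opC I σC m (ω ^ d) n (Finsupp.single p 1))) (B := 0)
    (fun u hu => by
      rw [LinearMap.comp_apply, key₀ u hu, sub_self]
      exact Submodule.zero_mem _)
    (fun u hu => by
      rw [LinearMap.comp_apply, key₁ u hu, sub_self]
      exact Submodule.zero_mem _)
  rwa [sub_zero] at hfin

/-- The product of the `ω`-part for one factor `E` and the symmetric power of the `ω ^ d`-part for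
`C ^ n` vanishes. -/
theorem main (hE : Ell ε ζ σE X' Y') (hε : ε ≤ 1) (hM : M + 2 * ε = 6)
    (hζ : IsPrimitiveRoot ζ M) (hω : IsPrimitiveRoot ω M) (hd : d * m = M) (hm : 1 < m)
    (hC : Cyclic m (ζ ^ d) e a σC x y) (ha : ∀ j, a j < m) (hsum : ∑ j, a j = m * n)
    (p : Pts k LE LC I (Fin n)) (i₀ : I) :
    opE (Fin n) σE M ω i₀ (opC I σC m (ω ^ d) n (Finsupp.single p 1)) ∈
      rat k LE LC I (Fin n) R := by
  have hm0 : 0 < m := by omega
  have hM0 : 0 < M := by omega
  have hM2 : 0 < M / 2 ∧ M / 2 < M := by omega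
  have hζm : IsPrimitiveRoot (ζ ^ d) m := hζ.pow hM0 hd.symm
  have hωm : IsPrimitiveRoot (ω ^ d) m := hω.pow hM0 hd.symm
  have hσC : σC ^ m = 1 := hC.pow_eq_one hζm.pow_eq_one
  have hσE : σE ^ M = 1 := hE.pow_eq_one hζ.pow_eq_one
  have hneg : IsPrimitiveRoot (-1 : k) 2 := IsPrimitiveRoot.neg_one 0 (by norm_num)
  obtain ⟨e₂, he₂⟩ := hE.cyclic hε hM hζ
  -- special coordinate in `E`
  have hspE : ∀ {b : ℕ}, 0 < b → b < M → (p.1 i₀).map (σE ^ b) = p.1 i₀ →
      opE (Fin n) σE M ω i₀ (opC I σC m (ω ^ d) n (Finsupp.single p 1)) ∈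
        rat k LE LC I (Fin n) R := by
    intro b hb hbM h
    rw [opE_opC, opE_special hM0 hσE hω hb hbM h, map_zero]
    exact Submodule.zero_mem _
  by_cases hX : X' ∈ (p.1 i₀).ring
  · obtain ⟨x₀, hx₀⟩ := he₂.exists_at (by norm_num) hX
    by_cases hbr : ∃ j, x₀ = e₂ j
    · obtain ⟨j, hj⟩ := hbr
      obtain ⟨c, hc, hc2, hfix⟩ := he₂.special hneg (by norm_num) (hj ▸ hx₀)
      have hc1 : c = 1 := by omega
      rw [hc1, pow_one] at hfix
      exact hspE hM2.1 hM2.2 hfix
    · push Not at hbr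
      -- the value of `y`
      obtain ⟨y₀, hy₀⟩ : ∃ y₀ : k, (p.1 i₀).At Y' y₀ ∧ y₀ ^ 2 = ∏ j, (x₀ - e₂ j) := by
        obtain ⟨y₁, hy₁⟩ := IsAlgClosed.exists_pow_nat_eq (∏ j, (x₀ - e₂ j)) (n := 2) (by norm_num)
        have h1 := he₂.val hx₀
        simp only [pow_one] at h1
        rw [← hy₁] at h1
        obtain ⟨i, _, hi⟩ := Place.exists_root_at hneg (by norm_num) h1
        refine ⟨_, hi, ?_⟩
        rw [mul_pow, ← pow_mul, mul_comm i, pow_mul, neg_one_sq, one_pow, one_mul, hy₁]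
      have hy : y₀ ≠ 0 := by
        rintro rfl
        have h1 := hy₀.2
        rw [zero_pow (by norm_num)] at h1
        exact Finset.prod_ne_zero_iff.2 (fun j _ => sub_ne_zero.2 (hbr j)) h1.symm
      by_cases hx : x₀ = 0
      · -- fixed by `σ ^ 2`
        have hε0 : ε = 0 := by
          by_contra hne
          have hε1 : ε = 1 := by omega
          have h1 : (p.1 i₀).At (Y' ^ 2) (y₀ ^ 2) := hy₀.1.pow 2
          have h2 : (p.1 i₀).At (X' ^ 3 + X' ^ ε) (x₀ ^ 3 + x₀ ^ ε) := (hx₀.pow 3).add (hx₀.pow ε)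
          rw [← hE.eqn] at h2
          have h3 := h1.unique h2
          rw [hx, hε1] at h3
          simp at h3
          exact hy h3
        have hM6 : M = 6 := by omega
        refine hspE (b := 2) (by norm_num) (by omega) ?_
        have hs := hE.symm_act 2
        refine he₂.unique (by norm_num) hy (α := x₀) ?_ ?_ hx₀ hy₀.1
        · rw [Place.at_map, hx]
          have h4 : (σE ^ 2).symm X' = X' / algebraMap k LE (ζ ^ (2 * 2)) := by
            rw [eq_div_iff (by rw [_root_.map_ne_zero]; exact pow_ne_zero _ (hζ.ne_zero hM0.ne')),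
              mul_comm]
            exact hs.1
          rw [h4]
          have h5 := hx₀.div (Place.at_const (ζ ^ (2 * 2))) (pow_ne_zero _ (hζ.ne_zero hM0.ne'))
          rwa [hx, zero_div] at h5
        · rw [Place.at_map]
          have h4 : (σE ^ 2).symm Y' = Y' := by
            have h5 := hs.2
            rw [show 3 * 2 = M by omega, hζ.pow_eq_one, map_one, one_mul] at h5
            exact h5
          rw [h4]
          exact hy₀.1
      · obtain ⟨e', x', y', hC', hreg⟩ := hC.change hm0 (hsum ▸ dvd_mul_right m n) p.2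
        have hα : ∀ l, ∃ α, (p.2 l).At x' α := fun l => hC'.exists_at hm0 (hreg l)
        choose α hα using hα
        by_cases hsp : ∃ l j, α l = e' j
        · obtain ⟨l, j, hlj⟩ := hsp
          obtain ⟨c, hc, hcm, hfix⟩ := hC'.special hζm hm (hlj ▸ hα l)
          rw [opC_special (p := p) (l := l) hm0 hσC hωm hc hcm hfix, map_zero]
          exact Submodule.zero_mem _
        · push Not at hsp
          exact general hE hε hM hζ hω hd hm hC' ha hsum p i₀ hx₀ hy₀.1 hx hy hα hsp
  · -- the point at infinity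
    refine hspE (b := 1) (by norm_num) (by omega) ?_
    refine hE.infty_unique hε ?_ hX
    rw [Place.mem_map]
    intro h1
    apply hX
    have hs := (hE.symm_act 1).1
    rw [← hs]
    exact mul_mem ((p.1 i₀).const_mem _) h1

end Main

end Pool.Agent.ZIso
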