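import Pool.Agent.ZIso.Powers
import Pool.Agent.ZIso.BbMaps
import Pool.Agent.ZIso.MainA

/-!
# The Bloch-Beilinson filtration on the zero-cycles on the powers of an isotrivial elliptic surface
-/

open Polynomial Pool.Agent.ZCyc

set_option autoImplicit false

noncomputable section

namespace Pool.Agent.ZIso

universe u w

/-- a product of differences is killed by the projections -/
theorem prodDiff_proj {P Q R : Type*} [Field R] {l : ℕ} (g : (Fin l → P) → Q) (i : Fin l)
    (hg : ∀ (p : Fin l → P) (a : P), g (Function.update p i a) = g p) (x y : Fin l → P) :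
    (BBF.prodDiff R x y).mapDomain g = 0 := by
  classical
  unfold BBF.prodDiff
  rw [Finsupp.mapDomain_finsetSum]
  simp only [Finsupp.mapDomain_single]
  have h1 : (Finset.univ : Finset (Finset (Fin l))) =
      (insert i (Finset.univ.erase i) : Finset (Fin l)).powerset := by
    rw [Finset.insert_erase (Finset.mem_univ i), Finset.powerset_univ]
  rw [h1, Finset.sum_powerset_insert (Finset.notMem_erase i _), ← Finset.sum_add_distrib]
  refine Finset.sum_eq_zero fun S hS => ?_
  have hiS : i ∉ S := fun h2 => by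
    have := Finset.mem_powerset.1 hS h2
    exact Finset.notMem_erase i _ this
  have h2 : (fun j => if j ∈ insert i S then y j else x j) =
      Function.update (fun j => if j ∈ S then y j else x j) i (y i) := by
    funext j
    by_cases hj : j = i
    · subst hj
      rw [Function.update_self, if_pos (Finset.mem_insert_self _ _)]
    · rw [Function.update_of_ne hj]
      by_cases hjS : j ∈ S
      · rw [if_pos hjS, if_pos (Finset.mem_insert_of_mem hjS)]
      · rw [if_neg hjS, if_neg]
        rw [Finset.mem_insert]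
        rintro (h | h)
        · exact hj h
        · exact hjS h
  rw [h2, hg, Finset.card_insert_of_notMem hiS, ← Finsupp.single_add, pow_succ, mul_neg_one,
    add_neg_cancel, Finsupp.single_zero]

/-- the alternating sum of a polynomial of degree < n in each of n + 1 variables -/
theorem alt_rename {k : Type*} [Field k] {n : ℕ} (P : MvPolynomial (Fin (n + 1)) k)
    (hP : ∀ i, P.degreeOf i < n) :
    ∑ τ : Equiv.Perm (Fin (n + 1)), ((Equiv.Perm.sign τ : ℤ) : k) • MvPolynomial.rename τ P = 0 := by
  classical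
  have h1 : ∀ w ∈ P.support, ∑ τ : Equiv.Perm (Fin (n + 1)), ((Equiv.Perm.sign τ : ℤ) : k) •
      MvPolynomial.rename τ (MvPolynomial.monomial w (P.coeff w)) = 0 := by
    intro w hw
    -- two equal exponents
    have hlt : ∀ i, w i < n := fun i =>
      lt_of_le_of_lt (MvPolynomial.le_degreeOf_of_mem_support _ hw) (hP i)
    obtain ⟨i, j, hij, hw2⟩ : ∃ i j : Fin (n + 1), i ≠ j ∧ w i = w j := by
      obtain ⟨i, j, hij, h⟩ := Fintype.exists_ne_map_eq_of_card_lt
        (fun i : Fin (n + 1) => (⟨w i, hlt i⟩ : Fin n)) (by simp)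
      exact ⟨i, j, hij, congrArg Fin.val h⟩
    refine Finset.sum_involution (fun τ _ => τ * Equiv.swap i j) ?_ ?_ ?_ ?_
    · intro τ _
      have h2 : MvPolynomial.rename (τ * Equiv.swap i j : Equiv.Perm (Fin (n + 1))) (MvPolynomial.monomial w (P.coeff w)) =
          MvPolynomial.rename τ (MvPolynomial.monomial w (P.coeff w)) := by
        have h4 : Finsupp.mapDomain (Equiv.swap i j) w = w := by
          ext l
          have h3 : Finsupp.mapDomain (Equiv.swap i j) w l =
              Finsupp.mapDomain (Equiv.swap i j) w (Equiv.swap i j (Equiv.swap i j l)) := by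
            rw [Equiv.swap_apply_self]
          rw [h3, Finsupp.mapDomain_apply (Equiv.swap i j).injective]
          by_cases hl : l = i
          · rw [hl, Equiv.swap_apply_left, hw2]
          · by_cases hl' : l = j
            · rw [hl', Equiv.swap_apply_right, hw2]
            · rw [Equiv.swap_apply_of_ne_of_ne hl hl']
        rw [Equiv.Perm.coe_mul, ← MvPolynomial.rename_rename, MvPolynomial.rename_monomial, h4]
      rw [h2, Equiv.Perm.sign_mul, Equiv.Perm.sign_swap hij]
      push_cast
      rw [← add_smul]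
      simp
    · intro τ _ _ h
      have h2 : Equiv.swap i j = 1 := by
        rwa [mul_eq_left] at h
      exact hij (Equiv.swap_eq_one_iff.1 h2)
    · intro τ _
      exact Finset.mem_univ _
    · intro τ _
      rw [mul_assoc, Equiv.swap_mul_self, mul_one]
  have h2 : P = ∑ w ∈ P.support, MvPolynomial.monomial w (P.coeff w) := P.as_sum
  have h3 : ∀ τ : Equiv.Perm (Fin (n + 1)), MvPolynomial.rename τ P =
      ∑ w ∈ P.support, MvPolynomial.rename τ (MvPolynomial.monomial w (P.coeff w)) := by
    intro τ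
    conv_lhs => rw [h2]
    rw [map_sum]
  simp only [h3, Finset.smul_sum]
  rw [Finset.sum_comm]
  exact Finset.sum_eq_zero h1

section

variable {k : Type u} [Field k] [IsAlgClosed k] [CharZero k] {LE LC : Type u} [Field LE] [Field LC]
  [Algebra k LE] [Algebra k LC] {A B ζ : k} {M m d n l : ℕ} {σE : LE ≃ₐ[k] LE} {σC : LC ≃ₐ[k] LC}
  {X Y : LE} {x y : LC} {J : Type} [Fintype J] {e : J → k} {a : J → ℕ}

omit [IsAlgClosed k] [CharZero k] in
theorem Elliptic.pow_eq_one (h : Elliptic A B ζ σE X Y) (hζ : ζ ^ M = 1) : σE ^ M = 1 := by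
  have hx : ∀ i : ℕ, (σE ^ i) X = algebraMap k LE (ζ ^ i) ^ 2 * X := by
    intro i
    induction i with
    | zero => simp
    | succ i ih =>
      rw [pow_succ, AlgEquiv.mul_apply, h.actx, map_mul, AlgEquiv.commutes, ih]
      rw [pow_succ ζ i, map_mul, map_pow, map_pow]
      ring
  have hy : ∀ i : ℕ, (σE ^ i) Y = algebraMap k LE (ζ ^ i) ^ 3 * Y := by
    intro i
    induction i with
    | zero => simp
    | succ i ih =>
      rw [pow_succ, AlgEquiv.mul_apply, h.acty, map_mul, AlgEquiv.commutes, ih]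
      rw [pow_succ ζ i, map_mul, map_pow, map_pow]
      ring
  apply AlgEquiv.ext
  intro z
  have h1 : ((σE ^ M : LE ≃ₐ[k] LE) : LE →ₐ[k] LE) = AlgHom.id k LE := by
    have hg : (⊤ : IntermediateField k LE) = IntermediateField.adjoin k {X, Y} := h.gen.symm
    ext w
    have hw : w ∈ IntermediateField.adjoin k {X, Y} := h.gen ▸ IntermediateField.mem_top
    induction hw using IntermediateField.adjoin_induction with
    | mem w hw =>
      rcases hw with rfl | rfl
      · change (σE ^ M) w = w
        rw [hx, hζ, map_one, one_pow, one_mul]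
      · change (σE ^ M) w = w
        rw [hy, hζ, map_one, one_pow, one_mul]
    | algebraMap w => exact AlgEquiv.commutes _ _
    | add w w' _ _ h1 h2 => rw [map_add, h1, h2]; rfl
    | inv w _ h1 => rw [map_inv₀, h1]; rfl
    | mul w w' _ _ h1 h2 => rw [map_mul, h1, h2]; rfl
  exact DFunLike.congr_fun h1 z

/-- Combinations of automorphisms of `S ^ l` which kill the holomorphic `2 l`-forms kill the
products of differences. -/
theorem main_prodDiff (hE : Elliptic A B ζ σE X Y) (hM : M = 2 ∨ M = 4 ∨ M = 6)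
    (hζ : IsPrimitiveRoot ζ M) (hd : d * m = M) (hm : 1 < m) (hC : Cyclic m (ζ ^ d) e a σC x y)
    (ha : ∀ j, a j < m) (hsum : ∑ j, a j = m * (n + 1))
    {α : Equiv.Perm (Fin l) → (Fin l → Fin M) → ℚ}
    (hα : ∀ P : MvPolynomial (Fin l) k, (∀ i, P.degreeOf i < n) →
      ∑ τ, ∑ s, ((α τ s : k) * ζ ^ (∑ i, (s i : ℕ))) • MvPolynomial.rename τ P = 0)
    (p q : Fin l → Place k LE × Place k LC) :
    ∑ τ, ∑ s : Fin l → Fin M, α τ s •
      (BBF.prodDiff ℚ p q).mapDomain (BBF.symAct (actS σE) τ s) ∈ ratS σE σC d l := by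
  classical
  have hM0 : 0 < M := by rcases hM with rfl | rfl | rfl <;> norm_num
  have hm0 : NeZero m := ⟨by omega⟩
  have hζd : IsPrimitiveRoot (ζ ^ d) m := hζ.pow hM0 hd.symm
  have hσE : ((σE ^ d)⁻¹) ^ m = 1 := by
    rw [inv_pow, ← pow_mul, hd, hE.pow_eq_one hζ.pow_eq_one, inv_one]
  have hσC : σC ^ m = 1 := hC.pow_eq_one hζd.pow_eq_one
  set z₀ : Pts k LE LC (Fin l) (Fin l) →₀ ℚ := (BBF.prodDiff ℚ p q).mapDomain toPts with hz₀
  have hproj : ∀ i : Fin l, z₀.mapDomain (reidx (others i) (others i)) = 0 := by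
    intro i
    rw [hz₀, ← Finsupp.mapDomain_comp]
    refine prodDiff_proj _ i (fun p a => ?_) p q
    refine Prod.ext ?_ ?_
    · funext j
      simp only [Function.comp_apply, reidx, toPts, others]
      rw [Function.update_of_ne j.2]
    · funext j
      simp only [Function.comp_apply, reidx, toPts, others]
      rw [Function.update_of_ne j.2]
  have h1 := powers (R := ℚ) hE hM hζ hd hm hC ha hsum hα (z := avg σE σC d m z₀)
    (fun i => by rw [avg_inv hσE hσC, sub_self]; exact Submodule.zero_mem _)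
    (fun i => by rw [avg_proj i (hproj i)]; exact Submodule.zero_mem _)
  simp only [Rat.cast_id] at h1
  have h2 := ratS_of_rat (σE := σE) (σC := σC) (d := d) h1
  have h3 := avg_mem (σE := σE) (σC := σC) (d := d) (n := m) (by omega) z₀
  have h4 : ∀ (τ : Equiv.Perm (Fin l)) (s : Fin l → Fin M),
      (((avg σE σC d m z₀ - z₀).mapDomain ofPts).mapDomain (BBF.symAct (actS σE) τ s)) ∈
        ratS σE σC d l := by
    intro τ s
    exact ratS_map (fun b => BBF.Comp.fac (τ b) (s b)) (Submodule.mem_map_of_mem h3)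
  have h5 : ∑ τ, ∑ s : Fin l → Fin M, α τ s •
      (BBF.prodDiff ℚ p q).mapDomain (BBF.symAct (actS σE) τ s) =
      (∑ τ, ∑ s : Fin l → Fin M, (α τ s : ℚ) •
        (avg σE σC d m z₀).mapDomain (sact σE τ fun i => s i)).mapDomain ofPts -
      ∑ τ, ∑ s : Fin l → Fin M, α τ s •
        (((avg σE σC d m z₀ - z₀).mapDomain ofPts).mapDomain (BBF.symAct (actS σE) τ s)) := by
    rw [Finsupp.mapDomain_finsetSum, ← Finset.sum_sub_distrib]
    refine Finset.sum_congr rfl fun τ _ => ?_
    rw [Finsupp.mapDomain_finsetSum, ← Finset.sum_sub_distrib]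
    refine Finset.sum_congr rfl fun s _ => ?_
    rw [Finsupp.mapDomain_smul, ← smul_sub]
    congr 1
    have h6 : (avg σE σC d m z₀ - z₀).mapDomain ofPts =
        (avg σE σC d m z₀).mapDomain ofPts - BBF.prodDiff ℚ p q := by
      change (Finsupp.lmapDomain ℚ ℚ ofPts) (avg σE σC d m z₀ - z₀) = _
      rw [map_sub, Finsupp.lmapDomain_apply, Finsupp.lmapDomain_apply, hz₀,
        ← Finsupp.mapDomain_comp (f := toPts) (g := ofPts)]
      congr 1
      exact Finsupp.mapDomain_id
    rw [h6]
    have h7 : ((avg σE σC d m z₀).mapDomain ofPts - BBF.prodDiff ℚ p q).mapDomain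
        (BBF.symAct (actS σE) τ s) = ((avg σE σC d m z₀).mapDomain ofPts).mapDomain
        (BBF.symAct (actS σE) τ s) - (BBF.prodDiff ℚ p q).mapDomain
        (BBF.symAct (actS σE) τ s) := by
      change (Finsupp.lmapDomain ℚ ℚ (BBF.symAct (actS σE) τ s)) (_ - _) = _
      rw [map_sub]
      rfl
    rw [h7, ← Finsupp.mapDomain_comp, ← Finsupp.mapDomain_comp]
    have h8 : (BBF.symAct (actS σE) τ s ∘ ofPts : Pts k LE LC (Fin l) (Fin l) → _) =
        ofPts ∘ sact σE τ fun i => (s i : ℕ) := rfl
    rw [h8, sub_sub_cancel]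
  rw [h5]
  exact Submodule.sub_mem _ h2 (Submodule.sum_mem _ fun τ _ => Submodule.sum_mem _ fun s _ =>
    Submodule.smul_mem _ _ (h4 τ s))

/-- condition 4 -/
theorem bb_grad {m₁ m₂ : ℕ} (hE : Elliptic A B ζ σE X Y) (hM : M = 2 ∨ M = 4 ∨ M = 6)
    (hζ : IsPrimitiveRoot ζ M) (hd : d * m = M) (hm : 1 < m) (hC : Cyclic m (ζ ^ d) e a σC x y)
    (ha : ∀ j, a j < m) (hsum : ∑ j, a j = m * (n + 1))
    (γ : BBF.Mor (Place k LE × Place k LC) (Fin M) m₁ m₂ →₀ ℚ) (ν : ℕ)
    (hγ : KillsForms ζ n γ ν) :
    (BBF.Fil (ratS σE σC d) 2 m₁ ν).map (BBF.pushM (actS σE) γ) ≤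
      BBF.Fil (ratS σE σC d) 2 m₂ (ν + 1) := by
  classical
  have hM0 : 0 < M := by rcases hM with rfl | rfl | rfl <;> norm_num
  have : Nonempty (Place k LE × Place k LC) := by
    obtain ⟨P₀, -⟩ := exists_place hE.transc (0 : k)
    obtain ⟨Q₀, -⟩ := exists_place hC.transc (0 : k)
    exact ⟨(P₀, Q₀)⟩
  refine BBF.Fil_grad (act := actS σE) (e := ⟨0, hM0⟩) (fun p => ?_) 2 (by norm_num)
    (fun m m' f => ratS_map f) (fun m z hz => ratS_deg z hz) γ ν (fun h0 => ?_)
    (fun l hl hν I J p q => ?_)
  · refine Prod.ext ?_ rfl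
    simp only [actS, pow_zero, Place.map_one]
  · -- `ν = 0`
    subst h0
    have h1 := hγ 0 (by simp) (RelEmbedding.ofIsEmpty _ _) (RelEmbedding.ofIsEmpty _ _) 1
      fun i => i.elim0
    unfold pullForm at h1
    rw [Fintype.sum_unique, Fintype.sum_unique] at h1
    have h2 : (γ.support.filter fun f => BBF.Induces f
        (RelEmbedding.ofIsEmpty _ _ : Fin 0 ↪o Fin m₁) (RelEmbedding.ofIsEmpty _ _ : Fin 0 ↪o Fin m₂)
        default default) = γ.support := by
      rw [Finset.filter_true_of_mem]
      intro f _ b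
      exact b.elim0
    rw [h2, map_one, Finset.univ_eq_empty, Finset.sum_empty, pow_zero, mul_one,
      MvPolynomial.smul_eq_C_mul, mul_one, MvPolynomial.C_eq_zero, Rat.cast_eq_zero] at h1
    exact h1
  · -- `ν = 2 * l`
    have h1 := main_prodDiff (l := l) hE hM hζ hd hm hC ha hsum
      (α := fun τ s => ∑ f ∈ γ.support with BBF.Induces f I J τ s, γ f)
      (fun Q hQ => by
        have := hγ l hν I J Q hQ
        unfold pullForm at this
        exact this) p q
    convert h1 using 1
    have h2 : ∀ (τ : Equiv.Perm (Fin l)) (s : Fin l → Fin M),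
        (∑ f ∈ γ.support with BBF.Induces f I J τ s, γ f) •
          (BBF.prodDiff ℚ p q).mapDomain (BBF.symAct (actS σE) τ s) =
        ∑ f ∈ γ.support, if BBF.Induces f I J τ s then
          γ f • (BBF.prodDiff ℚ p q).mapDomain (BBF.symAct (actS σE) τ s) else 0 := by
      intro τ s
      rw [Finset.sum_smul, Finset.sum_filter]
    simp only [h2]
    rw [Finset.sum_congr rfl fun τ _ => Finset.sum_comm, Finset.sum_comm]
    refine Finset.sum_congr rfl fun f _ => ?_
    by_cases h : ∃ g : Equiv.Perm (Fin l) × (Fin l → Fin M), BBF.Induces f I J g.1 g.2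
    · rw [dif_pos h, Finset.sum_eq_single h.choose.1, Finset.sum_eq_single h.choose.2,
        if_pos h.choose_spec]
      · intro s _ hs
        rw [if_neg]
        intro h'
        exact hs (BBF.Induces.unique h' h.choose_spec).2
      · intro h'
        exact absurd (Finset.mem_univ _) h'
      · intro τ _ hτ
        refine Finset.sum_eq_zero fun s _ => ?_
        rw [if_neg]
        intro h'
        exact hτ (BBF.Induces.unique h' h.choose_spec).1
      · intro h'
        exact absurd (Finset.mem_univ _) h'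
    · rw [dif_neg h, smul_zero]
      refine (Finset.sum_eq_zero fun τ _ => Finset.sum_eq_zero fun s _ => ?_).symm
      rw [if_neg]
      intro h'
      exact h ⟨(τ, s), h'⟩

/-- the generalised conjecture of Voisin -/
theorem bb_voisin (hE : Elliptic A B ζ σE X Y) (hM : M = 2 ∨ M = 4 ∨ M = 6)
    (hζ : IsPrimitiveRoot ζ M) (hd : d * m = M) (hm : 1 < m) (hC : Cyclic m (ζ ^ d) e a σC x y)
    (ha : ∀ j, a j < m) (hsum : ∑ j, a j = m * (n + 1))
    (p q : Fin (n + 1) → Place k LE × Place k LC) :
    ∑ τ : Equiv.Perm (Fin (n + 1)), ((Equiv.Perm.sign τ : ℤ) : ℚ) •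
      (BBF.cyc ℚ Finset.univ p q).mapDomain (fun x => x ∘ τ) ∈ ratS σE σC d (n + 1) := by
  classical
  have hM0 : 0 < M := by rcases hM with rfl | rfl | rfl <;> norm_num
  have h1 := main_prodDiff (l := n + 1) hE hM hζ hd hm hC ha hsum
    (α := fun τ s => if s = fun _ => ⟨0, hM0⟩ then ((Equiv.Perm.sign τ : ℤ) : ℚ) else 0)
    (fun Q hQ => by
      rw [← alt_rename Q hQ]
      refine Finset.sum_congr rfl fun τ _ => ?_
      rw [Finset.sum_eq_single (fun _ => (⟨0, hM0⟩ : Fin M))]
      · simp
      · intro s _ hs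
        rw [if_neg hs]
        simp
      · intro h
        exact absurd (Finset.mem_univ _) h) p q
  convert h1 using 1
  refine Finset.sum_congr rfl fun τ _ => ?_
  rw [Finset.sum_eq_single (fun _ => (⟨0, hM0⟩ : Fin M))]
  · rw [if_pos rfl]
    have h2 : BBF.cyc ℚ Finset.univ p q = BBF.prodDiff ℚ p q := by
      unfold BBF.cyc BBF.prodDiff
      rw [Finset.powerset_univ]
    have h3 : (BBF.symAct (actS σE) τ fun _ => (⟨0, hM0⟩ : Fin M) :
        (Fin (n + 1) → Place k LE × Place k LC) → _) = fun x => x ∘ τ := by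
      funext x b
      refine Prod.ext ?_ rfl
      simp only [BBF.symAct, actS, pow_zero, Place.map_one, Function.comp_apply]
    rw [h2, h3]
  · intro s _ hs
    rw [if_neg hs, zero_smul]
  · intro h
    exact absurd (Finset.mem_univ _) h

end

end Pool.Agent.ZIso
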