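import Pool.Agent.ZCyc.P2
import Pool.Agent.ZCyc.Unique

/-!
# The points above a branch point form one orbit
-/

open Polynomial Pool.Agent.ZCyc

namespace Pool.Agent.ZIso

universe u

section Branch
variable {k : Type u} [Field k] {m : ℕ} {ζ : k} {J : Type} [Fintype J] {e : J → k} {a : J → ℕ}
  {L : Type u} [Field L] [Algebra k L] {σ : L ≃ₐ[k] L} {x y : L}

private lemma branch_pow_act (h : Cyclic m ζ e a σ x y) (r : ℕ) :
    (σ ^ r) x = x ∧ (σ ^ r) y = algebraMap k L ζ ^ r * y := by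
  induction r with
  | zero => simp
  | succ r ih =>
    rw [pow_succ, AlgEquiv.mul_apply, AlgEquiv.mul_apply, h.fix, h.act, map_mul, ih.1, ih.2,
      AlgEquiv.commutes]
    exact ⟨rfl, by ring⟩

private lemma branch_symm_act (h : Cyclic m ζ e a σ x y) (r : ℕ) :
    (σ ^ r).symm x = x ∧ algebraMap k L ζ ^ r * (σ ^ r).symm y = y := by
  constructor
  · rw [AlgEquiv.symm_apply_eq, (branch_pow_act h r).1]
  · have h2 : (σ ^ r).symm ((σ ^ r) y) = y := AlgEquiv.symm_apply_apply _ _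
    rw [(branch_pow_act h r).2, map_mul, map_pow, AlgEquiv.commutes] at h2
    exact h2

private lemma branch_ne_zero_of_at {A : Place k L} {f : L} {c : k} (h : A.At f c) (hc : c ≠ 0) :
    ¬ A.Vanishes f := fun h' => hc (h.unique (Place.at_zero_iff.2 h'))

/-- values of `y` and of the uniformizer -/
private lemma branch_aux {A : Place k L} {ej u₀ : k} {u p : L} {m' a' α κ : ℕ}
    (ha' : a' ≠ 0) (hx : A.At x ej) (hu : A.At u u₀) (hu0 : u₀ ≠ 0)
    (e1 : p ^ m' = u ^ α * (x - algebraMap k L ej)) (e2 : y * u ^ κ = p ^ a') :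
    A.Vanishes p ∧ A.Vanishes y := by
  have h1 : A.Vanishes p := by
    apply A.vanishes_of_pow (n := m')
    rw [e1]
    exact Place.Vanishes.mul' A hx (pow_mem hu.mem α)
  refine ⟨h1, ?_⟩
  have hv : A.At (u ^ κ) (u₀ ^ κ) := hu.pow κ
  have hne : u₀ ^ κ ≠ 0 := pow_ne_zero _ hu0
  have hne' : u ^ κ ≠ 0 := by
    intro h0
    apply hne
    apply hv.unique
    rw [h0]
    have := Place.at_const (v := A) (0 : k)
    simpa using this
  have h2 : y = p ^ a' * (u ^ κ)⁻¹ := by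
    rw [← e2, mul_inv_cancel_right₀ hne']
  rw [h2]
  exact Place.Vanishes.mul A (Place.Vanishes.pow A h1 ha') (hv.inv hne).mem

/-- the points above a branch point form one orbit -/
theorem Cyclic.branch_orbit {k : Type u} [Field k] [IsAlgClosed k] [CharZero k] {m : ℕ} {ζ : k}
    {J : Type} [Fintype J] {e : J → k} {a : J → ℕ} {L : Type u} [Field L] [Algebra k L]
    {σ : L ≃ₐ[k] L} {x y : L} (h : Cyclic m ζ e a σ x y) (hζ : IsPrimitiveRoot ζ m) (hm : 1 < m)
    {P Q : Place k L} {j : J} (hP : P.At x (e j)) (hQ : Q.At x (e j)) :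
    ∃ r : ℕ, Q = P.map (σ ^ r) := by
  classical
  have hm0 : 0 < m := by omega
  have haj : a j ≠ 0 := by
    intro h0
    apply h.ndvd j
    rw [h0]
    exact dvd_zero m
  obtain ⟨d, hd⟩ : ∃ d, d = Nat.gcd (a j) m := ⟨_, rfl⟩
  have hd0 : 0 < d := by
    rw [hd]
    exact Nat.gcd_pos_of_pos_right _ hm0
  have hdm : d < m := by
    refine lt_of_le_of_ne (Nat.le_of_dvd hm0 (hd ▸ Nat.gcd_dvd_right _ _)) ?_
    intro h1
    apply h.ndvd j
    rw [← h1, hd]
    exact Nat.gcd_dvd_left _ _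
  obtain ⟨m', hm'⟩ : ∃ m', m = d * m' := hd ▸ Nat.gcd_dvd_right _ _
  obtain ⟨a', ha'⟩ : ∃ a', a j = d * a' := hd ▸ Nat.gcd_dvd_left _ _
  have hm'1 : 1 < m' := by
    by_contra hcon
    have : m' = 0 ∨ m' = 1 := by omega
    rcases this with h1 | h1
    · rw [h1, mul_zero] at hm'
      omega
    · rw [h1, mul_one] at hm'
      omega
  have ha'0 : a' ≠ 0 := by
    rintro rfl
    rw [mul_zero] at ha'
    exact haj ha'
  have hcop : Nat.Coprime a' m' := by
    have h1 : Nat.gcd (d * a') (d * m') = d * Nat.gcd a' m' := Nat.gcd_mul_left _ _ _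
    rw [← ha', ← hm', ← hd] at h1
    exact Nat.eq_of_mul_eq_mul_left hd0 (by rw [← h1, mul_one])
  obtain ⟨α, hα⟩ := Nat.exists_mul_mod_eq_one_of_coprime hcop hm'1
  obtain ⟨κ, hκ⟩ : ∃ κ, a' * α = 1 + m' * κ := ⟨a' * α / m', by
    have := Nat.mod_add_div (a' * α) m'
    omega⟩
  -- the functions
  obtain ⟨t, ht⟩ : ∃ t, t = x - algebraMap k L (e j) := ⟨_, rfl⟩
  have ht0 : t ≠ 0 := by
    rw [ht, sub_ne_zero]
    intro h1
    apply h.transc
    rw [h1]
    exact isAlgebraic_algebraMap _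
  let Hp : k[X] := ∏ l ∈ Finset.univ.erase j, (X - C (e l)) ^ a l
  have hH : y ^ m = t ^ a j * aeval x Hp := by
    rw [h.eqn, ← Finset.mul_prod_erase Finset.univ _ (Finset.mem_univ j), ht]
    congr 1
    simp [Hp, map_prod]
  obtain ⟨h₀, hh₀⟩ : ∃ h₀, h₀ = Hp.eval (e j) := ⟨_, rfl⟩
  have hh₀0 : h₀ ≠ 0 := by
    rw [hh₀, eval_prod]
    refine Finset.prod_ne_zero_iff.2 fun l hl => ?_
    rw [eval_pow, eval_sub, eval_X, eval_C]
    refine pow_ne_zero _ (sub_ne_zero.2 ?_)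
    intro h1
    exact (Finset.mem_erase.1 hl).1 (h.inj h1).symm
  have hHP : P.At (aeval x Hp) h₀ := by
    rw [hh₀]
    exact hP.aeval Hp
  have hHQ : Q.At (aeval x Hp) h₀ := by
    rw [hh₀]
    exact hQ.aeval Hp
  obtain ⟨u, hu⟩ : ∃ u, u = y ^ m' / t ^ a' := ⟨_, rfl⟩
  obtain ⟨p, hp⟩ : ∃ p, p = y ^ α / t ^ κ := ⟨_, rfl⟩
  have hud : u ^ d = aeval x Hp := by
    rw [hu, div_pow, ← pow_mul, ← pow_mul, mul_comm m' d, mul_comm a' d, ← hm', ← ha', hH,
      mul_div_cancel_left₀ _ (pow_ne_zero _ ht0)]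
  have e1 : p ^ m' = u ^ α * (x - algebraMap k L (e j)) := by
    rw [← ht, hu, hp, div_pow, div_pow, ← pow_mul, ← pow_mul, ← pow_mul, ← pow_mul, hκ,
      mul_comm α m', mul_comm κ m', pow_add, pow_one]
    field_simp
  have e2 : y * u ^ κ = p ^ a' := by
    rw [hu, hp, div_pow, div_pow, ← pow_mul, ← pow_mul, ← pow_mul, ← pow_mul, mul_comm α a',
      hκ, mul_comm κ a', pow_add, pow_one, mul_div_assoc]
  -- the values of `u`
  obtain ⟨b, hb⟩ := IsAlgClosed.exists_pow_nat_eq h₀ hd0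
  have hζ' : IsPrimitiveRoot (ζ ^ m') d := hζ.pow hm0 (by rw [hm', mul_comm])
  obtain ⟨i, _, hi⟩ := Place.exists_root_at (v := P) hζ' hd0 (y := u) (b := b)
    (by rw [hud, hb]; exact hHP)
  obtain ⟨i', _, hi'⟩ := Place.exists_root_at (v := Q) hζ' hd0 (y := u) (b := b)
    (by rw [hud, hb]; exact hHQ)
  obtain ⟨u₀, hu₀⟩ : ∃ u₀, u₀ = (ζ ^ m') ^ i' * b := ⟨_, rfl⟩
  rw [← hu₀] at hi'
  have hu₀d : u₀ ^ d = h₀ := by
    apply (hi'.pow d).unique
    rw [hud]
    exact hHQ
  have hu₀0 : u₀ ≠ 0 := by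
    rintro rfl
    rw [zero_pow hd0.ne'] at hu₀d
    exact hh₀0 hu₀d.symm
  -- the second point
  obtain ⟨r, hr⟩ : ∃ r, r = i + (d - 1) * i' := ⟨_, rfl⟩
  refine ⟨r, ?_⟩
  have hri : r + i' = i + d * i' := by
    obtain ⟨d', rfl⟩ := Nat.exists_eq_succ_of_ne_zero hd0.ne'
    rw [hr]
    simp only [Nat.succ_eq_add_one, Nat.add_sub_cancel]
    ring
  have hs := branch_symm_act h r
  have hPx : (P.map (σ ^ r)).At x (e j) := by
    rw [Place.at_map, hs.1]
    exact hP
  have hζ0 : ζ ≠ 0 := hζ.ne_zero hm0.ne'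
  have hPu : (P.map (σ ^ r)).At u u₀ := by
    rw [Place.at_map]
    have h1 : (σ ^ r).symm u = algebraMap k L ((ζ ^ (r * m'))⁻¹) * u := by
      have h2 : algebraMap k L ζ ^ (r * m') * ((σ ^ r).symm y) ^ m' = y ^ m' := by
        have h3 := congrArg (fun z => z ^ m') hs.2
        simp only [mul_pow] at h3
        rw [← pow_mul] at h3
        exact h3
      have h4 : algebraMap k L ζ ≠ 0 := by rwa [_root_.map_ne_zero]
      rw [hu, map_div₀, map_pow, map_pow, ht, map_sub, hs.1, AlgEquiv.commutes, ← h2, map_inv₀,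
        map_pow]
      rw [← mul_div_assoc, inv_mul_cancel_left₀ (pow_ne_zero _ h4)]
    rw [h1]
    have h5 : (ζ ^ (r * m'))⁻¹ * ((ζ ^ m') ^ i * b) = u₀ := by
      rw [inv_mul_eq_iff_eq_mul₀ (pow_ne_zero _ hζ0), hu₀, ← mul_assoc]
      congr 1
      rw [← pow_mul, ← pow_mul, ← pow_add]
      have h6 : r * m' + m' * i' = m' * i + m * i' := by
        rw [hm']
        linear_combination m' * hri
      rw [h6, pow_add ζ (m' * i), pow_mul ζ m, hζ.pow_eq_one, one_pow, mul_one]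
    rw [← h5]
    exact (Place.at_const _).mul hi
  symm
  obtain ⟨hPp, hPy⟩ := branch_aux ha'0 hPx hPu hu₀0 e1 e2
  obtain ⟨hQp, hQy⟩ := branch_aux ha'0 hQ hi' hu₀0 e1 e2
  -- the algebra
  let S : Finset L := {x, y, u, p}
  have hxS : x ∈ Algebra.adjoin k (S : Set L) := Algebra.subset_adjoin (by simp [S])
  have hyS : y ∈ Algebra.adjoin k (S : Set L) := Algebra.subset_adjoin (by simp [S])
  have huS : u ∈ Algebra.adjoin k (S : Set L) := Algebra.subset_adjoin (by simp [S])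
  have hpS : p ∈ Algebra.adjoin k (S : Set L) := Algebra.subset_adjoin (by simp [S])
  have hcS : ∀ c : k, algebraMap k L c ∈ Algebra.adjoin k (S : Set L) := fun c =>
    (Algebra.adjoin k (S : Set L)).algebraMap_mem c
  have hall : ∀ s ∈ S, ∃ c, (P.map (σ ^ r)).At s c ∧ Q.At s c ∧
      ∃ g ∈ Algebra.adjoin k (S : Set L), ∃ h' ∈ Algebra.adjoin k (S : Set L),
        ¬ (P.map (σ ^ r)).Vanishes g ∧ (s - algebraMap k L c) * g = p * h' := by
    intro s hsS
    have h4 : s = x ∨ s = y ∨ s = u ∨ s = p := by simpa [S] using hsS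
    have hpm : p * p ^ (m' - 1) = p ^ m' := by
      rw [← pow_succ', Nat.sub_add_cancel (by omega)]
    have hpa : p * p ^ (a' - 1) = p ^ a' := by
      rw [← pow_succ', Nat.sub_add_cancel (by omega)]
    rcases h4 with rfl | rfl | rfl | rfl
    · refine ⟨e j, hPx, hQ, u ^ α, pow_mem huS _, p ^ (m' - 1), pow_mem hpS _,
        branch_ne_zero_of_at (hPu.pow α) (pow_ne_zero _ hu₀0), ?_⟩
      rw [hpm, e1, mul_comm]
    · refine ⟨0, Place.at_zero_iff.2 hPy, Place.at_zero_iff.2 hQy, u ^ κ, pow_mem huS _,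
        p ^ (a' - 1), pow_mem hpS _, branch_ne_zero_of_at (hPu.pow κ) (pow_ne_zero _ hu₀0), ?_⟩
      rw [hpa, ← e2, map_zero, sub_zero]
    · -- the function `u`
      obtain ⟨q, hq⟩ : ∃ q : k[X], Hp - C h₀ = (X - C (e j)) * q := by
        apply dvd_iff_isRoot.2
        rw [IsRoot.def, eval_sub, eval_C, ← hh₀, sub_self]
      have hq' : aeval x Hp - algebraMap k L h₀ = t * aeval x q := by
        have := congrArg (aeval x) hq
        simpa [ht] using this
      let G : L := ∑ i ∈ Finset.range d, s ^ i * (algebraMap k L u₀) ^ (d - 1 - i)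
      have hG : (s - algebraMap k L u₀) * G = t * aeval x q := by
        rw [mul_comm, Commute.geom_sum₂_mul (Commute.all _ _) d, hud, ← hq', ← map_pow, hu₀d]
      have hGP : (P.map (σ ^ r)).At G (∑ i ∈ Finset.range d, u₀ ^ i * u₀ ^ (d - 1 - i)) := by
        apply Place.At.sum
        intro i _
        exact (hPu.pow i).mul ((Place.at_const u₀).pow _)
      have hGv : (∑ i ∈ Finset.range d, u₀ ^ i * u₀ ^ (d - 1 - i)) ≠ 0 := by
        have h5 : ∀ i ∈ Finset.range d, u₀ ^ i * u₀ ^ (d - 1 - i) = u₀ ^ (d - 1) := by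
          intro i hi'
          rw [Finset.mem_range] at hi'
          rw [← pow_add]
          congr 1
          omega
        rw [Finset.sum_congr rfl h5, Finset.sum_const, Finset.card_range, nsmul_eq_mul]
        exact mul_ne_zero (Nat.cast_ne_zero.2 hd0.ne') (pow_ne_zero _ hu₀0)
      have hGS : G ∈ Algebra.adjoin k (S : Set L) :=
        sum_mem fun i _ => mul_mem (pow_mem huS _) (pow_mem (hcS _) _)
      have hqS : aeval x q ∈ Algebra.adjoin k (S : Set L) := by
        have h6 : aeval x q ∈ Algebra.adjoin k ({x} : Set L) := aeval_mem_adjoin_singleton _ _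
        refine Algebra.adjoin_mono ?_ h6
        simp [S]
      refine ⟨u₀, hPu, hi', G * s ^ α, mul_mem hGS (pow_mem huS _), p ^ (m' - 1) * aeval x q,
        mul_mem (pow_mem hpS _) hqS,
        branch_ne_zero_of_at (hGP.mul (hPu.pow α)) (mul_ne_zero hGv (pow_ne_zero _ hu₀0)), ?_⟩
      rw [← mul_assoc, hG, ← mul_assoc p, hpm, e1, ht]
      ring
    · refine ⟨0, Place.at_zero_iff.2 hPp, Place.at_zero_iff.2 hQp, 1, one_mem _, 1, one_mem _,
        ?_, ?_⟩
      · intro h5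
        have h6 : (P.map (σ ^ r)).Vanishes (algebraMap k L 1) := by rwa [map_one]
        exact (P.map (σ ^ r)).const_unit one_ne_zero h6
      · rw [map_zero, sub_zero]
  choose! c hc1 hc2 hc3 using hall
  refine Place.eq_of_uniformizer (P := P.map (σ ^ r)) (Q := Q) (S := S) ?_ c hc1 hc2 hpS hPp
    hc3
  rw [eq_top_iff, ← h.gen]
  apply IntermediateField.adjoin.mono
  intro s hs
  rcases hs with rfl | rfl
  · simp [S]
  · simp [S]

end Branch

end Pool.Agent.ZIso
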