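import Pool.Agent.ZCyc.Final

/-!
# Isotrivial elliptic surfaces: definitions

`E` is the elliptic curve `y ^ 2 = x ^ 3 + 1` (`ε = 0`, `M = 6`) or `y ^ 2 = x ^ 3 + x` (`ε = 1`,
`M = 4`) with its automorphism `σ : (x, y) ↦ (ζ ^ 2 x, ζ ^ 3 y)` of order `M`, and `C` is another
curve. We consider zero-cycles on the products `E ^ I × C ^ I'`.
-/

open Polynomial Pool.Agent.ZCyc

namespace Pool.Agent.ZIso

universe u w

/-- `L = k(x, y)` is the function field of the elliptic curve `y ^ 2 = x ^ 3 + x ^ ε`, and `σ` is the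
automorphism `(x, y) ↦ (ζ ^ 2 x, ζ ^ 3 y)`. -/
structure Ell {k : Type u} [Field k] (ε : ℕ) (ζ : k) {L : Type u} [Field L] [Algebra k L]
    (σ : L ≃ₐ[k] L) (x y : L) : Prop where
  transc : Transcendental k x
  gen : IntermediateField.adjoin k {x, y} = ⊤
  eqn : y ^ 2 = x ^ 3 + x ^ ε
  actx : σ x = algebraMap k L (ζ ^ 2) * x
  acty : σ y = algebraMap k L (ζ ^ 3) * y

/-- The points of `E ^ I × C ^ I'`, where `LE` and `LC` are the function fields of `E` and `C`. -/
abbrev Pts (k LE LC : Type u) [Field k] [Field LE] [Field LC] [Algebra k LE] [Algebra k LC]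
    (I I' : Type) : Type u := (I → Place k LE) × (I' → Place k LC)

/-- `ψ` is a morphism between two curves: it is constant or dominant. -/
def IsComp {k : Type u} [Field k] {F L : Type u} [Field F] [Algebra k F] [Field L] [Algebra k L]
    (ψ : Place k F → Place k L) : Prop :=
  (∃ p, ∀ v, ψ v = p) ∨ ∃ f : L →ₐ[k] F, ∀ v, (ψ v).ring = v.ring.comap (f : L →+* F)

/-- `φ` is a morphism from the curve with function field `F` to `E ^ I × C ^ I'`: every component is
constant or dominant. -/
def Mor {k LE LC : Type u} [Field k] [Field LE] [Field LC] [Algebra k LE] [Algebra k LC]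
    {I I' : Type} {F : Type u} [Field F] [Algebra k F] (φ : Place k F → Pts k LE LC I I') : Prop :=
  (∀ i, IsComp fun v => (φ v).1 i) ∧ ∀ i, IsComp fun v => (φ v).2 i

/-- The zero-cycles on `E ^ I × C ^ I'` with coefficients in `R` which are rationally equivalent to
zero: the span of the cycles `φ_* (∑ τ, τ v) - φ_* (∑ τ, τ w)`, for all finite Galois coverings of
the projective line, given by extensions `F` of `k(X)`, all points `v` and `w` of `F` above points
`a` and `b` of the line, and all morphisms `φ` to `E ^ I × C ^ I'`; the sums are over all `τ` in the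
Galois group. -/
noncomputable def rat (k LE LC : Type u) [Field k] [Field LE] [Field LC] [Algebra k LE]
    [Algebra k LC] (I I' : Type) (R : Type w) [Field R] : Submodule R (Pts k LE LC I I' →₀ R) :=
  Submodule.span R {z | ∃ (F : Type u) (_ : Field F) (_ : Algebra k F) (_ : Algebra (RatFunc k) F)
    (_ : IsScalarTower k (RatFunc k) F) (_ : FiniteDimensional (RatFunc k) F)
    (_ : IsGalois (RatFunc k) F) (φ : Place k F → Pts k LE LC I I') (_ : Mor φ)
    (a b : k) (v w : Place k F)
    (_ : v.Vanishes (algebraMap (RatFunc k) F (RatFunc.X - RatFunc.C a)))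
    (_ : w.Vanishes (algebraMap (RatFunc k) F (RatFunc.X - RatFunc.C b))),
    z = ∑ τ : F ≃ₐ[RatFunc k] F, (Finsupp.single (φ (v.map (τ.restrictScalars k))) 1 -
      Finsupp.single (φ (w.map (τ.restrictScalars k))) 1)}

end Pool.Agent.ZIso
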