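import Pool.Agent.ZIso.Defs

/-!
# A model of the elliptic curve which is not branched at infinity
-/

open Polynomial Pool.Agent.ZCyc

namespace Pool.Agent.ZIso

universe u w

section Ell

variable {k : Type u} [Field k] {ε M : ℕ} {ζ : k} {L : Type u} [Field L] [Algebra k L]
  {σ : L ≃ₐ[k] L} {x y : L}

private theorem prim_half {M : ℕ} (hM : 0 < M) (h2 : 2 ∣ M) (hζ : IsPrimitiveRoot ζ M) :
    ζ ^ (M / 2) = -1 := by
  obtain ⟨d, rfl⟩ := h2
  have hd : 0 < d := by omega
  rw [Nat.mul_div_cancel_left _ (by norm_num)]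
  have h1 : (ζ ^ d - 1) * (ζ ^ d + 1) = 0 := by
    have := hζ.pow_eq_one
    rw [mul_comm 2 d, pow_mul] at this
    linear_combination this
  rcases mul_eq_zero.mp h1 with h | h
  · exact absurd (sub_eq_zero.mp h) (hζ.pow_ne_one_of_pos_of_lt (by omega) (by omega))
  · linear_combination h

/-- the roots of `X ^ 3 + X ^ ε` -/
private theorem exists_roots (hε : ε ≤ 1) (hM : M + 2 * ε = 6) (hζ : IsPrimitiveRoot ζ M) :
    ∃ e : Fin 3 → k, Function.Injective e ∧
      (∀ z : k, z ^ 3 + z ^ ε = ∏ j, (z - e j)) ∧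
      (∀ z : L, z ^ 3 + z ^ ε = ∏ j, (z - algebraMap k L (e j))) := by
  have hζ0 : ζ ≠ 0 := by
    rintro rfl
    have := hζ.pow_eq_one
    rw [zero_pow (by omega)] at this
    exact zero_ne_one this
  have hhalf := prim_half (by omega) (by omega) hζ
  obtain rfl | rfl : ε = 0 ∨ ε = 1 := by omega
  · obtain rfl : M = 6 := by omega
    have h3 : ζ ^ 3 = -1 := hhalf
    have hn2 : ζ ^ 2 ≠ 1 := hζ.pow_ne_one_of_pos_of_lt (by norm_num) (by norm_num)
    have hn4 : ζ ^ 4 ≠ 1 := hζ.pow_ne_one_of_pos_of_lt (by norm_num) (by norm_num)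
    have hm1 : ζ + 1 ≠ 0 := by
      intro h
      apply hn2
      linear_combination (ζ - 1) * h
    have h2 : ζ ^ 2 - ζ + 1 = 0 := by
      have : (ζ + 1) * (ζ ^ 2 - ζ + 1) = 0 := by linear_combination h3
      exact (mul_eq_zero.mp this).resolve_left hm1
    have h24 : ζ ^ 2 ≠ ζ ^ 4 := by
      intro h
      apply hn2
      have : ζ ^ 2 * (ζ ^ 2 - 1) = 0 := by linear_combination -h
      have := (mul_eq_zero.mp this).resolve_left (pow_ne_zero _ hζ0)
      linear_combination this
    refine ⟨![-1, -ζ ^ 2, -ζ ^ 4], ?_, ?_, ?_⟩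
    · intro i j hij
      fin_cases i <;> fin_cases j
      · rfl
      · exact absurd (neg_injective hij).symm hn2
      · exact absurd (neg_injective hij).symm hn4
      · exact absurd (neg_injective hij) hn2
      · rfl
      · exact absurd (neg_injective hij) h24
      · exact absurd (neg_injective hij) hn4
      · exact absurd (neg_injective hij).symm h24
      · rfl
    · intro z
      rw [Fin.prod_univ_three]
      simp only [Matrix.cons_val_zero, Matrix.cons_val_one, Matrix.cons_val_two, Matrix.head_cons,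
        Matrix.tail_cons, Matrix.cons_val]
      linear_combination (-(z ^ 2) * (ζ ^ 2 + ζ + 1) + (1 - ζ) * 0) * h2 +
        (-(z * (ζ ^ 3 - 1)) - z * ζ * 0 - (ζ ^ 3 - 1)) * h3 - z * (ζ ^ 2 + ζ + 1) * h2
    · intro z
      have h3' : (algebraMap k L ζ) ^ 3 = -1 := by
        rw [← map_pow, h3, map_neg, map_one]
      have h2' : (algebraMap k L ζ) ^ 2 - algebraMap k L ζ + 1 = 0 := by
        rw [← map_pow, ← map_one (algebraMap k L), ← map_sub, ← map_add, h2, map_zero]
      rw [Fin.prod_univ_three]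
      simp only [Matrix.cons_val_zero, Matrix.cons_val_one, Matrix.cons_val_two, Matrix.head_cons,
        Matrix.tail_cons, Matrix.cons_val, map_neg, map_one, map_pow]
      generalize algebraMap k L ζ = w at *
      linear_combination (-(z ^ 2) * (w ^ 2 + w + 1) + (1 - w) * 0) * h2' +
        (-(z * (w ^ 3 - 1)) - z * w * 0 - (w ^ 3 - 1)) * h3' - z * (w ^ 2 + w + 1) * h2'
  · obtain rfl : M = 4 := by omega
    have h2 : ζ ^ 2 = -1 := hhalf
    have hc : (2 : k) ≠ 0 := by
      intro h
      have h4 : ζ ^ 2 ≠ 1 := hζ.pow_ne_one_of_pos_of_lt (by norm_num) (by norm_num)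
      apply h4
      linear_combination h2 - h
    have hne : ζ ≠ -ζ := by
      intro h
      have : 2 * ζ = 0 := by linear_combination h
      exact (mul_ne_zero hc hζ0) this
    refine ⟨![0, ζ, -ζ], ?_, ?_, ?_⟩
    · intro i j hij
      fin_cases i <;> fin_cases j
      · rfl
      · exact absurd hij.symm hζ0
      · exact absurd hij.symm (neg_ne_zero.mpr hζ0)
      · exact absurd hij hζ0
      · rfl
      · exact absurd hij hne
      · exact absurd hij (neg_ne_zero.mpr hζ0)
      · exact absurd hij.symm hne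
      · rfl
    · intro z
      rw [Fin.prod_univ_three]
      simp only [Matrix.cons_val_zero, Matrix.cons_val_one, Matrix.cons_val_two, Matrix.head_cons,
        Matrix.tail_cons, Matrix.cons_val]
      linear_combination z * h2
    · intro z
      have h2' : (algebraMap k L ζ) ^ 2 = -1 := by
        rw [← map_pow, h2, map_neg, map_one]
      rw [Fin.prod_univ_three]
      simp only [Matrix.cons_val_zero, Matrix.cons_val_one, Matrix.cons_val_two, Matrix.head_cons,
        Matrix.tail_cons, Matrix.cons_val, map_neg, map_zero]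
      linear_combination z * h2'

/-- a model of `E` as a double covering of the line which is not branched at infinity -/
theorem Ell.cyclic_four [IsAlgClosed k] [CharZero k] (h : Ell ε ζ σ x y) (hε : ε ≤ 1)
    (hM : M + 2 * ε = 6) (hζ : IsPrimitiveRoot ζ M) :
    ∃ (e : Fin 4 → k) (x' y' : L), Cyclic 2 (-1) e (fun _ => 1) (σ ^ (M / 2)) x' y' := by
  obtain ⟨e, he, hek, heL⟩ := exists_roots (L := L) hε hM hζ
  obtain ⟨κ, hκ⟩ : ∃ κ : k, κ ^ 2 = 2 := IsAlgClosed.exists_pow_nat_eq 2 (by norm_num)
  have h2 : (2 : k) ≠ 0 := two_ne_zero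
  have hκ0 : κ ≠ 0 := by
    rintro rfl
    rw [zero_pow (by norm_num)] at hκ
    exact h2 hκ.symm
  have hprod : ∏ j, (1 - e j) = 2 := by
    rw [← hek, one_pow, one_pow]
    norm_num
  have hne : ∀ j, 1 - e j ≠ 0 := by
    intro j hj
    rw [Finset.prod_eq_zero (Finset.mem_univ j) hj] at hprod
    exact h2 hprod.symm
  have hx1 : x - 1 ≠ 0 := by
    intro h1
    apply h.transc
    have : x = algebraMap k L 1 := by rw [map_one]; exact sub_eq_zero.mp h1
    rw [this]
    exact isAlgebraic_algebraMap 1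
  have hκL : algebraMap k L κ ≠ 0 := by
    rw [Ne, map_eq_zero]
    exact hκ0
  have hκL2 : algebraMap k L κ ^ 2 = 2 := by
    rw [← map_pow, hκ, map_ofNat]
  have hMσ : ∀ n : ℕ, (σ ^ n) x = algebraMap k L (ζ ^ (2 * n)) * x ∧
      (σ ^ n) y = algebraMap k L (ζ ^ (3 * n)) * y := by
    intro n
    induction n with
    | zero => simp
    | succ n ih =>
      rw [pow_succ']
      constructor
      · rw [AlgEquiv.mul_apply, ih.1, map_mul, AlgEquiv.commutes, h.actx, ← mul_assoc, ← map_mul]
        congr 2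
        ring
      · rw [AlgEquiv.mul_apply, ih.2, map_mul, AlgEquiv.commutes, h.acty, ← mul_assoc, ← map_mul]
        congr 2
        ring
  have hhalf := prim_half (by omega) (by omega) hζ
  have hσx : (σ ^ (M / 2)) x = x := by
    rw [(hMσ _).1, mul_comm 2, pow_mul, hhalf]
    simp
  have hσy : (σ ^ (M / 2)) y = -y := by
    rw [(hMσ _).2, mul_comm 3, pow_mul, hhalf, Odd.neg_one_pow (by decide)]
    simp
  have heL1 : ∀ j, algebraMap k L (1 - e j) ≠ 0 := by
    intro j
    rw [Ne, map_eq_zero]
    exact hne j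
  refine ⟨Fin.cons 0 fun j => (e j - 1)⁻¹, (x - 1)⁻¹, y * (x - 1)⁻¹ ^ 2 / algebraMap k L κ, ?_⟩
  refine ⟨?_, ?_, ?_, ?_, ?_, ?_, ?_⟩
  · intro halg
    apply h.transc
    have h3 : IsAlgebraic k (x - 1) := by
      have := halg.inv
      rwa [inv_inv] at this
    have h4 : IsAlgebraic k ((x - 1) + 1) := h3.add isAlgebraic_one
    rwa [sub_add_cancel] at h4
  · rw [eq_top_iff, ← h.gen, IntermediateField.adjoin_le_iff]
    set K := IntermediateField.adjoin k {(x - 1)⁻¹, y * (x - 1)⁻¹ ^ 2 / algebraMap k L κ} with hK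
    have hx' : (x - 1)⁻¹ ∈ K := IntermediateField.subset_adjoin k _ (by simp)
    have hy' : y * (x - 1)⁻¹ ^ 2 / algebraMap k L κ ∈ K :=
      IntermediateField.subset_adjoin k _ (by simp)
    have hx : x ∈ K := by
      have h3 : (x - 1)⁻¹⁻¹ + 1 ∈ K := add_mem (inv_mem hx') (one_mem _)
      rwa [inv_inv, sub_add_cancel] at h3
    have hy : y ∈ K := by
      have h3 : y * (x - 1)⁻¹ ^ 2 / algebraMap k L κ * algebraMap k L κ * (x - 1) ^ 2 ∈ K :=
        mul_mem (mul_mem hy' (K.algebraMap_mem κ)) (pow_mem (sub_mem hx (one_mem _)) 2)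
      have h4 : y * (x - 1)⁻¹ ^ 2 / algebraMap k L κ * algebraMap k L κ * (x - 1) ^ 2 = y := by
        field_simp
      rwa [h4] at h3
    rintro z (rfl | hz)
    · exact hx
    · rw [Set.mem_singleton_iff] at hz
      rw [hz]
      exact hy
  · rw [Fin.prod_univ_succ]
    simp only [Fin.cons_zero, Fin.cons_succ, map_zero, sub_zero, pow_one]
    have h5 : ∀ j, (x - 1)⁻¹ - algebraMap k L (e j - 1)⁻¹ =
        (x - algebraMap k L (e j)) * ((x - 1)⁻¹ / algebraMap k L (1 - e j)) := by
      intro j
      have h6 := heL1 j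
      have h7 : algebraMap k L (e j - 1) ≠ 0 := by
        rw [← neg_sub, map_neg]
        exact neg_ne_zero.mpr h6
      rw [map_inv₀]
      rw [map_sub, map_one] at h6 h7 ⊢
      rw [map_sub, map_one]
      field_simp
      ring
    rw [Finset.prod_congr rfl fun j _ => h5 j, Finset.prod_mul_distrib, ← heL x, ← h.eqn,
      Finset.prod_div_distrib, Finset.prod_const, Finset.card_univ, Fintype.card_fin, ← map_prod,
      hprod, map_ofNat, ← hκL2]
    field_simp
  · intro i j
    refine Fin.cases ?_ (fun i => ?_) i <;> refine Fin.cases ?_ (fun j => ?_) j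
    · intro _
      rfl
    · intro hij
      rw [Fin.cons_zero, Fin.cons_succ] at hij
      exact absurd hij.symm (inv_ne_zero fun h8 => hne j (by linear_combination -h8))
    · intro hij
      rw [Fin.cons_zero, Fin.cons_succ] at hij
      exact absurd hij (inv_ne_zero fun h8 => hne i (by linear_combination -h8))
    · intro hij
      rw [Fin.cons_succ, Fin.cons_succ] at hij
      have h8 := inv_injective hij
      rw [he (sub_left_injective h8)]
  · intro j
    norm_num
  · rw [map_inv₀, map_sub, map_one, hσx]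
  · rw [map_div₀, map_mul, map_pow, map_inv₀, map_sub, map_one, hσx, hσy, AlgEquiv.commutes,
      map_neg, map_one]
    ring

end Ell

end Pool.Agent.ZIso
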