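import Pool.Agent.ZIso.Defs

/-!
# A model of `y ^ 2 = x ^ 3 + 1` as a triple covering of the line
-/

open Polynomial Pool.Agent.ZCyc

namespace Pool.Agent.ZIso

universe u w

section Ell

variable {k : Type u} [Field k] {ε M : ℕ} {ζ : k} {L : Type u} [Field L] [Algebra k L]
  {σ : L ≃ₐ[k] L} {x y : L}

private theorem transc_y (h : Ell 0 ζ σ x y) : Transcendental k y := by
  intro hy
  apply h.transc
  have h1 : x ^ 3 = y ^ 2 - algebraMap k L 1 := by
    rw [h.eqn, pow_zero, map_one]
    ring
  have h2 : IsAlgebraic k (x ^ 3) := by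
    rw [h1]
    exact (hy.pow 2).sub (isAlgebraic_algebraMap 1)
  exact IsAlgebraic.of_pow (by norm_num) h2

/-- a model of `E` as a triple covering of the line which is not branched at infinity -/
theorem Ell.cyclic_three [IsAlgClosed k] [CharZero k] (h : Ell 0 ζ σ x y)
    (hζ : IsPrimitiveRoot ζ 6) :
    ∃ (e : Fin 3 → k) (x' y' : L), Cyclic 3 (ζ ^ 4) e (fun _ => 1) (σ ^ 2) x' y' := by
  have hy := transc_y h
  have hy0 : y ≠ 0 := by
    rintro rfl
    exact hy isAlgebraic_zero
  have h6 : ζ ^ 6 = 1 := hζ.pow_eq_one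
  have ax : (σ ^ 2) x = algebraMap k L (ζ ^ 4) * x := by
    rw [pow_two, AlgEquiv.mul_apply, h.actx, map_mul, AlgEquiv.commutes, h.actx, ← mul_assoc,
      ← map_mul]
    congr 2
    ring
  have ay : (σ ^ 2) y = y := by
    rw [pow_two, AlgEquiv.mul_apply, h.acty, map_mul, AlgEquiv.commutes, h.acty, ← mul_assoc,
      ← map_mul]
    have : ζ ^ 3 * ζ ^ 3 = 1 := by rw [← h6]; ring
    rw [this, map_one, one_mul]
  refine ⟨![0, 1, -1], y⁻¹, -x * y⁻¹, ?_, ?_, ?_, ?_, ?_, ?_, ?_⟩
  · intro ha
    have := ha.inv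
    rw [inv_inv] at this
    exact hy this
  · rw [eq_top_iff, ← h.gen]
    rw [IntermediateField.adjoin_le_iff]
    have m1 : y⁻¹ ∈ IntermediateField.adjoin k {y⁻¹, -x * y⁻¹} :=
      IntermediateField.subset_adjoin k _ (Set.mem_insert _ _)
    have m2 : -x * y⁻¹ ∈ IntermediateField.adjoin k {y⁻¹, -x * y⁻¹} :=
      IntermediateField.subset_adjoin k _ (Set.mem_insert_of_mem _ rfl)
    have m3 : y ∈ IntermediateField.adjoin k {y⁻¹, -x * y⁻¹} := by
      have := inv_mem m1
      rwa [inv_inv] at this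
    have m4 : x ∈ IntermediateField.adjoin k {y⁻¹, -x * y⁻¹} := by
      have h1 := neg_mem (mul_mem m2 m3)
      have h2 : -(-x * y⁻¹ * y) = x := by
        field_simp
      rwa [h2] at h1
    intro z hz
    rcases hz with rfl | hz
    · exact m4
    · rw [Set.mem_singleton_iff] at hz
      rw [hz]
      exact m3
  · rw [Fin.prod_univ_three]
    simp only [Matrix.cons_val_zero, Matrix.cons_val_one, Matrix.cons_val, pow_one, map_zero,
      map_one, map_neg]
    have h1 : x ^ 3 = y ^ 2 - 1 := by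
      rw [h.eqn, pow_zero]
      ring
    field_simp
    linear_combination -h1
  · intro i j hij
    fin_cases i <;> fin_cases j <;> simp at hij ⊢
    · exact absurd hij (by norm_num)
    · exact absurd hij (by norm_num)
  · intro j
    norm_num
  · rw [map_inv₀, ay]
  · rw [map_mul, map_inv₀, ay, map_neg, ax]
    ring

end Ell

end Pool.Agent.ZIso
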