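import Pool.Agent.ZIso.Rel

/-!
# The end of the proof
-/

open Polynomial Pool.Agent.ZCyc

set_option linter.unusedSectionVars false

namespace Pool.Agent.ZIso

universe u w

section

variable {k : Type u} [Field k] [IsAlgClosed k] [CharZero k] {LE LC : Type u} [Field LE] [Field LC]
  [Algebra k LE] [Algebra k LC] {I I' : Type} [DecidableEq I] [DecidableEq I'] {R : Type w}
  [Field R] [CharZero R]

theorem pres_actC {n : ℕ} (σC : LC ≃ₐ[k] LC) (τ : Equiv.Perm (Fin n)) (s : Fin n → ℕ) :
    Pres (actC σC τ s : Pts k LE LC I (Fin n) → _) := fun _ hφ => mor_actC hφ σC τ s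

theorem cls_opE (σE : LE ≃ₐ[k] LE) (M : ℕ) (ω : R) (i₀ : I) (z : Pts k LE LC I I' →₀ R) :
    cls (opE I' σE M ω i₀ z) = ∑ b : Fin M, ω ^ (b : ℕ) • push (pres_actE σE i₀ b) (cls z) := by
  rw [opE_apply, cls_sum]
  rfl

theorem cls_opC {n : ℕ} (σC : LC ≃ₐ[k] LC) (m : ℕ) (ω : R) (z : Pts k LE LC I (Fin n) →₀ R) :
    cls (opC I σC m ω n z) = ∑ τ : Equiv.Perm (Fin n), ∑ s : Fin n → Fin m,
      ω ^ (∑ l, (s l : ℕ)) • push (pres_actC σC τ fun l => s l) (cls z) := by
  rw [opC_apply, cls_sum]
  refine Finset.sum_congr rfl fun τ _ => ?_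
  rw [cls_sum]
  rfl

theorem actK_add (s : LC ≃ₐ[k] LC) (i : I') (b c : ℕ) (v : CH k LE LC I I' R) :
    push (pres_actK s i b) (push (pres_actK s i c) v) = push (pres_actK s i (b + c)) v := by
  rw [push_push]
  refine push_congr _ _ (fun p => ?_) v
  refine Prod.ext rfl ?_
  simp only [Function.comp_apply, actK]
  funext l
  by_cases hl : l = i
  · subst hl
    rw [Function.update_self, Function.update_self, Function.update_self, Place.map_map, pow_add]
    rfl
  · rw [Function.update_of_ne hl, Function.update_of_ne hl, Function.update_of_ne hl]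

theorem actK_zero (s : LC ≃ₐ[k] LC) (i : I') (p : Pts k LE LC I I') : actK s i 0 p = p := by
  simp only [actK, pow_zero, Place.map_one, Function.update_eq_self]

theorem actE_eigen {s : LE ≃ₐ[k] LE} {i : I} {c : R} {v : CH k LE LC I I' R}
    (h : push (pres_actE s i 1) v = c • v) (b : ℕ) : push (pres_actE s i b) v = c ^ b • v := by
  induction b with
  | zero => rw [pow_zero, one_smul, push_id _ fun p => actE_zero s i p]
  | succ b ih => rw [← actE_comp, h, map_smul, ih, smul_smul, pow_succ']

theorem actK_eigen {s : LC ≃ₐ[k] LC} {i : I'} {c : R} {v : CH k LE LC I I' R}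
    (h : push (pres_actK s i 1) v = c • v) (b : ℕ) : push (pres_actK s i b) v = c ^ b • v := by
  induction b with
  | zero => rw [pow_zero, one_smul, push_id _ fun p => actK_zero s i p]
  | succ b ih => rw [← actK_add, h, map_smul, ih, smul_smul, pow_succ']

theorem actC_eigen {n : ℕ} {σC : LC ≃ₐ[k] LC} {c : R} {v : CH k LE LC I (Fin n) R}
    (h : ∀ l, push (pres_actK σC l 1) v = c • v)
    (hs : ∀ τ : Equiv.Perm (Fin n), push (pres_reidx id τ) v = v) (τ : Equiv.Perm (Fin n))
    (s : Fin n → ℕ) : push (pres_actC σC τ s) v = c ^ (∑ l, s l) • v := by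
  have key : ∀ (S : Finset (Fin n)) (s : Fin n → ℕ), (∀ l ∉ S, s l = 0) →
      push (pres_actC σC 1 s) v = c ^ (∑ l, s l) • v := by
    intro S
    induction S using Finset.induction_on with
    | empty =>
      intro s hs
      rw [Finset.sum_eq_zero fun l _ => hs l (Finset.notMem_empty l), pow_zero, one_smul]
      refine push_id _ (fun p => ?_) v
      refine Prod.ext rfl ?_
      funext l
      simp only [actC, hs l (Finset.notMem_empty l), pow_zero, Place.map_one, Equiv.Perm.coe_one,
        id_eq]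
    | insert l₀ S hl₀ ih =>
      intro s hs
      have h1 : push (pres_actC σC 1 s) v = push (pres_actK σC l₀ (s l₀))
          (push (pres_actC σC 1 (Function.update s l₀ 0)) v) := by
        rw [push_push]
        refine push_congr _ _ (fun p => ?_) v
        refine Prod.ext rfl ?_
        funext l
        simp only [Function.comp_apply, actC, actK, Equiv.Perm.coe_one, id_eq]
        by_cases hl : l = l₀
        · subst hl
          rw [Function.update_self, Function.update_self, pow_zero, Place.map_one]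
        · rw [Function.update_of_ne hl, Function.update_of_ne hl]
      rw [h1, ih (Function.update s l₀ 0) fun l hl => ?_, map_smul, actK_eigen (h l₀), smul_smul,
        ← pow_add]
      · congr 2
        rw [Finset.sum_update_of_mem (Finset.mem_univ _), zero_add,
          ← Finset.sum_sdiff (Finset.subset_univ {l₀}), Finset.sum_singleton]
      · by_cases hll : l = l₀
        · rw [hll, Function.update_self]
        · rw [Function.update_of_ne hll]
          apply hs
          rw [Finset.mem_insert]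
          push Not
          exact ⟨hll, hl⟩
  have h1 : push (pres_actC σC τ s) v = push (pres_actC σC 1 s) (push (pres_reidx id τ) v) := by
    rw [push_push]
    exact push_congr _ _ (fun p => rfl) v
  rw [h1, hs, key Finset.univ s fun l hl => absurd (Finset.mem_univ l) hl]

section ell

variable {ε M m d : ℕ} {ζ : k} {ω : R} {σE : LE ≃ₐ[k] LE} {σC : LC ≃ₐ[k] LC} {X Y : LE}
  {x y : LC} {J : Type} [Fintype J] [DecidableEq J] {e : J → k} {a : J → ℕ} {n : ℕ}

/-- the isotypical part is zero -/
theorem kill (hE : Ell ε ζ σE X Y) (hε : ε ≤ 1) (hM : M + 2 * ε = 6) (hζ : IsPrimitiveRoot ζ M)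
    (hω : IsPrimitiveRoot ω M) (hd : d * m = M) (hm : 1 < m)
    (hC : Cyclic m (ζ ^ d) e a σC x y) (ha : ∀ j, a j < m) (hsum : ∑ j, a j = m * n)
    {v : CH k LE LC I (Fin n) R} {i₀ : I} (h1 : push (pres_actE σE i₀ 1) v = ω • v)
    (h2 : ∀ l, push (pres_actK σC l 1) v = ω ^ d • v)
    (h3 : ∀ τ : Equiv.Perm (Fin n), push (pres_reidx id τ) v = v) : v = 0 := by
  have hM0 : 0 < M := by omega
  have hω0 : ω ≠ 0 := hω.ne_zero hM0.ne'
  obtain ⟨z, rfl⟩ := cls_surj v
  have h4 : cls (opE (Fin n) σE M ω⁻¹ i₀ (opC I σC m (ω⁻¹ ^ d) n z)) = 0 := by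
    rw [cls_eq_zero]
    have h5 : z = z.sum fun p c => c • Finsupp.single p 1 := by
      conv_lhs => rw [← Finsupp.sum_single z]
      refine Finsupp.sum_congr fun p _ => ?_
      rw [Finsupp.smul_single_one]
    rw [h5, map_finsuppSum, map_finsuppSum]
    refine Submodule.sum_mem _ fun p _ => ?_
    simp only [map_smul]
    exact Submodule.smul_mem _ _ (main hE hε hM hζ hω.inv hd hm hC ha hsum p i₀)
  have h5 : cls (opC I σC m (ω⁻¹ ^ d) n z) =
      (Fintype.card (Equiv.Perm (Fin n)) * Fintype.card (Fin n → Fin m) : R) • cls z := by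
    rw [cls_opC]
    have h6 : ∀ (τ : Equiv.Perm (Fin n)) (s : Fin n → Fin m),
        (ω⁻¹ ^ d) ^ (∑ l, (s l : ℕ)) • push (pres_actC σC τ fun l => (s l : ℕ)) (cls z) =
          cls z := by
      intro τ s
      rw [actC_eigen h2 h3, smul_smul, ← mul_pow, ← mul_pow, inv_mul_cancel₀ hω0, one_pow, one_pow,
        one_smul]
    simp only [h6]
    rw [Finset.sum_const, Finset.sum_const, Finset.card_univ, Finset.card_univ, smul_smul,
      ← Nat.cast_mul, Nat.cast_smul_eq_nsmul]
  rw [cls_opE, h5] at h4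
  simp only [map_smul, actE_eigen h1] at h4
  have h7 : (M * (Fintype.card (Equiv.Perm (Fin n)) * Fintype.card (Fin n → Fin m)) : R) •
      cls z = 0 := by
    rw [← h4]
    have h8 : ∀ b : Fin M, ω⁻¹ ^ (b : ℕ) • (Fintype.card (Equiv.Perm (Fin n)) *
        Fintype.card (Fin n → Fin m) : R) • ω ^ (b : ℕ) • cls z =
        (Fintype.card (Equiv.Perm (Fin n)) * Fintype.card (Fin n → Fin m) : R) • cls z := by
      intro b
      rw [smul_comm, smul_smul (ω⁻¹ ^ (b : ℕ)), ← mul_pow, inv_mul_cancel₀ hω0, one_pow, one_smul]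
    rw [Finset.sum_congr rfl fun b _ => h8 b, Finset.sum_const, Finset.card_univ, Fintype.card_fin,
      ← Nat.cast_smul_eq_nsmul R, smul_smul]
  have hm0 : NeZero m := ⟨by omega⟩
  rcases smul_eq_zero.1 h7 with h8 | h8
  · exfalso
    refine mul_ne_zero (Nat.cast_ne_zero.2 hM0.ne') (mul_ne_zero (Nat.cast_ne_zero.2
      Fintype.card_ne_zero) (Nat.cast_ne_zero.2 Fintype.card_ne_zero)) h8
  · exact h8

/-- `σ` on the `i`-th coordinate commutes with everything on the coordinates in `C`, etc. -/
theorem setE_actE_self (P₀ : Place k LE) (s : LE ≃ₐ[k] LE) (i : I) (b : ℕ)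
    (v : CH k LE LC I I' R) :
    push (pres_setE P₀ i) (push (pres_actE s i b) v) = push (pres_setE P₀ i) v := by
  rw [push_push]
  refine push_congr _ _ (fun p => ?_) v
  simp only [Function.comp_apply, setE, actE, Function.update_idem]

theorem setE_actE_ne (P₀ : Place k LE) (s : LE ≃ₐ[k] LE) {i j : I} (hij : i ≠ j) (b : ℕ)
    (v : CH k LE LC I I' R) :
    push (pres_setE P₀ i) (push (pres_actE s j b) v) =
      push (pres_actE s j b) (push (pres_setE P₀ i) v) := by
  refine push_comm _ _ _ _ (fun p => ?_) v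
  refine Prod.ext ?_ rfl
  simp only [setE, actE]
  rw [Function.update_comm hij, Function.update_of_ne hij.symm]

theorem actE_actE_ne (s : LE ≃ₐ[k] LE) {i j : I} (hij : i ≠ j) (b c : ℕ)
    (v : CH k LE LC I I' R) :
    push (pres_actE s i b) (push (pres_actE s j c) v) =
      push (pres_actE s j c) (push (pres_actE s i b) v) := by
  refine push_comm _ _ _ _ (fun p => ?_) v
  refine Prod.ext ?_ rfl
  simp only [actE]
  rw [Function.update_comm hij, Function.update_of_ne hij.symm, Function.update_of_ne hij]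

/-- On the space `W` all `σ` for the coordinates in `E` are equal. -/
theorem actE_eq {s : LE ≃ₐ[k] LE} {e : Fin 4 → k} {x' y' : LE}
    (h : Cyclic 2 (-1) e (fun _ => 1) s x' y') {P₀ : Place k LE} {v : CH k LE LC I I' R}
    (hv : ∀ i : I, push (pres_setE P₀ i) v = 0) (i j : I) :
    push (pres_actE σE i 1) v = push (pres_actE σE j 1) v := by
  by_cases hij : i = j
  · rw [hij]
  have hw : ∀ l : I, push (pres_setE P₀ l) (push (pres_actE σE i 1) v) = 0 := by
    intro l
    by_cases hl : l = i
    · rw [hl, setE_actE_self, hv]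
    · rw [setE_actE_ne _ _ hl, hv, map_zero]
  have h1 := swap_neg h hw hij
  have h2 := swap_neg h hv hij
  have h3 : push (pres_reidx (Equiv.swap i j) id) (push (pres_actE σE i 1) v) =
      push (pres_actE σE j 1) (push (pres_reidx (Equiv.swap i j) id) v) := by
    refine push_comm _ _ _ _ (fun p => ?_) v
    refine Prod.ext ?_ rfl
    funext l
    simp only [reidx, actE, Function.comp_apply]
    by_cases hl : l = j
    · subst hl
      rw [Equiv.swap_apply_right, Function.update_self, Function.update_self]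
    · have h3 : Equiv.swap i j l ≠ i := by
        intro h3
        rw [Equiv.swap_apply_eq_iff, Equiv.swap_apply_left] at h3
        exact hl h3
      rw [Function.update_of_ne hl, Function.update_of_ne h3]
      rfl
  rw [h3, h2, map_neg] at h1
  exact (neg_injective h1).symm

/-- `σC` and `σE ^ d` agree on invariant classes. -/
theorem actK_eq_actE {σE : LE ≃ₐ[k] LE} {σC : LC ≃ₐ[k] LC} {d : ℕ} {v : CH k LE LC I I R} {i : I}
    (hinv : push (pres_diag σE σC d i) v = v) :
    push (pres_actK σC i 1) v = push (pres_actE σE i d) v := by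
  conv_rhs => rw [← hinv]
  rw [push_push]
  refine push_congr _ _ (fun p => ?_) v
  simp only [Function.comp_apply, actE, actK, diag]
  refine Prod.ext ?_ ?_
  · simp only
    rw [Function.update_self, Function.update_idem, Place.map_map]
    have h2 : ((σE ^ d)⁻¹).trans (σE ^ d) = (1 : LE ≃ₐ[k] LE) := by
      change (σE ^ d) * (σE ^ d)⁻¹ = 1
      rw [mul_inv_cancel]
    rw [h2, Place.map_one, Function.update_eq_self]
  · simp only [pow_one]

/-- The classes become zero if a coordinate in `E` is replaced by a constant. -/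
theorem setE_zero {σE : LE ≃ₐ[k] LE} {σC : LC ≃ₐ[k] LC} {d m : ℕ} {ζ : k} (hm : 1 < m)
    (hζ : IsPrimitiveRoot ζ m) {x y : LC} {J : Type} [Fintype J] {e : J → k} {a : J → ℕ}
    (hC : Cyclic m ζ e a σC x y) (hsum : m ∣ ∑ j, a j) {n : ℕ} (P₀ : Place k LE)
    {v : CH k LE LC (Fin (n + 1)) (Fin (n + 1)) R} {i : Fin (n + 1)}
    (hinv : push (pres_diag σE σC d i) v = v)
    (hproj : push (pres_reidx i.succAbove i.succAbove) v = 0) : push (pres_setE P₀ i) v = 0 := by
  obtain ⟨Q₀, -⟩ := exists_place hC.transc (0 : k)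
  set u := push (pres_setE P₀ i) v with hu
  have hu1 : push (pres_actK σC i 1) u = (1 : R) • u := by
    rw [hu, push_comm (pres_actK σC i 1) (pres_setE P₀ i) (pres_setE P₀ i) (pres_actK σC i 1)
      (fun p => rfl), actK_eq_actE hinv, setE_actE_self, one_smul]
  have hu2 : ∀ b : ℕ, push (pres_actK σC i b) u = u := by
    intro b
    rw [actK_eigen hu1, one_pow, one_smul]
  have hu3 : push (pres_setK Q₀ i) u = 0 := by
    have h3 : push (pres_setK Q₀ i) u = push (pres_ins i P₀ Q₀)
        (push (pres_reidx i.succAbove i.succAbove) v) := by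
      rw [hu]
      refine push_comm _ _ _ _ (fun p => ?_) v
      simp only [setK, setE, ins, reidx]
      refine Prod.ext ?_ ?_
      · exact (Fin.insertNth_removeNth i P₀ p.1).symm
      · exact (Fin.insertNth_removeNth i Q₀ p.2).symm
    rw [h3, hproj, map_zero]
  have h3 := orbitK hC hm hζ hsum Q₀ i u
  simp only [hu2, hu3, map_zero, Finset.sum_const, Finset.card_univ, Fintype.card_fin,
    smul_zero] at h3
  rw [← Nat.cast_smul_eq_nsmul R] at h3
  rcases smul_eq_zero.1 h3 with h4 | h4
  · exact absurd h4 (Nat.cast_ne_zero.2 (by omega))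
  · exact h4

/-- Alternating classes are symmetric in the coordinates of `C`. -/
theorem perm_id [Fintype I] {s : LE ≃ₐ[k] LE} {e : Fin 4 → k} {x' y' : LE}
    (h : Cyclic 2 (-1) e (fun _ => 1) s x' y') {P₀ : Place k LE} {v : CH k LE LC I I R}
    (hv : ∀ i : I, push (pres_setE P₀ i) v = 0) {τ : Equiv.Perm I}
    (halt : push (pres_reidx τ τ) v = ((Equiv.Perm.sign τ : ℤ) : R) • v) :
    push (pres_reidx id τ) v = v := by
  have h4 := perm_sign h hv τ
  have h5 : push (pres_reidx id τ) (push (pres_reidx τ id) v) = push (pres_reidx τ τ) v := by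
    rw [push_push]
    exact push_congr _ _ (fun p => rfl) v
  rw [h4, halt, map_smul] at h5
  have h6 : ((Equiv.Perm.sign τ : ℤ) : R) ≠ 0 := by
    rcases Int.units_eq_one_or (Equiv.Perm.sign τ) with h | h <;> rw [h] <;> norm_num
  exact smul_right_injective _ h6 h5

/-- The main theorem for the Chow group of `(E × C) ^ (n + 1)`, `M = 4` or `6`. -/
theorem final (hE : Ell ε ζ σE X Y) (hε : ε ≤ 1) (hM : M + 2 * ε = 6) (hζ : IsPrimitiveRoot ζ M)
    (hω : IsPrimitiveRoot ω M) (hd : d * m = M) (hm : 1 < m)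
    (hC : Cyclic m (ζ ^ d) e a σC x y) (ha : ∀ j, a j < m) (hsum : ∑ j, a j = m * (n + 1))
    {v : CH k LE LC (Fin (n + 1)) (Fin (n + 1)) R}
    (hinv : ∀ i, push (pres_diag σE σC d i) v = v)
    (halt : ∀ τ : Equiv.Perm (Fin (n + 1)),
      push (pres_reidx τ τ) v = ((Equiv.Perm.sign τ : ℤ) : R) • v)
    (hproj : ∀ i : Fin (n + 1), push (pres_reidx i.succAbove i.succAbove) v = 0) : v = 0 := by
  have hM0 : 0 < M := by omega
  have hω0 : ω ≠ 0 := hω.ne_zero hM0.ne'
  have hζd : IsPrimitiveRoot (ζ ^ d) m := hζ.pow hM0 hd.symm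
  obtain ⟨P₀, -⟩ := exists_place hE.transc (0 : k)
  obtain ⟨e', x', y', h'⟩ := hE.cyclic_four hε hM hζ
  have h1 := fun i => actK_eq_actE (hinv i)
  have h2 : ∀ i, push (pres_setE P₀ i) v = 0 := fun i =>
    setE_zero hm hζd hC (by rw [hsum]; exact dvd_mul_right _ _) P₀ (hinv i) (hproj i)
  have h3 : ∀ τ : Equiv.Perm (Fin (n + 1)), push (pres_reidx id τ) v = v := fun τ =>
    perm_id h' h2 (halt τ)
  have h4 := fun i => actE_eq (σE := σE) h' h2 i 0
  have h5 : ∀ (i) (b : ℕ), push (pres_actE σE i b) v = push (pres_actE σE 0 b) v := by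
    intro i b
    by_cases hi : i = 0
    · rw [hi]
    induction b with
    | zero => rw [push_id _ fun p => actE_zero _ i p, push_id _ fun p => actE_zero _ 0 p]
    | succ b ih =>
      rw [add_comm b 1, ← actE_comp, ih, actE_actE_ne _ hi, h4, actE_comp, add_comm b 1]
  have hquad := quad hE hε hM hζ hω (h2 0)
  -- the two eigenvectors
  have key : ∀ (c c' : R), c * c' = 1 → c + c' = ω + ω⁻¹ → IsPrimitiveRoot c M →
      push (pres_actE σE 0 1) v - c' • v = 0 := by
    intro c c' hcc hcs hc
    have h6 : push (pres_actE σE 0 1) (push (pres_actE σE 0 1) v - c' • v) =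
        c • (push (pres_actE σE 0 1) v - c' • v) := by
      rw [map_sub, map_smul, actE_comp, hquad, ← hcs, smul_sub, smul_smul, hcc]
      module
    refine kill hE hε hM hζ hc hd hm hC ha hsum h6 ?_ ?_
    · intro l
      rw [map_sub, map_smul, push_comm (pres_actK σC l 1) (pres_actE σE 0 1) (pres_actE σE 0 1)
        (pres_actK σC l 1) (fun p => rfl), h1, h5, ← actE_eigen h6, map_sub, map_smul, actE_comp,
        actE_comp, add_comm d 1]
    · intro τ
      rw [map_sub, map_smul, push_comm (pres_reidx id τ) (pres_actE σE 0 1) (pres_actE σE 0 1)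
        (pres_reidx id τ) (fun p => rfl), h3]
  have h6 := key ω ω⁻¹ (mul_inv_cancel₀ hω0) rfl hω
  have h7 := key ω⁻¹ ω (inv_mul_cancel₀ hω0) (add_comm _ _) hω.inv
  have h8 : (ω - ω⁻¹) • v = 0 := by
    rw [sub_smul]
    have h9 : ω • v - ω⁻¹ • v = (push (pres_actE σE 0 1) v - ω⁻¹ • v) -
      (push (pres_actE σE 0 1) v - ω • v) := by abel
    rw [h9, h6, h7, sub_zero]
  rcases smul_eq_zero.1 h8 with h9 | h9
  · exfalso
    have h10 : ω ^ 2 = 1 := by
      have h11 : ω = ω⁻¹ := sub_eq_zero.1 h9
      rw [pow_two]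
      nth_rewrite 2 [h11]
      exact mul_inv_cancel₀ hω0
    exact hω.pow_ne_one_of_pos_of_lt (by norm_num) (by omega) h10
  · exact h9

/-- The main theorem for the Chow group of `(E × C) ^ (n + 1)`, `M = 2`. -/
theorem final_two {e' : Fin 4 → k} {x' y' : LE} (h' : Cyclic 2 (-1) e' (fun _ => 1) σE x' y')
    (hC : Cyclic 2 (-1) e a σC x y) (ha : ∀ j, a j < 2) (hsum : ∑ j, a j = 2 * (n + 1))
    {v : CH k LE LC (Fin (n + 1)) (Fin (n + 1)) R}
    (hinv : ∀ i, push (pres_diag σE σC 1 i) v = v)
    (halt : ∀ τ : Equiv.Perm (Fin (n + 1)),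
      push (pres_reidx τ τ) v = ((Equiv.Perm.sign τ : ℤ) : R) • v)
    (hproj : ∀ i : Fin (n + 1), push (pres_reidx i.succAbove i.succAbove) v = 0) : v = 0 := by
  have hneg : IsPrimitiveRoot (-1 : k) 2 := IsPrimitiveRoot.neg_one 0 (by norm_num)
  have hnegR : IsPrimitiveRoot (-1 : R) 2 := IsPrimitiveRoot.neg_one 0 (by norm_num)
  obtain ⟨P₀, -⟩ := exists_place h'.transc (0 : k)
  have h2 : ∀ i, push (pres_setE P₀ i) v = 0 := fun i =>
    setE_zero one_lt_two hneg hC (by rw [hsum]; exact dvd_mul_right _ _) P₀ (hinv i) (hproj i)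
  have h1 : ∀ i, push (pres_actK σC i 1) v = (-1 : R) • v := by
    intro i
    rw [actK_eq_actE (hinv i), half' h' (h2 i), neg_one_smul]
  have h3 : ∀ τ : Equiv.Perm (Fin (n + 1)), push (pres_reidx id τ) v = v := fun τ =>
    perm_id h' h2 (halt τ)
  -- the blocks
  have ha1 : ∀ j, a j = 1 := by
    intro j
    have h4 := hC.ndvd j
    have h5 := ha j
    have h6 : a j ≠ 0 := fun h6 => h4 (h6 ▸ dvd_zero _)
    omega
  have hcard : Fintype.card J = Fintype.card (Fin (n + 1) × Fin 2) := by
    simp only [ha1, Finset.sum_const, Finset.card_univ, smul_eq_mul, mul_one] at hsum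
    rw [hsum, Fintype.card_prod, Fintype.card_fin, Fintype.card_fin, mul_comm]
  let f := Fintype.equivOfCardEq hcard
  have hblock : ∀ B : Fin (n + 1), 2 ∣ ∑ j with (f j).1 = B, a j := by
    intro B
    have h4 : ∑ j with (f j).1 = B, a j = 2 := by
      rw [Finset.sum_congr rfl fun j _ => ha1 j, Finset.sum_filter,
        Fintype.sum_equiv f _ (fun q : Fin (n + 1) × Fin 2 => if q.1 = B then 1 else 0)
          (fun j => rfl), Fintype.sum_prod_type, Finset.sum_eq_single B]
      · simp
      · intro C _ hC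
        simp [hC]
      · intro hB
        exact absurd (Finset.mem_univ B) hB
    rw [h4]
  obtain ⟨z, rfl⟩ := cls_surj v
  have h4 : cls (opC (Fin (n + 1)) σC 2 (-1) (n + 1) z) = 0 := by
    rw [cls_eq_zero]
    have h5 : z = z.sum fun p c => c • Finsupp.single p 1 := by
      conv_lhs => rw [← Finsupp.sum_single z]
      refine Finsupp.sum_congr fun p _ => ?_
      rw [Finsupp.smul_single_one]
    rw [h5, map_finsuppSum]
    refine Submodule.sum_mem _ fun p _ => ?_
    simp only [map_smul]
    refine Submodule.smul_mem _ _ ?_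
    rw [opC_single]
    refine rat_of_ratEquiv (L := fun _ : Fin (n + 1) => LC)
      (g := fun q => ((p.1, q) : Pts k LE LC (Fin (n + 1)) (Fin (n + 1))))
      (fun φ hφ => ⟨fun i => isComp_const _, fun i => hφ i⟩) ?_
    refine Cyclic.main hC one_lt_two hneg hnegR (b := fun j => (f j).1) (fun B => ?_) hblock ?_ p.2
    · exact ⟨f.symm (B, 0), by simp⟩
    · rw [hcard, Fintype.card_prod, Fintype.card_fin, Fintype.card_fin]
      omega
  have h5 : cls (opC (Fin (n + 1)) σC 2 (-1) (n + 1) z) =
      (Fintype.card (Equiv.Perm (Fin (n + 1))) * Fintype.card (Fin (n + 1) → Fin 2) : R) •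
        cls z := by
    rw [cls_opC]
    have h6 : ∀ (τ : Equiv.Perm (Fin (n + 1))) (s : Fin (n + 1) → Fin 2),
        (-1 : R) ^ (∑ l, (s l : ℕ)) • push (pres_actC σC τ fun l => (s l : ℕ)) (cls z) =
          cls z := by
      intro τ s
      rw [actC_eigen h1 h3, smul_smul, ← mul_pow, neg_one_mul, neg_neg, one_pow, one_smul]
    simp only [h6]
    rw [Finset.sum_const, Finset.sum_const, Finset.card_univ, Finset.card_univ, smul_smul,
      ← Nat.cast_mul, Nat.cast_smul_eq_nsmul]
  rw [h5] at h4
  rcases smul_eq_zero.1 h4 with h8 | h8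
  · exfalso
    exact mul_ne_zero (Nat.cast_ne_zero.2 Fintype.card_ne_zero) (Nat.cast_ne_zero.2
      Fintype.card_ne_zero) h8
  · exact h8

end ell

end

end Pool.Agent.ZIso
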