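import Pool.Agent.ZIso.Surf

/-!
# Exterior products of zero-cycles
-/

open Polynomial Pool.Agent.ZCyc

namespace Pool.Agent.ZIso

universe u w

/-! ### Exterior products of finitely supported functions -/

section tens

variable {A : Type u} {R : Type w} [Field R]

/-- the exterior product as a function on tuples -/
private noncomputable def tens {l : ℕ} (a : Fin l → A →₀ R) : (Fin l → A) →₀ R :=
  ∑ q ∈ Fintype.piFinset fun i => (a i).support, Finsupp.single q (∏ i, a i (q i))

private theorem tens_apply {l : ℕ} (a : Fin l → A →₀ R) (q : Fin l → A) :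
    tens a q = ∏ i, a i (q i) := by
  classical
  unfold tens
  rw [Finsupp.finsetSum_apply]
  simp only [Finsupp.single_apply]
  rw [Finset.sum_ite_eq' (Fintype.piFinset fun i => (a i).support) q fun q => ∏ i, a i (q i)]
  split_ifs with h
  · rfl
  · rw [Fintype.mem_piFinset] at h
    push Not at h
    obtain ⟨i, hi⟩ := h
    exact (Finset.prod_eq_zero (f := fun i => a i (q i)) (Finset.mem_univ i)
      (Finsupp.notMem_support_iff.1 hi)).symm

private theorem tens_perm {l : ℕ} (a : Fin l → A →₀ R) (τ : Equiv.Perm (Fin l)) :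
    (tens a).mapDomain (fun q => q ∘ τ) = tens (a ∘ τ) := by
  ext q
  have hinj : Function.Injective fun q : Fin l → A => q ∘ τ := fun q q' h => by
    funext j
    simpa using congrFun h (τ.symm j)
  have hq : q = (fun q : Fin l → A => q ∘ τ) (q ∘ τ.symm) := by
    funext j
    simp
  conv_lhs => rw [hq]
  rw [Finsupp.mapDomain_apply hinj, tens_apply, tens_apply]
  exact (Equiv.prod_comp τ fun i => a i ((q ∘ τ.symm) i)).symm.trans
    (Finset.prod_congr rfl fun i _ => by simp)

private theorem tens_left {l : ℕ} (a : Fin (l + 1) → A →₀ R) (i : Fin (l + 1)) :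
    tens a = (a i).sum fun x r => r • (tens (a ∘ i.succAbove)).mapDomain
      (fun q' => (i.insertNth x q' : Fin (l + 1) → A)) := by
  classical
  ext q
  rw [tens_apply, Finsupp.sum, Finsupp.finsetSum_apply]
  have h1 : ∀ x, (a i x • (tens (a ∘ i.succAbove)).mapDomain
      (fun q' => (i.insertNth x q' : Fin (l + 1) → A))) q =
      if q i = x then ∏ j, a j (q j) else 0 := by
    intro x
    rw [Finsupp.smul_apply]
    split_ifs with h
    · have hinj : Function.Injective fun q' : Fin l → A =>
          (i.insertNth x q' : Fin (l + 1) → A) := fun q' q'' h => by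
        funext j
        simpa using congrFun h (i.succAbove j)
      have hq : q = (fun q' : Fin l → A => (i.insertNth x q' : Fin (l + 1) → A))
          (q ∘ i.succAbove) := by
        subst h
        exact (Fin.insertNth_self_removeNth i q).symm
      conv_lhs => rw [hq]
      rw [Finsupp.mapDomain_apply hinj, tens_apply, Fin.prod_univ_succAbove _ i, ← h]
      rfl
    · rw [Finsupp.mapDomain_of_notMem_range, smul_zero]
      rintro ⟨q', rfl⟩
      simp at h
  rw [Finset.sum_congr rfl fun x _ => h1 x, Finset.sum_ite_eq]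
  split_ifs with h
  · rfl
  · rw [Finsupp.notMem_support_iff] at h
    exact Finset.prod_eq_zero (Finset.mem_univ i) h

private theorem tens_right {l : ℕ} (a : Fin (l + 1) → A →₀ R) (i : Fin (l + 1)) :
    tens a = (tens (a ∘ i.succAbove)).sum fun q' c => c • (a i).mapDomain
      (fun x => (i.insertNth x q' : Fin (l + 1) → A)) := by
  rw [tens_left a i]
  simp only [Finsupp.sum, Finsupp.mapDomain, Finset.smul_sum, Finsupp.smul_single]
  rw [Finset.sum_comm]
  refine Finset.sum_congr rfl fun q' _ => Finset.sum_congr rfl fun x _ => ?_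
  rw [smul_eq_mul, smul_eq_mul, mul_comm]

end tens

section ext

variable {k : Type u} [Field k] {LE LC : Type u} [Field LE] [Field LC] [Algebra k LE] [Algebra k LC]
  {R : Type w} [Field R]

/-- the point of `(E × C) ^ l` with the given components -/
private def tuple {l : ℕ} (q : Fin l → Pts k LE LC (Fin 1) (Fin 1)) :
    Pts k LE LC (Fin l) (Fin l) :=
  (fun i => (q i).1 0, fun i => (q i).2 0)

private theorem ext_eq {l : ℕ} (a : Fin l → Pts k LE LC (Fin 1) (Fin 1) →₀ R) :
    ext a = (tens a).mapDomain tuple := by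
  unfold ext tens
  rw [Finsupp.mapDomain_finsetSum]
  simp only [Finsupp.mapDomain_single]
  rfl

theorem ext_diag {l : ℕ} {σE : LE ≃ₐ[k] LE} {σC : LC ≃ₐ[k] LC} {d : ℕ}
    {a : Fin l → Pts k LE LC (Fin 1) (Fin 1) →₀ R}
    (ha : ∀ i, (a i).mapDomain (diag σE σC d 0) - a i ∈ rat k LE LC (Fin 1) (Fin 1) R) (i : Fin l) :
    (ext a).mapDomain (diag σE σC d i) - ext a ∈ rat k LE LC (Fin l) (Fin l) R := by
  classical
  obtain _ | l := l
  · exact i.elim0
  set s : (Fin l → Pts k LE LC (Fin 1) (Fin 1)) → Pts k LE LC (Fin 1) (Fin 1) →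
    Pts k LE LC (Fin (l + 1)) (Fin (l + 1)) := fun q' x => tuple (i.insertNth x q') with hs
  have hsd : ∀ q' x, diag σE σC d i (s q' x) = s q' (diag σE σC d 0 x) := by
    intro q' x
    refine Prod.ext ?_ ?_
    · funext j
      refine i.succAboveCases ?_ (fun j' => ?_) j
      · simp [hs, tuple, diag]
      · simp [hs, tuple, diag, Fin.succAbove_ne]
    · funext j
      refine i.succAboveCases ?_ (fun j' => ?_) j
      · simp [hs, tuple, diag]
      · simp [hs, tuple, diag, Fin.succAbove_ne]
  have hext : ext a = (tens (a ∘ i.succAbove)).sum fun q' c => c • (a i).mapDomain (s q') := by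
    rw [ext_eq, tens_right a i, Finsupp.sum, Finsupp.mapDomain_finsetSum]
    refine Finset.sum_congr rfl fun q' _ => ?_
    rw [Finsupp.mapDomain_smul, ← Finsupp.mapDomain_comp]
    rfl
  rw [hext, Finsupp.sum, Finsupp.mapDomain_finsetSum, ← Finset.sum_sub_distrib]
  refine Submodule.sum_mem _ fun q' _ => ?_
  have h2 : ((a i).mapDomain (s q')).mapDomain (diag σE σC d i) =
      ((a i).mapDomain (diag σE σC d 0)).mapDomain (s q') := by
    rw [← Finsupp.mapDomain_comp, ← Finsupp.mapDomain_comp]
    congr 1
    funext x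
    exact hsd q' x
  have h3 : ∀ x y : Pts k LE LC (Fin 1) (Fin 1) →₀ R,
      x.mapDomain (s q') - y.mapDomain (s q') = (x - y).mapDomain (s q') := fun x y =>
    (map_sub (Finsupp.lmapDomain R R (s q')) x y).symm
  rw [Finsupp.mapDomain_smul, ← smul_sub, h2, h3]
  refine Submodule.smul_mem _ _ (rat_map (fun φ hφ => ⟨fun j => ?_, fun j => ?_⟩) (ha i))
  · refine i.succAboveCases ?_ (fun j' => ?_) j
    · simpa [hs, tuple] using hφ.1 0
    · simpa [hs, tuple] using isComp_const ((q' j').1 0)
  · refine i.succAboveCases ?_ (fun j' => ?_) j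
    · simpa [hs, tuple] using hφ.2 0
    · simpa [hs, tuple] using isComp_const ((q' j').2 0)

theorem ext_pull_perm {l : ℕ} (a : Fin l → Pts k LE LC (Fin 1) (Fin 1) →₀ R)
    (τ : Equiv.Perm (Fin l)) : (ext a).mapDomain (pull τ) = ext (a ∘ τ) := by
  rw [ext_eq, ext_eq, ← tens_perm, ← Finsupp.mapDomain_comp, ← Finsupp.mapDomain_comp]
  rfl

theorem ext_pull_succAbove {l : ℕ} {a : Fin (l + 1) → Pts k LE LC (Fin 1) (Fin 1) →₀ R}
    {i : Fin (l + 1)} (ha : (a i).sum (fun _ r => r) = 0) :
    (ext a).mapDomain (pull i.succAbove) = 0 := by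
  rw [ext_eq, tens_left a i, Finsupp.sum, Finsupp.mapDomain_finsetSum,
    Finsupp.mapDomain_finsetSum]
  have h1 : ∀ x, ((a i x • (tens (a ∘ i.succAbove)).mapDomain (fun q' =>
      (i.insertNth x q' : Fin (l + 1) → Pts k LE LC (Fin 1) (Fin 1)))).mapDomain tuple).mapDomain
      (pull i.succAbove) = a i x • (tens (a ∘ i.succAbove)).mapDomain tuple := by
    intro x
    rw [Finsupp.mapDomain_smul, Finsupp.mapDomain_smul, ← Finsupp.mapDomain_comp,
      ← Finsupp.mapDomain_comp]
    congr 2
    funext q'
    refine Prod.ext ?_ ?_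
    · funext j
      simp [tuple, pull]
    · funext j
      simp [tuple, pull]
  rw [Finset.sum_congr rfl fun x _ => h1 x, ← Finset.sum_smul]
  have h2 : ∑ x ∈ (a i).support, a i x = 0 := ha
  rw [h2, zero_smul]

end ext

end Pool.Agent.ZIso
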