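import Pool.Agent.ZIso.End
import Pool.Agent.ZIso.Ext
import Pool.Agent.ZIso.Descent
import Pool.Agent.ZIso.Ell2
import Pool.Agent.ZIso.Ell46

/-!
# Isotrivial elliptic surfaces: the theorem
-/

open Polynomial Pool.Agent.ZCyc

namespace Pool.Agent.ZIso

universe u w

variable {k : Type u} [Field k] [IsAlgClosed k] [CharZero k] {LE LC : Type u} [Field LE] [Field LC]
  [Algebra k LE] [Algebra k LC] {A B ζ : k} {M m d n : ℕ} {σE : LE ≃ₐ[k] LE} {σC : LC ≃ₐ[k] LC}
  {X Y : LE} {x y : LC} {J : Type} [Fintype J] {e : J → k} {a : J → ℕ}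

/-- The case of a field of coefficients which contains the roots of unity. -/
theorem surface_closed {R : Type w} [Field R] [CharZero R] [IsAlgClosed R]
    (hE : Elliptic A B ζ σE X Y) (hM : M = 2 ∨ M = 4 ∨ M = 6) (hζ : IsPrimitiveRoot ζ M)
    (hd : d * m = M) (hm : 1 < m) (hC : Cyclic m (ζ ^ d) e a σC x y) (ha : ∀ j, a j < m)
    (hsum : ∑ j, a j = m * (n + 1)) {z : Pts k LE LC (Fin (n + 1)) (Fin (n + 1)) →₀ R}
    (hinv : ∀ i, z.mapDomain (diag σE σC d i) - z ∈ rat k LE LC (Fin (n + 1)) (Fin (n + 1)) R)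
    (halt : ∀ τ : Equiv.Perm (Fin (n + 1)), z.mapDomain (pull τ) -
      ((Equiv.Perm.sign τ : ℤ) : R) • z ∈ rat k LE LC (Fin (n + 1)) (Fin (n + 1)) R)
    (hproj : ∀ i : Fin (n + 1), z.mapDomain (pull i.succAbove) ∈ rat k LE LC (Fin n) (Fin n) R) :
    z ∈ rat k LE LC (Fin (n + 1)) (Fin (n + 1)) R := by
  classical
  have hinv' : ∀ i, push (pres_diag σE σC d i) (cls z) = cls z := by
    intro i
    rw [push_cls, ← sub_eq_zero, ← cls_sub, cls_eq_zero]
    exact hinv i
  have halt' : ∀ τ : Equiv.Perm (Fin (n + 1)),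
      push (pres_reidx τ τ) (cls z) = ((Equiv.Perm.sign τ : ℤ) : R) • cls z := by
    intro τ
    rw [push_cls, ← sub_eq_zero, ← cls_smul, ← cls_sub, cls_eq_zero]
    exact halt τ
  have hproj' : ∀ i : Fin (n + 1), push (pres_reidx i.succAbove i.succAbove) (cls z) = 0 := by
    intro i
    rw [push_cls, cls_eq_zero]
    exact hproj i
  rw [← cls_eq_zero]
  rcases hM with rfl | rfl | rfl
  · have hm2 : m = 2 := by
      have h1 : m ∣ 2 := ⟨d, by rw [mul_comm, hd]⟩
      exact (Nat.prime_two.eq_one_or_self_of_dvd m h1).resolve_left hm.ne'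
    subst hm2
    obtain rfl : d = 1 := by omega
    obtain rfl : ζ = -1 := hζ.eq_neg_one_of_two_right
    rw [pow_one] at hC
    obtain ⟨e', x', y', h'⟩ := hE.cyclic_four
    exact final_two h' hC ha hsum hinv' halt' hproj'
  · obtain ⟨x', y', h'⟩ := hE.four hζ
    have hω : ∃ ω : R, IsPrimitiveRoot ω 4 := HasEnoughRootsOfUnity.exists_primitiveRoot R 4
    obtain ⟨ω, hω⟩ := hω
    exact final h' le_rfl rfl hζ hω hd hm hC ha hsum hinv' halt' hproj'
  · obtain ⟨x', y', h'⟩ := hE.six hζ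
    have hω : ∃ ω : R, IsPrimitiveRoot ω 6 := HasEnoughRootsOfUnity.exists_primitiveRoot R 6
    obtain ⟨ω, hω⟩ := hω
    exact final h' zero_le_one rfl hζ hω hd hm hC ha hsum hinv' halt' hproj'

/-- Alternating classes on the power `S ^ (p_g + 1)` of an isotrivial elliptic surface `S` which are
killed by the projections are zero. -/
theorem surface {R : Type w} [Field R] [CharZero R]
    (hE : Elliptic A B ζ σE X Y) (hM : M = 2 ∨ M = 4 ∨ M = 6) (hζ : IsPrimitiveRoot ζ M)
    (hd : d * m = M) (hm : 1 < m) (hC : Cyclic m (ζ ^ d) e a σC x y) (ha : ∀ j, a j < m)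
    (hsum : ∑ j, a j = m * (n + 1)) {z : Pts k LE LC (Fin (n + 1)) (Fin (n + 1)) →₀ R}
    (hinv : ∀ i, z.mapDomain (diag σE σC d i) - z ∈ rat k LE LC (Fin (n + 1)) (Fin (n + 1)) R)
    (halt : ∀ τ : Equiv.Perm (Fin (n + 1)), z.mapDomain (pull τ) -
      ((Equiv.Perm.sign τ : ℤ) : R) • z ∈ rat k LE LC (Fin (n + 1)) (Fin (n + 1)) R)
    (hproj : ∀ i : Fin (n + 1), z.mapDomain (pull i.succAbove) ∈ rat k LE LC (Fin n) (Fin n) R) :
    z ∈ rat k LE LC (Fin (n + 1)) (Fin (n + 1)) R := by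
  apply rat_of_mapRange (K := AlgebraicClosure R)
  have hsub : ∀ u v : Pts k LE LC (Fin (n + 1)) (Fin (n + 1)) →₀ R,
      (u - v).mapRange (algebraMap R (AlgebraicClosure R)) (map_zero _) =
      u.mapRange (algebraMap R (AlgebraicClosure R)) (map_zero _) -
      v.mapRange (algebraMap R (AlgebraicClosure R)) (map_zero _) := by
    intro u v
    ext p
    simp
  have : CharZero (AlgebraicClosure R) := charZero_of_injective_algebraMap
    (algebraMap R (AlgebraicClosure R)).injective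
  refine surface_closed hE hM hζ hd hm hC ha hsum ?_ ?_ ?_
  · intro i
    have h1 := rat_mapRange (K := AlgebraicClosure R) (hinv i)
    rw [hsub, ← Finsupp.mapDomain_mapRange _ _ _ _ (map_add _)] at h1
    exact h1
  · intro τ
    have h1 := rat_mapRange (K := AlgebraicClosure R) (halt τ)
    rw [hsub, ← Finsupp.mapDomain_mapRange _ _ _ _ (map_add _)] at h1
    convert h1 using 2
    ext p
    simp
  · intro i
    have h1 := rat_mapRange (K := AlgebraicClosure R) (hproj i)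
    rw [← Finsupp.mapDomain_mapRange _ _ _ _ (map_add _)] at h1
    exact h1

/-- The generalised conjecture of Voisin for isotrivial elliptic surfaces. -/
theorem surface_prod {R : Type w} [Field R] [CharZero R]
    (hE : Elliptic A B ζ σE X Y) (hM : M = 2 ∨ M = 4 ∨ M = 6) (hζ : IsPrimitiveRoot ζ M)
    (hd : d * m = M) (hm : 1 < m) (hC : Cyclic m (ζ ^ d) e a σC x y) (ha : ∀ j, a j < m)
    (hsum : ∑ j, a j = m * (n + 1)) {c : Fin (n + 1) → Pts k LE LC (Fin 1) (Fin 1) →₀ R}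
    (hinv : ∀ i, (c i).mapDomain (diag σE σC d 0) - c i ∈ rat k LE LC (Fin 1) (Fin 1) R)
    (hdeg : ∀ i, (c i).sum (fun _ r => r) = 0) :
    ∑ τ : Equiv.Perm (Fin (n + 1)), ((Equiv.Perm.sign τ : ℤ) : R) • ext (c ∘ τ) ∈
      rat k LE LC (Fin (n + 1)) (Fin (n + 1)) R := by
  refine surface hE hM hζ hd hm hC ha hsum ?_ ?_ ?_
  · intro i
    rw [Finsupp.mapDomain_finsetSum, ← Finset.sum_sub_distrib]
    refine Submodule.sum_mem _ fun τ _ => ?_
    rw [Finsupp.mapDomain_smul, ← smul_sub]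
    exact Submodule.smul_mem _ _ (ext_diag (fun j => hinv (τ j)) i)
  · intro ρ
    have h1 : (∑ τ : Equiv.Perm (Fin (n + 1)), ((Equiv.Perm.sign τ : ℤ) : R) •
        ext (c ∘ τ)).mapDomain (pull ρ) = ((Equiv.Perm.sign ρ : ℤ) : R) •
        ∑ τ : Equiv.Perm (Fin (n + 1)), ((Equiv.Perm.sign τ : ℤ) : R) • ext (c ∘ τ) := by
      rw [Finsupp.mapDomain_finsetSum, Finset.smul_sum]
      refine Fintype.sum_equiv (Equiv.mulRight ρ) _ _ fun τ => ?_
      rw [Finsupp.mapDomain_smul, ext_pull_perm, Equiv.coe_mulRight, smul_smul,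
        Equiv.Perm.sign_mul, Equiv.Perm.coe_mul]
      congr 1
      rcases Int.units_eq_one_or (Equiv.Perm.sign ρ) with h | h <;> rw [h] <;> push_cast <;> ring
    rw [h1, sub_self]
    exact Submodule.zero_mem _
  · intro i
    rw [Finsupp.mapDomain_finsetSum]
    refine Submodule.sum_mem _ fun τ _ => ?_
    rw [Finsupp.mapDomain_smul, ext_pull_succAbove (a := c ∘ τ) (hdeg (τ i)), smul_zero]
    exact Submodule.zero_mem _

end Pool.Agent.ZIso
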