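import Mathlib

/-!
# Elements of the group algebra of the symmetric group which kill tensor powers
-/

open Finset

namespace Pool.Agent.ZIso

variable {K : Type*} [Field K] {r : ℕ}

/-- `β` acts as zero on the tensor power `V ^ ⊗ r` of a vector space `V` of dimension `n`. -/
def KillsTensors (n : ℕ) (β : Equiv.Perm (Fin r) → K) : Prop :=
  ∀ w w' : Fin r → Fin n,
    ∑ τ ∈ univ.filter (fun τ : Equiv.Perm (Fin r) => w ∘ ⇑τ = w'), β τ = 0

end Pool.Agent.ZIso
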