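import Pool.Agent.ZIso.Defs

/-!
# Rational equivalence on products: functoriality and the basic relation
-/

open Polynomial Pool.Agent.ZCyc

namespace Pool.Agent.ZIso

universe u w

/-- The function fields of the factors of `E ^ I × C ^ I'`, where `LE` and `LC` are the function
fields of the curves `E` and `C`. -/
def EC (LE LC : Type u) (I I' : Type) : I ⊕ I' → Type u
  | .inl _ => LE
  | .inr _ => LC

instance instFieldEC (LE LC : Type u) [Field LE] [Field LC] (I I' : Type) :
    ∀ i, Field (EC LE LC I I' i)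
  | .inl _ => inferInstanceAs (Field LE)
  | .inr _ => inferInstanceAs (Field LC)

instance instAlgebraEC (k : Type u) [Field k] (LE LC : Type u) [Field LE] [Field LC] [Algebra k LE]
    [Algebra k LC] (I I' : Type) : ∀ i, Algebra k (EC LE LC I I' i)
  | .inl _ => inferInstanceAs (Algebra k LE)
  | .inr _ => inferInstanceAs (Algebra k LC)

/-- The coordinates of a point of `E ^ I × C ^ I'`. -/
def pt {k LE LC : Type u} [Field k] [Field LE] [Field LC] [Algebra k LE] [Algebra k LC]
    {I I' : Type} (p : Pts k LE LC I I') : ∀ i, Place k (EC LE LC I I' i)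
  | .inl i => p.1 i
  | .inr i => p.2 i

section comp

variable {k : Type u} [Field k] {F L : Type u} [Field F] [Algebra k F] [Field L] [Algebra k L]

theorem isComp_const (p : Place k L) : IsComp (fun _ : Place k F => p) := Or.inl ⟨p, fun _ => rfl⟩

theorem IsComp.map {ψ : Place k F → Place k L} (h : IsComp ψ) (s : L ≃ₐ[k] L) :
    IsComp (fun v => (ψ v).map s) := by
  rcases h with ⟨p, hp⟩ | ⟨f, hf⟩
  · left
    exact ⟨p.map s, fun v => congrArg (fun q : Place k L => q.map s) (hp v)⟩
  · right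
    refine ⟨f.comp (s.symm : L →ₐ[k] L), fun v => ?_⟩
    ext z
    rw [Place.mem_map, hf, ValuationSubring.mem_comap, ValuationSubring.mem_comap]
    rfl

end comp

section

variable {k : Type u} [Field k] {LE LC : Type u} [Field LE] [Field LC] [Algebra k LE] [Algebra k LC]
  {I I' : Type} {R : Type w} [Field R]

theorem isMorphism_pt {F : Type u} [Field F] [Algebra k F] {φ : Place k F → Pts k LE LC I I'} :
    IsMorphism (fun v => pt (φ v)) ↔ Mor φ := by
  constructor
  · intro h
    exact ⟨fun i => h (Sum.inl i), fun i => h (Sum.inr i)⟩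
  · rintro ⟨h1, h2⟩ (i | i)
    · exact h1 i
    · exact h2 i

/-- the inverse of `pt` -/
def unpt (q : ∀ i, Place k (EC LE LC I I' i)) : Pts k LE LC I I' :=
  (fun i => q (Sum.inl i), fun i => q (Sum.inr i))

theorem unpt_pt (p : Pts k LE LC I I') : unpt (pt p) = p := rfl

theorem pt_unpt (q : ∀ i, Place k (EC LE LC I I' i)) : pt (unpt q) = q := by
  funext i
  rcases i with i | i <;> rfl

theorem mor_unpt {F : Type u} [Field F] [Algebra k F]
    {φ : Place k F → ∀ i, Place k (EC LE LC I I' i)} (h : IsMorphism φ) :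
    Mor fun v => unpt (φ v) :=
  ⟨fun i => h (Sum.inl i), fun i => h (Sum.inr i)⟩

/-- Maps which preserve morphisms preserve rational equivalence. -/
theorem ratEquiv_map {ι ι' : Type} {L : ι → Type u} [∀ i, Field (L i)] [∀ i, Algebra k (L i)]
    {L' : ι' → Type u} [∀ i, Field (L' i)] [∀ i, Algebra k (L' i)]
    {g : (∀ i, Place k (L i)) → ∀ i, Place k (L' i)}
    (hg : ∀ {F : Type u} [Field F] [Algebra k F] (φ : Place k F → ∀ i, Place k (L i)),
      IsMorphism φ → IsMorphism fun v => g (φ v)) {z : (∀ i, Place k (L i)) →₀ R}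
    (hz : z ∈ ratEquiv k L R) : z.mapDomain g ∈ ratEquiv k L' R := by
  have h1 : ratEquiv k L R ≤ (ratEquiv k L' R).comap (Finsupp.lmapDomain R R g) := by
    refine Submodule.span_le.2 ?_
    rintro _ ⟨F, _, _, _, _, _, _, φ, hφ, a, b, v, w, hv, hw, rfl⟩
    refine Submodule.subset_span ⟨F, _, _, _, ‹_›, ‹_›, ‹_›, fun v => g (φ v), hg φ hφ, a, b, v, w,
      hv, hw, ?_⟩
    rw [map_sum]
    refine Finset.sum_congr rfl fun τ _ => ?_
    rw [map_sub, Finsupp.lmapDomain_apply, Finsupp.lmapDomain_apply, Finsupp.mapDomain_single,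
      Finsupp.mapDomain_single]
  exact h1 hz

theorem mem_rat {z : Pts k LE LC I I' →₀ R} :
    z ∈ rat k LE LC I I' R ↔ z.mapDomain pt ∈ ratEquiv k (EC LE LC I I') R := by
  constructor
  · intro hz
    have h1 : rat k LE LC I I' R ≤ (ratEquiv k (EC LE LC I I') R).comap
        (Finsupp.lmapDomain R R pt) := by
      refine Submodule.span_le.2 ?_
      rintro _ ⟨F, _, _, _, _, _, _, φ, hφ, a, b, v, w, hv, hw, rfl⟩
      refine Submodule.subset_span ⟨F, _, _, _, ‹_›, ‹_›, ‹_›, fun v => pt (φ v),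
        isMorphism_pt.2 hφ, a, b, v, w, hv, hw, ?_⟩
      rw [map_sum]
      refine Finset.sum_congr rfl fun τ _ => ?_
      rw [map_sub, Finsupp.lmapDomain_apply, Finsupp.lmapDomain_apply, Finsupp.mapDomain_single,
        Finsupp.mapDomain_single]
    exact h1 hz
  · intro hz
    have h1 : ratEquiv k (EC LE LC I I') R ≤ (rat k LE LC I I' R).comap
        (Finsupp.lmapDomain R R unpt) := by
      refine Submodule.span_le.2 ?_
      rintro _ ⟨F, _, _, _, _, _, _, φ, hφ, a, b, v, w, hv, hw, rfl⟩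
      refine Submodule.subset_span ⟨F, _, _, _, ‹_›, ‹_›, ‹_›, fun v => unpt (φ v),
        mor_unpt hφ, a, b, v, w, hv, hw, ?_⟩
      rw [map_sum]
      refine Finset.sum_congr rfl fun τ _ => ?_
      rw [map_sub, Finsupp.lmapDomain_apply, Finsupp.lmapDomain_apply, Finsupp.mapDomain_single,
        Finsupp.mapDomain_single]
    have h2 := h1 hz
    rw [Submodule.mem_comap, Finsupp.lmapDomain_apply, ← Finsupp.mapDomain_comp] at h2
    have h3 : (unpt ∘ pt : Pts k LE LC I I' → Pts k LE LC I I') = id := rfl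
    rwa [h3, Finsupp.mapDomain_id] at h2

/-- a map from another product -/
theorem rat_of_ratEquiv {ι : Type} {L : ι → Type u} [∀ i, Field (L i)] [∀ i, Algebra k (L i)]
    {g : (∀ i, Place k (L i)) → Pts k LE LC I I'}
    (hg : ∀ {F : Type u} [Field F] [Algebra k F] (φ : Place k F → ∀ i, Place k (L i)),
      IsMorphism φ → Mor fun v => g (φ v)) {z : (∀ i, Place k (L i)) →₀ R}
    (hz : z ∈ ratEquiv k L R) : z.mapDomain g ∈ rat k LE LC I I' R := by
  rw [mem_rat, ← Finsupp.mapDomain_comp]
  exact ratEquiv_map (fun φ hφ => isMorphism_pt.2 (hg φ hφ)) hz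

/-- Maps which preserve morphisms preserve rational equivalence. -/
theorem rat_map {K K' : Type} {g : Pts k LE LC I I' → Pts k LE LC K K'}
    (hg : ∀ {F : Type u} [Field F] [Algebra k F] (φ : Place k F → Pts k LE LC I I'),
      Mor φ → Mor fun v => g (φ v)) {z : Pts k LE LC I I' →₀ R}
    (hz : z ∈ rat k LE LC I I' R) : z.mapDomain g ∈ rat k LE LC K K' R := by
  have h1 := rat_of_ratEquiv (LE := LE) (LC := LC) (I := K) (I' := K')
    (g := fun q : ∀ i, Place k (EC LE LC I I' i) => g (unpt q))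
    (fun φ hφ => hg _ (mor_unpt hφ)) (mem_rat.1 hz)
  rw [← Finsupp.mapDomain_comp] at h1
  exact h1

/-- The basic relation: values at the points above two points of the line. -/
theorem link {ι : Type} {L : ι → Type u} [∀ i, Field (L i)] [∀ i, Algebra k (L i)] [CharZero R]
    {V : Type*} [AddCommGroup V] [Module R V] {N : Submodule R V}
    {Φ : ((∀ i, Place k (L i)) →₀ R) →ₗ[R] V} (hΦ : ∀ z ∈ ratEquiv k L R, Φ z ∈ N)
    {F : Type u} [Field F] [Algebra k F] [Algebra (RatFunc k) F] [IsScalarTower k (RatFunc k) F]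
    [FiniteDimensional (RatFunc k) F] [IsGalois (RatFunc k) F]
    {φ : Place k F → ∀ i, Place k (L i)} (hφ : IsMorphism φ) {s₀ s₁ : k} {A B : V}
    (hA : ∀ u : Place k F, u.At (algebraMap (RatFunc k) F RatFunc.X) s₀ →
      Φ (Finsupp.single (φ u) 1) - A ∈ N)
    (hB : ∀ u : Place k F, u.At (algebraMap (RatFunc k) F RatFunc.X) s₁ →
      Φ (Finsupp.single (φ u) 1) - B ∈ N) : A - B ∈ N := by
  have hRC : ∀ c : k, algebraMap (RatFunc k) F (RatFunc.C c) = algebraMap k F c := by
    intro c
    rw [← RatFunc.algebraMap_eq_C, ← IsScalarTower.algebraMap_apply]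
  have hXt : Transcendental k (algebraMap (RatFunc k) F RatFunc.X) := by
    have : Transcendental k (RatFunc.X : RatFunc k) := RatFunc.transcendental_X
    intro hcon
    apply this
    have h2 : IsAlgebraic k (algebraMap (RatFunc k) F RatFunc.X) ↔
        IsAlgebraic k (RatFunc.X : RatFunc k) :=
      isAlgebraic_algebraMap_iff (algebraMap (RatFunc k) F).injective
    exact h2.1 hcon
  obtain ⟨v, hv⟩ := exists_place hXt s₀
  obtain ⟨w, hw⟩ := exists_place hXt s₁
  have hup : ∀ {u : Place k F} {c : k}, u.At (algebraMap (RatFunc k) F RatFunc.X) c →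
      ∀ τ : F ≃ₐ[RatFunc k] F,
        (u.map (τ.restrictScalars k)).At (algebraMap (RatFunc k) F RatFunc.X) c := by
    intro u c hu τ
    rw [Place.at_map]
    have : (τ.restrictScalars k).symm (algebraMap (RatFunc k) F RatFunc.X) =
        algebraMap (RatFunc k) F RatFunc.X := τ.symm.commutes _
    rw [this]
    exact hu
  have hvan : ∀ {u : Place k F} {c : k}, u.At (algebraMap (RatFunc k) F RatFunc.X) c →
      u.Vanishes (algebraMap (RatFunc k) F (RatFunc.X - RatFunc.C c)) := by
    intro u c hu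
    rw [map_sub, hRC]
    exact hu
  have hrel : (∑ τ : F ≃ₐ[RatFunc k] F,
      (Finsupp.single (φ (v.map (τ.restrictScalars k))) (1 : R) -
        Finsupp.single (φ (w.map (τ.restrictScalars k))) 1)) ∈ ratEquiv k L R :=
    Submodule.subset_span ⟨F, _, _, _, ‹_›, ‹_›, ‹_›, φ, hφ, s₀, s₁, v, w, hvan hv, hvan hw, rfl⟩
  have hrel' := hΦ _ hrel
  rw [map_sum] at hrel'
  have hcard : (Fintype.card (F ≃ₐ[RatFunc k] F) : R) ≠ 0 :=
    Nat.cast_ne_zero.2 Fintype.card_ne_zero
  have h3 : (Fintype.card (F ≃ₐ[RatFunc k] F) : R) • (A - B) ∈ N := by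
    have h4 : (∑ τ : F ≃ₐ[RatFunc k] F,
        (Φ (Finsupp.single (φ (v.map (τ.restrictScalars k))) (1 : R) -
          Finsupp.single (φ (w.map (τ.restrictScalars k))) 1) - (A - B))) ∈ N := by
      refine Submodule.sum_mem _ fun τ _ => ?_
      rw [map_sub]
      have h5 := N.sub_mem (hA _ (hup hv τ)) (hB _ (hup hw τ))
      convert h5 using 1
      abel
    rw [Finset.sum_sub_distrib, Finset.sum_const, Finset.card_univ, ← Nat.cast_smul_eq_nsmul R] at h4
    have h5 := N.sub_mem hrel' h4
    rwa [sub_sub_cancel] at h5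
  have h6 := N.smul_mem (Fintype.card (F ≃ₐ[RatFunc k] F) : R)⁻¹ h3
  rwa [smul_smul, inv_mul_cancel₀ hcard, one_smul] at h6

/-- The basic relation on `E ^ I × C ^ I'`. -/
theorem rat_link [CharZero R]
    {V : Type*} [AddCommGroup V] [Module R V] {N : Submodule R V}
    {Φ : (Pts k LE LC I I' →₀ R) →ₗ[R] V} (hΦ : ∀ z ∈ rat k LE LC I I' R, Φ z ∈ N)
    {F : Type u} [Field F] [Algebra k F] [Algebra (RatFunc k) F] [IsScalarTower k (RatFunc k) F]
    [FiniteDimensional (RatFunc k) F] [IsGalois (RatFunc k) F]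
    {φ : Place k F → Pts k LE LC I I'} (hφ : Mor φ) {s₀ s₁ : k} {A B : V}
    (hA : ∀ u : Place k F, u.At (algebraMap (RatFunc k) F RatFunc.X) s₀ →
      Φ (Finsupp.single (φ u) 1) - A ∈ N)
    (hB : ∀ u : Place k F, u.At (algebraMap (RatFunc k) F RatFunc.X) s₁ →
      Φ (Finsupp.single (φ u) 1) - B ∈ N) : A - B ∈ N := by
  have hid : ∀ z : Pts k LE LC I I' →₀ R, (z.mapDomain pt).mapDomain unpt = z := by
    intro z
    rw [← Finsupp.mapDomain_comp]
    exact Finsupp.mapDomain_id
  have hid' : ∀ z : (∀ i, Place k (EC LE LC I I' i)) →₀ R, (z.mapDomain unpt).mapDomain pt = z := by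
    intro z
    rw [← Finsupp.mapDomain_comp]
    have : (pt ∘ unpt : (∀ i, Place k (EC LE LC I I' i)) → ∀ i, Place k (EC LE LC I I' i)) = id :=
      funext fun q => pt_unpt q
    rw [this, Finsupp.mapDomain_id]
  refine link (k := k) (L := EC LE LC I I') (R := R) (N := N)
    (Φ := Φ.comp (Finsupp.lmapDomain R R unpt)) (φ := fun v => pt (φ v)) ?_
    (isMorphism_pt.2 hφ) (s₀ := s₀) (s₁ := s₁) ?_ ?_
  · intro z hz
    apply hΦ
    rw [mem_rat, Finsupp.lmapDomain_apply, hid']
    exact hz
  · intro u hu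
    rw [LinearMap.comp_apply, Finsupp.lmapDomain_apply, Finsupp.mapDomain_single, unpt_pt]
    exact hA u hu
  · intro u hu
    rw [LinearMap.comp_apply, Finsupp.lmapDomain_apply, Finsupp.mapDomain_single, unpt_pt]
    exact hB u hu

end

end Pool.Agent.ZIso
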