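import Pool.Agent.ZIso.Link

/-!
# The operators on `E ^ I × C ^ n`
-/

open Polynomial Pool.Agent.ZCyc

set_option linter.unusedSectionVars false

namespace Pool.Agent.ZIso

universe u w

section

variable {k : Type u} [Field k] {LE LC : Type u} [Field LE] [Field LC] [Algebra k LE] [Algebra k LC]
  {I I' : Type} [DecidableEq I] {n : ℕ} {R : Type w} [Field R]

/-- the action of `σE ^ b` on one coordinate -/
def actE (σE : LE ≃ₐ[k] LE) (i₀ : I) (b : ℕ) (p : Pts k LE LC I I') : Pts k LE LC I I' :=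
  (Function.update p.1 i₀ ((p.1 i₀).map (σE ^ b)), p.2)

/-- permutations and the action of powers of `σC` -/
def actC (σC : LC ≃ₐ[k] LC) (τ : Equiv.Perm (Fin n)) (i : Fin n → ℕ) (p : Pts k LE LC I (Fin n)) :
    Pts k LE LC I (Fin n) :=
  (p.1, fun l => (p.2 (τ l)).map (σC ^ i l))

theorem mor_actE {F : Type u} [Field F] [Algebra k F] {φ : Place k F → Pts k LE LC I I'}
    (h : Mor φ) (σE : LE ≃ₐ[k] LE) (i₀ : I) (b : ℕ) : Mor fun v => actE σE i₀ b (φ v) := by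
  refine ⟨fun i => ?_, h.2⟩
  by_cases hi : i = i₀
  · subst hi
    have : (fun v => (actE σE i b (φ v)).1 i) = fun v => ((φ v).1 i).map (σE ^ b) := by
      funext v
      simp [actE]
    rw [this]
    exact (h.1 i).map _
  · have : (fun v => (actE σE i₀ b (φ v)).1 i) = fun v => (φ v).1 i := by
      funext v
      simp [actE, hi]
    rw [this]
    exact h.1 i

theorem mor_actC {F : Type u} [Field F] [Algebra k F] {φ : Place k F → Pts k LE LC I (Fin n)}
    (h : Mor φ) (σC : LC ≃ₐ[k] LC) (τ : Equiv.Perm (Fin n)) (i : Fin n → ℕ) :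
    Mor fun v => actC σC τ i (φ v) :=
  ⟨h.1, fun l => (h.2 (τ l)).map _⟩

variable (I') in
/-- the operator projecting to an isotypical part for one coordinate in `E` -/
noncomputable def opE (σE : LE ≃ₐ[k] LE) (M : ℕ) (ω : R) (i₀ : I) :
    (Pts k LE LC I I' →₀ R) →ₗ[R] (Pts k LE LC I I' →₀ R) :=
  ∑ b : Fin M, ω ^ (b : ℕ) • Finsupp.lmapDomain R R (actE σE i₀ b)

variable (I) in
/-- the operator projecting to the symmetric power of an isotypical part for the coordinates in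
`C` -/
noncomputable def opC (σC : LC ≃ₐ[k] LC) (m : ℕ) (ω : R) (n : ℕ) :
    (Pts k LE LC I (Fin n) →₀ R) →ₗ[R] (Pts k LE LC I (Fin n) →₀ R) :=
  ∑ τ : Equiv.Perm (Fin n), ∑ i : Fin n → Fin m, ω ^ (∑ l, (i l : ℕ)) •
    Finsupp.lmapDomain R R (actC σC τ fun l => i l)

theorem opE_apply (σE : LE ≃ₐ[k] LE) (M : ℕ) (ω : R) (i₀ : I) (z : Pts k LE LC I I' →₀ R) :
    opE I' σE M ω i₀ z = ∑ b : Fin M, ω ^ (b : ℕ) • z.mapDomain (actE σE i₀ b) := by
  simp [opE, LinearMap.sum_apply, Finsupp.lmapDomain_apply]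

theorem opC_apply (σC : LC ≃ₐ[k] LC) (m : ℕ) (ω : R) (z : Pts k LE LC I (Fin n) →₀ R) :
    opC I σC m ω n z = ∑ τ : Equiv.Perm (Fin n), ∑ i : Fin n → Fin m, ω ^ (∑ l, (i l : ℕ)) •
      z.mapDomain (actC σC τ fun l => i l) := by
  simp [opC, LinearMap.sum_apply, Finsupp.lmapDomain_apply]

theorem opE_mem (σE : LE ≃ₐ[k] LE) (M : ℕ) (ω : R) (i₀ : I) {z : Pts k LE LC I I' →₀ R}
    (hz : z ∈ rat k LE LC I I' R) : opE I' σE M ω i₀ z ∈ rat k LE LC I I' R := by
  rw [opE_apply]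
  exact Submodule.sum_mem _ fun b _ => Submodule.smul_mem _ _
    (rat_map (fun φ hφ => mor_actE hφ σE i₀ b) hz)

theorem opC_mem (σC : LC ≃ₐ[k] LC) (m : ℕ) (ω : R) {z : Pts k LE LC I (Fin n) →₀ R}
    (hz : z ∈ rat k LE LC I (Fin n) R) : opC I σC m ω n z ∈ rat k LE LC I (Fin n) R := by
  rw [opC_apply]
  exact Submodule.sum_mem _ fun τ _ => Submodule.sum_mem _ fun i _ => Submodule.smul_mem _ _
    (rat_map (fun φ hφ => mor_actC hφ σC τ _) hz)

theorem actE_actC (σE : LE ≃ₐ[k] LE) (σC : LC ≃ₐ[k] LC) (i₀ : I) (b : ℕ)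
    (τ : Equiv.Perm (Fin n)) (i : Fin n → ℕ) (p : Pts k LE LC I (Fin n)) :
    actE σE i₀ b (actC σC τ i p) = actC σC τ i (actE σE i₀ b p) := rfl

theorem opE_opC (σE : LE ≃ₐ[k] LE) (σC : LC ≃ₐ[k] LC) (M m : ℕ) (ω ω' : R) (i₀ : I)
    (z : Pts k LE LC I (Fin n) →₀ R) :
    opE (Fin n) σE M ω i₀ (opC I σC m ω' n z) = opC I σC m ω' n (opE (Fin n) σE M ω i₀ z) := by
  have h1 : ∀ (b : Fin M) (τ : Equiv.Perm (Fin n)) (i : Fin n → Fin m),
      (z.mapDomain (actC σC τ fun l => (i l : ℕ))).mapDomain (actE σE i₀ (b : ℕ)) =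
        (z.mapDomain (actE σE i₀ (b : ℕ))).mapDomain (actC σC τ fun l => (i l : ℕ)) := by
    intro b τ i
    rw [← Finsupp.mapDomain_comp, ← Finsupp.mapDomain_comp]
    rfl
  simp only [opE_apply, opC_apply, Finsupp.mapDomain_finsetSum, Finsupp.mapDomain_smul,
    Finset.smul_sum, h1]
  rw [Finset.sum_comm]
  refine Finset.sum_congr rfl fun τ _ => ?_
  rw [Finset.sum_comm]
  refine Finset.sum_congr rfl fun i _ => ?_
  refine Finset.sum_congr rfl fun b _ => ?_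
  rw [smul_comm]

theorem opC_single (σC : LC ≃ₐ[k] LC) (m : ℕ) (ω : R) (p : Pts k LE LC I (Fin n)) :
    opC I σC m ω n (Finsupp.single p 1) =
      (ZCyc.op σC m ω n (Finsupp.single p.2 1)).mapDomain fun q => (p.1, q) := by
  rw [opC_apply, ZCyc.op, Finsupp.linearCombination_single, one_smul, Finsupp.mapDomain_finsetSum]
  refine Finset.sum_congr rfl fun τ _ => ?_
  rw [Finsupp.mapDomain_finsetSum]
  refine Finset.sum_congr rfl fun i _ => ?_
  rw [Finsupp.mapDomain_single, Finsupp.mapDomain_single, Finsupp.smul_single, smul_eq_mul, mul_one]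
  rfl

theorem opC_special {σC : LC ≃ₐ[k] LC} {m : ℕ} (hm : 0 < m) (hσ : σC ^ m = 1) {ω : R}
    (hω : IsPrimitiveRoot ω m) {p : Pts k LE LC I (Fin n)} {l : Fin n} {d : ℕ} (hd : 0 < d)
    (hdm : d < m) (h : (p.2 l).map (σC ^ d) = p.2 l) :
    opC I σC m ω n (Finsupp.single p 1) = 0 := by
  rw [opC_single, op_special hm hσ hω hd hdm h, Finsupp.mapDomain_zero]

theorem opC_perm {σC : LC ≃ₐ[k] LC} {m : ℕ} (hm : 0 < m) (hσ : σC ^ m = 1) {ω : R}
    (hω : ω ^ m = 1) (p : Pts k LE LC I (Fin n)) (ρ : Equiv.Perm (Fin n)) (r : Fin n → ℕ) :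
    ω ^ (∑ l, r l) • opC I σC m ω n (Finsupp.single (actC σC ρ r p) 1) =
      opC I σC m ω n (Finsupp.single p 1) := by
  rw [opC_single, opC_single, ← op_perm hm hσ hω p.2 ρ r, Finsupp.mapDomain_smul]
  rfl

theorem actE_add (σE : LE ≃ₐ[k] LE) (i₀ : I) (b c : ℕ) (p : Pts k LE LC I I') :
    actE σE i₀ b (actE σE i₀ c p) = actE σE i₀ (b + c) p := by
  refine Prod.ext ?_ rfl
  funext i
  simp only [actE]
  by_cases hi : i = i₀
  · subst hi
    rw [Function.update_self, Function.update_self, Function.update_self, Place.map_map, pow_add]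
    rfl
  · rw [Function.update_of_ne hi, Function.update_of_ne hi, Function.update_of_ne hi]

theorem actE_mod {σE : LE ≃ₐ[k] LE} {M : ℕ} (hσ : σE ^ M = 1) (i₀ : I) (b : ℕ) :
    (actE σE i₀ (b % M) : Pts k LE LC I I' → Pts k LE LC I I') = actE σE i₀ b := by
  funext p
  rw [actE, actE, ← pow_eq_pow_mod _ hσ]

theorem opE_shift {σE : LE ≃ₐ[k] LE} {M : ℕ} (hM : 0 < M) (hσ : σE ^ M = 1) {ω : R}
    (hω : ω ^ M = 1) (i₀ : I) (p : Pts k LE LC I I') (r : ℕ) :
    ω ^ r • opE I' σE M ω i₀ (Finsupp.single (actE σE i₀ r p) 1) =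
      opE I' σE M ω i₀ (Finsupp.single p 1) := by
  have : NeZero M := ⟨hM.ne'⟩
  rw [opE_apply, opE_apply, Finset.smul_sum]
  refine Fintype.sum_equiv (Equiv.addRight (Fin.ofNat M r)) _ _ fun b => ?_
  have hval : ((b + Fin.ofNat M r : Fin M) : ℕ) = ((b : ℕ) + r) % M := by
    rw [Fin.val_add, Fin.val_ofNat, Nat.add_mod_mod]
  rw [Equiv.coe_addRight, hval, ← pow_eq_pow_mod _ hω, actE_mod hσ, Finsupp.mapDomain_single,
    Finsupp.mapDomain_single, actE_add, smul_smul, ← pow_add, add_comm r]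

theorem opE_special {σE : LE ≃ₐ[k] LE} {M : ℕ} (hM : 0 < M) (hσ : σE ^ M = 1) {ω : R}
    (hω : IsPrimitiveRoot ω M) {i₀ : I} {p : Pts k LE LC I I'} {d : ℕ} (hd : 0 < d)
    (hdm : d < M) (h : (p.1 i₀).map (σE ^ d) = p.1 i₀) :
    opE I' σE M ω i₀ (Finsupp.single p 1) = 0 := by
  have h1 := opE_shift hM hσ hω.pow_eq_one i₀ p d
  have h2 : actE σE i₀ d p = p := by
    refine Prod.ext ?_ rfl
    simp only [actE]
    rw [h, Function.update_eq_self]
  rw [h2] at h1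
  have h3 : (ω ^ d - 1) • opE I' σE M ω i₀ (Finsupp.single p 1) = 0 := by
    rw [sub_smul, h1, one_smul, sub_self]
  rcases smul_eq_zero.1 h3 with h4 | h4
  · exact absurd (sub_eq_zero.1 h4) (hω.pow_ne_one_of_pos_of_lt hd.ne' hdm)
  · exact h4

end

end Pool.Agent.ZIso
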