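import Pool.Agent.ZIso.Link
import Pool.Agent.ZCyc.Final

/-!
# The orbits of the group of a cyclic covering of the line are rationally equivalent
-/

open Polynomial Pool.Agent.ZCyc

namespace Pool.Agent.ZIso

universe u w

private theorem fix_adjoin {k : Type u} [Field k] {L : Type u} [Field L] [Algebra k L] {x : L}
    {τ : L ≃ₐ[k] L} (hx : τ x = x) {z : L} (hz : z ∈ IntermediateField.adjoin k {x}) :
    τ z = z := by
  induction hz using IntermediateField.adjoin_induction with
  | mem s hs =>
    rw [Set.mem_singleton_iff.1 hs]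
    exact hx
  | algebraMap c => exact τ.commutes c
  | add a b _ _ ha hb => rw [map_add, ha, hb]
  | inv a _ ha => rw [map_inv₀, ha]
  | mul a b _ _ ha hb => rw [map_mul, ha, hb]

/-- the case of points with regular `x` -/
private theorem orbit_aux {k : Type u} [Field k] [IsAlgClosed k] [CharZero k] {m : ℕ} {ζ : k}
    {J : Type} [Fintype J] {e : J → k} {a : J → ℕ} {L : Type u} [Field L] [Algebra k L]
    {σ : L ≃ₐ[k] L} {x y : L} (h : Cyclic m ζ e a σ x y) (hm : 1 < m)
    (hζ : IsPrimitiveRoot ζ m) {R : Type w} [Field R]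
    {P Q : Place k L} {α β : k} (hP : P.At x α) (hQ : Q.At x β) :
    (∑ i : Fin m, (Finsupp.single (fun _ : Fin 1 => P.map (σ ^ (i : ℕ))) (1 : R) -
      Finsupp.single (fun _ : Fin 1 => Q.map (σ ^ (i : ℕ))) 1)) ∈
      ratEquiv k (fun _ : Fin 1 => L) R := by
  classical
  have key : ∀ f g : L →ₐ[k] L, f x = g x → f y = g y → ∀ z, f z = g z := fun f g hx hy z => by
    rw [h.ext_hom hx hy]
  let g : RatFunc k →ₐ[k] L := (IntermediateField.adjoin k {x}).val.comp
    (RatFunc.algEquivOfTranscendental x h.transc).toAlgHom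
  have hgX : g RatFunc.X = x := RatFunc.algEquivOfTranscendental_X x h.transc
  have hgmem : ∀ r, g r ∈ IntermediateField.adjoin k {x} := fun r =>
    ((RatFunc.algEquivOfTranscendental x h.transc) r).2
  have hgsurj : ∀ z ∈ IntermediateField.adjoin k {x}, ∃ r, g r = z := by
    intro z hz
    obtain ⟨r, hr⟩ := (RatFunc.algEquivOfTranscendental x h.transc).surjective ⟨z, hz⟩
    exact ⟨r, congrArg Subtype.val hr⟩
  let _ : Algebra (RatFunc k) L := g.toRingHom.toAlgebra
  have hag : ∀ r, algebraMap (RatFunc k) L r = g r := fun r => rfl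
  have hst : IsScalarTower k (RatFunc k) L := IsScalarTower.of_algebraMap_eq fun c => by
    rw [hag, AlgHom.commutes]
  -- the Kummer extension
  have hζL : IsPrimitiveRoot (algebraMap k L ζ) m := hζ.map_of_injective (algebraMap k L).injective
  have hx0 : ∀ j, x - algebraMap k L (e j) ≠ 0 := by
    intro j h0
    apply h.transc
    rw [sub_eq_zero.1 h0]
    exact isAlgebraic_algebraMap _
  have hyne : y ≠ 0 := by
    rintro rfl
    have := h.eqn
    rw [zero_pow (by omega)] at this
    exact Finset.prod_ne_zero_iff.2 (fun j _ => pow_ne_zero _ (hx0 j)) this.symm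
  have hym : y ^ m ∈ IntermediateField.adjoin k {x} := by
    rw [h.eqn]
    exact prod_mem fun j _ => pow_mem (sub_mem (IntermediateField.mem_adjoin_simple_self k x)
      (IntermediateField.algebraMap_mem _ _)) _
  obtain ⟨r₀, hr₀⟩ := hgsurj _ hym
  have hr₀0 : r₀ ≠ 0 := by
    rintro rfl
    rw [map_zero] at hr₀
    exact pow_ne_zero _ hyne hr₀.symm
  have hmap : ((X : (RatFunc k)[X]) ^ m - C r₀).map (algebraMap (RatFunc k) L) =
      X ^ m - C (y ^ m) := by
    rw [Polynomial.map_sub, Polynomial.map_pow, map_X, map_C, hag, hr₀]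
  have hp0 : (X : (RatFunc k)[X]) ^ m - C r₀ ≠ 0 := X_pow_sub_C_ne_zero (by omega) _
  have hsplit : IsSplittingField (RatFunc k) L ((X : (RatFunc k)[X]) ^ m - C r₀) := by
    constructor
    · rw [hmap]
      exact X_pow_sub_C_splits_of_isPrimitiveRoot hζL rfl
    · have halg : ∀ z ∈ ((X : (RatFunc k)[X]) ^ m - C r₀).rootSet L, IsAlgebraic (RatFunc k) z := by
        intro z hz
        exact ⟨_, hp0, aeval_eq_zero_of_mem_rootSet hz⟩
      rw [← IntermediateField.adjoin_toSubalgebra_of_isAlgebraic halg]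
      rw [Algebra.eq_top_iff]
      intro z
      have hz : z ∈ IntermediateField.adjoin k {x, y} := by
        rw [h.gen]
        exact IntermediateField.mem_top
      have hle : IntermediateField.adjoin k {x, y} ≤ (IntermediateField.adjoin (RatFunc k)
          (((X : (RatFunc k)[X]) ^ m - C r₀).rootSet L)).restrictScalars k := by
        rw [IntermediateField.adjoin_le_iff]
        rintro s (rfl | rfl)
        · have h1 := (IntermediateField.adjoin (RatFunc k)
            (((X : (RatFunc k)[X]) ^ m - C r₀).rootSet L)).algebraMap_mem RatFunc.X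
          rwa [hag, hgX] at h1
        · have h7 : s ∈ ((X : (RatFunc k)[X]) ^ m - C r₀).rootSet L := by
            refine mem_rootSet.2 ⟨hp0, ?_⟩
            rw [map_sub, map_pow, aeval_X, aeval_C, hag, hr₀, sub_self]
          exact IntermediateField.subset_adjoin (RatFunc k) _ h7
      exact hle hz
  have hcm : (m : RatFunc k) ≠ 0 := by
    have : CharZero (RatFunc k) := algebraRat.charZero _
    exact Nat.cast_ne_zero.2 (by omega)
  have hgal : IsGalois (RatFunc k) L := IsGalois.of_separable_splitting_field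
    (separable_X_pow_sub_C r₀ hcm hr₀0)
  have hfd : FiniteDimensional (RatFunc k) L :=
    IsSplittingField.finiteDimensional L ((X : (RatFunc k)[X]) ^ m - C r₀)
  -- the Galois group
  have hfix : ∀ (i : ℕ) (r : RatFunc k), (σ ^ i) (algebraMap (RatFunc k) L r) =
      algebraMap (RatFunc k) L r := fun i r => fix_adjoin (h.pow_act i).1 (hgmem r)
  let s : Fin m → (L ≃ₐ[RatFunc k] L) := fun i =>
    AlgEquiv.ofRingEquiv (f := (σ ^ (i : ℕ)).toRingEquiv) (hfix i)
  have hs : ∀ i, (s i).restrictScalars k = σ ^ (i : ℕ) := fun i => by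
    ext z
    rfl
  have hsbij : Function.Bijective s := by
    constructor
    · intro i j hij
      have h1 : (σ ^ (i : ℕ)) y = (σ ^ (j : ℕ)) y := by rw [← hs, ← hs, hij]
      rw [(h.pow_act _).2, (h.pow_act _).2] at h1
      exact Fin.ext (hζL.pow_inj i.2 j.2 (mul_right_cancel₀ hyne h1))
    · intro τ
      have h1 : (τ y / y) ^ m = 1 := by
        have h2 : τ y ^ m = y ^ m := by
          rw [← map_pow, ← hr₀, ← hag, τ.commutes]
        rw [div_pow, h2, div_self (pow_ne_zero _ hyne)]
      have : NeZero m := ⟨by omega⟩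
      obtain ⟨i, hi, hi'⟩ := hζL.eq_pow_of_pow_eq_one h1
      refine ⟨⟨i, hi⟩, ?_⟩
      have h4 : τ x = x := by
        have := τ.commutes RatFunc.X
        rwa [hag, hgX] at this
      have h5 : (σ ^ i) y = τ y := by
        rw [(h.pow_act i).2, hi', div_mul_cancel₀ _ hyne]
      have h6 := key ((σ ^ i : L ≃ₐ[k] L) : L →ₐ[k] L)
        ((τ.restrictScalars k : L ≃ₐ[k] L) : L →ₐ[k] L) (((h.pow_act i).1).trans h4.symm) h5
      ext z
      exact h6 z
  have hvan : ∀ {u : Place k L} {c : k}, u.At x c →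
      u.Vanishes (algebraMap (RatFunc k) L (RatFunc.X - RatFunc.C c)) := by
    intro u c hu
    rw [map_sub, ← RatFunc.algebraMap_eq_C, ← IsScalarTower.algebraMap_apply, hag, hgX]
    exact hu
  refine Submodule.subset_span ⟨L, _, _, _, hst, hfd, hgal, fun v _ => v, ?_, α, β, P, Q, hvan hP,
    hvan hQ, ?_⟩
  · intro _
    right
    refine ⟨AlgHom.id k L, fun v => ?_⟩
    ext z
    rw [ValuationSubring.mem_comap]
    rfl
  · rw [← hsbij.sum_comp]
    refine Finset.sum_congr rfl fun i _ => ?_
    rw [hs]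

/-- all orbits of the group of a cyclic covering of the line are rationally equivalent -/
theorem Cyclic.orbit {k : Type u} [Field k] [IsAlgClosed k] [CharZero k] {m : ℕ} {ζ : k}
    {J : Type} [Fintype J] {e : J → k} {a : J → ℕ} {L : Type u} [Field L] [Algebra k L]
    {σ : L ≃ₐ[k] L} {x y : L} (h : Cyclic m ζ e a σ x y) (hm : 1 < m)
    (hζ : IsPrimitiveRoot ζ m) (hsum : m ∣ ∑ j, a j) {R : Type w} [Field R] [CharZero R]
    (P Q : Place k L) :
    (∑ i : Fin m, (Finsupp.single (fun _ : Fin 1 => P.map (σ ^ (i : ℕ))) (1 : R) -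
      Finsupp.single (fun _ : Fin 1 => Q.map (σ ^ (i : ℕ))) 1)) ∈
      ratEquiv k (fun _ : Fin 1 => L) R := by
  obtain ⟨e', x', y', h', hr⟩ := h.change (by omega) hsum ![P, Q]
  obtain ⟨α, hα⟩ := h'.exists_at (by omega) (hr 0)
  obtain ⟨β, hβ⟩ := h'.exists_at (by omega) (hr 1)
  exact orbit_aux h' hm hζ hα hβ

end Pool.Agent.ZIso
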