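import Pool.Agent.ZIso.GroupAlg

/-!
# The group algebra of `μ_M ≀ S_r` and the zero-cycles on the powers of an isotrivial elliptic surface
-/

open Polynomial Pool.Agent.ZCyc

namespace Pool.Agent.ZIso

universe u w

variable {k : Type u} [Field k] [IsAlgClosed k] [CharZero k] {LE LC : Type u} [Field LE] [Field LC]
  [Algebra k LE] [Algebra k LC] {A B ζ : k} {M m d n r : ℕ} {σE : LE ≃ₐ[k] LE} {σC : LC ≃ₐ[k] LC}
  {X Y : LE} {x y : LC} {J : Type} [Fintype J] {e : J → k} {a : J → ℕ}

/-- The case of a field of coefficients which contains the roots of unity. -/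
theorem powers_closed {R : Type w} [Field R] [CharZero R] [IsAlgClosed R]
    (hE : Elliptic A B ζ σE X Y) (hM : M = 2 ∨ M = 4 ∨ M = 6) (hζ : IsPrimitiveRoot ζ M)
    (hd : d * m = M) (hm : 1 < m) (hC : Cyclic m (ζ ^ d) e a σC x y) (ha : ∀ j, a j < m)
    (hsum : ∑ j, a j = m * (n + 1)) {α : Equiv.Perm (Fin r) → (Fin r → Fin M) → ℚ}
    (hα : ∀ P : MvPolynomial (Fin r) k, (∀ i, P.degreeOf i < n) →
      ∑ τ, ∑ s, ((α τ s : k) * ζ ^ (∑ i, (s i : ℕ))) • MvPolynomial.rename τ P = 0)
    {z : Pts k LE LC (Fin r) (Fin r) →₀ R}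
    (hinv : ∀ i, z.mapDomain (diag σE σC d i) - z ∈ rat k LE LC (Fin r) (Fin r) R)
    (hproj : ∀ i : Fin r, z.mapDomain (reidx (others i) (others i)) ∈
      rat k LE LC {j // j ≠ i} {j // j ≠ i} R) :
    ∑ τ, ∑ s : Fin r → Fin M, (α τ s : R) • z.mapDomain (sact σE τ fun i => s i) ∈
      rat k LE LC (Fin r) (Fin r) R := by
  classical
  have hinv' : ∀ i, push (pres_diag σE σC d i) (cls z) = cls z := by
    intro i
    rw [push_cls, ← sub_eq_zero, ← cls_sub, cls_eq_zero]
    exact hinv i
  have hproj' : ∀ i : Fin r, push (pres_reidx (others i) (others i)) (cls z) = 0 := by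
    intro i
    rw [push_cls, cls_eq_zero]
    exact hproj i
  have main : ∑ τ, ∑ s : Fin r → Fin M,
      (α τ s : R) • push (pres_sact σE τ fun i => s i) (cls z) = 0 := by
    rcases Nat.eq_zero_or_pos r with rfl | hr
    · -- no factors
      have h1 : ∀ τ s, α τ s = 0 := by
        have h2 := hα 1 fun i => i.elim0
        intro τ s
        rw [Fintype.sum_unique, Fintype.sum_unique] at h2
        simp only [map_one, Finset.univ_eq_empty, Finset.sum_empty, pow_zero, mul_one] at h2
        rw [MvPolynomial.smul_eq_C_mul, mul_one, MvPolynomial.C_eq_zero, Rat.cast_eq_zero] at h2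
        rw [← h2]
        congr 1 <;> exact Subsingleton.elim _ _
      simp only [h1, Rat.cast_zero, zero_smul, Finset.sum_const_zero]
    have i₀ : Fin r := ⟨0, hr⟩
    rcases hM with rfl | rfl | rfl
    · have hm2 : m = 2 := by
        have h1 : m ∣ 2 := ⟨d, by rw [mul_comm, hd]⟩
        exact (Nat.prime_two.eq_one_or_self_of_dvd m h1).resolve_left hm.ne'
      subst hm2
      obtain rfl : d = 1 := by omega
      obtain rfl : ζ = -1 := hζ.eq_neg_one_of_two_right
      rw [pow_one] at hC
      obtain ⟨e', x', y', h'⟩ := hE.cyclic_four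
      exact group_two h' hC ha hsum hinv' hproj' hα
    · obtain ⟨x', y', h'⟩ := hE.four hζ
      have hω : ∃ ω : R, IsPrimitiveRoot ω 4 := HasEnoughRootsOfUnity.exists_primitiveRoot R 4
      obtain ⟨ω, hω⟩ := hω
      exact group_ell h' le_rfl rfl hζ hω hd hm hC ha hsum i₀ hinv' hproj' hα
    · obtain ⟨x', y', h'⟩ := hE.six hζ
      have hω : ∃ ω : R, IsPrimitiveRoot ω 6 := HasEnoughRootsOfUnity.exists_primitiveRoot R 6
      obtain ⟨ω, hω⟩ := hω
      exact group_ell h' zero_le_one rfl hζ hω hd hm hC ha hsum i₀ hinv' hproj' hα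
  rw [← cls_eq_zero, cls_sum, ← main]
  refine Finset.sum_congr rfl fun τ _ => ?_
  rw [cls_sum]
  rfl

/-- If `α` kills the holomorphic `2 r`-forms on `S ^ r` then it kills the zero-cycles on `S ^ r`
which are killed by the projections to `S ^ (r - 1)`. -/
theorem powers {R : Type w} [Field R] [CharZero R]
    (hE : Elliptic A B ζ σE X Y) (hM : M = 2 ∨ M = 4 ∨ M = 6) (hζ : IsPrimitiveRoot ζ M)
    (hd : d * m = M) (hm : 1 < m) (hC : Cyclic m (ζ ^ d) e a σC x y) (ha : ∀ j, a j < m)
    (hsum : ∑ j, a j = m * (n + 1)) {α : Equiv.Perm (Fin r) → (Fin r → Fin M) → ℚ}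
    (hα : ∀ P : MvPolynomial (Fin r) k, (∀ i, P.degreeOf i < n) →
      ∑ τ, ∑ s, ((α τ s : k) * ζ ^ (∑ i, (s i : ℕ))) • MvPolynomial.rename τ P = 0)
    {z : Pts k LE LC (Fin r) (Fin r) →₀ R}
    (hinv : ∀ i, z.mapDomain (diag σE σC d i) - z ∈ rat k LE LC (Fin r) (Fin r) R)
    (hproj : ∀ i : Fin r, z.mapDomain (reidx (others i) (others i)) ∈
      rat k LE LC {j // j ≠ i} {j // j ≠ i} R) :
    ∑ τ, ∑ s : Fin r → Fin M, (α τ s : R) • z.mapDomain (sact σE τ fun i => s i) ∈
      rat k LE LC (Fin r) (Fin r) R := by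
  apply rat_of_mapRange (K := AlgebraicClosure R)
  have hsub : ∀ u v : Pts k LE LC (Fin r) (Fin r) →₀ R,
      (u - v).mapRange (algebraMap R (AlgebraicClosure R)) (map_zero _) =
      u.mapRange (algebraMap R (AlgebraicClosure R)) (map_zero _) -
      v.mapRange (algebraMap R (AlgebraicClosure R)) (map_zero _) := by
    intro u v
    ext p
    simp
  have : CharZero (AlgebraicClosure R) := charZero_of_injective_algebraMap
    (algebraMap R (AlgebraicClosure R)).injective
  have h0 := powers_closed (R := AlgebraicClosure R) hE hM hζ hd hm hC ha hsum hα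
    (z := z.mapRange (algebraMap R (AlgebraicClosure R)) (map_zero _)) ?_ ?_
  · convert h0 using 1
    have h1 : ∀ f : Pts k LE LC (Fin r) (Fin r) →₀ R,
        f.mapRange (algebraMap R (AlgebraicClosure R)) (map_zero _) =
          Finsupp.mapRange.addMonoidHom (algebraMap R (AlgebraicClosure R)).toAddMonoidHom f :=
      fun f => rfl
    rw [h1, map_sum]
    refine Finset.sum_congr rfl fun τ _ => ?_
    rw [map_sum]
    refine Finset.sum_congr rfl fun s _ => ?_
    rw [← h1, Finsupp.mapDomain_mapRange _ _ _ _ (map_add _)]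
    ext p
    simp
  · intro i
    have h1 := rat_mapRange (K := AlgebraicClosure R) (hinv i)
    rw [hsub, ← Finsupp.mapDomain_mapRange _ _ _ _ (map_add _)] at h1
    exact h1
  · intro i
    have h1 := rat_mapRange (K := AlgebraicClosure R) (hproj i)
    rw [← Finsupp.mapDomain_mapRange _ _ _ _ (map_add _)] at h1
    exact h1

end Pool.Agent.ZIso
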