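import Pool.Agent.ZIso.Surf

/-!
# The Chow group of zero-cycles of `E ^ I × C ^ I'` and the maps induced by morphisms
-/

open Polynomial Pool.Agent.ZCyc

set_option linter.unusedSectionVars false

namespace Pool.Agent.ZIso

universe u w

section

variable (k : Type u) [Field k] (LE LC : Type u) [Field LE] [Field LC] [Algebra k LE] [Algebra k LC]
  (I I' : Type) (R : Type w) [Field R]

/-- The Chow group of zero-cycles of `E ^ I × C ^ I'`. -/
abbrev CH : Type (max u w) := (Pts k LE LC I I' →₀ R) ⧸ rat k LE LC I I' R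

end

section

variable {k : Type u} [Field k] {LE LC : Type u} [Field LE] [Field LC] [Algebra k LE] [Algebra k LC]
  {I I' K K' N N' : Type} {R : Type w} [Field R]

/-- Maps which preserve morphisms. -/
def Pres (g : Pts k LE LC I I' → Pts k LE LC K K') : Prop :=
  ∀ {F : Type u} [Field F] [Algebra k F] (φ : Place k F → Pts k LE LC I I'),
    Mor φ → Mor fun v => g (φ v)

theorem Pres.comp {g : Pts k LE LC K K' → Pts k LE LC N N'} {h : Pts k LE LC I I' → Pts k LE LC K K'}
    (hg : Pres g) (hh : Pres h) : Pres (g ∘ h) := fun φ hφ => hg (fun v => h (φ v)) (hh φ hφ)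

/-- The class of a cycle. -/
noncomputable def cls (z : Pts k LE LC I I' →₀ R) : CH k LE LC I I' R := Submodule.Quotient.mk z

theorem cls_eq_zero {z : Pts k LE LC I I' →₀ R} : cls z = 0 ↔ z ∈ rat k LE LC I I' R :=
  Submodule.Quotient.mk_eq_zero _

theorem cls_add (z z' : Pts k LE LC I I' →₀ R) : cls (z + z') = cls z + cls z' := rfl

theorem cls_sub (z z' : Pts k LE LC I I' →₀ R) : cls (z - z') = cls z - cls z' := rfl

theorem cls_neg (z : Pts k LE LC I I' →₀ R) : cls (-z) = -cls z := rfl

theorem cls_smul (c : R) (z : Pts k LE LC I I' →₀ R) : cls (c • z) = c • cls z := rfl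

theorem cls_zero : cls (0 : Pts k LE LC I I' →₀ R) = 0 := rfl

theorem cls_sum {α : Type*} (s : Finset α) (z : α → Pts k LE LC I I' →₀ R) :
    cls (∑ a ∈ s, z a) = ∑ a ∈ s, cls (z a) := by
  change (Submodule.mkQ _) _ = _
  rw [map_sum]
  rfl

theorem cls_surj (v : CH k LE LC I I' R) : ∃ z, cls z = v := Submodule.Quotient.mk_surjective _ v

/-- The map induced by a morphism. -/
noncomputable def push {g : Pts k LE LC I I' → Pts k LE LC K K'} (hg : Pres g) :
    CH k LE LC I I' R →ₗ[R] CH k LE LC K K' R :=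
  Submodule.mapQ _ _ (Finsupp.lmapDomain R R g) fun _ hz => rat_map (fun φ hφ => hg φ hφ) hz

theorem push_cls {g : Pts k LE LC I I' → Pts k LE LC K K'} (hg : Pres g)
    (z : Pts k LE LC I I' →₀ R) : push hg (cls z) = cls (z.mapDomain g) := rfl

theorem push_push {g : Pts k LE LC K K' → Pts k LE LC N N'} {h : Pts k LE LC I I' → Pts k LE LC K K'}
    (hg : Pres g) (hh : Pres h) (v : CH k LE LC I I' R) :
    push hg (push hh v) = push (hg.comp hh) v := by
  obtain ⟨z, rfl⟩ := cls_surj v
  rw [push_cls, push_cls, push_cls, Finsupp.mapDomain_comp]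

theorem push_congr {g g' : Pts k LE LC I I' → Pts k LE LC K K'} (hg : Pres g) (hg' : Pres g')
    (h : ∀ p, g p = g' p) (v : CH k LE LC I I' R) : push hg v = push hg' v := by
  obtain ⟨z, rfl⟩ := cls_surj v
  rw [push_cls, push_cls, show g = g' from funext h]

theorem push_comm {g : Pts k LE LC K K' → Pts k LE LC N N'} {h : Pts k LE LC I I' → Pts k LE LC K K'}
    {M M' : Type} {g' : Pts k LE LC M M' → Pts k LE LC N N'}
    {h' : Pts k LE LC I I' → Pts k LE LC M M'} (hg : Pres g) (hh : Pres h) (hg' : Pres g')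
    (hh' : Pres h') (H : ∀ p, g (h p) = g' (h' p)) (v : CH k LE LC I I' R) :
    push hg (push hh v) = push hg' (push hh' v) := by
  rw [push_push, push_push]
  exact push_congr _ _ H v

theorem push_id {g : Pts k LE LC I I' → Pts k LE LC I I'} (hg : Pres g)
    (h : ∀ p, g p = p) (v : CH k LE LC I I' R) : push hg v = v := by
  obtain ⟨z, rfl⟩ := cls_surj v
  rw [push_cls, show g = id from funext h, Finsupp.mapDomain_id]

/-- Linear maps agree if they agree on points. -/
theorem CH.hom_ext {V : Type*} [AddCommGroup V] [Module R V] {f g : CH k LE LC I I' R →ₗ[R] V}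
    (h : ∀ p, f (cls (Finsupp.single p 1)) = g (cls (Finsupp.single p 1))) (v : CH k LE LC I I' R) :
    f v = g v := by
  have : f = g := by
    apply Submodule.linearMap_qext
    apply Finsupp.lhom_ext'
    intro p
    apply LinearMap.ext_ring
    exact h p
  rw [this]

/-! ### The maps -/

section maps

variable [DecidableEq I] [DecidableEq I']

/-- the action of `σE ^ b` preserves morphisms -/
theorem pres_actE (σE : LE ≃ₐ[k] LE) (i₀ : I) (b : ℕ) :
    Pres (actE σE i₀ b : Pts k LE LC I I' → Pts k LE LC I I') :=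
  fun _ hφ => mor_actE hφ σE i₀ b

/-- the action of `σC ^ b` on one coordinate -/
def actK (σC : LC ≃ₐ[k] LC) (i₀ : I') (b : ℕ) (p : Pts k LE LC I I') : Pts k LE LC I I' :=
  (p.1, Function.update p.2 i₀ ((p.2 i₀).map (σC ^ b)))

theorem pres_actK (σC : LC ≃ₐ[k] LC) (i₀ : I') (b : ℕ) :
    Pres (actK σC i₀ b : Pts k LE LC I I' → Pts k LE LC I I') := by
  intro F _ _ φ hφ
  refine ⟨hφ.1, fun i => ?_⟩
  by_cases hi : i = i₀
  · subst hi
    have : (fun v => (actK σC i b (φ v)).2 i) = fun v => ((φ v).2 i).map (σC ^ b) := by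
      funext v
      simp [actK]
    rw [this]
    exact (hφ.2 i).map _
  · have : (fun v => (actK σC i₀ b (φ v)).2 i) = fun v => (φ v).2 i := by
      funext v
      simp [actK, hi]
    rw [this]
    exact hφ.2 i

/-- replace one coordinate in `E` by a fixed point -/
def setE (P₀ : Place k LE) (i₀ : I) (p : Pts k LE LC I I') : Pts k LE LC I I' :=
  (Function.update p.1 i₀ P₀, p.2)

theorem pres_setE (P₀ : Place k LE) (i₀ : I) :
    Pres (setE P₀ i₀ : Pts k LE LC I I' → Pts k LE LC I I') := by
  intro F _ _ φ hφ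
  refine ⟨fun i => ?_, hφ.2⟩
  by_cases hi : i = i₀
  · subst hi
    have : (fun v => (setE P₀ i (φ v)).1 i) = fun v => P₀ := by
      funext v
      simp [setE]
    rw [this]
    exact isComp_const _
  · have : (fun v => (setE P₀ i₀ (φ v)).1 i) = fun v => (φ v).1 i := by
      funext v
      simp [setE, hi]
    rw [this]
    exact hφ.1 i

/-- replace one coordinate in `C` by a fixed point -/
def setK (Q₀ : Place k LC) (i₀ : I') (p : Pts k LE LC I I') : Pts k LE LC I I' :=
  (p.1, Function.update p.2 i₀ Q₀)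

theorem pres_setK (Q₀ : Place k LC) (i₀ : I') :
    Pres (setK Q₀ i₀ : Pts k LE LC I I' → Pts k LE LC I I') := by
  intro F _ _ φ hφ
  refine ⟨hφ.1, fun i => ?_⟩
  by_cases hi : i = i₀
  · subst hi
    have : (fun v => (setK Q₀ i (φ v)).2 i) = fun v => Q₀ := by
      funext v
      simp [setK]
    rw [this]
    exact isComp_const _
  · have : (fun v => (setK Q₀ i₀ (φ v)).2 i) = fun v => (φ v).2 i := by
      funext v
      simp [setK, hi]
    rw [this]
    exact hφ.2 i

/-- reindexing of the coordinates -/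
def reidx (τ : K → I) (τ' : K' → I') (p : Pts k LE LC I I') : Pts k LE LC K K' :=
  (p.1 ∘ τ, p.2 ∘ τ')

theorem pres_reidx (τ : K → I) (τ' : K' → I') :
    Pres (reidx τ τ' : Pts k LE LC I I' → Pts k LE LC K K') :=
  fun _ hφ => ⟨fun i => hφ.1 (τ i), fun i => hφ.2 (τ' i)⟩

theorem pres_diag (σE : LE ≃ₐ[k] LE) (σC : LC ≃ₐ[k] LC) (d : ℕ) (i₀ : I) :
    Pres (diag σE σC d i₀ : Pts k LE LC I I → Pts k LE LC I I) := by
  intro F _ _ φ hφ
  constructor
  · intro i
    by_cases hi : i = i₀
    · subst hi
      have : (fun v => (diag σE σC d i (φ v)).1 i) = fun v => ((φ v).1 i).map (σE ^ d)⁻¹ := by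
        funext v
        simp [diag]
      rw [this]
      exact (hφ.1 i).map _
    · have : (fun v => (diag σE σC d i₀ (φ v)).1 i) = fun v => (φ v).1 i := by
        funext v
        simp [diag, hi]
      rw [this]
      exact hφ.1 i
  · intro i
    by_cases hi : i = i₀
    · subst hi
      have : (fun v => (diag σE σC d i (φ v)).2 i) = fun v => ((φ v).2 i).map σC := by
        funext v
        simp [diag]
      rw [this]
      exact (hφ.2 i).map _
    · have : (fun v => (diag σE σC d i₀ (φ v)).2 i) = fun v => (φ v).2 i := by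
        funext v
        simp [diag, hi]
      rw [this]
      exact hφ.2 i

end maps

/-- insert a coordinate -/
def ins {n : ℕ} (i : Fin (n + 1)) (P₀ : Place k LE) (Q₀ : Place k LC)
    (p : Pts k LE LC (Fin n) (Fin n)) : Pts k LE LC (Fin (n + 1)) (Fin (n + 1)) :=
  (i.insertNth P₀ p.1, i.insertNth Q₀ p.2)

theorem pres_ins {n : ℕ} (i : Fin (n + 1)) (P₀ : Place k LE) (Q₀ : Place k LC) :
    Pres (ins i P₀ Q₀ : Pts k LE LC (Fin n) (Fin n) → _) := by
  intro F _ _ φ hφ
  constructor
  · intro j
    rcases Fin.eq_self_or_eq_succAbove i j with rfl | ⟨j, rfl⟩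
    · have : (fun v => (ins j P₀ Q₀ (φ v)).1 j) = fun v => P₀ := by
        funext v
        simp [ins]
      rw [this]
      exact isComp_const _
    · have : (fun v => (ins i P₀ Q₀ (φ v)).1 (i.succAbove j)) = fun v => (φ v).1 j := by
        funext v
        simp [ins]
      rw [this]
      exact hφ.1 j
  · intro j
    rcases Fin.eq_self_or_eq_succAbove i j with rfl | ⟨j, rfl⟩
    · have : (fun v => (ins j P₀ Q₀ (φ v)).2 j) = fun v => Q₀ := by
        funext v
        simp [ins]
      rw [this]
      exact isComp_const _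
    · have : (fun v => (ins i P₀ Q₀ (φ v)).2 (i.succAbove j)) = fun v => (φ v).2 j := by
        funext v
        simp [ins]
      rw [this]
      exact hφ.2 j

end

end Pool.Agent.ZIso
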