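import Pool.Agent.ZIso.Quot
import Pool.Agent.ZIso.EllB
import Pool.Agent.ZIso.EllC
import Pool.Agent.ZIso.MainA
import Pool.Agent.ZIso.Orbit

/-!
# Relations between the operators
-/

open Polynomial Pool.Agent.ZCyc

set_option linter.unusedSectionVars false

namespace Pool.Agent.ZIso

universe u w

section

variable {k : Type u} [Field k] [IsAlgClosed k] [CharZero k] {LE LC : Type u} [Field LE] [Field LC]
  [Algebra k LE] [Algebra k LC] {I I' : Type} [DecidableEq I] [DecidableEq I'] {R : Type w}
  [Field R] [CharZero R]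

theorem mapDomain_sub' {α β : Type*} {R : Type*} [Ring R] (g : α → β) (a b : α →₀ R) :
    (a - b).mapDomain g = a.mapDomain g - b.mapDomain g := map_sub (Finsupp.lmapDomain R R g) a b

/-- insert a point of `E` -/
theorem isMorphism_updE (p : Pts k LE LC I I') (i : I) {F : Type u} [Field F] [Algebra k F]
    (φ : Place k F → Fin 1 → Place k LE) (hφ : IsMorphism φ) :
    Mor fun v => ((Function.update p.1 i (φ v 0), p.2) : Pts k LE LC I I') := by
  refine ⟨fun j => ?_, fun j => isComp_const _⟩
  by_cases hj : j = i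
  · subst hj
    have : (fun v => ((Function.update p.1 j (φ v 0), p.2) : Pts k LE LC I I').1 j) =
        fun v => φ v 0 := by
      funext v
      simp
    rw [this]
    exact hφ 0
  · have : (fun v => ((Function.update p.1 i (φ v 0), p.2) : Pts k LE LC I I').1 j) =
        fun v => p.1 j := by
      funext v
      simp [hj]
    rw [this]
    exact isComp_const _

/-- insert a point of `C` -/
theorem isMorphism_updC (p : Pts k LE LC I I') (i : I') {F : Type u} [Field F] [Algebra k F]
    (φ : Place k F → Fin 1 → Place k LC) (hφ : IsMorphism φ) :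
    Mor fun v => ((p.1, Function.update p.2 i (φ v 0)) : Pts k LE LC I I') := by
  refine ⟨fun j => isComp_const _, fun j => ?_⟩
  by_cases hj : j = i
  · subst hj
    have : (fun v => ((p.1, Function.update p.2 j (φ v 0)) : Pts k LE LC I I').2 j) =
        fun v => φ v 0 := by
      funext v
      simp
    rw [this]
    exact hφ 0
  · have : (fun v => ((p.1, Function.update p.2 i (φ v 0)) : Pts k LE LC I I').2 j) =
        fun v => p.2 j := by
      funext v
      simp [hj]
    rw [this]
    exact isComp_const _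

/-- The orbits of an automorphism of `E` over the line are rationally equivalent. -/
theorem orbitE {m : ℕ} {ζ : k} {J : Type} [Fintype J] {e : J → k} {a : J → ℕ} {s : LE ≃ₐ[k] LE}
    {x y : LE} (h : Cyclic m ζ e a s x y) (hm : 1 < m) (hζ : IsPrimitiveRoot ζ m)
    (hsum : m ∣ ∑ j, a j) (P₀ : Place k LE) (i : I) (v : CH k LE LC I I' R) :
    ∑ b : Fin m, push (pres_actE s i b) v =
      ∑ b : Fin m, push (pres_actE s i b) (push (pres_setE P₀ i) v) := by
  have key : ∀ p : Pts k LE LC I I',
      (∑ b : Fin m, push (pres_actE s i b) : CH k LE LC I I' R →ₗ[R] CH k LE LC I I' R)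
        (cls (Finsupp.single p 1)) =
      (∑ b : Fin m, (push (pres_actE s i b)).comp (push (pres_setE P₀ i)) :
        CH k LE LC I I' R →ₗ[R] CH k LE LC I I' R) (cls (Finsupp.single p 1)) := by
    intro p
    have h1 := Cyclic.orbit h hm hζ hsum (R := R) (p.1 i) P₀
    have h2 := rat_of_ratEquiv (LE := LE) (LC := LC) (I := I) (I' := I')
      (g := fun q : Fin 1 → Place k LE => ((Function.update p.1 i (q 0), p.2) : Pts k LE LC I I'))
      (fun φ hφ => isMorphism_updE p i φ hφ) h1
    rw [← cls_eq_zero, Finsupp.mapDomain_finsetSum, cls_sum] at h2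
    rw [LinearMap.sum_apply, LinearMap.sum_apply, ← sub_eq_zero, ← Finset.sum_sub_distrib, ← h2]
    refine Finset.sum_congr rfl fun b _ => ?_
    rw [LinearMap.comp_apply, push_cls, push_cls, push_cls, ← cls_sub]
    congr 1
    rw [mapDomain_sub', Finsupp.mapDomain_single, Finsupp.mapDomain_single, Finsupp.mapDomain_single,
      Finsupp.mapDomain_single, Finsupp.mapDomain_single]
    simp only [actE, setE, Function.update_self, Function.update_idem]
  have := CH.hom_ext key v
  rw [LinearMap.sum_apply, LinearMap.sum_apply] at this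
  exact this

/-- The orbits of an automorphism of `C` over the line are rationally equivalent. -/
theorem orbitK {m : ℕ} {ζ : k} {J : Type} [Fintype J] {e : J → k} {a : J → ℕ} {s : LC ≃ₐ[k] LC}
    {x y : LC} (h : Cyclic m ζ e a s x y) (hm : 1 < m) (hζ : IsPrimitiveRoot ζ m)
    (hsum : m ∣ ∑ j, a j) (Q₀ : Place k LC) (i : I') (v : CH k LE LC I I' R) :
    ∑ b : Fin m, push (pres_actK s i b) v =
      ∑ b : Fin m, push (pres_actK s i b) (push (pres_setK Q₀ i) v) := by
  have key : ∀ p : Pts k LE LC I I',
      (∑ b : Fin m, push (pres_actK s i b) : CH k LE LC I I' R →ₗ[R] CH k LE LC I I' R)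
        (cls (Finsupp.single p 1)) =
      (∑ b : Fin m, (push (pres_actK s i b)).comp (push (pres_setK Q₀ i)) :
        CH k LE LC I I' R →ₗ[R] CH k LE LC I I' R) (cls (Finsupp.single p 1)) := by
    intro p
    have h1 := Cyclic.orbit h hm hζ hsum (R := R) (p.2 i) Q₀
    have h2 := rat_of_ratEquiv (LE := LE) (LC := LC) (I := I) (I' := I')
      (g := fun q : Fin 1 → Place k LC => ((p.1, Function.update p.2 i (q 0)) : Pts k LE LC I I'))
      (fun φ hφ => isMorphism_updC p i φ hφ) h1
    rw [← cls_eq_zero, Finsupp.mapDomain_finsetSum, cls_sum] at h2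
    rw [LinearMap.sum_apply, LinearMap.sum_apply, ← sub_eq_zero, ← Finset.sum_sub_distrib, ← h2]
    refine Finset.sum_congr rfl fun b _ => ?_
    rw [LinearMap.comp_apply, push_cls, push_cls, push_cls, ← cls_sub]
    congr 1
    rw [mapDomain_sub', Finsupp.mapDomain_single, Finsupp.mapDomain_single, Finsupp.mapDomain_single,
      Finsupp.mapDomain_single, Finsupp.mapDomain_single]
    simp only [actK, setK, Function.update_self, Function.update_idem]
  have := CH.hom_ext key v
  rw [LinearMap.sum_apply, LinearMap.sum_apply] at this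
  exact this

section ell

variable {ε M : ℕ} {ζ : k} {σE : LE ≃ₐ[k] LE} {X Y : LE}

theorem actE_zero (s : LE ≃ₐ[k] LE) (i : I) (p : Pts k LE LC I I') : actE s i 0 p = p := by
  simp only [actE, pow_zero, Place.map_one, Function.update_eq_self]

theorem actE_pow (s : LE ≃ₐ[k] LE) (r : ℕ) (i : I) (b : ℕ) (p : Pts k LE LC I I') :
    actE (s ^ r) i b p = actE s i (r * b) p := by
  simp only [actE, pow_mul]

/-- `1 + s = 0` -/
theorem half' {s : LE ≃ₐ[k] LE} {e : Fin 4 → k} {x' y' : LE}
    (h : Cyclic 2 (-1) e (fun _ => 1) s x' y')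
    {P₀ : Place k LE} {i : I} {v : CH k LE LC I I' R} (hv : push (pres_setE P₀ i) v = 0) :
    push (pres_actE s i 1) v = -v := by
  have h1 := orbitE (R := R) (LC := LC) (I := I) (I' := I') h one_lt_two
    (IsPrimitiveRoot.neg_one 0 (by norm_num)) (by simp) P₀ i v
  rw [hv, Fin.sum_univ_two, Fin.sum_univ_two, map_zero, map_zero, add_zero,
    push_id _ fun p => actE_zero _ i p,
    push_congr _ (pres_actE s i 1) fun p => by simp] at h1
  exact (neg_eq_of_add_eq_zero_right h1).symm

/-- `1 + σ ^ (M / 2) = 0` -/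
theorem half (hE : Ell ε ζ σE X Y) (hε : ε ≤ 1) (hM : M + 2 * ε = 6) (hζ : IsPrimitiveRoot ζ M)
    {P₀ : Place k LE} {i : I} {v : CH k LE LC I I' R} (hv : push (pres_setE P₀ i) v = 0) :
    push (pres_actE σE i (M / 2)) v = -v := by
  obtain ⟨e, x', y', h⟩ := hE.cyclic_four hε hM hζ
  rw [← half' h hv]
  exact push_congr _ _ (fun p => by rw [actE_pow, mul_one]) v

/-- `1 + σ ^ 2 + σ ^ 4 = 0` if `M = 6` -/
theorem third (hE : Ell 0 ζ σE X Y) (hζ : IsPrimitiveRoot ζ 6)
    {P₀ : Place k LE} {i : I} {v : CH k LE LC I I' R} (hv : push (pres_setE P₀ i) v = 0) :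
    v + push (pres_actE σE i 2) v + push (pres_actE σE i 4) v = 0 := by
  obtain ⟨e, x', y', h⟩ := hE.cyclic_three hζ
  have h3 : IsPrimitiveRoot (ζ ^ 4) 3 := by
    have h2 : IsPrimitiveRoot (ζ ^ 2) 3 := hζ.pow (by norm_num) (by norm_num)
    have h4 := h2.pow_of_coprime 2 (by norm_num)
    rwa [← pow_mul] at h4
  have h1 := orbitE (R := R) (LC := LC) (I := I) (I' := I') h (by norm_num) h3 (by simp) P₀ i v
  rw [hv, Fin.sum_univ_three, Fin.sum_univ_three, map_zero, map_zero, map_zero, add_zero, add_zero,
    push_id _ fun p => actE_zero _ i p,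
    push_congr _ (pres_actE σE i 2) fun p => by
      rw [actE_pow]
      simp,
    push_congr (pres_actE (σE ^ 2) i _) (pres_actE σE i 4) fun p => by
      rw [actE_pow]
      simp] at h1
  exact h1

theorem root_six {ω : R} (hω : IsPrimitiveRoot ω 6) : ω + ω⁻¹ = 1 := by
  have h0 : ω ≠ 0 := hω.ne_zero (by norm_num)
  have h6 : ω ^ 6 = 1 := hω.pow_eq_one
  have h3 : ω ^ 3 = -1 := by
    have h1 : (ω ^ 3 - 1) * (ω ^ 3 + 1) = 0 := by linear_combination h6
    rcases mul_eq_zero.1 h1 with h2 | h2
    · exact absurd (sub_eq_zero.1 h2) (hω.pow_ne_one_of_pos_of_lt (by norm_num) (by norm_num))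
    · exact eq_neg_of_add_eq_zero_left h2
  have h2 : ω + 1 ≠ 0 := by
    intro h2
    have : ω = -1 := eq_neg_of_add_eq_zero_left h2
    refine hω.pow_ne_one_of_pos_of_lt (l := 2) (by norm_num) (by norm_num) ?_
    rw [this]
    norm_num
  have h1 : (ω + 1) * (ω ^ 2 - ω + 1) = 0 := by linear_combination h3
  have h4 : ω ^ 2 - ω + 1 = 0 := by
    rcases mul_eq_zero.1 h1 with h | h
    · exact absurd h h2
    · exact h
  field_simp
  linear_combination h4

theorem root_four {ω : R} (hω : IsPrimitiveRoot ω 4) : ω + ω⁻¹ = 0 := by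
  have h0 : ω ≠ 0 := hω.ne_zero (by norm_num)
  have h4 : ω ^ 4 = 1 := hω.pow_eq_one
  have h1 : (ω ^ 2 - 1) * (ω ^ 2 + 1) = 0 := by linear_combination h4
  have h2 : ω ^ 2 + 1 = 0 := by
    rcases mul_eq_zero.1 h1 with h | h
    · exact absurd (sub_eq_zero.1 h) (hω.pow_ne_one_of_pos_of_lt (by norm_num) (by norm_num))
    · exact h
  field_simp
  linear_combination h2

theorem actE_comp (s : LE ≃ₐ[k] LE) (i : I) (b c : ℕ) (v : CH k LE LC I I' R) :
    push (pres_actE s i b) (push (pres_actE s i c) v) = push (pres_actE s i (b + c)) v := by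
  rw [push_push]
  exact push_congr _ _ (fun p => actE_add s i b c p) v

/-- the quadratic equation of `σ` -/
theorem quad (hE : Ell ε ζ σE X Y) (hε : ε ≤ 1) (hM : M + 2 * ε = 6) (hζ : IsPrimitiveRoot ζ M)
    {ω : R} (hω : IsPrimitiveRoot ω M) {P₀ : Place k LE} {i : I} {v : CH k LE LC I I' R}
    (hv : push (pres_setE P₀ i) v = 0) :
    push (pres_actE σE i 2) v = (ω + ω⁻¹) • push (pres_actE σE i 1) v - v := by
  have h1 := half hE hε hM hζ hv
  interval_cases ε
  · obtain rfl : M = 6 := by omega
    have h2 := third hE hζ hv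
    rw [root_six hω, one_smul]
    have h3 : push (pres_actE σE i 4) v = -push (pres_actE σE i 1) v := by
      rw [← map_neg, ← h1, actE_comp]
    rw [h3] at h2
    have h4 : push (pres_actE σE i 2) v - (push (pres_actE σE i 1) v - v) =
        v + push (pres_actE σE i 2) v + -push (pres_actE σE i 1) v := by abel
    exact sub_eq_zero.1 (h4.trans h2)
  · obtain rfl : M = 4 := by omega
    rw [root_four hω, zero_smul, zero_sub]
    exact h1

/-- the first part of `swapE` -/
theorem isMorphism_upd2 (p : Pts k LE LC I I') {i j : I} (hij : i ≠ j) {F : Type u} [Field F]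
    [Algebra k F] (φ : Place k F → Fin 2 → Place k LE) (hφ : IsMorphism φ) :
    Mor fun v => ((Function.update (Function.update p.1 i (φ v 0)) j (φ v 1), p.2) :
      Pts k LE LC I I') := by
  refine ⟨fun l => ?_, fun l => isComp_const _⟩
  by_cases hj : l = j
  · subst hj
    have : (fun v => ((Function.update (Function.update p.1 i (φ v 0)) l (φ v 1), p.2) :
        Pts k LE LC I I').1 l) = fun v => φ v 1 := by
      funext v
      simp
    rw [this]
    exact hφ 1
  · by_cases hi : l = i
    · subst hi
      have : (fun v => ((Function.update (Function.update p.1 l (φ v 0)) j (φ v 1), p.2) :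
          Pts k LE LC I I').1 l) = fun v => φ v 0 := by
        funext v
        simp [hj]
      rw [this]
      exact hφ 0
    · have : (fun v => ((Function.update (Function.update p.1 i (φ v 0)) j (φ v 1), p.2) :
          Pts k LE LC I I').1 l) = fun v => p.1 l := by
        funext v
        simp [hj, hi]
      rw [this]
      exact isComp_const _

theorem sum_two {V : Type*} [AddCommMonoid V] (f : Equiv.Perm (Fin 2) → (Fin 2 → Fin 2) → V) :
    ∑ τ : Equiv.Perm (Fin 2), ∑ s : Fin 2 → Fin 2, f τ s =
      (f 1 ![0, 0] + f 1 ![0, 1] + (f 1 ![1, 0] + f 1 ![1, 1])) +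
      (f (Equiv.swap 0 1) ![0, 0] + f (Equiv.swap 0 1) ![0, 1] +
        (f (Equiv.swap 0 1) ![1, 0] + f (Equiv.swap 0 1) ![1, 1])) := by
  have h1 : (Finset.univ : Finset (Equiv.Perm (Fin 2))) = {1, Equiv.swap 0 1} := by decide
  have h2 : ∀ g : (Fin 2 → Fin 2) → V, ∑ s, g s =
      g ![0, 0] + g ![0, 1] + (g ![1, 0] + g ![1, 1]) := by
    intro g
    rw [← Fintype.sum_equiv (finTwoArrowEquiv (Fin 2)).symm (fun x => g ![x.1, x.2]) g
      (fun x => rfl), Fintype.sum_prod_type, Fin.sum_univ_two, Fin.sum_univ_two, Fin.sum_univ_two]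
  rw [h1, Finset.sum_pair (by decide), h2, h2]

theorem upd_eq (s : LE ≃ₐ[k] LE) {i j : I} (hij : i ≠ j) {p q : Pts k LE LC I I'} (h1 : q.2 = p.2)
    (h2 : ∀ l, l ≠ i → l ≠ j → q.1 l = p.1 l) (b c : ℕ) :
    ((Function.update (Function.update p.1 i ((q.1 i).map (s ^ b))) j ((q.1 j).map (s ^ c)), p.2) :
      Pts k LE LC I I') = actE s i b (actE s j c q) := by
  refine Prod.ext ?_ h1.symm
  funext l
  simp only [actE]
  by_cases hj : l = j
  · subst hj
    rw [Function.update_self, Function.update_of_ne hij.symm, Function.update_self]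
  · rw [Function.update_of_ne hj]
    by_cases hi : l = i
    · subst hi
      rw [Function.update_self, Function.update_self, Function.update_of_ne hj]
    · rw [Function.update_of_ne hi, Function.update_of_ne hi, Function.update_of_ne hj, h2 l hi hj]

/-- exchange of two coordinates in `E` -/
theorem swap_rel {s : LE ≃ₐ[k] LE} {e : Fin 4 → k} {x' y' : LE}
    (h : Cyclic 2 (-1) e (fun _ => 1) s x' y') {i j : I} (hij : i ≠ j) (v : CH k LE LC I I' R) :
    ∀ (A : CH k LE LC I I' R →ₗ[R] CH k LE LC I I' R)
      (_ : A = push (pres_actE s i 1)) (B : CH k LE LC I I' R →ₗ[R] CH k LE LC I I' R)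
      (_ : B = push (pres_actE s j 1)) (S : CH k LE LC I I' R →ₗ[R] CH k LE LC I I' R)
      (_ : S = push (pres_reidx (Equiv.swap i j) id)),
    (v - B v + (A (B v) - A v)) + (S v - B (S v) + (A (B (S v)) - A (S v))) = 0 := by
  rintro A hA B hB S hS
  have key : ∀ p : Pts k LE LC I I',
      ((1 - B + (A * B - A)) + (S - B * S + (A * B * S - A * S)) :
        Module.End R (CH k LE LC I I' R)) (cls (Finsupp.single p 1)) =
      (0 : Module.End R (CH k LE LC I I' R)) (cls (Finsupp.single p 1)) := by
    intro p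
    have h1 := Cyclic.main (R := R) (C' := Fin 2) h one_lt_two (IsPrimitiveRoot.neg_one 0 (by norm_num))
      (IsPrimitiveRoot.neg_one 0 (by norm_num)) (b := ![0, 0, 1, 1]) (by decide)
      (by decide) (n := 2) (by simp) ![p.1 i, p.1 j]
    have h2 := rat_of_ratEquiv (LE := LE) (LC := LC) (I := I) (I' := I')
      (g := fun q : Fin 2 → Place k LE =>
        ((Function.update (Function.update p.1 i (q 0)) j (q 1), p.2) : Pts k LE LC I I'))
      (fun φ hφ => isMorphism_upd2 p hij φ hφ) h1
    rw [op, Finsupp.linearCombination_single, one_smul, sum_two, ← cls_eq_zero] at h2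
    simp only [Finsupp.mapDomain_add, cls_add, Finsupp.mapDomain_single] at h2
    set q : Pts k LE LC I I' := reidx (Equiv.swap i j) id p with hq
    have hqi : q.1 i = p.1 j := by simp [hq, reidx]
    have hqj : q.1 j = p.1 i := by simp [hq, reidx]
    have t1 := fun b c => upd_eq s hij (p := p) (q := p) rfl (fun _ _ _ => rfl) b c
    have t2 := fun b c => upd_eq s hij (p := p) (q := q) rfl
      (fun l hi hj => by simp [hq, reidx, Equiv.swap_apply_of_ne_of_ne hi hj]) b c
    rw [hqi, hqj] at t2
    simp only [Equiv.Perm.coe_one, id_eq, Equiv.swap_apply_left, Equiv.swap_apply_right,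
      Matrix.cons_val_zero, Matrix.cons_val_one, t1, t2, Fin.sum_univ_two, Fin.val_zero,
      Fin.val_one, actE_zero] at h2
    norm_num [cls_neg] at h2
    rw [LinearMap.zero_apply, ← h2]
    simp only [LinearMap.add_apply, LinearMap.sub_apply, Module.End.mul_apply,
      Module.End.one_apply, hA, hB, hS, push_cls, Finsupp.mapDomain_single, ← hq]
    abel
  have := CH.hom_ext key v
  exact this

/-- The exchange of two coordinates in `E` is multiplication by `-1`. -/
theorem swap_neg {s : LE ≃ₐ[k] LE} {e : Fin 4 → k} {x' y' : LE}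
    (h : Cyclic 2 (-1) e (fun _ => 1) s x' y') {P₀ : Place k LE} {v : CH k LE LC I I' R}
    (hv : ∀ i : I, push (pres_setE P₀ i) v = 0) {i j : I} (hij : i ≠ j) :
    push (pres_reidx (Equiv.swap i j) id) v = -v := by
  set S := push (k := k) (LE := LE) (LC := LC) (I := I) (I' := I') (K := I) (K' := I') (R := R)
    (pres_reidx (Equiv.swap i j) id) with hS
  have h1 := swap_rel h hij v _ rfl _ rfl _ rfl
  have hSi : push (pres_setE P₀ i) (S v) = 0 := by
    rw [hS, push_comm (pres_setE P₀ i) (pres_reidx (Equiv.swap i j) id)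
      (pres_reidx (Equiv.swap i j) id) (pres_setE P₀ j) (fun p => ?_), hv j, map_zero]
    refine Prod.ext ?_ rfl
    funext l
    simp only [setE, reidx, Function.comp_apply]
    by_cases hl : l = i
    · subst hl
      rw [Function.update_self, Equiv.swap_apply_left, Function.update_self]
    · have h3 : Equiv.swap i j l ≠ j := by
        intro h3
        rw [Equiv.swap_apply_eq_iff, Equiv.swap_apply_right] at h3
        exact hl h3
      rw [Function.update_of_ne hl, Function.update_of_ne h3]
      rfl
  have hSj : push (pres_setE P₀ j) (S v) = 0 := by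
    rw [hS, push_comm (pres_setE P₀ j) (pres_reidx (Equiv.swap i j) id)
      (pres_reidx (Equiv.swap i j) id) (pres_setE P₀ i) (fun p => ?_), hv i, map_zero]
    refine Prod.ext ?_ rfl
    funext l
    simp only [setE, reidx, Function.comp_apply]
    by_cases hl : l = j
    · subst hl
      rw [Function.update_self, Equiv.swap_apply_right, Function.update_self]
    · have h3 : Equiv.swap i j l ≠ i := by
        intro h3
        rw [Equiv.swap_apply_eq_iff, Equiv.swap_apply_left] at h3
        exact hl h3
      rw [Function.update_of_ne hl, Function.update_of_ne h3]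
      rfl
  rw [← hS, half' h (hv i), half' h (hv j), map_neg, half' h (hv i), half' h hSi, half' h hSj,
    map_neg, half' h hSi] at h1
  have h2 : (4 : R) • (v + S v) = 0 := by
    rw [← h1]
    module
  rcases smul_eq_zero.1 h2 with h3 | h3
  · exact absurd h3 (by norm_num)
  · exact eq_neg_of_add_eq_zero_right h3

/-- Permutations of the coordinates in `E` act by the sign. -/
theorem perm_sign [Fintype I] {s : LE ≃ₐ[k] LE} {e : Fin 4 → k} {x' y' : LE}
    (h : Cyclic 2 (-1) e (fun _ => 1) s x' y') {P₀ : Place k LE} {v : CH k LE LC I I' R}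
    (hv : ∀ i : I, push (pres_setE P₀ i) v = 0) (τ : Equiv.Perm I) :
    push (pres_reidx τ id) v = ((Equiv.Perm.sign τ : ℤ) : R) • v := by
  induction τ using Equiv.Perm.swap_induction_on with
  | one =>
    rw [Equiv.Perm.sign_one, Units.val_one, Int.cast_one, one_smul]
    exact push_id _ (fun p => rfl) v
  | swap_mul f i j hij ih =>
    have h1 : push (pres_reidx (Equiv.swap i j * f) id) v =
        push (pres_reidx f id) (push (pres_reidx (Equiv.swap i j) id) v) := by
      rw [push_push]
      exact push_congr _ _ (fun p => rfl) v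
    rw [h1, swap_neg h hv hij, map_neg, ih, Equiv.Perm.sign_mul,
      Equiv.Perm.sign_swap hij]
    push_cast
    module

end ell

end

end Pool.Agent.ZIso
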