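import Pool.Agent.ZIso.OpA

/-!
# Powers of the surface `S = (E × C) / μ_m`

We consider zero-cycles on `(E × C) ^ I`. The group generated by the automorphisms `diag i` acts on
`(E × C) ^ I`, and the quotient is `S ^ I`, where `S` is the quotient of `E × C` by the group
generated by `(σE ^ (-d), σC)`.
-/

open Polynomial Pool.Agent.ZCyc

namespace Pool.Agent.ZIso

universe u w

section

variable {k : Type u} [Field k] {LE LC : Type u} [Field LE] [Field LC] [Algebra k LE] [Algebra k LC]
  {I K : Type}

/-- The automorphism `(σE ^ (-d), σC)` of the `i`-th factor of `(E × C) ^ I`. -/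
def diag [DecidableEq I] (σE : LE ≃ₐ[k] LE) (σC : LC ≃ₐ[k] LC) (d : ℕ) (i : I)
    (p : Pts k LE LC I I) : Pts k LE LC I I :=
  (Function.update p.1 i ((p.1 i).map (σE ^ d)⁻¹), Function.update p.2 i ((p.2 i).map σC))

/-- The map `(E × C) ^ I → (E × C) ^ K` given by a map `τ : K → I` (for example a permutation of the
factors, or a projection). -/
def pull (τ : K → I) (p : Pts k LE LC I I) : Pts k LE LC K K := (p.1 ∘ τ, p.2 ∘ τ)

/-- The exterior product of zero-cycles `a i` on `E × C`. -/
noncomputable def ext {R : Type w} [Field R] {l : ℕ} (a : Fin l → Pts k LE LC (Fin 1) (Fin 1) →₀ R) :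
    Pts k LE LC (Fin l) (Fin l) →₀ R :=
  ∑ q ∈ Fintype.piFinset fun i => (a i).support,
    Finsupp.single ((fun i => (q i).1 0, fun i => (q i).2 0) : Pts k LE LC (Fin l) (Fin l))
      (∏ i, a i (q i))

end

end Pool.Agent.ZIso
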