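import Pool.Agent.ZIso.End

/-!
# The symmetriser of some of the coordinates in `C`
-/

open Polynomial Pool.Agent.ZCyc

set_option linter.unusedSectionVars false

namespace Pool.Agent.ZIso

universe u w

section

variable {k : Type u} [Field k] [IsAlgClosed k] [CharZero k] {LE LC : Type u} [Field LE] [Field LC]
  [Algebra k LE] [Algebra k LC] {I I' : Type} [DecidableEq I] [DecidableEq I'] {R : Type w}
  [Field R] [CharZero R]

/-- the inclusion of the indices different from `i` -/
abbrev others (i : I) : {j : I // j ≠ i} → I := Subtype.val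

/-- insert a constant coordinate -/
def insAt (i : I) (P₀ : Place k LE) (Q₀ : Place k LC)
    (p : Pts k LE LC {j : I // j ≠ i} {j : I // j ≠ i}) : Pts k LE LC I I :=
  (fun j => if h : j ≠ i then p.1 ⟨j, h⟩ else P₀, fun j => if h : j ≠ i then p.2 ⟨j, h⟩ else Q₀)

theorem pres_insAt (i : I) (P₀ : Place k LE) (Q₀ : Place k LC) :
    Pres (insAt i P₀ Q₀ : Pts k LE LC {j : I // j ≠ i} {j : I // j ≠ i} → _) := by
  intro F _ _ φ hφ
  constructor
  · intro j
    by_cases h : j ≠ i
    · have : (fun v => (insAt i P₀ Q₀ (φ v)).1 j) = fun v => (φ v).1 ⟨j, h⟩ := by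
        funext v
        simp only [insAt]
        rw [dif_pos h]
      rw [this]
      exact hφ.1 _
    · have : (fun v => (insAt i P₀ Q₀ (φ v)).1 j) = fun v => P₀ := by
        funext v
        simp only [insAt]
        rw [dif_neg h]
      rw [this]
      exact isComp_const _
  · intro j
    by_cases h : j ≠ i
    · have : (fun v => (insAt i P₀ Q₀ (φ v)).2 j) = fun v => (φ v).2 ⟨j, h⟩ := by
        funext v
        simp only [insAt]
        rw [dif_pos h]
      rw [this]
      exact hφ.2 _
    · have : (fun v => (insAt i P₀ Q₀ (φ v)).2 j) = fun v => Q₀ := by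
        funext v
        simp only [insAt]
        rw [dif_neg h]
      rw [this]
      exact isComp_const _

/-- The classes become zero if a coordinate in `E` is replaced by a constant. -/
theorem setE_zero' {σE : LE ≃ₐ[k] LE} {σC : LC ≃ₐ[k] LC} {d m : ℕ} {ζ : k} (hm : 1 < m)
    (hζ : IsPrimitiveRoot ζ m) {x y : LC} {J : Type} [Fintype J] {e : J → k} {a : J → ℕ}
    (hC : Cyclic m ζ e a σC x y) (hsum : m ∣ ∑ j, a j) (P₀ : Place k LE)
    {v : CH k LE LC I I R} {i : I} (hinv : push (pres_diag σE σC d i) v = v)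
    (hproj : push (pres_reidx (others i) (others i)) v = 0) :
    push (pres_setE P₀ i) v = 0 := by
  obtain ⟨Q₀, -⟩ := exists_place hC.transc (0 : k)
  set u := push (pres_setE P₀ i) v with hu
  have hu1 : push (pres_actK σC i 1) u = (1 : R) • u := by
    rw [hu, push_comm (pres_actK σC i 1) (pres_setE P₀ i) (pres_setE P₀ i) (pres_actK σC i 1)
      (fun p => rfl), actK_eq_actE hinv, setE_actE_self, one_smul]
  have hu2 : ∀ b : ℕ, push (pres_actK σC i b) u = u := by
    intro b
    rw [actK_eigen hu1, one_pow, one_smul]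
  have hu3 : push (pres_setK Q₀ i) u = 0 := by
    have h3 : push (pres_setK Q₀ i) u = push (pres_insAt i P₀ Q₀)
        (push (pres_reidx (others i) (others i)) v) := by
      rw [hu]
      refine push_comm _ _ _ _ (fun p => ?_) v
      simp only [setK, setE, insAt, reidx, Function.comp_apply]
      refine Prod.ext ?_ ?_
      · funext j
        simp only
        by_cases h : j = i
        · subst h
          rw [Function.update_self, dif_neg (by simp)]
        · rw [Function.update_of_ne h, dif_pos h]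
      · funext j
        simp only
        by_cases h : j = i
        · subst h
          rw [Function.update_self, dif_neg (by simp)]
        · rw [Function.update_of_ne h, dif_pos h]
    rw [h3, hproj, map_zero]
  have h3 := orbitK hC hm hζ hsum Q₀ i u
  simp only [hu2, hu3, map_zero, Finset.sum_const, Finset.card_univ, Fintype.card_fin,
    smul_zero] at h3
  rw [← Nat.cast_smul_eq_nsmul R] at h3
  rcases smul_eq_zero.1 h3 with h4 | h4
  · exact absurd h4 (Nat.cast_ne_zero.2 (by omega))
  · exact h4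

/-! ### Some of the coordinates in `C` -/

variable {n : ℕ} {J' : Finset I'}

/-- replace the coordinates in `J'` -/
def fill (ι : Fin n ≃ {x // x ∈ J'}) (p : Pts k LE LC I I') (q : Pts k LE LC I (Fin n)) :
    Pts k LE LC I I' :=
  (q.1, fun l => if h : l ∈ J' then q.2 (ι.symm ⟨l, h⟩) else p.2 l)

theorem pres_fill (ι : Fin n ≃ {x // x ∈ J'}) (p : Pts k LE LC I I') : Pres (fill ι p) := by
  intro F _ _ φ hφ
  refine ⟨hφ.1, fun l => ?_⟩
  by_cases h : l ∈ J'
  · have : (fun v => (fill ι p (φ v)).2 l) = fun v => (φ v).2 (ι.symm ⟨l, h⟩) := by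
      funext v
      simp only [fill]
      rw [dif_pos h]
    rw [this]
    exact hφ.2 _
  · have : (fun v => (fill ι p (φ v)).2 l) = fun v => p.2 l := by
      funext v
      simp only [fill]
      rw [dif_neg h]
    rw [this]
    exact isComp_const _

/-- act on the coordinates in `J'` -/
def actJ (σC : LC ≃ₐ[k] LC) (ι : Fin n ≃ {x // x ∈ J'}) (τ : Equiv.Perm (Fin n)) (s : Fin n → ℕ)
    (p : Pts k LE LC I I') : Pts k LE LC I I' :=
  (p.1, fun l => if h : l ∈ J' then (p.2 (ι (τ (ι.symm ⟨l, h⟩)))).map (σC ^ s (ι.symm ⟨l, h⟩))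
    else p.2 l)

theorem pres_actJ (σC : LC ≃ₐ[k] LC) (ι : Fin n ≃ {x // x ∈ J'}) (τ : Equiv.Perm (Fin n))
    (s : Fin n → ℕ) : Pres (actJ σC ι τ s : Pts k LE LC I I' → _) := by
  intro F _ _ φ hφ
  refine ⟨hφ.1, fun l => ?_⟩
  by_cases h : l ∈ J'
  · have : (fun v => (actJ σC ι τ s (φ v)).2 l) = fun v =>
        ((φ v).2 (ι (τ (ι.symm ⟨l, h⟩)))).map (σC ^ s (ι.symm ⟨l, h⟩)) := by
      funext v
      simp only [actJ]
      rw [dif_pos h]
    rw [this]
    exact (hφ.2 _).map _
  · have : (fun v => (actJ σC ι τ s (φ v)).2 l) = fun v => (φ v).2 l := by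
      funext v
      simp only [actJ]
      rw [dif_neg h]
    rw [this]
    exact hφ.2 l

theorem fill_actC (σC : LC ≃ₐ[k] LC) (ι : Fin n ≃ {x // x ∈ J'}) (τ : Equiv.Perm (Fin n))
    (s : Fin n → ℕ) (p : Pts k LE LC I I') :
    fill ι p (actC σC τ s (p.1, fun l => p.2 (ι l))) = actJ σC ι τ s p := rfl

theorem fill_actE (σE : LE ≃ₐ[k] LE) (i₀ : I) (b : ℕ) (ι : Fin n ≃ {x // x ∈ J'})
    (p : Pts k LE LC I I') (q : Pts k LE LC I (Fin n)) :
    fill ι p (actE σE i₀ b q) = actE σE i₀ b (fill ι p q) := rfl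

theorem actJ_eigen {σC : LC ≃ₐ[k] LC} {c : R} {v : CH k LE LC I I' R}
    (ι : Fin n ≃ {x // x ∈ J'}) (h : ∀ l ∈ J', push (pres_actK σC l 1) v = c • v)
    (τ : Equiv.Perm (Fin n)) (s : Fin n → ℕ) :
    push (pres_actJ σC ι τ s) v =
      c ^ (∑ l, s l) • push (pres_reidx id (τ.extendDomain ι)) v := by
  -- the powers of `σC` first
  have key : ∀ (S : Finset (Fin n)) (s : Fin n → ℕ), (∀ l ∉ S, s l = 0) →
      push (pres_actJ σC ι 1 s) v = c ^ (∑ l, s l) • v := by
    intro S
    induction S using Finset.induction_on with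
    | empty =>
      intro s hs
      rw [Finset.sum_eq_zero fun l _ => hs l (Finset.notMem_empty l), pow_zero, one_smul]
      refine push_id _ (fun p => ?_) v
      refine Prod.ext rfl ?_
      funext l
      simp only [actJ]
      split_ifs with hl
      · rw [hs _ (Finset.notMem_empty _), pow_zero, Place.map_one, Equiv.Perm.coe_one, id_eq,
          Equiv.apply_symm_apply]
      · rfl
    | insert l₀ S hl₀ ih =>
      intro s hs
      have h1 : push (pres_actJ σC ι 1 s) v = push (pres_actK σC (ι l₀ : I') (s l₀))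
          (push (pres_actJ σC ι 1 (Function.update s l₀ 0)) v) := by
        rw [push_push]
        refine push_congr _ _ (fun p => ?_) v
        refine Prod.ext rfl ?_
        funext l
        simp only [Function.comp_apply, actJ, actK, Equiv.Perm.coe_one, id_eq]
        by_cases hl : l = ι l₀
        · subst hl
          have h2 : ι.symm ⟨(ι l₀ : I'), (ι l₀).2⟩ = l₀ := by simp
          rw [Function.update_self, dif_pos (ι l₀).2, dif_pos (ι l₀).2, h2, Function.update_self,
            pow_zero, Place.map_one]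
        · rw [Function.update_of_ne hl]
          split_ifs with hlJ
          · rw [Function.update_of_ne]
            intro h2
            apply hl
            rw [← h2, Equiv.apply_symm_apply]
          · rfl
      rw [h1, ih (Function.update s l₀ 0) fun l hl => ?_, map_smul, actK_eigen (h _ (ι l₀).2),
        smul_smul, ← pow_add]
      · congr 2
        rw [Finset.sum_update_of_mem (Finset.mem_univ _), zero_add,
          ← Finset.sum_sdiff (Finset.subset_univ {l₀}), Finset.sum_singleton]
      · by_cases hll : l = l₀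
        · rw [hll, Function.update_self]
        · rw [Function.update_of_ne hll]
          apply hs
          rw [Finset.mem_insert]
          push Not
          exact ⟨hll, hl⟩
  have h2 : push (pres_actJ σC ι τ s) v = push (pres_reidx id (τ.extendDomain ι))
      (push (pres_actJ σC ι 1 (s ∘ ⇑τ⁻¹)) v) := by
    rw [push_push]
    refine push_congr _ _ (fun p => ?_) v
    refine Prod.ext rfl ?_
    funext l
    simp only [Function.comp_apply, actJ, reidx]
    by_cases hl : l ∈ J'
    · have h3 : τ.extendDomain ι l = ι (τ (ι.symm ⟨l, hl⟩)) :=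
        Equiv.Perm.extendDomain_apply_subtype _ _ hl
      rw [dif_pos hl, h3, dif_pos (ι (τ (ι.symm ⟨l, hl⟩))).2]
      simp
    · rw [dif_neg hl, Equiv.Perm.extendDomain_apply_not_subtype _ _ hl, dif_neg hl]
  rw [h2, key Finset.univ _ fun l hl => absurd (Finset.mem_univ l) hl, map_smul]
  congr 2
  exact Equiv.sum_comp τ⁻¹ s

section ell

variable {ε M m d : ℕ} {ζ : k} {ω : R} {σE : LE ≃ₐ[k] LE} {σC : LC ≃ₐ[k] LC} {X Y : LE}
  {x y : LC} {J : Type} [Fintype J] [DecidableEq J] {e : J → k} {a : J → ℕ}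

/-- the symmetriser is zero -/
theorem symJ (hE : Ell ε ζ σE X Y) (hε : ε ≤ 1) (hM : M + 2 * ε = 6) (hζ : IsPrimitiveRoot ζ M)
    (hω : IsPrimitiveRoot ω M) (hd : d * m = M) (hm : 1 < m)
    (hC : Cyclic m (ζ ^ d) e a σC x y) (ha : ∀ j, a j < m) (hsum : ∑ j, a j = m * n)
    (ι : Fin n ≃ {x // x ∈ J'}) {v : CH k LE LC I I' R} {i₀ : I}
    (h1 : push (pres_actE σE i₀ 1) v = ω • v)
    (h2 : ∀ l, push (pres_actK σC l 1) v = ω ^ d • v) :
    ∑ τ : Equiv.Perm (Fin n), push (pres_reidx id (τ.extendDomain ι)) v = 0 := by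
  have hM0 : 0 < M := by omega
  have hω0 : ω ≠ 0 := hω.ne_zero hM0.ne'
  have key : ∀ p : Pts k LE LC I I',
      (∑ b : Fin M, ω⁻¹ ^ (b : ℕ) • (push (pres_actE σE i₀ b)).comp
        (∑ τ : Equiv.Perm (Fin n), ∑ s : Fin n → Fin m, (ω⁻¹ ^ d) ^ (∑ l, (s l : ℕ)) •
          push (pres_actJ σC ι τ fun l => s l)) :
        CH k LE LC I I' R →ₗ[R] CH k LE LC I I' R) (cls (Finsupp.single p 1)) =
      (0 : CH k LE LC I I' R →ₗ[R] CH k LE LC I I' R) (cls (Finsupp.single p 1)) := by
    intro p
    have h3 := main hE hε hM hζ hω.inv hd hm hC ha hsum (p.1, fun l => p.2 (ι l)) i₀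
    have h4 := rat_map (fun φ hφ => pres_fill ι p φ hφ) h3
    have h5 : ∀ z : Pts k LE LC I (Fin n) →₀ R,
        (opE (Fin n) σE M ω⁻¹ i₀ z).mapDomain (fill ι p) =
          opE I' σE M ω⁻¹ i₀ (z.mapDomain (fill ι p)) := by
      intro z
      rw [opE_apply, opE_apply, Finsupp.mapDomain_finsetSum]
      refine Finset.sum_congr rfl fun b _ => ?_
      rw [Finsupp.mapDomain_smul, ← Finsupp.mapDomain_comp, ← Finsupp.mapDomain_comp]
      rfl
    rw [h5, ← cls_eq_zero, cls_opE] at h4
    rw [LinearMap.zero_apply, ← h4]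
    simp only [opC_apply, Finsupp.mapDomain_finsetSum, Finsupp.mapDomain_smul,
      Finsupp.mapDomain_single, fill_actC, cls_sum, cls_smul, LinearMap.sum_apply,
      LinearMap.smul_apply, LinearMap.comp_apply, push_cls]
  have h3 := CH.hom_ext key v
  have h4 : ∀ (τ : Equiv.Perm (Fin n)) (s : Fin n → Fin m),
      (ω⁻¹ ^ d) ^ (∑ l, (s l : ℕ)) • push (pres_actJ σC ι τ fun l => (s l : ℕ)) v =
        push (pres_reidx id (τ.extendDomain ι)) v := by
    intro τ s
    rw [actJ_eigen ι (fun l _ => h2 l), smul_smul, ← mul_pow, ← mul_pow, inv_mul_cancel₀ hω0,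
      one_pow, one_pow, one_smul]
  have h5 : ∀ (b : ℕ) (τ : Equiv.Perm (Fin n)),
      push (pres_actE σE i₀ b) (push (pres_reidx id (τ.extendDomain ι)) v) =
        ω ^ b • push (pres_reidx id (τ.extendDomain ι)) v := by
    intro b τ
    rw [push_comm (pres_actE σE i₀ b) (pres_reidx id (τ.extendDomain ι))
      (pres_reidx id (τ.extendDomain ι)) (pres_actE σE i₀ b) (fun p => rfl), actE_eigen h1,
      map_smul]
  simp only [LinearMap.sum_apply, LinearMap.smul_apply, LinearMap.comp_apply, h4,
    LinearMap.zero_apply, Finset.sum_const, Finset.card_univ, map_sum, map_nsmul, h5] at h3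
  have hm0 : NeZero m := ⟨by omega⟩
  have h6 : (M * Fintype.card (Fin n → Fin m) : R) •
      ∑ τ : Equiv.Perm (Fin n), push (pres_reidx id (τ.extendDomain ι)) v = 0 := by
    rw [← h3]
    have h7 : ∀ b : Fin M, ω⁻¹ ^ (b : ℕ) • ∑ τ : Equiv.Perm (Fin n),
        Fintype.card (Fin n → Fin m) • ω ^ (b : ℕ) •
          push (pres_reidx id (τ.extendDomain ι)) v =
        (Fintype.card (Fin n → Fin m) : R) • ∑ τ : Equiv.Perm (Fin n),
          push (pres_reidx id (τ.extendDomain ι)) v := by
      intro b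
      rw [Finset.smul_sum, Finset.smul_sum]
      refine Finset.sum_congr rfl fun τ _ => ?_
      rw [← Nat.cast_smul_eq_nsmul R, smul_comm, smul_smul (ω⁻¹ ^ (b : ℕ)), ← mul_pow,
        inv_mul_cancel₀ hω0, one_pow, one_smul]
    rw [Finset.sum_congr rfl fun b _ => h7 b, Finset.sum_const, Finset.card_univ, Fintype.card_fin,
      ← Nat.cast_smul_eq_nsmul R, smul_smul]
  rcases smul_eq_zero.1 h6 with h8 | h8
  · exact absurd h8 (mul_ne_zero (Nat.cast_ne_zero.2 hM0.ne')
      (Nat.cast_ne_zero.2 Fintype.card_ne_zero))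
  · exact h8

/-- the symmetriser is zero, `M = 2` -/
theorem symJ_two (hC : Cyclic 2 (-1) e a σC x y) (ha : ∀ j, a j < 2) (hsum : ∑ j, a j = 2 * n)
    (ι : Fin n ≃ {x // x ∈ J'}) {v : CH k LE LC I I' R}
    (h2 : ∀ l, push (pres_actK σC l 1) v = (-1 : R) • v) :
    ∑ τ : Equiv.Perm (Fin n), push (pres_reidx id (τ.extendDomain ι)) v = 0 := by
  have hneg : IsPrimitiveRoot (-1 : k) 2 := IsPrimitiveRoot.neg_one 0 (by norm_num)
  have hnegR : IsPrimitiveRoot (-1 : R) 2 := IsPrimitiveRoot.neg_one 0 (by norm_num)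
  -- the blocks
  have ha1 : ∀ j, a j = 1 := by
    intro j
    have h4 := hC.ndvd j
    have h5 := ha j
    have h6 : a j ≠ 0 := fun h6 => h4 (h6 ▸ dvd_zero _)
    omega
  have hcard : Fintype.card J = Fintype.card (Fin n × Fin 2) := by
    simp only [ha1, Finset.sum_const, Finset.card_univ, smul_eq_mul, mul_one] at hsum
    rw [hsum, Fintype.card_prod, Fintype.card_fin, Fintype.card_fin, mul_comm]
  let f := Fintype.equivOfCardEq hcard
  have hblock : ∀ B : Fin n, 2 ∣ ∑ j with (f j).1 = B, a j := by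
    intro B
    have h4 : ∑ j with (f j).1 = B, a j = 2 := by
      rw [Finset.sum_congr rfl fun j _ => ha1 j, Finset.sum_filter,
        Fintype.sum_equiv f _ (fun q : Fin n × Fin 2 => if q.1 = B then 1 else 0)
          (fun j => rfl), Fintype.sum_prod_type, Finset.sum_eq_single B]
      · simp
      · intro C _ hC
        simp [hC]
      · intro hB
        exact absurd (Finset.mem_univ B) hB
    rw [h4]
  have key : ∀ p : Pts k LE LC I I',
      (∑ τ : Equiv.Perm (Fin n), ∑ s : Fin n → Fin 2, (-1 : R) ^ (∑ l, (s l : ℕ)) •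
          push (pres_actJ σC ι τ fun l => s l) :
        CH k LE LC I I' R →ₗ[R] CH k LE LC I I' R) (cls (Finsupp.single p 1)) =
      (0 : CH k LE LC I I' R →ₗ[R] CH k LE LC I I' R) (cls (Finsupp.single p 1)) := by
    intro p
    have h3 : opC I σC 2 (-1) n (Finsupp.single (p.1, fun l => p.2 (ι l)) 1) ∈
        rat k LE LC I (Fin n) R := by
      rw [opC_single]
      refine rat_of_ratEquiv (L := fun _ : Fin n => LC)
        (g := fun q => ((p.1, q) : Pts k LE LC I (Fin n)))
        (fun φ hφ => ⟨fun i => isComp_const _, fun i => hφ i⟩) ?_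
      refine Cyclic.main hC one_lt_two hneg hnegR (b := fun j => (f j).1) (fun B => ?_) hblock ?_
        (fun l => p.2 (ι l))
      · exact ⟨f.symm (B, 0), by simp⟩
      · rw [hcard, Fintype.card_prod, Fintype.card_fin, Fintype.card_fin]
        omega
    have h4 := rat_map (fun φ hφ => pres_fill ι p φ hφ) h3
    rw [← cls_eq_zero] at h4
    rw [LinearMap.zero_apply, ← h4]
    simp only [opC_apply, Finsupp.mapDomain_finsetSum, Finsupp.mapDomain_smul,
      Finsupp.mapDomain_single, fill_actC, cls_sum, cls_smul, LinearMap.sum_apply,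
      LinearMap.smul_apply, push_cls]
  have h3 := CH.hom_ext key v
  have h4 : ∀ (τ : Equiv.Perm (Fin n)) (s : Fin n → Fin 2),
      (-1 : R) ^ (∑ l, (s l : ℕ)) • push (pres_actJ σC ι τ fun l => (s l : ℕ)) v =
        push (pres_reidx id (τ.extendDomain ι)) v := by
    intro τ s
    rw [actJ_eigen ι (fun l _ => h2 l), smul_smul, ← mul_pow, neg_one_mul, neg_neg, one_pow,
      one_smul]
  simp only [LinearMap.sum_apply, LinearMap.smul_apply, h4,
    LinearMap.zero_apply, Finset.sum_const, Finset.card_univ] at h3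
  rw [← Finset.smul_sum, ← Nat.cast_smul_eq_nsmul R] at h3
  rcases smul_eq_zero.1 h3 with h8 | h8
  · exact absurd h8 (Nat.cast_ne_zero.2 Fintype.card_ne_zero)
  · exact h8

end ell

end

end Pool.Agent.ZIso
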